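import Pool.Agent.Lib.MP_c14890_al.Defs

set_option autoImplicit false

open scoped TensorProduct

namespace WHI

variable {k H : Type} [Field k] [Ring H] [Algebra k H] (W : WeakHopf k H)

theorem WeakHopf.A1_one_mul (h : H) : W.Δ 1 * W.Δ h = W.Δ h := by
  rw [← W.Δ_mul, one_mul]

theorem WeakHopf.A1_mul_one (h : H) : W.Δ h * W.Δ 1 = W.Δ h := by
  rw [← W.Δ_mul, mul_one]

theorem WeakHopf.A1_εt_apply (x : H) : W.εt x
    = TensorProduct.lid k H (TensorProduct.map (W.ε ∘ₗ LinearMap.mulRight k x)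
        LinearMap.id (W.Δ 1)) := by
  rw [← W.anti₁]; rfl

theorem WeakHopf.A1_εs_apply (x : H) : W.εs x
    = TensorProduct.rid k H (TensorProduct.map LinearMap.id
        (W.ε ∘ₗ LinearMap.mulLeft k x) (W.Δ 1)) := by
  rw [← W.anti₂]; rfl

/-- `assoc` is multiplicative. -/
theorem A1_assoc_mul (x y : (H ⊗[k] H) ⊗[k] H) :
    TensorProduct.assoc k H H H (x * y)
      = TensorProduct.assoc k H H H x * TensorProduct.assoc k H H H y :=
  map_mul (Algebra.TensorProduct.assoc k k k H H H) x y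

theorem WeakHopf.A1_rTensor_mul (z : H ⊗[k] H) (h : H) :
    LinearMap.rTensor H W.Δ (z * (h ⊗ₜ[k] (1 : H)))
      = LinearMap.rTensor H W.Δ z * (W.Δ h ⊗ₜ[k] (1 : H)) := by
  induction z using TensorProduct.induction_on with
  | zero => simp
  | tmul a b => simp [W.Δ_mul]
  | add x y hx hy => simp only [add_mul, map_add, hx, hy]

theorem WeakHopf.A1_rTensor_mul' (z : H ⊗[k] H) (h : H) :
    LinearMap.rTensor H W.Δ ((h ⊗ₜ[k] (1 : H)) * z)
      = (W.Δ h ⊗ₜ[k] (1 : H)) * LinearMap.rTensor H W.Δ z := by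
  induction z using TensorProduct.induction_on with
  | zero => simp
  | tmul a b => simp [W.Δ_mul]
  | add x y hx hy => simp only [mul_add, map_add, hx, hy]

/-- `a ⊗ (b ⊗ c) ↦ a ⊗ ε(b) f(c)`. -/
noncomputable def A1_L (ε : H →ₗ[k] k) (f : H →ₗ[k] H) : H ⊗[k] (H ⊗[k] H) →ₗ[k] H ⊗[k] H :=
  LinearMap.lTensor H ((TensorProduct.lid k H).toLinearMap ∘ₗ TensorProduct.map ε f)

theorem WeakHopf.A1_L_assoc (f : H →ₗ[k] H) (z : H ⊗[k] H) :
    A1_L W.ε f (TensorProduct.assoc k H H H (LinearMap.rTensor H W.Δ z))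
      = LinearMap.lTensor H f z := by
  induction z using TensorProduct.induction_on with
  | zero => simp
  | tmul a b =>
    have key : ∀ w : H ⊗[k] H, A1_L W.ε f (TensorProduct.assoc k H H H (w ⊗ₜ[k] b))
        = (TensorProduct.rid k H (LinearMap.lTensor H W.ε w)) ⊗ₜ[k] f b := by
      intro w
      induction w using TensorProduct.induction_on with
      | zero => simp
      | tmul p q =>
        simp [A1_L, TensorProduct.smul_tmul]
      | add x y hx hy => simp only [map_add, TensorProduct.add_tmul, hx, hy]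
    rw [LinearMap.rTensor_tmul, key, W.lTensor_counit]
    simp
  | add x y hx hy => simp only [map_add, hx, hy]

/-- `h₁ ⊗ ε_t(h₂) = 1₁ h ⊗ 1₂`. -/
theorem WeakHopf.lTensor_εt (h : H) :
    LinearMap.lTensor H W.εt (W.Δ h) = W.Δ 1 * (h ⊗ₜ[k] (1 : H)) := by
  have key : ∀ D : H ⊗[k] H,
      A1_L W.ε LinearMap.id (((1 : H) ⊗ₜ[k] W.Δ 1)
        * TensorProduct.assoc k H H H (D ⊗ₜ[k] (1 : H))) = LinearMap.lTensor H W.εt D := by
    intro D
    induction D using TensorProduct.induction_on with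
    | zero => simp
    | tmul p q =>
      rw [LinearMap.lTensor_tmul, W.A1_εt_apply]
      generalize W.Δ 1 = E
      induction E using TensorProduct.induction_on with
      | zero => simp
      | tmul u v => simp [A1_L]
      | add x y hx hy => simp only [map_add, TensorProduct.tmul_add, add_mul, hx, hy]
    | add x y hx hy => simp only [map_add, TensorProduct.add_tmul, mul_add, hx, hy]
  have h1 := W.A1_L_assoc LinearMap.id (W.Δ 1 * (h ⊗ₜ[k] (1 : H)))
  rw [W.A1_rTensor_mul, A1_assoc_mul, W.Δ_one', mul_assoc, ← A1_assoc_mul,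
    Algebra.TensorProduct.tmul_mul_tmul, W.A1_one_mul, mul_one, key, LinearMap.lTensor_id] at h1
  simpa using h1

/-- `q ↦ E₁ ε(q E₂)`. -/
noncomputable def A1_sE (ε : H →ₗ[k] k) (E : H ⊗[k] H) : H →ₗ[k] H :=
  (TensorProduct.rid k H).toLinearMap ∘ₗ LinearMap.lTensor H ε ∘ₗ LinearMap.mulRight k E
    ∘ₗ TensorProduct.mk k H H 1

theorem A1_sE_tmul (ε : H →ₗ[k] k) (u v q : H) : A1_sE ε (u ⊗ₜ[k] v) q = ε (q * v) • u := by
  simp [A1_sE]

theorem A1_sE_add (ε : H →ₗ[k] k) (E E' : H ⊗[k] H) :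
    A1_sE ε (E + E') = A1_sE ε E + A1_sE ε E' := by
  ext q; simp [A1_sE, mul_add]

theorem A1_sE_zero (ε : H →ₗ[k] k) : A1_sE ε (0 : H ⊗[k] H) = 0 := by
  ext q; simp [A1_sE]

theorem WeakHopf.A1_εs_eq : W.εs = A1_sE W.ε (W.Δ 1) := by
  ext q
  rw [W.A1_εs_apply]
  generalize W.Δ 1 = E
  induction E using TensorProduct.induction_on with
  | zero => simp [A1_sE_zero]
  | tmul u v => simp [A1_sE_tmul]
  | add x y hx hy => simp only [map_add, A1_sE_add, hx, hy, LinearMap.add_apply]

/-- `ε(x b₁) ε_s(b₂) = ε_s(x b)`. -/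
theorem WeakHopf.A1_ε_εs (x b : H) :
    TensorProduct.lid k H (TensorProduct.map (W.ε ∘ₗ LinearMap.mulLeft k x) W.εs (W.Δ b))
      = W.εs (x * b) := by
  rw [W.A1_εs_eq]
  generalize W.Δ 1 = E
  induction E using TensorProduct.induction_on with
  | zero => simp [A1_sE_zero]
  | tmul u v =>
    rw [A1_sE_tmul, W.ε_mul]
    generalize W.Δ b = D
    induction D using TensorProduct.induction_on with
    | zero => simp
    | tmul p q => simp [A1_sE_tmul, mul_smul, smul_comm (W.ε (q * v))]
    | add x y hx hy => simp only [map_add, hx, hy, add_smul]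
  | add x y hx hy =>
    rw [A1_sE_add, TensorProduct.map_add_right, LinearMap.add_apply, map_add, hx, hy,
      LinearMap.add_apply]

/-- `h₁ ⊗ ε_s(h₂) = h 1₁ ⊗ ε_s(1₂)`. -/
theorem WeakHopf.lTensor_εs' (h : H) :
    LinearMap.lTensor H W.εs (W.Δ h) = (h ⊗ₜ[k] (1 : H)) * LinearMap.lTensor H W.εs (W.Δ 1) := by
  have key : ∀ D z : H ⊗[k] H,
      A1_L W.ε W.εs (TensorProduct.assoc k H H H (D ⊗ₜ[k] (1 : H))
        * LinearMap.lTensor H W.Δ z) = LinearMap.lTensor H W.εs (D * z) := by
    intro D z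
    induction D using TensorProduct.induction_on with
    | zero => simp
    | tmul p q =>
      induction z using TensorProduct.induction_on with
      | zero => simp
      | tmul a b =>
        rw [Algebra.TensorProduct.tmul_mul_tmul, LinearMap.lTensor_tmul, LinearMap.lTensor_tmul,
          ← W.A1_ε_εs]
        generalize W.Δ b = z
        induction z using TensorProduct.induction_on with
        | zero => simp
        | tmul u v => simp [A1_L]
        | add x y hx hy => simp only [map_add, TensorProduct.tmul_add, mul_add, hx, hy]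
      | add x y hx hy => simp only [map_add, mul_add, hx, hy]
    | add x y hx hy => simp only [map_add, TensorProduct.add_tmul, add_mul, hx, hy]
  have h1 := W.A1_L_assoc W.εs ((h ⊗ₜ[k] (1 : H)) * W.Δ 1)
  rw [W.A1_rTensor_mul', A1_assoc_mul, W.coassoc, key, W.A1_mul_one] at h1
  rw [h1]
  generalize W.Δ 1 = E
  induction E using TensorProduct.induction_on with
  | zero => simp
  | tmul u v => simp
  | add x y hx hy => simp only [map_add, mul_add, hx, hy]

end WHI
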