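import Pool.Agent.Lib.MP_c14890_al.A1

set_option autoImplicit false

open scoped TensorProduct

namespace WHI

variable {k H : Type} [Field k] [Ring H] [Algebra k H] (W : WeakHopf k H)

/-- `S(x₁) ε_t(x₂) = S(x)`. -/
theorem WeakHopf.A2_S_εt (x : H) :
    LinearMap.mul' k H (TensorProduct.map W.S W.εt (W.Δ x)) = W.S x := by
  rw [← W.anti₃]
  have key1 : ∀ z : H ⊗[k] H, LinearMap.mul' k H (TensorProduct.map W.S W.εt z)
      = LinearMap.mul' k H (TensorProduct.map W.S (LinearMap.mul' k H ∘ₗ
          TensorProduct.map LinearMap.id W.S) (LinearMap.lTensor H W.Δ z)) := by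
    intro z
    induction z using TensorProduct.induction_on with
    | zero => simp
    | tmul a b => simp [WeakHopf.εt]
    | add x y hx hy => simp only [map_add, hx, hy]
  have key2 : ∀ z : (H ⊗[k] H) ⊗[k] H,
      LinearMap.mul' k H (TensorProduct.map W.S (LinearMap.mul' k H ∘ₗ
          TensorProduct.map LinearMap.id W.S) (TensorProduct.assoc k H H H z))
      = LinearMap.mul' k H (TensorProduct.map (LinearMap.mul' k H ∘ₗ
      TensorProduct.map W.S LinearMap.id) W.S z) := by
    intro z
    induction z using TensorProduct.induction_on with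
    | zero => simp
    | tmul w b =>
      induction w using TensorProduct.induction_on with
      | zero => simp
      | tmul p q => simp [mul_assoc]
      | add x y hx hy => simp only [map_add, TensorProduct.add_tmul, hx, hy]
    | add x y hx hy => simp only [map_add, hx, hy]
  rw [key1, ← W.coassoc, key2]

/-- `1₁ ⊗ S(1₂) = 1₁ ⊗ ε_s(1₂)`. -/
theorem WeakHopf.lTensor_S_one :
    LinearMap.lTensor H W.S (W.Δ 1) = LinearMap.lTensor H W.εs (W.Δ 1) := by
  have key0 : ∀ z : H ⊗[k] H, LinearMap.lTensor H W.S z
      = LinearMap.lTensor H (LinearMap.mul' k H ∘ₗ TensorProduct.map W.S W.εt)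
          (LinearMap.lTensor H W.Δ z) := by
    intro z
    induction z using TensorProduct.induction_on with
    | zero => simp
    | tmul a b => simp [W.A2_S_εt]
    | add x y hx hy => simp only [map_add, hx, hy]
  have key1 : ∀ z : H ⊗[k] H, LinearMap.lTensor H W.εs z
      = LinearMap.lTensor H (LinearMap.mul' k H ∘ₗ TensorProduct.map W.S LinearMap.id)
          (LinearMap.lTensor H W.Δ z) := by
    intro z
    induction z using TensorProduct.induction_on with
    | zero => simp
    | tmul a b => simp [WeakHopf.εs]
    | add x y hx hy => simp only [map_add, hx, hy]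
  have key2 : ∀ z y : H ⊗[k] H,
      LinearMap.lTensor H (LinearMap.mul' k H ∘ₗ TensorProduct.map W.S W.εt)
        (TensorProduct.assoc k H H H (z ⊗ₜ[k] (1 : H)) * ((1 : H) ⊗ₜ[k] y))
      = LinearMap.lTensor H (LinearMap.mul' k H ∘ₗ TensorProduct.map W.S LinearMap.id)
        (TensorProduct.assoc k H H H (z ⊗ₜ[k] (1 : H))
          * ((1 : H) ⊗ₜ[k] LinearMap.lTensor H W.εt y)) := by
    intro z y
    induction z using TensorProduct.induction_on with
    | zero => simp
    | tmul a b =>
      induction y using TensorProduct.induction_on with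
      | zero => simp
      | tmul u v => simp
      | add x y hx hy => simp only [map_add, TensorProduct.tmul_add, mul_add, hx, hy]
    | add x y hx hy => simp only [map_add, TensorProduct.add_tmul, add_mul, hx, hy]
  rw [key0, key1, ← W.coassoc, W.Δ_one, key2, W.lTensor_εt]
  congr 4
  exact mul_one _

/-- `h₁ ⊗ ε_s(h₂) = h 1₁ ⊗ S(1₂)`. -/
theorem WeakHopf.lTensor_εs (h : H) :
    LinearMap.lTensor H W.εs (W.Δ h) = (h ⊗ₜ[k] (1 : H)) * LinearMap.lTensor H W.S (W.Δ 1) := by
  rw [W.lTensor_S_one, W.lTensor_εs']

end WHI
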