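import Pool.Agent.Lib.MP_c14890_al.Defs

set_option autoImplicit false

open scoped TensorProduct

namespace WHI

variable {k H : Type} [Field k] [Ring H] [Algebra k H] (W : WeakHopf k H)

theorem WeakHopf.A3_one_mul (h : H) : W.Δ 1 * W.Δ h = W.Δ h := by
  rw [← W.Δ_mul, one_mul]

theorem WeakHopf.A3_mul_one (h : H) : W.Δ h * W.Δ 1 = W.Δ h := by
  rw [← W.Δ_mul, mul_one]

/-- `x ↦ ε(E₁ x) E₂`. -/
noncomputable def A3_tE (ε : H →ₗ[k] k) (E : H ⊗[k] H) : H →ₗ[k] H :=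
  (TensorProduct.lid k H).toLinearMap ∘ₗ LinearMap.rTensor H ε ∘ₗ LinearMap.mulLeft k E
    ∘ₗ (TensorProduct.mk k H H).flip 1

theorem A3_tE_tmul (ε : H →ₗ[k] k) (u v q : H) : A3_tE ε (u ⊗ₜ[k] v) q = ε (u * q) • v := by
  simp [A3_tE]

theorem A3_tE_add (ε : H →ₗ[k] k) (E E' : H ⊗[k] H) :
    A3_tE ε (E + E') = A3_tE ε E + A3_tE ε E' := by
  ext q; simp [A3_tE, add_mul]

theorem A3_tE_zero (ε : H →ₗ[k] k) : A3_tE ε (0 : H ⊗[k] H) = 0 := by
  ext q; simp [A3_tE]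

theorem WeakHopf.A3_εt_eq : W.εt = A3_tE W.ε (W.Δ 1) := by
  ext q
  have h : W.εt q = TensorProduct.lid k H (TensorProduct.map (W.ε ∘ₗ LinearMap.mulRight k q)
        LinearMap.id (W.Δ 1)) := by
    rw [← W.anti₁]; rfl
  rw [h]
  generalize W.Δ 1 = E
  induction E using TensorProduct.induction_on with
  | zero => simp [A3_tE_zero]
  | tmul u v => simp [A3_tE_tmul]
  | add x y hx hy => simp only [map_add, A3_tE_add, hx, hy, LinearMap.add_apply]

/-- `ε(w ε_t(y)) = ε(w y)`. -/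
theorem WeakHopf.A3_ε_mul_εt (w y : H) : W.ε (w * W.εt y) = W.ε (w * y) := by
  have h := W.ε_mul' w 1 y
  rw [mul_one] at h
  rw [h, W.A3_εt_eq]
  generalize W.Δ 1 = E
  induction E using TensorProduct.induction_on with
  | zero => simp [A3_tE_zero]
  | tmul u v => simp [A3_tE_tmul, mul_comm]
  | add x y hx hy => simp only [map_add, A3_tE_add, mul_add, hx, hy, LinearMap.add_apply]

/-- `ε_t(x ε_t(y)) = ε_t(x y)`. -/
theorem WeakHopf.εt_mul_εt (x y : H) : W.εt (x * W.εt y) = W.εt (x * y) := by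
  have key : ∀ E : H ⊗[k] H, A3_tE W.ε E (x * W.εt y) = A3_tE W.ε E (x * y) := by
    intro E
    induction E using TensorProduct.induction_on with
    | zero => simp [A3_tE_zero]
    | tmul u v => rw [A3_tE_tmul, A3_tE_tmul, ← mul_assoc, W.A3_ε_mul_εt, mul_assoc]
    | add x y hx hy => simp only [A3_tE_add, hx, hy, LinearMap.add_apply]
  have h1 : W.εt (x * W.εt y) = A3_tE W.ε (W.Δ 1) (x * W.εt y) := by rw [← W.A3_εt_eq]
  have h2 : W.εt (x * y) = A3_tE W.ε (W.Δ 1) (x * y) := by rw [← W.A3_εt_eq]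
  rw [h1, h2, key]

/-- `Δ(ε_t(y)) = Δ(1) (ε_t(y) ⊗ 1)`. -/
theorem WeakHopf.A3_Δ_εt (y : H) : W.Δ (W.εt y) = W.Δ 1 * (W.εt y ⊗ₜ[k] (1 : H)) := by
  have key1 : ∀ E : H ⊗[k] H, W.Δ (A3_tE W.ε E y)
      = TensorProduct.lid k (H ⊗[k] H) (TensorProduct.map (W.ε ∘ₗ LinearMap.mulRight k y)
          LinearMap.id (LinearMap.lTensor H W.Δ E)) := by
    intro E
    induction E using TensorProduct.induction_on with
    | zero => simp [A3_tE_zero]
    | tmul u v => simp [A3_tE_tmul]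
    | add x y hx hy => simp only [A3_tE_add, map_add, hx, hy, LinearMap.add_apply]
  have key2 : ∀ w E : H ⊗[k] H,
      TensorProduct.lid k (H ⊗[k] H) (TensorProduct.map (W.ε ∘ₗ LinearMap.mulRight k y)
          LinearMap.id (((1 : H) ⊗ₜ[k] w) * TensorProduct.assoc k H H H (E ⊗ₜ[k] (1 : H))))
        = w * (A3_tE W.ε E y ⊗ₜ[k] (1 : H)) := by
    intro w E
    induction E using TensorProduct.induction_on with
    | zero => simp [A3_tE_zero]
    | tmul u v =>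
      simp [A3_tE_tmul, ← TensorProduct.smul_tmul']
    | add x y hx hy =>
      simp only [A3_tE_add, map_add, hx, hy, LinearMap.add_apply, TensorProduct.add_tmul, mul_add]
  rw [W.A3_εt_eq, key1, ← W.coassoc, W.Δ_one', key2, ← W.A3_εt_eq]

/-- `Δ(x ε_t(y)) = Δ(x) (ε_t(y) ⊗ 1)`. -/
theorem WeakHopf.Δ_mul_εt (x y : H) :
    W.Δ (x * W.εt y) = W.Δ x * (W.εt y ⊗ₜ[k] (1 : H)) := by
  rw [W.Δ_mul, W.A3_Δ_εt, ← mul_assoc, W.A3_mul_one]

/-- `ε_t(x y) = x₁ ε_t(y) S(x₂)`. -/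
theorem WeakHopf.εt_mul (x y : H) : W.εt (x * y) = LinearMap.mul' k H
    (TensorProduct.map (LinearMap.mulRight k (W.εt y)) W.S (W.Δ x)) := by
  rw [← W.εt_mul_εt]
  have h : W.εt (x * W.εt y) = LinearMap.mul' k H (TensorProduct.map LinearMap.id W.S
      (W.Δ (x * W.εt y))) := rfl
  rw [h, W.Δ_mul_εt]
  generalize W.Δ x = D
  induction D using TensorProduct.induction_on with
  | zero => simp
  | tmul u v => simp
  | add x y hx hy => simp only [map_add, add_mul, hx, hy]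

end WHI
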