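import Pool.Agent.Lib.MP_c14890_al.Defs

set_option autoImplicit false

open scoped TensorProduct

namespace WHI

variable {k H : Type} [Field k] [Ring H] [Algebra k H] (W : WeakHopf k H)

theorem WeakHopf.A4_one_mul (h : H) : W.Δ 1 * W.Δ h = W.Δ h := by
  rw [← W.Δ_mul, one_mul]

/-- `q ↦ E₁ ε(q E₂)`. -/
noncomputable def A4_sE (ε : H →ₗ[k] k) (E : H ⊗[k] H) : H →ₗ[k] H :=
  (TensorProduct.rid k H).toLinearMap ∘ₗ LinearMap.lTensor H ε ∘ₗ LinearMap.mulRight k E
    ∘ₗ TensorProduct.mk k H H 1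

theorem A4_sE_tmul (ε : H →ₗ[k] k) (u v q : H) : A4_sE ε (u ⊗ₜ[k] v) q = ε (q * v) • u := by
  simp [A4_sE]

theorem A4_sE_add (ε : H →ₗ[k] k) (E E' : H ⊗[k] H) :
    A4_sE ε (E + E') = A4_sE ε E + A4_sE ε E' := by
  ext q; simp [A4_sE, mul_add]

theorem A4_sE_zero (ε : H →ₗ[k] k) : A4_sE ε (0 : H ⊗[k] H) = 0 := by
  ext q; simp [A4_sE]

theorem WeakHopf.A4_εs_eq : W.εs = A4_sE W.ε (W.Δ 1) := by
  ext q
  have h : W.εs q = TensorProduct.rid k H (TensorProduct.map LinearMap.id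
        (W.ε ∘ₗ LinearMap.mulLeft k q) (W.Δ 1)) := by
    rw [← W.anti₂]; rfl
  rw [h]
  generalize W.Δ 1 = E
  induction E using TensorProduct.induction_on with
  | zero => simp [A4_sE_zero]
  | tmul u v => simp [A4_sE_tmul]
  | add x y hx hy => simp only [map_add, A4_sE_add, hx, hy, LinearMap.add_apply]

/-- `ε(ε_s(x) y) = ε(x y)`. -/
theorem WeakHopf.A4_ε_εs_mul (x y : H) : W.ε (W.εs x * y) = W.ε (x * y) := by
  have h := W.ε_mul' x 1 y
  rw [mul_one] at h
  rw [h, W.A4_εs_eq]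
  generalize W.Δ 1 = E
  induction E using TensorProduct.induction_on with
  | zero => simp [A4_sE_zero]
  | tmul u v => simp [A4_sE_tmul]
  | add x y hx hy => simp only [map_add, A4_sE_add, add_mul, hx, hy, LinearMap.add_apply]

/-- `ε_s(ε_s(x) y) = ε_s(x y)`. -/
theorem WeakHopf.εs_εs_mul (x y : H) : W.εs (W.εs x * y) = W.εs (x * y) := by
  have key : ∀ E : H ⊗[k] H, A4_sE W.ε E (W.εs x * y) = A4_sE W.ε E (x * y) := by
    intro E
    induction E using TensorProduct.induction_on with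
    | zero => simp [A4_sE_zero]
    | tmul u v => rw [A4_sE_tmul, A4_sE_tmul, mul_assoc, W.A4_ε_εs_mul, mul_assoc]
    | add x y hx hy => simp only [A4_sE_add, hx, hy, LinearMap.add_apply]
  have h1 : W.εs (W.εs x * y) = A4_sE W.ε (W.Δ 1) (W.εs x * y) := by rw [← W.A4_εs_eq]
  have h2 : W.εs (x * y) = A4_sE W.ε (W.Δ 1) (x * y) := by rw [← W.A4_εs_eq]
  rw [h1, h2, key]

/-- `Δ(ε_s(x)) = (1 ⊗ ε_s(x)) Δ(1)`. -/
theorem WeakHopf.A4_Δ_εs (x : H) : W.Δ (W.εs x) = ((1 : H) ⊗ₜ[k] W.εs x) * W.Δ 1 := by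
  have key1 : ∀ E : H ⊗[k] H, W.Δ (A4_sE W.ε E x)
      = TensorProduct.rid k (H ⊗[k] H) (TensorProduct.map LinearMap.id
          (W.ε ∘ₗ LinearMap.mulLeft k x) (LinearMap.rTensor H W.Δ E)) := by
    intro E
    induction E using TensorProduct.induction_on with
    | zero => simp [A4_sE_zero]
    | tmul u v => simp [A4_sE_tmul]
    | add x y hx hy => simp only [A4_sE_add, map_add, hx, hy, LinearMap.add_apply]
  have key2 : ∀ z : (H ⊗[k] H) ⊗[k] H,
      TensorProduct.rid k (H ⊗[k] H) (TensorProduct.map LinearMap.id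
          (W.ε ∘ₗ LinearMap.mulLeft k x) z)
      = LinearMap.lTensor H ((TensorProduct.rid k H).toLinearMap ∘ₗ
          TensorProduct.map LinearMap.id (W.ε ∘ₗ LinearMap.mulLeft k x))
          (TensorProduct.assoc k H H H z) := by
    intro z
    induction z using TensorProduct.induction_on with
    | zero => simp
    | tmul w b =>
      induction w using TensorProduct.induction_on with
      | zero => simp
      | tmul p q => simp
      | add x y hx hy => simp only [map_add, TensorProduct.add_tmul, hx, hy]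
    | add x y hx hy => simp only [map_add, hx, hy]
  have key3 : ∀ w E : H ⊗[k] H,
      LinearMap.lTensor H ((TensorProduct.rid k H).toLinearMap ∘ₗ
          TensorProduct.map LinearMap.id (W.ε ∘ₗ LinearMap.mulLeft k x))
          (((1 : H) ⊗ₜ[k] w) * TensorProduct.assoc k H H H (E ⊗ₜ[k] (1 : H)))
        = ((1 : H) ⊗ₜ[k] A4_sE W.ε w x) * E := by
    intro w E
    induction w using TensorProduct.induction_on with
    | zero => simp [A4_sE_zero]
    | tmul u v =>
      induction E using TensorProduct.induction_on with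
      | zero => simp
      | tmul p q => simp [A4_sE_tmul]
      | add x y hx hy => simp only [map_add, TensorProduct.add_tmul, mul_add, hx, hy]
    | add x y hx hy =>
      simp only [A4_sE_add, map_add, hx, hy, LinearMap.add_apply, TensorProduct.tmul_add, add_mul]
  rw [W.A4_εs_eq, key1, key2, W.Δ_one', key3, ← W.A4_εs_eq]

/-- `Δ(ε_s(x) y) = (1 ⊗ ε_s(x)) Δ(y)`. -/
theorem WeakHopf.Δ_εs_mul (x y : H) :
    W.Δ (W.εs x * y) = ((1 : H) ⊗ₜ[k] W.εs x) * W.Δ y := by
  rw [W.Δ_mul, W.A4_Δ_εs, mul_assoc, W.A4_one_mul]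

/-- `ε_s(x y) = S(y₁) ε_s(x) y₂`. -/
theorem WeakHopf.εs_mul (x y : H) : W.εs (x * y) = LinearMap.mul' k H
    (TensorProduct.map W.S (LinearMap.mulLeft k (W.εs x)) (W.Δ y)) := by
  rw [← W.εs_εs_mul]
  have h : W.εs (W.εs x * y) = LinearMap.mul' k H (TensorProduct.map W.S LinearMap.id
      (W.Δ (W.εs x * y))) := rfl
  rw [h, W.Δ_εs_mul]
  generalize W.Δ y = D
  induction D using TensorProduct.induction_on with
  | zero => simp
  | tmul u v => simp
  | add x y hx hy => simp only [map_add, mul_add, hx, hy]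

end WHI
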