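import Pool.Agent.Lib.MP_c14890_al.A3
import Pool.Agent.Lib.MP_c14890_al.A4

set_option autoImplicit false

open scoped TensorProduct

namespace WHI

variable {k H : Type} [Field k] [Ring H] [Algebra k H] (W : WeakHopf k H)

/-- `ε_s(x)` and `ε_t(y)` commute. -/
theorem WeakHopf.εs_comm_εt (x y : H) : W.εs x * W.εt y = W.εt y * W.εs x := by
  have key1 : ∀ E E' : H ⊗[k] H,
      LinearMap.mul' k H (TensorProduct.map ((TensorProduct.lid k H).toLinearMap ∘ₗ
        TensorProduct.map (W.ε ∘ₗ LinearMap.mulRight k y) LinearMap.id)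
        (((TensorProduct.rid k H).toLinearMap ∘ₗ
        TensorProduct.map LinearMap.id (W.ε ∘ₗ LinearMap.mulLeft k x))) (E ⊗ₜ[k] E'))
      = TensorProduct.lid k H (TensorProduct.map (W.ε ∘ₗ LinearMap.mulRight k y)
          ((TensorProduct.rid k H).toLinearMap ∘ₗ
            TensorProduct.map LinearMap.id (W.ε ∘ₗ LinearMap.mulLeft k x))
          (TensorProduct.assoc k H H H (E ⊗ₜ[k] (1 : H)) * ((1 : H) ⊗ₜ[k] E'))) := by
    intro E E'
    induction E using TensorProduct.induction_on with
    | zero => simp
    | tmul a b =>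
      induction E' using TensorProduct.induction_on with
      | zero => simp
      | tmul u v => simp
      | add x y hx hy => simp only [map_add, TensorProduct.tmul_add, mul_add, hx, hy]
    | add x y hx hy => simp only [map_add, TensorProduct.add_tmul, add_mul, hx, hy]
  have key2 : ∀ E E' : H ⊗[k] H,
      LinearMap.mul' k H (TensorProduct.map (((TensorProduct.rid k H).toLinearMap ∘ₗ
        TensorProduct.map LinearMap.id (W.ε ∘ₗ LinearMap.mulLeft k x)))
        ((TensorProduct.lid k H).toLinearMap ∘ₗ
        TensorProduct.map (W.ε ∘ₗ LinearMap.mulRight k y) LinearMap.id) (E' ⊗ₜ[k] E))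
      = TensorProduct.lid k H (TensorProduct.map (W.ε ∘ₗ LinearMap.mulRight k y)
          ((TensorProduct.rid k H).toLinearMap ∘ₗ
            TensorProduct.map LinearMap.id (W.ε ∘ₗ LinearMap.mulLeft k x))
          (((1 : H) ⊗ₜ[k] E') * TensorProduct.assoc k H H H (E ⊗ₜ[k] (1 : H)))) := by
    intro E E'
    induction E using TensorProduct.induction_on with
    | zero => simp
    | tmul a b =>
      induction E' using TensorProduct.induction_on with
      | zero => simp
      | tmul u v => simp [smul_comm (W.ε (x * v))]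
      | add x y hx hy => simp only [map_add, TensorProduct.tmul_add, TensorProduct.add_tmul,
          add_mul, hx, hy]
    | add x y hx hy => simp only [map_add, TensorProduct.add_tmul, TensorProduct.tmul_add,
        mul_add, hx, hy]
  have hs : W.εs x = TensorProduct.rid k H (TensorProduct.map LinearMap.id
        (W.ε ∘ₗ LinearMap.mulLeft k x) (W.Δ 1)) := by
    rw [← W.anti₂]; rfl
  have ht : W.εt y = TensorProduct.lid k H (TensorProduct.map (W.ε ∘ₗ LinearMap.mulRight k y)
        LinearMap.id (W.Δ 1)) := by
    rw [← W.anti₁]; rfl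
  have h1 := key1 (W.Δ 1) (W.Δ 1)
  have h2 := key2 (W.Δ 1) (W.Δ 1)
  rw [← W.Δ_one] at h1
  rw [← W.Δ_one'] at h2
  rw [← h2, TensorProduct.map_tmul, TensorProduct.map_tmul] at h1
  simp only [LinearMap.mul'_apply, LinearMap.comp_apply] at h1
  rw [hs, ht]
  exact h1.symm

/-- `S(x₁) ε_t(x₂) = S(x)`. -/
theorem WeakHopf.A5_S_εt (x : H) :
    LinearMap.mul' k H (TensorProduct.map W.S W.εt (W.Δ x)) = W.S x := by
  rw [← W.anti₃]
  have key1 : ∀ z : H ⊗[k] H, LinearMap.mul' k H (TensorProduct.map W.S W.εt z)
      = LinearMap.mul' k H (TensorProduct.map W.S (LinearMap.mul' k H ∘ₗ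
          TensorProduct.map LinearMap.id W.S) (LinearMap.lTensor H W.Δ z)) := by
    intro z
    induction z using TensorProduct.induction_on with
    | zero => simp
    | tmul a b => simp [WeakHopf.εt]
    | add x y hx hy => simp only [map_add, hx, hy]
  have key2 : ∀ z : (H ⊗[k] H) ⊗[k] H,
      LinearMap.mul' k H (TensorProduct.map W.S (LinearMap.mul' k H ∘ₗ
          TensorProduct.map LinearMap.id W.S) (TensorProduct.assoc k H H H z))
      = LinearMap.mul' k H (TensorProduct.map (LinearMap.mul' k H ∘ₗ
      TensorProduct.map W.S LinearMap.id) W.S z) := by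
    intro z
    induction z using TensorProduct.induction_on with
    | zero => simp
    | tmul w b =>
      induction w using TensorProduct.induction_on with
      | zero => simp
      | tmul p q => simp [mul_assoc]
      | add x y hx hy => simp only [map_add, TensorProduct.add_tmul, hx, hy]
    | add x y hx hy => simp only [map_add, hx, hy]
  rw [key1, ← W.coassoc, key2]

/-- `ε_s(x₁) S(x₂) = S(x)`. -/
theorem WeakHopf.A5_εs_S (x : H) :
    LinearMap.mul' k H (TensorProduct.map W.εs W.S (W.Δ x)) = W.S x := by
  rw [← W.anti₃]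
  generalize W.Δ x = z
  induction z using TensorProduct.induction_on with
  | zero => simp
  | tmul a b => simp [WeakHopf.εs]
  | add x y hx hy => simp only [map_add, hx, hy]

/-- Coassociativity for bilinear forms of the type `f(x₁₁) g(x₁₂) h(x₂)`. -/
theorem WeakHopf.A5_coassoc (f g h : H →ₗ[k] H) (x : H) :
    LinearMap.mul' k H (TensorProduct.map (LinearMap.mul' k H ∘ₗ TensorProduct.map f g ∘ₗ W.Δ) h
      (W.Δ x))
    = LinearMap.mul' k H (TensorProduct.map f (LinearMap.mul' k H ∘ₗ TensorProduct.map g h ∘ₗ W.Δ)
      (W.Δ x)) := by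
  have key1 : ∀ z : H ⊗[k] H,
      LinearMap.mul' k H (TensorProduct.map f (LinearMap.mul' k H ∘ₗ TensorProduct.map g h ∘ₗ W.Δ)
        z)
      = LinearMap.mul' k H (TensorProduct.map f (LinearMap.mul' k H ∘ₗ
          TensorProduct.map g h) (LinearMap.lTensor H W.Δ z)) := by
    intro z
    induction z using TensorProduct.induction_on with
    | zero => simp
    | tmul a b => simp
    | add x y hx hy => simp only [map_add, hx, hy]
  have key2 : ∀ z : H ⊗[k] H,
      LinearMap.mul' k H (TensorProduct.map (LinearMap.mul' k H ∘ₗ TensorProduct.map f g ∘ₗ W.Δ) h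
        z)
      = LinearMap.mul' k H (TensorProduct.map (LinearMap.mul' k H ∘ₗ
      TensorProduct.map f g) h (LinearMap.rTensor H W.Δ z)) := by
    intro z
    induction z using TensorProduct.induction_on with
    | zero => simp
    | tmul a b => simp
    | add x y hx hy => simp only [map_add, hx, hy]
  have key3 : ∀ z : (H ⊗[k] H) ⊗[k] H,
      LinearMap.mul' k H (TensorProduct.map f (LinearMap.mul' k H ∘ₗ
          TensorProduct.map g h) (TensorProduct.assoc k H H H z))
      = LinearMap.mul' k H (TensorProduct.map (LinearMap.mul' k H ∘ₗ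
      TensorProduct.map f g) h z) := by
    intro z
    induction z using TensorProduct.induction_on with
    | zero => simp
    | tmul w b =>
      induction w using TensorProduct.induction_on with
      | zero => simp
      | tmul p q => simp [mul_assoc]
      | add x y hx hy => simp only [map_add, TensorProduct.add_tmul, hx, hy]
    | add x y hx hy => simp only [map_add, hx, hy]
  rw [key1, key2, ← W.coassoc, key3]

/-- `S(a c) b ε_t(d)`, the linear map `a ↦ S(a₁ c) a₂ ε_t(d)` for `D' = c ⊗ d`. -/
noncomputable def WeakHopf.A5_U (D' : H ⊗[k] H) : H →ₗ[k] H :=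
  LinearMap.mul' k H ∘ₗ TensorProduct.map W.S LinearMap.id ∘ₗ
    LinearMap.mulRight k (LinearMap.lTensor H W.εt D') ∘ₗ W.Δ

theorem WeakHopf.A5_U_tmul (c d : H) : W.A5_U (c ⊗ₜ[k] d)
    = LinearMap.mul' k H ∘ₗ TensorProduct.map (W.S ∘ₗ LinearMap.mulRight k c)
        (LinearMap.mulRight k (W.εt d)) ∘ₗ W.Δ := by
  ext a
  simp only [WeakHopf.A5_U, LinearMap.comp_apply]
  generalize W.Δ a = z
  induction z using TensorProduct.induction_on with
  | zero => simp
  | tmul p q => simp
  | add x y hx hy => simp only [map_add, hx, hy]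

/-- `S(x₁ c) ε_t(x₂ d) = U(x₁) S(x₂)`. -/
theorem WeakHopf.A5_step1 (x : H) (D' : H ⊗[k] H) :
    LinearMap.mul' k H (TensorProduct.map W.S W.εt (W.Δ x * D'))
      = LinearMap.mul' k H (TensorProduct.map (W.A5_U D') W.S (W.Δ x)) := by
  induction D' using TensorProduct.induction_on with
  | zero =>
    have : W.A5_U 0 = 0 := by ext; simp [WeakHopf.A5_U]
    simp [this, TensorProduct.map_zero_left]
  | tmul c d =>
    rw [W.A5_U_tmul, W.A5_coassoc]
    generalize W.Δ x = z
    induction z using TensorProduct.induction_on with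
    | zero => simp
    | tmul p q => simp [W.εt_mul]
    | add x y hx hy => simp only [map_add, add_mul, hx, hy]
  | add y z hy hz =>
    have : W.A5_U (y + z) = W.A5_U y + W.A5_U z := by
      ext; simp [WeakHopf.A5_U, mul_add]
    rw [mul_add, map_add, map_add, hy, hz, this, TensorProduct.map_add_left,
      LinearMap.add_apply, map_add]

/-- `S(a₁ y₁) a₂ ε_t(y₂) = S(y) ε_s(a)`. -/
theorem WeakHopf.A5_step2 (a y : H) : W.A5_U (W.Δ y) a = W.S y * W.εs a := by
  -- first `S(a₁ y₁) a₂ ε_t(y₂) = ε_s(a y₁) S(y₂)`
  have h1 : ∀ z : H ⊗[k] H,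
      LinearMap.mul' k H (TensorProduct.map W.S LinearMap.id (z * LinearMap.lTensor H W.εt (W.Δ y)))
      = LinearMap.mul' k H (TensorProduct.map (LinearMap.mul' k H ∘ₗ
          TensorProduct.map W.S LinearMap.id ∘ₗ LinearMap.mulLeft k z ∘ₗ W.Δ) W.S (W.Δ y)) := by
    intro z
    induction z using TensorProduct.induction_on with
    | zero => simp [TensorProduct.map_zero_left]
    | tmul p q =>
      have e1 : LinearMap.mul' k H ∘ₗ TensorProduct.map W.S LinearMap.id ∘ₗ
          LinearMap.mulLeft k (p ⊗ₜ[k] q) ∘ₗ W.Δ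
          = LinearMap.mul' k H ∘ₗ TensorProduct.map (W.S ∘ₗ LinearMap.mulLeft k p)
              (LinearMap.mulLeft k q) ∘ₗ W.Δ := by
        ext c
        simp only [LinearMap.comp_apply]
        generalize W.Δ c = w
        induction w using TensorProduct.induction_on with
        | zero => simp
        | tmul u v => simp
        | add x y hx hy => simp only [map_add, hx, hy]
      rw [e1, W.A5_coassoc]
      have e2 : ∀ w : H ⊗[k] H, LinearMap.mul' k H (TensorProduct.map (LinearMap.mulLeft k q)
          W.S w) = q * LinearMap.mul' k H (TensorProduct.map LinearMap.id W.S w) := by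
        intro w
        induction w using TensorProduct.induction_on with
        | zero => simp
        | tmul u v => simp [mul_assoc]
        | add x y hx hy => simp only [map_add, mul_add, hx, hy]
      generalize W.Δ y = D'
      induction D' using TensorProduct.induction_on with
      | zero => simp
      | tmul u v => simp [e2, WeakHopf.εt]
      | add x y hx hy => simp only [map_add, mul_add, hx, hy]
    | add z w hz hw =>
      have : LinearMap.mulLeft k (z + w) = LinearMap.mulLeft k z + LinearMap.mulLeft k w := by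
        ext; simp [add_mul]
      rw [add_mul, map_add, map_add, hz, hw, this, LinearMap.add_comp, LinearMap.comp_add,
        LinearMap.comp_add, TensorProduct.map_add_left, LinearMap.add_apply, map_add]
  have h2 : W.A5_U (W.Δ y) a
      = LinearMap.mul' k H (TensorProduct.map (W.εs ∘ₗ LinearMap.mulLeft k a) W.S (W.Δ y)) := by
    have : W.A5_U (W.Δ y) a = LinearMap.mul' k H (TensorProduct.map W.S LinearMap.id
        (W.Δ a * LinearMap.lTensor H W.εt (W.Δ y))) := rfl
    rw [this, h1]
    congr 3
    ext c
    simp [WeakHopf.εs, ← W.Δ_mul]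
  -- `ε_s(a c) = S(c₁) ε_s(a) c₂`
  have h3 : W.εs ∘ₗ LinearMap.mulLeft k a = LinearMap.mul' k H ∘ₗ
      TensorProduct.map W.S (LinearMap.mulLeft k (W.εs a)) ∘ₗ W.Δ := by
    ext c
    simp [W.εs_mul]
  rw [h2, h3, W.A5_coassoc]
  have h4 : LinearMap.mul' k H ∘ₗ TensorProduct.map (LinearMap.mulLeft k (W.εs a)) W.S ∘ₗ W.Δ
      = LinearMap.mulRight k (W.εs a) ∘ₗ W.εt := by
    ext d
    have e2 : ∀ w : H ⊗[k] H, LinearMap.mul' k H (TensorProduct.map
        (LinearMap.mulLeft k (W.εs a)) W.S w)
          = W.εs a * LinearMap.mul' k H (TensorProduct.map LinearMap.id W.S w) := by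
      intro w
      induction w using TensorProduct.induction_on with
      | zero => simp
      | tmul u v => simp [mul_assoc]
      | add x y hx hy => simp only [map_add, mul_add, hx, hy]
    rw [LinearMap.comp_apply, LinearMap.comp_apply, e2]
    exact W.εs_comm_εt a d
  rw [h4]
  have h5 : ∀ w : H ⊗[k] H, LinearMap.mul' k H (TensorProduct.map W.S
      (LinearMap.mulRight k (W.εs a) ∘ₗ W.εt) w)
        = LinearMap.mul' k H (TensorProduct.map W.S W.εt w) * W.εs a := by
    intro w
    induction w using TensorProduct.induction_on with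
    | zero => simp
    | tmul u v => simp [mul_assoc]
    | add x y hx hy => simp only [map_add, add_mul, hx, hy]
  rw [h5, W.A5_S_εt]

/-- The antipode is anti-multiplicative. -/
theorem WeakHopf.S_mul (x y : H) : W.S (x * y) = W.S y * W.S x := by
  rw [← W.A5_S_εt (x * y), W.Δ_mul, W.A5_step1]
  have h : W.A5_U (W.Δ y) = LinearMap.mulLeft k (W.S y) ∘ₗ W.εs := by
    ext a
    simp [W.A5_step2]
  have h5 : ∀ w : H ⊗[k] H, LinearMap.mul' k H (TensorProduct.map
      (LinearMap.mulLeft k (W.S y) ∘ₗ W.εs) W.S w)
        = W.S y * LinearMap.mul' k H (TensorProduct.map W.εs W.S w) := by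
    intro w
    induction w using TensorProduct.induction_on with
    | zero => simp
    | tmul u v => simp [mul_assoc]
    | add x y hx hy => simp only [map_add, mul_add, hx, hy]
  rw [h, h5, W.A5_εs_S]

end WHI
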