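import Pool.Agent.Lib.MP_c14890_al.Defs

set_option autoImplicit false

open scoped TensorProduct

namespace WHI

variable {k H : Type} [Field k] [Ring H] [Algebra k H] (W : WeakHopf k H)

theorem WeakHopf.A6_one_mul (h : H) : W.Δ 1 * W.Δ h = W.Δ h := by
  rw [← W.Δ_mul, one_mul]

/-- `x ↦ ε(E₁ x) E₂`. -/
noncomputable def A6_tE (ε : H →ₗ[k] k) (E : H ⊗[k] H) : H →ₗ[k] H :=
  (TensorProduct.lid k H).toLinearMap ∘ₗ LinearMap.rTensor H ε ∘ₗ LinearMap.mulLeft k E
    ∘ₗ (TensorProduct.mk k H H).flip 1

theorem A6_tE_tmul (ε : H →ₗ[k] k) (u v q : H) : A6_tE ε (u ⊗ₜ[k] v) q = ε (u * q) • v := by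
  simp [A6_tE]

theorem A6_tE_add (ε : H →ₗ[k] k) (E E' : H ⊗[k] H) :
    A6_tE ε (E + E') = A6_tE ε E + A6_tE ε E' := by
  ext q; simp [A6_tE, add_mul]

theorem A6_tE_zero (ε : H →ₗ[k] k) : A6_tE ε (0 : H ⊗[k] H) = 0 := by
  ext q; simp [A6_tE]

theorem WeakHopf.A6_εt_eq : W.εt = A6_tE W.ε (W.Δ 1) := by
  ext q
  have h : W.εt q = TensorProduct.lid k H (TensorProduct.map (W.ε ∘ₗ LinearMap.mulRight k q)
        LinearMap.id (W.Δ 1)) := by
    rw [← W.anti₁]; rfl
  rw [h]
  generalize W.Δ 1 = E
  induction E using TensorProduct.induction_on with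
  | zero => simp [A6_tE_zero]
  | tmul u v => simp [A6_tE_tmul]
  | add x y hx hy => simp only [map_add, A6_tE_add, hx, hy, LinearMap.add_apply]

/-- `ε_t(h₁) h₂ = h`. -/
theorem WeakHopf.εt_mul_id (h : H) :
    LinearMap.mul' k H (TensorProduct.map W.εt LinearMap.id (W.Δ h)) = h := by
  have key : ∀ E D : H ⊗[k] H,
      LinearMap.mul' k H (TensorProduct.map (A6_tE W.ε E) LinearMap.id D)
        = TensorProduct.lid k H (LinearMap.rTensor H W.ε (E * D)) := by
    intro E D
    induction D using TensorProduct.induction_on with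
    | zero => simp
    | tmul p q =>
      induction E using TensorProduct.induction_on with
      | zero => simp [A6_tE_zero]
      | tmul u v => simp [A6_tE_tmul]
      | add x y hx hy =>
        simp only [A6_tE_add, map_add, hx, hy, LinearMap.add_apply, add_mul,
          TensorProduct.map_add_left]
    | add x y hx hy => simp only [map_add, mul_add, hx, hy]
  rw [W.A6_εt_eq, key, W.A6_one_mul, W.rTensor_counit]
  simp

/-- `ε_t(a₁) ε(a₂ p) = ε_t(a p)`. -/
theorem WeakHopf.A6_εt_ε (a p : H) :
    TensorProduct.rid k H (TensorProduct.map W.εt (W.ε ∘ₗ LinearMap.mulRight k p) (W.Δ a))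
      = W.εt (a * p) := by
  rw [W.A6_εt_eq]
  generalize W.Δ 1 = E
  induction E using TensorProduct.induction_on with
  | zero => simp [A6_tE_zero]
  | tmul u v =>
    rw [A6_tE_tmul, ← mul_assoc, W.ε_mul]
    generalize W.Δ a = D
    induction D using TensorProduct.induction_on with
    | zero => simp
    | tmul x y => simp [A6_tE_tmul, mul_smul, smul_comm (W.ε (u * x))]
    | add x y hx hy => simp only [map_add, hx, hy, add_smul]
  | add x y hx hy =>
    rw [A6_tE_add, TensorProduct.map_add_left, LinearMap.add_apply, map_add, hx, hy,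
      LinearMap.add_apply]

/-- `ε_t(h₁) ⊗ h₂ = ε_t(1₁) ⊗ 1₂ h`. -/
theorem WeakHopf.rTensor_εt (h : H) :
    LinearMap.rTensor H W.εt (W.Δ h)
      = LinearMap.rTensor H W.εt (W.Δ 1) * ((1 : H) ⊗ₜ[k] h) := by
  -- `T (a ⊗ (b ⊗ c)) (p ⊗ q) = ε_t(a) ⊗ ε(b p) c q`
  have key1 : ∀ E D : H ⊗[k] H, LinearMap.rTensor H W.εt (E * D)
      = TensorProduct.map W.εt ((TensorProduct.lid k H).toLinearMap ∘ₗ LinearMap.rTensor H W.ε
          ∘ₗ LinearMap.mulRight k D)
        (TensorProduct.assoc k H H H (LinearMap.rTensor H W.Δ E)) := by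
    intro E D
    induction D using TensorProduct.induction_on with
    | zero => simp [TensorProduct.map_zero_right]
    | tmul p q =>
      induction E using TensorProduct.induction_on with
      | zero => simp
      | tmul a b =>
        rw [Algebra.TensorProduct.tmul_mul_tmul, LinearMap.rTensor_tmul, LinearMap.rTensor_tmul,
          ← W.A6_εt_ε]
        generalize W.Δ a = z
        induction z using TensorProduct.induction_on with
        | zero => simp
        | tmul u v => simp [TensorProduct.smul_tmul]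
        | add x y hx hy => simp only [map_add, TensorProduct.add_tmul, hx, hy]
      | add x y hx hy => simp only [map_add, add_mul, hx, hy]
    | add x y hx hy =>
      have : LinearMap.mulRight k (x + y) = LinearMap.mulRight k x + LinearMap.mulRight k y := by
        ext; simp [mul_add]
      rw [mul_add, map_add, hx, hy, this, LinearMap.comp_add, LinearMap.comp_add,
        TensorProduct.map_add_right, LinearMap.add_apply]
  have key2 : ∀ E : H ⊗[k] H,
      TensorProduct.map W.εt ((TensorProduct.lid k H).toLinearMap ∘ₗ LinearMap.rTensor H W.ε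
          ∘ₗ LinearMap.mulRight k (W.Δ h)) (LinearMap.lTensor H W.Δ E)
        = LinearMap.rTensor H W.εt E * ((1 : H) ⊗ₜ[k] h) := by
    intro E
    induction E using TensorProduct.induction_on with
    | zero => simp
    | tmul a b =>
      simp [← W.Δ_mul, W.rTensor_counit]
    | add x y hx hy => simp only [map_add, add_mul, hx, hy]
  rw [← W.A6_one_mul h, key1, W.coassoc, key2]

end WHI
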