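import Pool.Agent.Lib.MP_c14890_al.WTDefs

set_option autoImplicit false

open scoped TensorProduct

namespace WHI

variable {k H : Type} [Field k] [Ring H] [Algebra k H] (W : WeakHopf k H)
variable {X X' X'' V : Type}
  [AddCommGroup X] [Module k X] [Module H X] [IsScalarTower k H X]
  [AddCommGroup X'] [Module k X'] [Module H X'] [IsScalarTower k H X']
  [AddCommGroup X''] [Module k X''] [Module H X''] [IsScalarTower k H X'']
  [AddCommGroup V] [Module k V] [Module H V] [IsScalarTower k H V]

theorem map_id_eq_rTensor (f : X →ₗ[H] X') :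
    TensorProduct.map (f.restrictScalars k) ((LinearMap.id : V →ₗ[H] V).restrictScalars k)
      = (f.restrictScalars k).rTensor V := rfl

theorem WeakHopf.wtMap_injective (f : X →ₗ[H] X') (hf : Function.Injective f) :
    Function.Injective (W.wtMap f (LinearMap.id : V →ₗ[H] V)) := by
  intro z w h
  apply Subtype.ext
  have h1 := congrArg Subtype.val h
  simp only [WeakHopf.coe_wtMap, map_id_eq_rTensor] at h1
  exact Module.Flat.rTensor_preserves_injective_linearMap (M := V) (f.restrictScalars k) hf h1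

theorem WeakHopf.wtMap_surjective (f : X →ₗ[H] X') (hf : Function.Surjective f) :
    Function.Surjective (W.wtMap f (LinearMap.id : V →ₗ[H] V)) := by
  intro z
  obtain ⟨y, hy⟩ := LinearMap.rTensor_surjective V (g := f.restrictScalars k) hf z.1
  refine ⟨⟨W.ρ X V 1 y, W.ρ_mem_WT X V 1 y⟩, ?_⟩
  apply Subtype.ext
  rw [WeakHopf.coe_wtMap]
  change TensorProduct.map _ _ (act k H X V (W.Δ 1) y) = _
  rw [act_map, map_id_eq_rTensor, hy]
  exact (W.mem_WT_iff X' V z).1 z.2

theorem WeakHopf.wtMap_exact (f : X →ₗ[H] X') (g : X' →ₗ[H] X'') (h : Function.Exact f g) :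
    Function.Exact (W.wtMap f (LinearMap.id : V →ₗ[H] V))
      (W.wtMap g (LinearMap.id : V →ₗ[H] V)) := by
  have h' : Function.Exact (f.restrictScalars k) (g.restrictScalars k) := h
  have hex := Module.Flat.rTensor_exact V h'
  intro z
  constructor
  · intro hz
    have h1 := congrArg Subtype.val hz
    rw [WeakHopf.coe_wtMap, map_id_eq_rTensor] at h1
    obtain ⟨y, hy⟩ := (hex z.1).1 h1
    refine ⟨⟨W.ρ X V 1 y, W.ρ_mem_WT X V 1 y⟩, ?_⟩
    apply Subtype.ext
    rw [WeakHopf.coe_wtMap]
    change TensorProduct.map _ _ (act k H X V (W.Δ 1) y) = _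
    rw [act_map, map_id_eq_rTensor, hy]
    exact (W.mem_WT_iff X' V z).1 z.2
  · rintro ⟨y, rfl⟩
    apply Subtype.ext
    rw [WeakHopf.coe_wtMap, WeakHopf.coe_wtMap, map_id_eq_rTensor, map_id_eq_rTensor]
    exact (hex _).2 ⟨y.1, rfl⟩

end WHI
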