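import Pool.Agent.Lib.MP_c14890_al.WTDefs
import Pool.Agent.Lib.MP_c14890_al.A2
import Pool.Agent.Lib.MP_c14890_al.A5

set_option autoImplicit false

open scoped TensorProduct

namespace WHI

variable {k H : Type} [Field k] [Ring H] [Algebra k H] (W : WeakHopf k H)

theorem WeakHopf.B2_coassoc (x : H) : LinearMap.rTensor H W.Δ (W.Δ x)
    = (TensorProduct.assoc k H H H).symm (LinearMap.lTensor H W.Δ (W.Δ x)) := by
  rw [← W.coassoc, LinearEquiv.symm_apply_apply]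

/-- Sweedler: if `M(a ⊗ b ⊗ c) = N(a ⊗ S(b) c)` then `M(h₁ ⊗ h₂ ⊗ h₃) = N(h₁ ⊗ ε_s(h₂))`. -/
theorem WeakHopf.B2_sw_s {Z : Type} [AddCommMonoid Z] [Module k Z]
    (M : (H ⊗[k] H) ⊗[k] H →ₗ[k] Z) (N : H ⊗[k] H →ₗ[k] Z)
    (h : ∀ a b c, M ((a ⊗ₜ[k] b) ⊗ₜ[k] c) = N (a ⊗ₜ[k] (W.S b * c))) (x : H) :
    M (LinearMap.rTensor H W.Δ (W.Δ x)) = N (LinearMap.lTensor H W.εs (W.Δ x)) := by
  have e : M ∘ₗ (TensorProduct.assoc k H H H).symm.toLinearMap
      = N ∘ₗ LinearMap.lTensor H (LinearMap.mul' k H ∘ₗ TensorProduct.map W.S LinearMap.id) := by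
    apply TensorProduct.ext'
    intro a w
    induction w using TensorProduct.induction_on with
    | zero => simp
    | tmul b c => simp [h]
    | add u v hu hv => simp only [TensorProduct.tmul_add, map_add, hu, hv]
  rw [W.B2_coassoc]
  have := LinearMap.congr_fun e (LinearMap.lTensor H W.Δ (W.Δ x))
  simp only [LinearMap.comp_apply, LinearEquiv.coe_coe] at this
  rw [this, ← LinearMap.comp_apply (LinearMap.lTensor H _) (LinearMap.lTensor H _),
    ← LinearMap.lTensor_comp]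
  rfl

/-- Sweedler: if `M(a ⊗ b ⊗ c) = N(a ⊗ b S(c))` then `M(h₁ ⊗ h₂ ⊗ h₃) = N(h₁ ⊗ ε_t(h₂))`. -/
theorem WeakHopf.B2_sw_t {Z : Type} [AddCommMonoid Z] [Module k Z]
    (M : (H ⊗[k] H) ⊗[k] H →ₗ[k] Z) (N : H ⊗[k] H →ₗ[k] Z)
    (h : ∀ a b c, M ((a ⊗ₜ[k] b) ⊗ₜ[k] c) = N (a ⊗ₜ[k] (b * W.S c))) (x : H) :
    M (LinearMap.rTensor H W.Δ (W.Δ x)) = N (LinearMap.lTensor H W.εt (W.Δ x)) := by
  have e : M ∘ₗ (TensorProduct.assoc k H H H).symm.toLinearMap
      = N ∘ₗ LinearMap.lTensor H (LinearMap.mul' k H ∘ₗ TensorProduct.map LinearMap.id W.S) := by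
    apply TensorProduct.ext'
    intro a w
    induction w using TensorProduct.induction_on with
    | zero => simp
    | tmul b c => simp [h]
    | add u v hu hv => simp only [TensorProduct.tmul_add, map_add, hu, hv]
  rw [W.B2_coassoc]
  have := LinearMap.congr_fun e (LinearMap.lTensor H W.Δ (W.Δ x))
  simp only [LinearMap.comp_apply, LinearEquiv.coe_coe] at this
  rw [this, ← LinearMap.comp_apply (LinearMap.lTensor H _) (LinearMap.lTensor H _),
    ← LinearMap.lTensor_comp]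
  rfl

section
variable (U V : Type) [AddCommGroup U] [Module k U]
    [AddCommGroup V] [Module k V] [Module H V] [IsScalarTower k H V]

/-- `q ↦ u ⊗ S(q) v`, bilinear in `u, v`. -/
noncomputable def WeakHopf.B2g : U →ₗ[k] V →ₗ[k] H →ₗ[k] U ⊗[k] V :=
  LinearMap.mk₂ k (fun u v => (TensorProduct.mk k U V u) ∘ₗ (W.actS V) ∘ₗ
      ((TensorProduct.mk k H V).flip v))
    (by intro u u' v; ext q; simp)
    (by intro c u v; ext q; simp [TensorProduct.smul_tmul'])
    (by intro u v v'; ext q; simp [TensorProduct.tmul_add])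
    (by intro c u v; ext q; simp)

@[simp] theorem WeakHopf.B2g_apply (u : U) (v : V) (q : H) :
    W.B2g U V u v q = u ⊗ₜ[k] (W.S q • v) := by
  simp [WeakHopf.B2g, WeakHopf.actS]

/-- `σ((y ⊗ u) ⊗ v) = y₁ ⊗ (u ⊗ S(y₂) v)`. -/
noncomputable def WeakHopf.B2σ : (H ⊗[k] U) ⊗[k] V →ₗ[k] H ⊗[k] (U ⊗[k] V) :=
  TensorProduct.lift (TensorProduct.lift (LinearMap.mk₂ k
    (fun y u =>
      { toFun := fun v => LinearMap.lTensor H (W.B2g U V u v) (W.Δ y)
        map_add' := by intro v v'; simp [LinearMap.lTensor_add]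
        map_smul' := by intro c v; simp [LinearMap.lTensor_smul] })
    (by intro y y' u; ext v; simp)
    (by intro c y u; ext v; simp)
    (by intro y u u'; ext v; simp [LinearMap.lTensor_add])
    (by intro c y u; ext v; simp [LinearMap.lTensor_smul])))

@[simp] theorem WeakHopf.B2σ_apply (y : H) (u : U) (v : V) :
    W.B2σ U V ((y ⊗ₜ[k] u) ⊗ₜ[k] v) = LinearMap.lTensor H (W.B2g U V u v) (W.Δ y) := by
  simp [WeakHopf.B2σ]

/-- `M((a ⊗ b) ⊗ c) = a y₁ ⊗ (u ⊗ S(b y₂) c v)`. -/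
noncomputable def WeakHopf.B2M (y : H) (u : U) (v : V) :
    (H ⊗[k] H) ⊗[k] H →ₗ[k] H ⊗[k] (U ⊗[k] V) :=
  TensorProduct.lift (LinearMap.mk₂ k
    (fun s c => LinearMap.lTensor H (W.B2g U V u (c • v)) (s * W.Δ y))
    (by intro s s' c; simp [add_mul])
    (by intro r s c; simp)
    (by intro s c c'; simp [add_smul, LinearMap.lTensor_add])
    (by intro r s c; simp [LinearMap.lTensor_smul]))

theorem WeakHopf.B2M_apply (y : H) (u : U) (v : V) (s : H ⊗[k] H) (c : H) :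
    W.B2M U V y u v (s ⊗ₜ[k] c) = LinearMap.lTensor H (W.B2g U V u (c • v)) (s * W.Δ y) := by
  simp [WeakHopf.B2M]

/-- `N(a ⊗ e) = a y₁ ⊗ (u ⊗ S(y₂) e v)`. -/
noncomputable def WeakHopf.B2N (y : H) (u : U) (v : V) :
    H ⊗[k] H →ₗ[k] H ⊗[k] (U ⊗[k] V) :=
  TensorProduct.lift (LinearMap.mk₂ k
    (fun a e => LinearMap.lTensor H (W.B2g U V u (e • v)) ((a ⊗ₜ[k] (1 : H)) * W.Δ y))
    (by intro s s' c; simp [TensorProduct.add_tmul, add_mul])
    (by intro r s c; simp [← TensorProduct.smul_tmul'])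
    (by intro s c c'; simp [add_smul, LinearMap.lTensor_add])
    (by intro r s c; simp [LinearMap.lTensor_smul]))

theorem WeakHopf.B2N_apply (y : H) (u : U) (v : V) (a e : H) :
    W.B2N U V y u v (a ⊗ₜ[k] e)
      = LinearMap.lTensor H (W.B2g U V u (e • v)) ((a ⊗ₜ[k] (1 : H)) * W.Δ y) := by
  simp [WeakHopf.B2N]

theorem WeakHopf.B2_g_mul (u : U) (v : V) (a b c : H) (t : H ⊗[k] H) :
    LinearMap.lTensor H (W.B2g U V u (c • v)) ((a ⊗ₜ[k] b) * t)
      = LinearMap.lTensor H (W.B2g U V u ((W.S b * c) • v)) ((a ⊗ₜ[k] (1 : H)) * t) := by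
  induction t using TensorProduct.induction_on with
  | zero => simp
  | tmul p q => simp [W.S_mul, mul_smul]
  | add s t hs ht => simp only [mul_add, map_add, hs, ht]

theorem WeakHopf.B2_MN (y : H) (u : U) (v : V) (a b c : H) :
    W.B2M U V y u v ((a ⊗ₜ[k] b) ⊗ₜ[k] c) = W.B2N U V y u v (a ⊗ₜ[k] (W.S b * c)) := by
  rw [WeakHopf.B2M_apply, WeakHopf.B2N_apply, WeakHopf.B2_g_mul]

theorem WeakHopf.B2N_mul (y : H) (u : U) (v : V) (h : H) (t : H ⊗[k] H) :
    W.B2N U V y u v ((h ⊗ₜ[k] (1 : H)) * t) = h • W.B2N U V y u v t := by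
  induction t using TensorProduct.induction_on with
  | zero => simp
  | tmul p q =>
    rw [Algebra.TensorProduct.tmul_mul_tmul, one_mul, WeakHopf.B2N_apply, WeakHopf.B2N_apply]
    generalize W.Δ y = s
    induction s using TensorProduct.induction_on with
    | zero => simp
    | tmul a b => simp [TensorProduct.smul_tmul', mul_assoc]
    | add s t hs ht => simp only [mul_add, map_add, hs, ht, smul_add]
  | add s t hs ht => simp only [mul_add, map_add, hs, ht, smul_add]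

theorem WeakHopf.B2N_S (y : H) (u : U) (v : V) (t : H ⊗[k] H) :
    W.B2N U V y u v (LinearMap.lTensor H W.S t)
      = LinearMap.lTensor H (W.B2g U V u v) (t * W.Δ y) := by
  induction t using TensorProduct.induction_on with
  | zero => simp
  | tmul p q =>
    rw [LinearMap.lTensor_tmul, WeakHopf.B2N_apply]
    have := W.B2_g_mul U V u v p q 1 (W.Δ y)
    rw [one_smul, mul_one] at this
    rw [this]
  | add s t hs ht => simp only [add_mul, map_add, hs, ht]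

theorem WeakHopf.B2_act (y : H) (u : U) (v : V) (t : H ⊗[k] H) :
    W.B2σ U V (act k H (H ⊗[k] U) V t ((y ⊗ₜ[k] u) ⊗ₜ[k] v))
      = W.B2M U V y u v (LinearMap.rTensor H W.Δ t) := by
  induction t using TensorProduct.induction_on with
  | zero => simp
  | tmul a b =>
    rw [LinearMap.rTensor_tmul, WeakHopf.B2M_apply, act_tmul, TensorProduct.smul_tmul',
      WeakHopf.B2σ_apply, smul_eq_mul, W.Δ_mul]
  | add s t hs ht => simp only [map_add, LinearMap.add_apply, hs, ht]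

/-- `σ(ρ(h) z) = h σ(z)`. -/
theorem WeakHopf.B2σ_ρ (h : H) (z : (H ⊗[k] U) ⊗[k] V) :
    W.B2σ U V (W.ρ (H ⊗[k] U) V h z) = h • W.B2σ U V z := by
  induction z using TensorProduct.induction_on with
  | zero => simp
  | add s t hs ht => simp only [map_add, hs, ht, smul_add]
  | tmul w v =>
    induction w using TensorProduct.induction_on with
    | zero => simp
    | add s t hs ht => simp only [TensorProduct.add_tmul, map_add, hs, ht, smul_add]
    | tmul y u =>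
      rw [WeakHopf.ρ_apply, WeakHopf.B2_act,
        W.B2_sw_s (W.B2M U V y u v) (W.B2N U V y u v) (W.B2_MN U V y u v) h, W.lTensor_εs,
        WeakHopf.B2N_mul, WeakHopf.B2N_S, ← W.Δ_mul, one_mul, WeakHopf.B2σ_apply]

/-- `u ⊗ v ↦ (1 ⊗ u) ⊗ v` -/
noncomputable def B2ι (k H U V : Type) [Field k] [Ring H] [Algebra k H] [AddCommGroup U]
    [Module k U] [AddCommGroup V] [Module k V] : U ⊗[k] V →ₗ[k] (H ⊗[k] U) ⊗[k] V :=
  LinearMap.rTensor V (TensorProduct.mk k H U 1)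

/-- `Ψ(h ⊗ t) = ρ(h) ι(t)`. -/
noncomputable def WeakHopf.B2Ψ₀ : H ⊗[k] (U ⊗[k] V) →ₗ[k] (H ⊗[k] U) ⊗[k] V :=
  TensorProduct.lift ((LinearMap.lcomp k _ (B2ι k H U V)) ∘ₗ W.ρ (H ⊗[k] U) V)

theorem WeakHopf.B2Ψ₀_apply (h : H) (t : U ⊗[k] V) :
    W.B2Ψ₀ U V (h ⊗ₜ[k] t) = W.ρ (H ⊗[k] U) V h (B2ι k H U V t) := by
  simp [WeakHopf.B2Ψ₀]

theorem WeakHopf.B2Ψ₀_smul (h : H) (t : H ⊗[k] (U ⊗[k] V)) :
    W.B2Ψ₀ U V (h • t) = W.ρ (H ⊗[k] U) V h (W.B2Ψ₀ U V t) := by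
  induction t using TensorProduct.induction_on with
  | zero => simp
  | tmul a s =>
    rw [TensorProduct.smul_tmul', WeakHopf.B2Ψ₀_apply, WeakHopf.B2Ψ₀_apply, smul_eq_mul,
      W.ρ_mul_apply]
  | add s t hs ht => simp only [smul_add, map_add, hs, ht]

theorem WeakHopf.B2Ψ₀_mem (t : H ⊗[k] (U ⊗[k] V)) :
    W.B2Ψ₀ U V t ∈ W.WT (H ⊗[k] U) V := by
  rw [W.mem_WT_iff, ← W.B2Ψ₀_smul, one_smul]

/-- `a ⊗ b ⊗ c ↦ (a ⊗ u) ⊗ b S(c) v`. -/
noncomputable def WeakHopf.B2M' (u : U) (v : V) :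
    (H ⊗[k] H) ⊗[k] H →ₗ[k] (H ⊗[k] U) ⊗[k] V :=
  TensorProduct.lift (LinearMap.mk₂ k
    (fun s c => act k H (H ⊗[k] U) V s (((1 : H) ⊗ₜ[k] u) ⊗ₜ[k] (W.S c • v)))
    (by intro s s' c; simp)
    (by intro r s c; simp)
    (by intro s c c'; simp [add_smul, TensorProduct.tmul_add])
    (by intro r s c; simp))

/-- `a ⊗ e ↦ (a ⊗ u) ⊗ e v`. -/
noncomputable def WeakHopf.B2N' (_ : WeakHopf k H) (u : U) (v : V) :
    H ⊗[k] H →ₗ[k] (H ⊗[k] U) ⊗[k] V :=
  TensorProduct.lift (LinearMap.mk₂ k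
    (fun a e => (a ⊗ₜ[k] u) ⊗ₜ[k] (e • v))
    (by intro s s' c; simp [TensorProduct.add_tmul])
    (by intro r s c; simp [TensorProduct.smul_tmul'])
    (by intro s c c'; simp [add_smul, TensorProduct.tmul_add])
    (by intro r s c; simp))

theorem WeakHopf.B2N'_apply (u : U) (v : V) (a e : H) :
    W.B2N' U V u v (a ⊗ₜ[k] e) = (a ⊗ₜ[k] u) ⊗ₜ[k] (e • v) := rfl

theorem WeakHopf.B2M'_apply (u : U) (v : V) (s : H ⊗[k] H) (c : H) :
    W.B2M' U V u v (s ⊗ₜ[k] c)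
      = act k H (H ⊗[k] U) V s (((1 : H) ⊗ₜ[k] u) ⊗ₜ[k] (W.S c • v)) := rfl

theorem WeakHopf.B2Ψσ_aux (u : U) (v : V) (t : H ⊗[k] H) :
    W.B2Ψ₀ U V (LinearMap.lTensor H (W.B2g U V u v) t)
      = W.B2M' U V u v (LinearMap.rTensor H W.Δ t) := by
  induction t using TensorProduct.induction_on with
  | zero => simp
  | tmul p q =>
    rw [LinearMap.lTensor_tmul, LinearMap.rTensor_tmul, WeakHopf.B2Ψ₀_apply,
      WeakHopf.B2g_apply, WeakHopf.ρ_apply]
    simp [WeakHopf.B2M'_apply, B2ι]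
  | add s t hs ht => simp only [map_add, hs, ht]

theorem WeakHopf.B2_N'_mul (y : H) (u : U) (v : V) (t : H ⊗[k] H) :
    W.B2N' U V u v (t * (y ⊗ₜ[k] (1 : H))) = act k H (H ⊗[k] U) V t ((y ⊗ₜ[k] u) ⊗ₜ[k] v) := by
  induction t using TensorProduct.induction_on with
  | zero => simp
  | tmul p q => simp [WeakHopf.B2N'_apply, TensorProduct.smul_tmul']
  | add s t hs ht => simp only [add_mul, map_add, hs, ht, LinearMap.add_apply]

/-- `Ψ(σ(z)) = ρ(1) z`. -/
theorem WeakHopf.B2Ψσ (z : (H ⊗[k] U) ⊗[k] V) :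
    W.B2Ψ₀ U V (W.B2σ U V z) = W.ρ (H ⊗[k] U) V 1 z := by
  induction z using TensorProduct.induction_on with
  | zero => simp
  | add s t hs ht => simp only [map_add, hs, ht]
  | tmul w v =>
    induction w using TensorProduct.induction_on with
    | zero => simp
    | add s t hs ht => simp only [TensorProduct.add_tmul, map_add, hs, ht]
    | tmul y u =>
      rw [WeakHopf.B2σ_apply, WeakHopf.B2Ψσ_aux,
        W.B2_sw_t (W.B2M' U V u v) (W.B2N' U V u v) ?_ y, W.lTensor_εt, W.B2_N'_mul,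
        WeakHopf.ρ_apply]
      intro a b c
      simp [WeakHopf.B2M'_apply, WeakHopf.B2N'_apply, TensorProduct.smul_tmul', mul_smul]

/-- `(H ⊗ U) ⊗̄ V` is a direct summand of the free module `H ⊗ (U ⊗ V)`. -/
theorem WeakHopf.projective_WT (U V : Type) [AddCommGroup U] [Module k U]
    [AddCommGroup V] [Module k V] [Module H V] [IsScalarTower k H V] :
    Module.Projective H (W.WT (H ⊗[k] U) V) := by
  let s : W.WT (H ⊗[k] U) V →ₗ[H] H ⊗[k] (U ⊗[k] V) :=
    { toFun := fun z => W.B2σ U V z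
      map_add' := by intro a b; simp
      map_smul' := by
        intro h z
        rw [WeakHopf.coe_smul_WT, WeakHopf.B2σ_ρ]; rfl }
  let p : H ⊗[k] (U ⊗[k] V) →ₗ[H] W.WT (H ⊗[k] U) V :=
    { toFun := fun t => ⟨W.B2Ψ₀ U V t, W.B2Ψ₀_mem U V t⟩
      map_add' := by intro a b; exact Subtype.ext (map_add _ _ _)
      map_smul' := by intro h t; exact Subtype.ext (W.B2Ψ₀_smul U V h t) }
  have : p ∘ₗ s = LinearMap.id := by
    ext z
    change W.B2Ψ₀ U V (W.B2σ U V z) = z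
    rw [W.B2Ψσ]
    exact (W.mem_WT_iff _ _ _).1 z.2
  exact Module.Projective.of_split s p this

end

end WHI
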