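import Pool.Agent.Lib.MP_c14890_al.ExtDefs
import Pool.Agent.Lib.MP_c14890_al.A3
import Pool.Agent.Lib.MP_c14890_al.A6

set_option autoImplicit false

open scoped TensorProduct ModuleCat
open CategoryTheory

namespace WHI

variable {k H : Type} [Field k] [Ring H] [Algebra k H] (W : WeakHopf k H)

theorem WeakHopf.B3_εt_εt (x : H) : W.εt (W.εt x) = W.εt x := by
  have := W.εt_mul_εt 1 x
  simpa using this

/-- `ker ε_t` is a left ideal. -/
noncomputable def WeakHopf.B3_I : Ideal H where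
  carrier := {x | W.εt x = 0}
  zero_mem' := map_zero _
  add_mem' := by
    intro a b ha hb
    simp only [Set.mem_setOf_eq] at *
    rw [map_add, ha, hb, add_zero]
  smul_mem' := by
    intro c x hx
    simp only [Set.mem_setOf_eq, smul_eq_mul] at *
    rw [← W.εt_mul_εt, hx, mul_zero, map_zero]

section

variable (X V : Type) [AddCommGroup X] [Module k X] [Module H X] [IsScalarTower k H X]
  [AddCommGroup V] [Module k V] [Module H V] [IsScalarTower k H V]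

/-- data of the unit object -/
theorem WeakHopf.B3_exists_s (π : H →ₗ[H] X) (hπ : Function.Surjective π)
    (hker : ∀ x, π x = 0 ↔ W.εt x = 0) : ∃ s : X →ₗ[k] H, ∀ x, s (π x) = W.εt x := by
  have hk : LinearMap.ker (π.restrictScalars k) ≤ LinearMap.ker W.εt := by
    intro x hx
    exact (hker x).1 hx
  let e := (π.restrictScalars k).quotKerEquivOfSurjective hπ
  refine ⟨(Submodule.liftQ _ W.εt hk) ∘ₗ e.symm.toLinearMap, ?_⟩
  intro x
  have : e.symm (π x) = Submodule.Quotient.mk x := by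
    rw [LinearEquiv.symm_apply_eq]
    rfl
  rw [LinearMap.comp_apply, LinearEquiv.coe_coe, this]
  rfl

variable {X V}

/-- `x ⊗ v ↦ s(x) v` -/
noncomputable def B3_P (V : Type) [AddCommGroup V] [Module k V] [Module H V]
    [IsScalarTower k H V] (s : X →ₗ[k] H) : X ⊗[k] V →ₗ[k] V :=
  TensorProduct.lift ((Algebra.lsmul k k V).toLinearMap ∘ₗ s)

omit [Module H X] [IsScalarTower k H X] in
@[simp] theorem B3_P_tmul (s : X →ₗ[k] H) (x : X) (v : V) :
    B3_P V s (x ⊗ₜ[k] v) = s x • v := by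
  simp [B3_P]

theorem WeakHopf.B3_P_act (π : H →ₗ[H] X) (s : X →ₗ[k] H) (hs : ∀ x, s (π x) = W.εt x)
    (D : H ⊗[k] H) (y : H) (v : V) :
    B3_P V s (act k H X V D (π y ⊗ₜ[k] v))
      = LinearMap.mul' k H (TensorProduct.map W.εt LinearMap.id (D * (y ⊗ₜ[k] (1 : H)))) • v := by
  induction D using TensorProduct.induction_on with
  | zero => simp
  | tmul a b =>
    rw [act_tmul, B3_P_tmul, ← map_smul, hs]
    simp [mul_smul]
  | add a b ha hb => simp only [map_add, LinearMap.add_apply, ha, hb, add_mul, add_smul]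

theorem WeakHopf.B3_P_ρ (π : H →ₗ[H] X) (hπ : Function.Surjective π)
    (hker : ∀ x, π x = 0 ↔ W.εt x = 0) (s : X →ₗ[k] H) (hs : ∀ x, s (π x) = W.εt x)
    (h : H) (z : X ⊗[k] V) : B3_P V s (W.ρ X V h z) = h • B3_P V s z := by
  induction z using TensorProduct.induction_on with
  | zero => simp
  | add a b ha hb => simp only [map_add, ha, hb, smul_add]
  | tmul x v =>
    obtain ⟨g, rfl⟩ := hπ x
    have hg : π g = π (W.εt g) := by
      rw [← sub_eq_zero, ← map_sub, hker, map_sub, W.B3_εt_εt, sub_self]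
    rw [hg, W.ρ_apply, W.B3_P_act π s hs, ← W.Δ_mul_εt, W.εt_mul_id, B3_P_tmul, hs, W.B3_εt_εt,
      mul_smul]

theorem WeakHopf.B3_q_aux (π : H →ₗ[H] X)
    (hker : ∀ x, π x = 0 ↔ W.εt x = 0) (h : H) (v : V) :
    W.ρ X V h (π 1 ⊗ₜ[k] v) = W.ρ X V 1 (π 1 ⊗ₜ[k] (h • v)) := by
  have hg : ∀ g, π g = π (W.εt g) := by
    intro g
    rw [← sub_eq_zero, ← map_sub, hker, map_sub, W.B3_εt_εt, sub_self]
  have key1 : ∀ (D : H ⊗[k] H) (w : V), act k H X V D (π 1 ⊗ₜ[k] w)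
      = TensorProduct.map (π.restrictScalars k) ((Algebra.lsmul k k V).toLinearMap.flip w)
          (LinearMap.rTensor H W.εt D) := by
    intro D w
    induction D using TensorProduct.induction_on with
    | zero => simp
    | tmul a b =>
      rw [act_tmul, ← map_smul]
      simp [← hg]
    | add a b ha hb => simp only [map_add, LinearMap.add_apply, ha, hb]
  rw [W.ρ_apply, W.ρ_apply, key1, key1, W.rTensor_εt]
  generalize LinearMap.rTensor H W.εt (W.Δ 1) = E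
  induction E using TensorProduct.induction_on with
  | zero => simp
  | tmul a b => simp [mul_smul]
  | add a b ha hb => simp only [map_add, ha, hb, add_mul]

/-- `v ↦ 1₁ ⊗ 1₂ v` -/
noncomputable def WeakHopf.B3_q (V : Type) [AddCommGroup V] [Module k V] [Module H V]
    [IsScalarTower k H V] (π : H →ₗ[H] X)
    (hker : ∀ x, π x = 0 ↔ W.εt x = 0) : V →ₗ[H] W.WT X V where
  toFun v := ⟨W.ρ X V 1 (π 1 ⊗ₜ[k] v), W.ρ_mem_WT X V 1 _⟩
  map_add' a b := Subtype.ext (by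
    simp [TensorProduct.tmul_add])
  map_smul' h v := Subtype.ext (by
    change W.ρ X V 1 (π 1 ⊗ₜ[k] (h • v)) = W.ρ X V h (W.ρ X V 1 (π 1 ⊗ₜ[k] v))
    rw [← W.ρ_mul_apply, mul_one, W.B3_q_aux π hker h v])

/-- `x ⊗ v ↦ s(x) v` -/
noncomputable def WeakHopf.B3_p (V : Type) [AddCommGroup V] [Module k V] [Module H V]
    [IsScalarTower k H V] (π : H →ₗ[H] X) (hπ : Function.Surjective π)
    (hker : ∀ x, π x = 0 ↔ W.εt x = 0) (s : X →ₗ[k] H) (hs : ∀ x, s (π x) = W.εt x) :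
    W.WT X V →ₗ[H] V where
  toFun z := B3_P V s z
  map_add' a b := by simp
  map_smul' h v := by
    rw [W.coe_smul_WT, W.B3_P_ρ π hπ hker s hs]; rfl

theorem WeakHopf.B3_p_q (π : H →ₗ[H] X) (hπ : Function.Surjective π)
    (hker : ∀ x, π x = 0 ↔ W.εt x = 0) (s : X →ₗ[k] H) (hs : ∀ x, s (π x) = W.εt x) (v : V) :
    W.B3_p V π hπ hker s hs (W.B3_q V π hker v) = v := by
  change B3_P V s (W.ρ X V 1 (π 1 ⊗ₜ[k] v)) = v
  rw [W.ρ_apply, W.B3_P_act π s hs]
  have : (1 : H) ⊗ₜ[k] (1 : H) = 1 := rfl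
  rw [this, mul_one, W.εt_mul_id, one_smul]

theorem WeakHopf.B3_q_nat {V' : Type} [AddCommGroup V'] [Module k V'] [Module H V']
    [IsScalarTower k H V'] (π : H →ₗ[H] X)
    (hker : ∀ x, π x = 0 ↔ W.εt x = 0) (f : V →ₗ[H] V') (v : V) :
    W.wtMap (LinearMap.id : X →ₗ[H] X) f (W.B3_q V π hker v) = W.B3_q V' π hker (f v) := by
  apply Subtype.ext
  rw [W.coe_wtMap]
  change TensorProduct.map _ _ (W.ρ X V 1 (π 1 ⊗ₜ[k] v)) = W.ρ X V' 1 (π 1 ⊗ₜ[k] f v)
  rw [W.ρ_apply, W.ρ_apply, act_map]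
  simp

end

theorem WeakHopf.B3_exists_unit_aux (X₀ : ModuleCat.{0} H) (π : H →ₗ[H] X₀)
    (hπ : Function.Surjective π) (hker : ∀ x, π x = 0 ↔ W.εt x = 0) :
    ∃ (q : ∀ V : ModuleCat.{0} H, V ⟶ W.wtObj X₀ V)
      (p : ∀ V : ModuleCat.{0} H, W.wtObj X₀ V ⟶ V),
      (∀ V, q V ≫ p V = 𝟙 V) ∧
      ∀ (V V' : ModuleCat.{0} H) (f : V ⟶ V'), q V ≫ W.wtHom (𝟙 X₀) f = f ≫ q V' := by
  obtain ⟨s, hs⟩ := W.B3_exists_s X₀ π hπ hker
  refine ⟨fun V => ModuleCat.ofHom (W.B3_q V π hker),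
    fun V => ModuleCat.ofHom (W.B3_p V π hπ hker s hs), ?_, ?_⟩
  · intro V
    ext v
    exact W.B3_p_q π hπ hker s hs v
  · intro V V' f
    ext v
    exact W.B3_q_nat π hker f.hom v

/-- There is an `H`-module `X₀` (the unit object, `X₀ = H / ker ε_t`) such that every `H`-module
`V` is a natural retract of `X₀ ⊗̄ V`. -/
theorem WeakHopf.exists_unit :
    ∃ (X₀ : ModuleCat.{0} H) (q : ∀ V : ModuleCat.{0} H, V ⟶ W.wtObj X₀ V)
      (p : ∀ V : ModuleCat.{0} H, W.wtObj X₀ V ⟶ V),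
      (∀ V, q V ≫ p V = 𝟙 V) ∧
      ∀ (V V' : ModuleCat.{0} H) (f : V ⟶ V'), q V ≫ W.wtHom (𝟙 X₀) f = f ≫ q V' :=
  ⟨ModuleCat.of H (H ⧸ W.B3_I), W.B3_exists_unit_aux (ModuleCat.of H (H ⧸ W.B3_I))
    W.B3_I.mkQ (Submodule.mkQ_surjective _) (fun _ => Submodule.Quotient.mk_eq_zero _)⟩

end WHI
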