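import Pool.Agent.Lib.MP_c14890_al.WTDefs
import Pool.Agent.Lib.MP_c14890_al.A2
import Pool.Agent.Lib.MP_c14890_al.A5

set_option autoImplicit false

open scoped TensorProduct

namespace WHI

variable {k H : Type} [Field k] [Ring H] [Algebra k H] (W : WeakHopf k H)
variable {X V : Type}
  [AddCommGroup X] [Module k X] [Module H X] [IsScalarTower k H X]
  [AddCommGroup V] [Module k V] [Module H V] [IsScalarTower k H V]

/-- `p ⊗ q ↦ κ(S(q) d v) p`. -/
noncomputable def WeakHopf.kapd (κ : V →ₗ[k] k) (v : V) (d : H) : H ⊗[k] H →ₗ[k] H :=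
  (TensorProduct.rid k H).toLinearMap ∘ₗ
    LinearMap.lTensor H (κ ∘ₗ ((Algebra.lsmul k k V).toLinearMap.flip v) ∘ₗ
      LinearMap.mulRight k d ∘ₗ W.S)

theorem WeakHopf.kapd_tmul (κ : V →ₗ[k] k) (v : V) (d a b : H) :
    W.kapd κ v d (a ⊗ₜ b) = κ ((W.S b * d) • v) • a := by
  simp [WeakHopf.kapd, mul_smul]

theorem WeakHopf.kapd_add (κ : V →ₗ[k] k) (v : V) (d d' : H) (t : H ⊗[k] H) :
    W.kapd κ v (d + d') t = W.kapd κ v d t + W.kapd κ v d' t := by
  induction t with
  | zero => simp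
  | add a b ha hb => simp only [map_add, ha, hb]; abel
  | tmul a b => simp [WeakHopf.kapd_tmul, mul_add, add_smul]

theorem WeakHopf.kapd_smul (κ : V →ₗ[k] k) (v : V) (c : k) (d : H) (t : H ⊗[k] H) :
    W.kapd κ v (c • d) t = c • W.kapd κ v d t := by
  induction t with
  | zero => simp
  | add a b ha hb => simp only [map_add, ha, hb, smul_add]
  | tmul a b => simp [WeakHopf.kapd_tmul, mul_smul]

theorem WeakHopf.form_tmul (g : X →ₗ[H] H) (κ : V →ₗ[k] k) (x : X) (v : V) :
    W.form g κ (x ⊗ₜ v) = W.kapd κ v 1 (W.Δ (g x)) := by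
  simp only [WeakHopf.form, LinearMap.comp_apply, LinearMap.rTensor_tmul, LinearEquiv.coe_coe,
    LinearMap.restrictScalars_apply]
  generalize W.Δ (g x) = t
  induction t with
  | zero => simp
  | add a b ha hb => simp only [TensorProduct.add_tmul, map_add, ha, hb]
  | tmul a b => simp [WeakHopf.kapd_tmul, WeakHopf.actS]

/-- `s ⊗ c ↦ kapd c (s t)` -/
noncomputable def WeakHopf.B4Θ (κ : V →ₗ[k] k) (v : V) (t : H ⊗[k] H) :
    (H ⊗[k] H) ⊗[k] H →ₗ[k] H :=
  TensorProduct.lift (LinearMap.mk₂ k (fun s c => W.kapd κ v c (s * t))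
    (fun s s' c => by simp only [add_mul, map_add])
    (fun a s c => by simp only [Algebra.smul_mul_assoc, map_smul])
    (fun s c c' => W.kapd_add κ v c c' _)
    (fun a s c => W.kapd_smul κ v a c _))

/-- `a ⊗ d ↦ a kapd d t` -/
noncomputable def WeakHopf.B4Ψ (κ : V →ₗ[k] k) (v : V) (t : H ⊗[k] H) :
    H ⊗[k] H →ₗ[k] H :=
  TensorProduct.lift (LinearMap.mk₂ k (fun a d => a * W.kapd κ v d t)
    (fun s s' c => by simp only [add_mul])
    (fun a s c => by simp only [Algebra.smul_mul_assoc])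
    (fun s c c' => by rw [W.kapd_add, mul_add])
    (fun a s c => by rw [W.kapd_smul, Algebra.mul_smul_comm]))

theorem WeakHopf.B4_one (κ : V →ₗ[k] k) (v : V) (u : H) (T : H ⊗[k] H) :
    W.form (X := H) (LinearMap.id : H →ₗ[H] H) κ (act k H H V T (u ⊗ₜ v))
      = W.B4Θ κ v (W.Δ u) (LinearMap.rTensor H W.Δ T) := by
  induction T with
  | zero => simp
  | add a b ha hb => simp only [map_add, LinearMap.add_apply, ha, hb]
  | tmul a b =>
    rw [act_tmul, WeakHopf.form_tmul, LinearMap.rTensor_tmul, WeakHopf.B4Θ,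
      TensorProduct.lift.tmul, LinearMap.mk₂_apply, LinearMap.id_apply, smul_eq_mul, W.Δ_mul]
    generalize W.Δ a * W.Δ u = t
    induction t with
    | zero => simp
    | add a b ha hb => simp only [map_add, ha, hb]
    | tmul p q => simp [WeakHopf.kapd_tmul, mul_smul]

theorem WeakHopf.B4_two (κ : V →ₗ[k] k) (v : V) (t : H ⊗[k] H) (s : (H ⊗[k] H) ⊗[k] H) :
    W.B4Θ κ v t s = W.B4Ψ κ v t (LinearMap.lTensor H (LinearMap.mul' k H ∘ₗ
      TensorProduct.map W.S LinearMap.id) (TensorProduct.assoc k H H H s)) := by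
  induction s with
  | zero => simp
  | add a b ha hb => simp only [map_add, ha, hb]
  | tmul s c =>
    induction s with
    | zero => simp
    | add a b ha hb => simp only [TensorProduct.add_tmul, map_add, ha, hb]
    | tmul a b =>
      simp only [WeakHopf.B4Θ, WeakHopf.B4Ψ, TensorProduct.lift.tmul, LinearMap.mk₂_apply,
        TensorProduct.assoc_tmul, LinearMap.lTensor_tmul, LinearMap.comp_apply,
        TensorProduct.map_tmul, LinearMap.mul'_apply, LinearMap.id_apply]
      induction t with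
      | zero => simp
      | add x y hx hy => simp only [mul_add, map_add, hx, hy]
      | tmul p q =>
        simp only [Algebra.TensorProduct.tmul_mul_tmul, WeakHopf.kapd_tmul, W.S_mul,
          Algebra.mul_smul_comm, mul_assoc]

theorem WeakHopf.B4_three (κ : V →ₗ[k] k) (v : V) (h : H) (T t : H ⊗[k] H) :
    W.B4Ψ κ v t ((h ⊗ₜ[k] (1 : H)) * LinearMap.lTensor H W.S T)
      = h * W.kapd κ v 1 (T * t) := by
  induction T with
  | zero => simp
  | add a b ha hb => simp only [map_add, mul_add, add_mul, ha, hb]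
  | tmul a b =>
    simp only [WeakHopf.B4Ψ, LinearMap.lTensor_tmul, Algebra.TensorProduct.tmul_mul_tmul,
      TensorProduct.lift.tmul, LinearMap.mk₂_apply]
    induction t with
    | zero => simp
    | add x y hx hy => simp only [mul_add, map_add, hx, hy]
    | tmul p q =>
      simp only [Algebra.TensorProduct.tmul_mul_tmul, WeakHopf.kapd_tmul, W.S_mul,
        Algebra.mul_smul_comm, mul_assoc, one_mul, mul_one]

/-- The trilinear expression `t₁ u₁ κ(S(t₂ u₂) t₃ v)`. -/
theorem WeakHopf.form_ρ_aux (κ : V →ₗ[k] k) (h u : H) (v : V) :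
    W.form (X := H) (LinearMap.id : H →ₗ[H] H) κ (W.ρ H V h (u ⊗ₜ v))
      = h * W.kapd κ v 1 (W.Δ u) := by
  rw [WeakHopf.ρ_apply, W.B4_one, W.B4_two, W.coassoc]
  have h1 : LinearMap.lTensor H (LinearMap.mul' k H ∘ₗ TensorProduct.map W.S LinearMap.id)
      (LinearMap.lTensor H W.Δ (W.Δ h)) = LinearMap.lTensor H W.εs (W.Δ h) := by
    rw [← LinearMap.comp_apply, ← LinearMap.lTensor_comp]
    rfl
  rw [h1, W.lTensor_εs, W.B4_three, ← W.Δ_mul, one_mul]

/-- `form g κ (h₁ x ⊗ h₂ v) = h form g κ (x ⊗ v)`. -/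
theorem WeakHopf.form_ρ (g : X →ₗ[H] H) (κ : V →ₗ[k] k) (h : H) (z : X ⊗[k] V) :
    W.form g κ (W.ρ X V h z) = h * W.form g κ z := by
  induction z with
  | zero => simp
  | add a b ha hb => simp only [map_add, ha, hb, mul_add]
  | tmul x v =>
    rw [WeakHopf.form_tmul, ← WeakHopf.form_ρ_aux]
    rw [WeakHopf.ρ_apply, WeakHopf.ρ_apply]
    generalize W.Δ h = t
    induction t with
    | zero => simp
    | add a b ha hb => simp only [map_add, LinearMap.add_apply, ha, hb]
    | tmul a b => simp [WeakHopf.form_tmul]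

end WHI
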