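import Pool.Agent.Lib.MP_c14890_al.WTDefs
import Pool.Agent.Lib.MP_c14890_al.A2
import Pool.Agent.Lib.MP_c14890_al.A5

set_option autoImplicit false

open scoped TensorProduct

namespace WHI

variable {k H : Type} [Field k] [Ring H] [Algebra k H] (W : WeakHopf k H)
variable {X V : Type}
  [AddCommGroup X] [Module k X] [Module H X] [IsScalarTower k H X]
  [AddCommGroup V] [Module k V] [Module H V] [IsScalarTower k H V]

theorem WeakHopf.B5_coassoc (x : H) : LinearMap.rTensor H W.Δ (W.Δ x)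
    = (TensorProduct.assoc k H H H).symm (LinearMap.lTensor H W.Δ (W.Δ x)) := by
  rw [← W.coassoc, LinearEquiv.symm_apply_apply]

/-- Sweedler: if `M(a ⊗ b ⊗ c) = N(a ⊗ S(b) c)` then `M(h₁ ⊗ h₂ ⊗ h₃) = N(h₁ ⊗ ε_s(h₂))`. -/
theorem WeakHopf.B5_sw_s {Z : Type} [AddCommMonoid Z] [Module k Z]
    (M : (H ⊗[k] H) ⊗[k] H →ₗ[k] Z) (N : H ⊗[k] H →ₗ[k] Z)
    (h : ∀ a b c, M ((a ⊗ₜ[k] b) ⊗ₜ[k] c) = N (a ⊗ₜ[k] (W.S b * c))) (x : H) :
    M (LinearMap.rTensor H W.Δ (W.Δ x)) = N (LinearMap.lTensor H W.εs (W.Δ x)) := by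
  have e : M ∘ₗ (TensorProduct.assoc k H H H).symm.toLinearMap
      = N ∘ₗ LinearMap.lTensor H (LinearMap.mul' k H ∘ₗ TensorProduct.map W.S LinearMap.id) := by
    apply TensorProduct.ext'
    intro a w
    induction w using TensorProduct.induction_on with
    | zero => simp
    | tmul b c => simp [h]
    | add u v hu hv => simp only [TensorProduct.tmul_add, map_add, hu, hv]
  rw [W.B5_coassoc]
  have := LinearMap.congr_fun e (LinearMap.lTensor H W.Δ (W.Δ x))
  simp only [LinearMap.comp_apply, LinearEquiv.coe_coe] at this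
  rw [this, ← LinearMap.comp_apply (LinearMap.lTensor H _) (LinearMap.lTensor H _),
    ← LinearMap.lTensor_comp]
  rfl

/-- Sweedler: if `M(a ⊗ b ⊗ c) = N(a ⊗ b S(c))` then `M(h₁ ⊗ h₂ ⊗ h₃) = N(h₁ ⊗ ε_t(h₂))`. -/
theorem WeakHopf.B5_sw_t {Z : Type} [AddCommMonoid Z] [Module k Z]
    (M : (H ⊗[k] H) ⊗[k] H →ₗ[k] Z) (N : H ⊗[k] H →ₗ[k] Z)
    (h : ∀ a b c, M ((a ⊗ₜ[k] b) ⊗ₜ[k] c) = N (a ⊗ₜ[k] (b * W.S c))) (x : H) :
    M (LinearMap.rTensor H W.Δ (W.Δ x)) = N (LinearMap.lTensor H W.εt (W.Δ x)) := by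
  have e : M ∘ₗ (TensorProduct.assoc k H H H).symm.toLinearMap
      = N ∘ₗ LinearMap.lTensor H (LinearMap.mul' k H ∘ₗ TensorProduct.map LinearMap.id W.S) := by
    apply TensorProduct.ext'
    intro a w
    induction w using TensorProduct.induction_on with
    | zero => simp
    | tmul b c => simp [h]
    | add u v hu hv => simp only [TensorProduct.tmul_add, map_add, hu, hv]
  rw [W.B5_coassoc]
  have := LinearMap.congr_fun e (LinearMap.lTensor H W.Δ (W.Δ x))
  simp only [LinearMap.comp_apply, LinearEquiv.coe_coe] at this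
  rw [this, ← LinearMap.comp_apply (LinearMap.lTensor H _) (LinearMap.lTensor H _),
    ← LinearMap.lTensor_comp]
  rfl

section fst
variable (b : X ⊗[k] V →ₗ[k] H)

/-- `a ⊗ c ↦ a b(x ⊗ S(c) v)`. -/
noncomputable def WeakHopf.B5Φ (x : X) (v : V) : H ⊗[k] H →ₗ[k] H :=
  TensorProduct.lift (LinearMap.mk₂ k
    (fun a c => a * b (x ⊗ₜ[k] (W.S c • v)))
    (by intro a a' c; simp [add_mul])
    (by intro r a c; simp)
    (by intro a c c'; simp [add_smul, TensorProduct.tmul_add, mul_add])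
    (by intro r a c; simp))

omit [Module H X] [IsScalarTower k H X] in
@[simp] theorem WeakHopf.B5Φ_apply (x : X) (v : V) (a c : H) :
    W.B5Φ b x v (a ⊗ₜ[k] c) = a * b (x ⊗ₜ[k] (W.S c • v)) := rfl

/-- `a ⊗ b ⊗ c ↦ b(a x ⊗ b S(c) v)`. -/
noncomputable def WeakHopf.B5M (x : X) (v : V) : (H ⊗[k] H) ⊗[k] H →ₗ[k] H :=
  TensorProduct.lift (LinearMap.mk₂ k
    (fun s c => b (act k H X V s (x ⊗ₜ[k] (W.S c • v))))
    (by intro s s' c; simp)
    (by intro r s c; simp)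
    (by intro s c c'; simp [add_smul, TensorProduct.tmul_add])
    (by intro r s c; simp))

@[simp] theorem WeakHopf.B5M_apply (x : X) (v : V) (s : H ⊗[k] H) (c : H) :
    W.B5M b x v (s ⊗ₜ[k] c) = b (act k H X V s (x ⊗ₜ[k] (W.S c • v))) := rfl

/-- `a ⊗ e ↦ b(a x ⊗ e v)`. -/
noncomputable def B5N (x : X) (v : V) : H ⊗[k] H →ₗ[k] H :=
  TensorProduct.lift (LinearMap.mk₂ k
    (fun a e => b ((a • x) ⊗ₜ[k] (e • v)))
    (by intro s s' c; simp [TensorProduct.add_tmul, add_smul])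
    (by intro r s c; simp [← TensorProduct.smul_tmul'])
    (by intro s c c'; simp [add_smul, TensorProduct.tmul_add])
    (by intro r s c; simp))

@[simp] theorem B5N_apply (x : X) (v : V) (a e : H) :
    B5N b x v (a ⊗ₜ[k] e) = b ((a • x) ⊗ₜ[k] (e • v)) := rfl

theorem B5N_eq (x : X) (v : V) (h : H) (t : H ⊗[k] H) :
    B5N b x v (t * (h ⊗ₜ[k] (1 : H))) = b (act k H X V t ((h • x) ⊗ₜ[k] v)) := by
  induction t using TensorProduct.induction_on with
  | zero => simp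
  | tmul p q => simp [mul_smul]
  | add s t hs ht => simp only [add_mul, map_add, hs, ht, LinearMap.add_apply]

variable (hb : ∀ (h : H) (z : X ⊗[k] V), b (W.ρ X V h z) = h * b z)
include hb

/-- `b(h x ⊗ v) = h₁ b(x ⊗ S(h₂) v)`. -/
theorem WeakHopf.B5_fst (x : X) (v : V) (h : H) :
    b ((h • x) ⊗ₜ[k] v) = W.B5Φ b x v (W.Δ h) := by
  have h1 : ∀ t : H ⊗[k] H, W.B5Φ b x v t = W.B5M b x v (LinearMap.rTensor H W.Δ t) := by
    intro t
    induction t using TensorProduct.induction_on with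
    | zero => simp
    | tmul p q =>
      rw [LinearMap.rTensor_tmul, W.B5M_apply, W.B5Φ_apply, ← W.ρ_apply, hb]
    | add s t hs ht => simp only [map_add, hs, ht]
  rw [h1, W.B5_sw_t (W.B5M b x v) (B5N b x v) (by intro a b c; simp [mul_smul]) h, W.lTensor_εt,
    B5N_eq, ← W.ρ_apply, hb, one_mul]

end fst

section snd

/-- `p ⊗ q ↦ κ(S²(q) w) p`. -/
noncomputable def WeakHopf.B5c (κ : V →ₗ[k] k) (w : V) : H ⊗[k] H →ₗ[k] H :=
  TensorProduct.lift (LinearMap.mk₂ k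
    (fun p q => κ (W.S (W.S q) • w) • p)
    (by intro s s' c; simp)
    (by intro r s c; exact smul_comm _ _ _)
    (by intro s c c'; simp [add_smul])
    (by intro r s c; simp [mul_smul]))

@[simp] theorem WeakHopf.B5c_apply (κ : V →ₗ[k] k) (w : V) (p q : H) :
    W.B5c κ w (p ⊗ₜ[k] q) = κ (W.S (W.S q) • w) • p := rfl

/-- multiplication by `c` on `V` as a `k`-linear map -/
noncomputable def B5m (V : Type) [AddCommGroup V] [Module k V] [Module H V]
    [IsScalarTower k H V] : H →ₗ[k] V →ₗ[k] V := (Algebra.lsmul k k V).toLinearMap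

@[simp] theorem B5m_apply (c : H) (v : V) : B5m (k := k) V c v = c • v := rfl

/-- trace identity: `Σ_b Q(A k_b, k^b) = Σ_b Q(k_b, k^b ∘ A)` -/
theorem B5_trace {ι : Type} [Fintype ι] (e : Module.Basis ι k V) {Z : Type} [AddCommMonoid Z]
    [Module k Z] (Q : V →ₗ[k] (V →ₗ[k] k) →ₗ[k] Z) (A : V →ₗ[k] V) :
    ∑ i, Q (A (e i)) (e.coord i) = ∑ i, Q (e i) (e.coord i ∘ₗ A) := by
  classical
  have h1 : ∀ i, A (e i) = ∑ j, e.coord j (A (e i)) • e j := by
    intro i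
    exact (e.sum_repr (A (e i))).symm
  have h2 : ∀ j, e.coord j ∘ₗ A = ∑ i, e.coord j (A (e i)) • e.coord i := by
    intro j
    apply e.ext
    intro i
    simp [Finsupp.single_apply]
  have h3 : ∀ i, Q (A (e i)) (e.coord i) = ∑ j, e.coord j (A (e i)) • Q (e j) (e.coord i) := by
    intro i
    calc Q (A (e i)) (e.coord i) = Q (∑ j, e.coord j (A (e i)) • e j) (e.coord i) := by
          rw [← h1 i]
      _ = _ := by
          rw [map_sum, LinearMap.sum_apply]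
          simp only [map_smul, LinearMap.smul_apply]
  have h4 : ∀ j, Q (e j) (e.coord j ∘ₗ A) = ∑ i, e.coord j (A (e i)) • Q (e j) (e.coord i) := by
    intro j
    rw [h2 j, map_sum]
    simp only [map_smul]
  simp only [h3, h4]
  exact Finset.sum_comm

theorem WeakHopf.B5c_add (κ κ' : V →ₗ[k] k) (w : V) :
    W.B5c (κ + κ') w = W.B5c κ w + W.B5c κ' w := by
  apply TensorProduct.ext'
  intro p q
  simp [add_smul]

theorem WeakHopf.B5c_smul (r : k) (κ : V →ₗ[k] k) (w : V) :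
    W.B5c (r • κ) w = r • W.B5c κ w := by
  apply TensorProduct.ext'
  intro p q
  simp [mul_smul]

theorem WeakHopf.B5c_mul (κ : V →ₗ[k] k) (w : V) (a c : H) (t : H ⊗[k] H) :
    W.B5c κ w ((a ⊗ₜ[k] c) * t)
      = W.B5c (κ ∘ₗ B5m V (W.S (W.S c))) w ((a ⊗ₜ[k] (1 : H)) * t) := by
  induction t using TensorProduct.induction_on with
  | zero => simp
  | tmul p q => simp [W.S_mul, mul_smul]
  | add s t hs ht => simp only [mul_add, map_add, hs, ht]

theorem WeakHopf.B5c_mul_left (κ : V →ₗ[k] k) (w : V) (a : H) (t : H ⊗[k] H) :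
    W.B5c κ w ((a ⊗ₜ[k] (1 : H)) * t) = a * W.B5c κ w t := by
  induction t using TensorProduct.induction_on with
  | zero => simp
  | tmul p q => simp
  | add s t hs ht => simp only [mul_add, map_add, hs, ht]

/-- `s ⊗ c ↦ Σ_i ctr(k^i ∘ S(c), w)(s Δ(f_i))`. -/
noncomputable def WeakHopf.B5Θ {n : ℕ} (κ : Fin n → V →ₗ[k] k) (f : Fin n → H) (w : V) :
    (H ⊗[k] H) ⊗[k] H →ₗ[k] H :=
  TensorProduct.lift (LinearMap.mk₂ k
    (fun s c => ∑ i, W.B5c (κ i ∘ₗ B5m V (W.S c)) w (s * W.Δ (f i)))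
    (by intro s s' c; simp [add_mul, Finset.sum_add_distrib])
    (by intro r s c; simp [Finset.smul_sum])
    (by intro s c c'; simp [LinearMap.comp_add, WeakHopf.B5c_add, Finset.sum_add_distrib])
    (by intro r s c; simp [LinearMap.comp_smul, WeakHopf.B5c_smul, Finset.smul_sum]))

theorem WeakHopf.B5Θ_apply {n : ℕ} (κ : Fin n → V →ₗ[k] k) (f : Fin n → H) (w : V)
    (s : H ⊗[k] H) (c : H) : W.B5Θ κ f w (s ⊗ₜ[k] c)
      = ∑ i, W.B5c (κ i ∘ₗ B5m V (W.S c)) w (s * W.Δ (f i)) := rfl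

/-- `a ⊗ e ↦ Σ_i ctr(k^i ∘ S(e), w)((a ⊗ 1) Δ(f_i))`. -/
noncomputable def WeakHopf.B5Ξ {n : ℕ} (κ : Fin n → V →ₗ[k] k) (f : Fin n → H) (w : V) :
    H ⊗[k] H →ₗ[k] H :=
  TensorProduct.lift (LinearMap.mk₂ k
    (fun a c => ∑ i, W.B5c (κ i ∘ₗ B5m V (W.S c)) w ((a ⊗ₜ[k] (1 : H)) * W.Δ (f i)))
    (by intro s s' c; simp [TensorProduct.add_tmul, add_mul, Finset.sum_add_distrib])
    (by intro r s c; simp [← TensorProduct.smul_tmul', Finset.smul_sum])
    (by intro s c c'; simp [LinearMap.comp_add, WeakHopf.B5c_add, Finset.sum_add_distrib])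
    (by intro r s c; simp [LinearMap.comp_smul, WeakHopf.B5c_smul, Finset.smul_sum]))

theorem WeakHopf.B5Ξ_apply {n : ℕ} (κ : Fin n → V →ₗ[k] k) (f : Fin n → H) (w : V)
    (a c : H) : W.B5Ξ κ f w (a ⊗ₜ[k] c)
      = ∑ i, W.B5c (κ i ∘ₗ B5m V (W.S c)) w ((a ⊗ₜ[k] (1 : H)) * W.Δ (f i)) := rfl

theorem WeakHopf.B5_ΘΞ {n : ℕ} (κ : Fin n → V →ₗ[k] k) (f : Fin n → H) (w : V) (a b c : H) :
    W.B5Θ κ f w ((a ⊗ₜ[k] b) ⊗ₜ[k] c) = W.B5Ξ κ f w (a ⊗ₜ[k] (W.S b * c)) := by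
  rw [WeakHopf.B5Θ_apply, WeakHopf.B5Ξ_apply]
  refine Finset.sum_congr rfl fun i _ => ?_
  rw [WeakHopf.B5c_mul, LinearMap.comp_assoc]
  congr 3
  ext v
  simp [W.S_mul, mul_smul]

theorem WeakHopf.B5Ξ_mul {n : ℕ} (κ : Fin n → V →ₗ[k] k) (f : Fin n → H) (w : V) (h : H)
    (t : H ⊗[k] H) : W.B5Ξ κ f w ((h ⊗ₜ[k] (1 : H)) * t) = h * W.B5Ξ κ f w t := by
  induction t using TensorProduct.induction_on with
  | zero => simp
  | tmul p q =>
    rw [Algebra.TensorProduct.tmul_mul_tmul, one_mul, WeakHopf.B5Ξ_apply, WeakHopf.B5Ξ_apply,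
      Finset.mul_sum]
    refine Finset.sum_congr rfl fun i _ => ?_
    rw [WeakHopf.B5c_mul_left, WeakHopf.B5c_mul_left, mul_assoc]
  | add s t hs ht => simp only [mul_add, map_add, hs, ht]

theorem WeakHopf.B5Ξ_S {n : ℕ} (κ : Fin n → V →ₗ[k] k) (f : Fin n → H) (w : V)
    (t : H ⊗[k] H) : W.B5Ξ κ f w (LinearMap.lTensor H W.S t)
      = ∑ i, W.B5c (κ i) w (t * W.Δ (f i)) := by
  induction t using TensorProduct.induction_on with
  | zero => simp
  | tmul p q =>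
    rw [LinearMap.lTensor_tmul, WeakHopf.B5Ξ_apply]
    refine Finset.sum_congr rfl fun i _ => ?_
    rw [W.B5c_mul (κ i) w p q]
  | add s t hs ht => simp only [add_mul, map_add, hs, ht, Finset.sum_add_distrib]

/-- `p ⊗ q ↦ κ(S(q) v) p`. -/
noncomputable def WeakHopf.B5Ω (κ : V →ₗ[k] k) (v : V) : H ⊗[k] H →ₗ[k] H :=
  TensorProduct.lift (LinearMap.mk₂ k
    (fun p q => κ (W.S q • v) • p)
    (by intro s s' c; simp)
    (by intro r s c; exact smul_comm _ _ _)
    (by intro s c c'; simp [add_smul])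
    (by intro r s c; simp [mul_smul]))

@[simp] theorem WeakHopf.B5Ω_apply (κ : V →ₗ[k] k) (v : V) (p q : H) :
    W.B5Ω κ v (p ⊗ₜ[k] q) = κ (W.S q • v) • p := rfl

theorem WeakHopf.B5Ω_add (κ κ' : V →ₗ[k] k) (w : V) :
    W.B5Ω (κ + κ') w = W.B5Ω κ w + W.B5Ω κ' w := by
  apply TensorProduct.ext'
  intro p q
  simp [add_smul]

theorem WeakHopf.B5Ω_smul (r : k) (κ : V →ₗ[k] k) (w : V) :
    W.B5Ω (r • κ) w = r • W.B5Ω κ w := by
  apply TensorProduct.ext'
  intro p q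
  simp [mul_smul]

theorem WeakHopf.B5_form (g : X →ₗ[H] H) (κ : V →ₗ[k] k) (x : X) (v : V) :
    W.form g κ (x ⊗ₜ[k] v) = W.B5Ω κ v (W.Δ (g x)) := by
  have : ∀ t : H ⊗[k] H, (TensorProduct.rid k H) (LinearMap.lTensor H κ (LinearMap.lTensor H
      (W.actS V) (TensorProduct.assoc k H H V (t ⊗ₜ[k] v)))) = W.B5Ω κ v t := by
    intro t
    induction t using TensorProduct.induction_on with
    | zero => simp
    | tmul p q => simp [WeakHopf.actS]
    | add s t hs ht => simp only [TensorProduct.add_tmul, map_add, hs, ht]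
  rw [← this]
  rfl

/-- `s ⊗ q ↦ Ω(κ ∘ S²(q), v)(s)`. -/
noncomputable def WeakHopf.B5P (κ : V →ₗ[k] k) (v : V) : (H ⊗[k] H) ⊗[k] H →ₗ[k] H :=
  TensorProduct.lift (LinearMap.mk₂ k
    (fun s q => W.B5Ω (κ ∘ₗ B5m V (W.S (W.S q))) v s)
    (by intro s s' c; simp)
    (by intro r s c; simp)
    (by intro s c c'; simp [LinearMap.comp_add, WeakHopf.B5Ω_add])
    (by intro r s c; simp [LinearMap.comp_smul, WeakHopf.B5Ω_smul]))

@[simp] theorem WeakHopf.B5P_apply (κ : V →ₗ[k] k) (v : V) (s : H ⊗[k] H) (q : H) :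
    W.B5P κ v (s ⊗ₜ[k] q) = W.B5Ω (κ ∘ₗ B5m V (W.S (W.S q))) v s := rfl

end snd

section main
variable (b : X ⊗[k] V →ₗ[k] H)

/-- `g_w(x)` -/
noncomputable def WeakHopf.B5g {n : ℕ} (e : Module.Basis (Fin n) k V) (w : V) (x : X) : H :=
  ∑ i, W.B5c (e.coord i) w (W.Δ (b (x ⊗ₜ[k] e i)))

omit [Module H X] [IsScalarTower k H X] in
theorem WeakHopf.B5g_add {n : ℕ} (e : Module.Basis (Fin n) k V) (w : V) (x y : X) :
    W.B5g b e w (x + y) = W.B5g b e w x + W.B5g b e w y := by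
  simp [WeakHopf.B5g, TensorProduct.add_tmul, Finset.sum_add_distrib]

variable (hb : ∀ (h : H) (z : X ⊗[k] V), b (W.ρ X V h z) = h * b z)
include hb

theorem WeakHopf.B5g_smul {n : ℕ} (e : Module.Basis (Fin n) k V) (w : V) (h : H) (x : X) :
    W.B5g b e w (h • x) = h * W.B5g b e w x := by
  have h1 : ∀ t : H ⊗[k] H, ∑ i, W.B5c (e.coord i) w (W.Δ (W.B5Φ b x (e i) t))
      = W.B5Θ (fun i => e.coord i) (fun i => b (x ⊗ₜ[k] e i)) w (LinearMap.rTensor H W.Δ t) := by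
    intro t
    induction t using TensorProduct.induction_on with
    | zero => simp
    | tmul a c =>
      rw [LinearMap.rTensor_tmul, WeakHopf.B5Θ_apply]
      simp only [WeakHopf.B5Φ_apply, W.Δ_mul]
      let Q : V →ₗ[k] (V →ₗ[k] k) →ₗ[k] H := LinearMap.mk₂ k
        (fun v κ => W.B5c κ w (W.Δ a * W.Δ (b (x ⊗ₜ[k] v))))
        (by intro v v' κ; simp [TensorProduct.tmul_add, mul_add])
        (by intro r v κ; simp)
        (by intro v κ κ'; simp [WeakHopf.B5c_add])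
        (by intro r v κ; simp [WeakHopf.B5c_smul])
      exact B5_trace e Q (B5m V (W.S c))
    | add s t hs ht => simp only [map_add, hs, ht, Finset.sum_add_distrib]
  have h2 : W.B5g b e w (h • x) = ∑ i, W.B5c (e.coord i) w (W.Δ (W.B5Φ b x (e i) (W.Δ h))) := by
    unfold WeakHopf.B5g
    refine Finset.sum_congr rfl fun i _ => ?_
    rw [W.B5_fst b hb]
  rw [h2, h1, W.B5_sw_s _ (W.B5Ξ (fun i => e.coord i) (fun i => b (x ⊗ₜ[k] e i)) w)
    (W.B5_ΘΞ _ _ w) h, W.lTensor_εs, W.B5Ξ_mul, W.B5Ξ_S]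
  simp only [← W.Δ_mul, one_mul]
  rfl

theorem WeakHopf.B5_main {n : ℕ} (e : Module.Basis (Fin n) k V) (x : X) (v : V) :
    ∑ a, W.B5Ω (e.coord a) v (W.Δ (W.B5g b e (e a) x)) = b (x ⊗ₜ[k] v) := by
  have h1 : ∀ (κ : V →ₗ[k] k) (t : H ⊗[k] H),
      ∑ a, W.B5Ω (e.coord a) v (W.Δ (W.B5c κ (e a) t))
        = W.B5P κ v (LinearMap.rTensor H W.Δ t) := by
    intro κ t
    induction t using TensorProduct.induction_on with
    | zero => simp
    | tmul p q =>
      rw [LinearMap.rTensor_tmul, WeakHopf.B5P_apply]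
      simp only [WeakHopf.B5c_apply, map_smul]
      generalize W.Δ p = s
      induction s using TensorProduct.induction_on with
      | zero => simp
      | tmul p₁ p₂ =>
        simp only [WeakHopf.B5Ω_apply, LinearMap.comp_apply, B5m_apply]
        have : W.S p₂ • v = ∑ a, e.coord a (W.S p₂ • v) • e a := (e.sum_repr _).symm
        conv_rhs => rw [this]
        rw [Finset.smul_sum, map_sum, Finset.sum_smul]
        refine Finset.sum_congr rfl fun a _ => ?_
        rw [smul_smul, smul_comm (W.S (W.S q)) (e.coord a (W.S p₂ • v)) (e a),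
          LinearMap.map_smul κ, smul_eq_mul, mul_comm]
      | add s t hs ht => simp only [map_add, smul_add, Finset.sum_add_distrib, hs, ht]
    | add s t hs ht => simp only [map_add, hs, ht, Finset.sum_add_distrib]
  have h2 : ∀ (κ : V →ₗ[k] k) (f : H), W.B5P κ v (LinearMap.rTensor H W.Δ (W.Δ f))
      = W.B5Ω κ v (W.Δ 1 * (f ⊗ₜ[k] (1 : H))) := by
    intro κ f
    rw [W.B5_sw_t (W.B5P κ v) (W.B5Ω κ v) ?_ f, W.lTensor_εt]
    intro a c d
    simp [W.S_mul, mul_smul]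
  have h3 : ∀ t : H ⊗[k] H, ∑ i, W.B5Ω (e.coord i) v (t * ((b (x ⊗ₜ[k] e i)) ⊗ₜ[k] (1 : H)))
      = W.B5Φ b x v t := by
    intro t
    induction t using TensorProduct.induction_on with
    | zero => simp
    | tmul p q =>
      rw [WeakHopf.B5Φ_apply]
      have : W.S q • v = ∑ a, e.coord a (W.S q • v) • e a := (e.sum_repr _).symm
      conv_rhs => rw [this]
      rw [TensorProduct.tmul_sum, map_sum, Finset.mul_sum]
      refine Finset.sum_congr rfl fun a _ => ?_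
      rw [TensorProduct.tmul_smul, map_smul, mul_smul_comm,
        Algebra.TensorProduct.tmul_mul_tmul, mul_one, WeakHopf.B5Ω_apply]
    | add s t hs ht => simp only [add_mul, map_add, hs, ht, Finset.sum_add_distrib]
  unfold WeakHopf.B5g
  simp only [map_sum]
  rw [Finset.sum_comm]
  simp only [h1, h2, h3]
  rw [← W.B5_fst b hb, one_smul]

end main

/-- Every `H`-form `b` on `X ⊗ V`, `V` finite dimensional, is a sum of forms `form g κ`. -/
theorem WeakHopf.exists_form [Module.Finite k V] (b : X ⊗[k] V →ₗ[k] H)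
    (hb : ∀ (h : H) (z : X ⊗[k] V), b (W.ρ X V h z) = h * b z) :
    ∃ (n : ℕ) (g : Fin n → (X →ₗ[H] H)) (κ : Fin n → (V →ₗ[k] k)),
      ∀ z, b z = ∑ a, W.form (g a) (κ a) z := by
  let e := Module.finBasis k V
  refine ⟨Module.finrank k V, fun a =>
    { toFun := W.B5g b e (e a)
      map_add' := W.B5g_add b e (e a)
      map_smul' := fun h x => W.B5g_smul b hb e (e a) h x }, fun a => e.coord a, ?_⟩
  intro z
  induction z using TensorProduct.induction_on with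
  | zero => simp
  | add s t hs ht => simp only [map_add, hs, ht, Finset.sum_add_distrib]
  | tmul x v =>
    simp only [WeakHopf.B5_form]
    exact (W.B5_main b hb e x v).symm

end WHI
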