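import Pool.Agent.Lib.MP_c14890_al.B4
import Pool.Agent.Lib.MP_c14890_al.B5

set_option autoImplicit false

open scoped TensorProduct

namespace WHI

variable {k H : Type} [Field k] [Ring H] [Algebra k H] (W : WeakHopf k H)
variable {X K V : Type}
  [AddCommGroup X] [Module k X] [Module H X] [IsScalarTower k H X]
  [AddCommGroup K] [Module k K] [Module H K] [IsScalarTower k H K]
  [AddCommGroup V] [Module k V] [Module H V] [IsScalarTower k H V]

theorem WeakHopf.form_map (g : X →ₗ[H] H) (κ : V →ₗ[k] k) (ι : K →ₗ[H] V) (z : X ⊗[k] K) :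
    W.form g κ (TensorProduct.map ((LinearMap.id : X →ₗ[H] X).restrictScalars k)
      (ι.restrictScalars k) z) = W.form g (κ ∘ₗ ι.restrictScalars k) z := by
  induction z with
  | zero => simp
  | add a b ha hb => simp only [map_add, ha, hb]
  | tmul x v =>
    simp only [WeakHopf.form, LinearMap.comp_apply, TensorProduct.map_tmul,
      LinearMap.rTensor_tmul, LinearEquiv.coe_coe, LinearMap.restrictScalars_apply,
      LinearMap.id_apply]
    congr 1
    generalize W.Δ (g x) = t
    induction t with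
    | zero => simp
    | add a b ha hb => simp only [TensorProduct.add_tmul, map_add, ha, hb]
    | tmul a b =>
      simp [WeakHopf.actS]

/-- Every `H`-linear map `X ⊗̄ K → H` extends to `X ⊗̄ V` if `K ⊆ V` is finite dimensional. -/
theorem WeakHopf.exists_extension [Module.Finite k K] (ι : K →ₗ[H] V)
    (hι : Function.Injective ι) (f : W.WT X K →ₗ[H] H) :
    ∃ f' : W.WT X V →ₗ[H] H, ∀ z, f' (W.wtMap LinearMap.id ι z) = f z := by
  let e : X ⊗[k] K →ₗ[k] W.WT X K := (W.ρ X K 1).codRestrict (W.WT X K) (fun z => W.ρ_mem_WT X K 1 z)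
  let b : X ⊗[k] K →ₗ[k] H := (f.restrictScalars k) ∘ₗ e
  have hb : ∀ (h : H) (z : X ⊗[k] K), b (W.ρ X K h z) = h * b z := by
    intro h z
    have : e (W.ρ X K h z) = h • e z := by
      apply Subtype.ext
      change W.ρ X K 1 (W.ρ X K h z) = W.ρ X K h (W.ρ X K 1 z)
      rw [← W.ρ_mul_apply, ← W.ρ_mul_apply, one_mul, mul_one]
    change f (e (W.ρ X K h z)) = h * f (e z)
    rw [this, map_smul, smul_eq_mul]
  obtain ⟨n, g, κ, hgκ⟩ := W.exists_form b hb
  obtain ⟨r, hr⟩ := LinearMap.exists_leftInverse_of_injective (ι.restrictScalars k)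
    (LinearMap.ker_eq_bot.2 hι)
  let b' : X ⊗[k] V →ₗ[k] H := ∑ a, W.form (g a) ((κ a) ∘ₗ r)
  have hb' : ∀ (h : H) (z : X ⊗[k] V), b' (W.ρ X V h z) = h * b' z := by
    intro h z
    simp only [b', LinearMap.sum_apply, W.form_ρ, Finset.mul_sum]
  refine ⟨{ toFun := fun z => b' z, map_add' := ?_, map_smul' := ?_ }, ?_⟩
  · intro z w
    simp
  · intro h z
    exact hb' h z
  · intro z
    change b' (TensorProduct.map ((LinearMap.id : X →ₗ[H] X).restrictScalars k)
      (ι.restrictScalars k) z) = f z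
    have h1 : e (z : X ⊗[k] K) = z := Subtype.ext ((W.mem_WT_iff X K z).1 z.2)
    have h2 : b z = f z := by
      change f (e z) = f z
      rw [h1]
    rw [← h2, hgκ]
    simp only [b', LinearMap.sum_apply, W.form_map]
    refine Finset.sum_congr rfl fun a _ => ?_
    rw [LinearMap.comp_assoc, hr, LinearMap.comp_id]

end WHI
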