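import Pool.Agent.Lib.MP_c14890_al.ExtDefs
import Pool.Agent.Lib.MP_c14890_al.B1

set_option autoImplicit false

open scoped TensorProduct ModuleCat
open CategoryTheory

namespace WHI

variable {k H : Type} [Field k] [Ring H] [Algebra k H] (W : WeakHopf k H)

theorem WeakHopf.wtHom_comp {X X' X'' V V' V'' : ModuleCat.{0} H} (f : X ⟶ X') (f' : X' ⟶ X'')
    (g : V ⟶ V') (g' : V' ⟶ V'') :
    W.wtHom (f ≫ f') (g ≫ g') = W.wtHom f g ≫ W.wtHom f' g' := by
  apply ModuleCat.hom_ext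
  apply LinearMap.ext
  intro z
  apply Subtype.ext
  change TensorProduct.map _ _ z.1 = TensorProduct.map _ _ (TensorProduct.map _ _ z.1)
  rw [← LinearMap.comp_apply, ← TensorProduct.map_comp]
  rfl

theorem WeakHopf.wtHom_zero_left {X X' V V' : ModuleCat.{0} H} (g : V ⟶ V') :
    W.wtHom (0 : X ⟶ X') g = 0 := by
  apply ModuleCat.hom_ext
  apply LinearMap.ext
  intro z
  apply Subtype.ext
  change TensorProduct.map _ _ z.1 = 0
  have : ((0 : X ⟶ X').hom.restrictScalars k) = 0 := rfl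
  rw [this, TensorProduct.map_zero_left]
  rfl

/-- The short complex `S ⊗̄ V`. -/
noncomputable def WeakHopf.wtSC (S : ShortComplex (ModuleCat.{0} H)) (V : ModuleCat.{0} H) :
    ShortComplex (ModuleCat.{0} H) :=
  ShortComplex.mk (W.wtHom S.f (𝟙 V)) (W.wtHom S.g (𝟙 V)) (by
    rw [← WeakHopf.wtHom_comp, S.zero, WeakHopf.wtHom_zero_left])

theorem WeakHopf.wtSC_shortExact {S : ShortComplex (ModuleCat.{0} H)} (hS : S.ShortExact)
    (V : ModuleCat.{0} H) : (W.wtSC S V).ShortExact := by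
  have h1 : Function.Injective S.f.hom := hS.moduleCat_injective_f
  have h2 : Function.Surjective S.g.hom := hS.moduleCat_surjective_g
  have h3 : Function.Exact S.f.hom S.g.hom :=
    (ShortComplex.ShortExact.moduleCat_exact_iff_function_exact S).1 hS.exact
  refine ModuleCat.shortComplex_shortExact _ ?_ ?_ ?_
  · exact W.wtMap_exact S.f.hom S.g.hom h3
  · exact W.wtMap_injective S.f.hom h1
  · exact W.wtMap_surjective S.g.hom h2

/-- Functoriality of `S ⊗̄ V` in `V`. -/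
noncomputable def WeakHopf.wtSCMap (S : ShortComplex (ModuleCat.{0} H)) {V V' : ModuleCat.{0} H}
    (g : V ⟶ V') : W.wtSC S V ⟶ W.wtSC S V' where
  τ₁ := W.wtHom (𝟙 _) g
  τ₂ := W.wtHom (𝟙 _) g
  τ₃ := W.wtHom (𝟙 _) g
  comm₁₂ := by
    change W.wtHom (𝟙 _) g ≫ W.wtHom S.f (𝟙 V') = W.wtHom S.f (𝟙 V) ≫ W.wtHom (𝟙 _) g
    rw [← WeakHopf.wtHom_comp, ← WeakHopf.wtHom_comp]
    simp
  comm₂₃ := by
    change W.wtHom (𝟙 _) g ≫ W.wtHom S.g (𝟙 V') = W.wtHom S.g (𝟙 V) ≫ W.wtHom (𝟙 _) g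
    rw [← WeakHopf.wtHom_comp, ← WeakHopf.wtHom_comp]
    simp

end WHI
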