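import Pool.Agent.Lib.MP_c14890_al.ExtDefs
import Pool.Agent.Lib.MP_c14890_al.B1
import Pool.Agent.Lib.MP_c14890_al.B2

set_option autoImplicit false

open scoped TensorProduct ModuleCat
open CategoryTheory

namespace WHI

variable {k H : Type} [Field k] [Ring H] [Algebra k H] (W : WeakHopf k H)

theorem WeakHopf.wtMap_bijective {X X' V : Type}
    [AddCommGroup X] [Module k X] [Module H X] [IsScalarTower k H X]
    [AddCommGroup X'] [Module k X'] [Module H X'] [IsScalarTower k H X']
    [AddCommGroup V] [Module k V] [Module H V] [IsScalarTower k H V]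
    (f : X →ₗ[H] X') (hf : Function.Bijective f) :
    Function.Bijective (W.wtMap f (LinearMap.id : V →ₗ[H] V)) :=
  ⟨W.wtMap_injective f hf.1, W.wtMap_surjective f hf.2⟩

theorem WeakHopf.projective_wtObj_aux (U P V : ModuleCat.{0} H) (f : (H ⊗[k] U) →ₗ[H] P)
    (hf : Function.Bijective f) : CategoryTheory.Projective (W.wtObj P V) := by
  have hb := W.wtMap_bijective (V := V) f hf
  have hP := W.projective_WT U V
  have : Module.Projective H (W.WT P V) :=
    Module.Projective.of_equiv
      (LinearEquiv.ofBijective (W.wtMap f (LinearMap.id : V →ₗ[H] V)) hb :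
        W.WT (H ⊗[k] U) V ≃ₗ[H] W.WT P V)
  exact (IsProjective.iff_projective (W.WT P V)).1 this

/-- Every `H`-module `X` has a cover `P → X` (namely `P = H ⊗ X`) such that `P ⊗̄ V` is projective
for all `V`. -/
theorem WeakHopf.exists_cover (X : ModuleCat.{0} H) :
    ∃ (K P : ModuleCat.{0} H) (f : K ⟶ P) (g : P ⟶ X) (w : f ≫ g = 0),
      (ShortComplex.mk f g w).ShortExact ∧
        ∀ V : ModuleCat.{0} H, CategoryTheory.Projective (W.wtObj P V) := by
  let g : (H ⊗[k] X) →ₗ[H] X := TensorProduct.AlgebraTensorModule.lift
    { toFun := fun h => 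
        { toFun := fun x => h • x
          map_add' := smul_add h
          map_smul' := fun c x => by
            change h • c • x = c • h • x
            rw [← algebraMap_smul H c x, ← algebraMap_smul H c (h • x), ← mul_smul, ← mul_smul,
              Algebra.commutes] }
      map_add' := fun a b => by ext x; simp [add_smul]
      map_smul' := fun a b => by ext x; simp [mul_smul] }
  have hg : Function.Surjective g := fun x => ⟨1 ⊗ₜ x, by simp [g]⟩
  have hS := LinearMap.shortExact_shortComplexKer (R := H) hg
  exact ⟨_, ModuleCat.of H (H ⊗[k] X), _, _, _, hS,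
    fun V => W.projective_wtObj_aux X _ V LinearMap.id Function.bijective_id⟩

end WHI
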