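import Pool.Agent.Lib.MP_c14890_al.Defs

/-! # Elementary facts on `FD` -/

set_option autoImplicit false

namespace WHI

variable {k H : Type} [Field k] [Ring H] [Algebra k H]
variable {M M' : Type} [AddCommGroup M] [Module H M] [AddCommGroup M'] [Module H M']

theorem FD.finite (h : FD k H M) [Module k M] [IsScalarTower k H M] : Module.Finite k M := by
  classical
  obtain ⟨n, v, hv⟩ := h
  refine ⟨⟨Finset.univ.image v, ?_⟩⟩
  rw [eq_top_iff]
  intro x _
  obtain ⟨c, rfl⟩ := hv x
  refine Submodule.sum_mem _ fun i _ => ?_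
  rw [algebraMap_smul]
  exact Submodule.smul_mem _ _ (Submodule.subset_span (by simp))

theorem FD.of_finite [Module k M] [IsScalarTower k H M] [Module.Finite k M] : FD k H M := by
  obtain ⟨n, v, hv⟩ := Module.Finite.exists_fin (R := k) (M := M)
  refine ⟨n, v, fun x => ?_⟩
  have hx : x ∈ Submodule.span k (Set.range v) := by rw [hv]; trivial
  rw [Submodule.mem_span_range_iff_exists_fun] at hx
  obtain ⟨c, hc⟩ := hx
  refine ⟨c, ?_⟩
  rw [← hc]
  exact Finset.sum_congr rfl fun i _ => (algebraMap_smul H (c i) (v i)).symm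

theorem FD.of_surjective (h : FD k H M) (f : M →ₗ[H] M') (hf : Function.Surjective f) :
    FD k H M' := by
  obtain ⟨n, v, hv⟩ := h
  refine ⟨n, fun i => f (v i), fun x => ?_⟩
  obtain ⟨y, rfl⟩ := hf x
  obtain ⟨c, hc⟩ := hv y
  refine ⟨c, ?_⟩
  rw [hc, map_sum]
  simp

theorem FD.of_injective (h : FD k H M') (f : M →ₗ[H] M') (hf : Function.Injective f) :
    FD k H M := by
  let _ : Module k M := Module.compHom M (algebraMap k H)
  let _ : Module k M' := Module.compHom M' (algebraMap k H)
  have : IsScalarTower k H M := ⟨fun a b x => by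
    rw [Algebra.smul_def, mul_smul]; rfl⟩
  have : IsScalarTower k H M' := ⟨fun a b x => by
    rw [Algebra.smul_def, mul_smul]; rfl⟩
  have : Module.Finite k M' := h.finite
  have : Module.Finite k M := Module.Finite.of_injective (f.restrictScalars k) hf
  exact FD.of_finite

theorem FD.submodule (h : FD k H M) (N : Submodule H M) : FD k H N :=
  h.of_injective N.subtype N.subtype_injective

theorem FD.quotient (h : FD k H M) (N : Submodule H M) : FD k H (M ⧸ N) :=
  h.of_surjective N.mkQ N.mkQ_surjective

/-- extensions of finite dimensional modules -/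
theorem FD.extension (N : Submodule H M) (h₁ : FD k H N) (h₂ : FD k H (M ⧸ N)) : FD k H M := by
  obtain ⟨n, v, hv⟩ := h₁
  obtain ⟨m, w, hw⟩ := h₂
  choose w' hw' using fun i => N.mkQ_surjective (w i)
  refine ⟨n + m, Fin.append (fun i => (v i : M)) w', fun x => ?_⟩
  obtain ⟨c, hc⟩ := hw (N.mkQ x)
  have hx : x - ∑ i, algebraMap k H (c i) • w' i ∈ N := by
    rw [← Submodule.ker_mkQ N, LinearMap.mem_ker, map_sub, map_sum, sub_eq_zero, hc]
    simp [hw']
  obtain ⟨c', hc'⟩ := hv ⟨_, hx⟩
  refine ⟨Fin.append c' c, ?_⟩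
  rw [Fin.sum_univ_add]
  simp only [Fin.append_left, Fin.append_right]
  have := congrArg (fun z : N => (z : M)) hc'
  simp only [Submodule.coe_sum, Submodule.coe_smul] at this
  rw [← this]
  abel

theorem FD.prod (h : FD k H M) (h' : FD k H M') : FD k H (M × M') := by
  let _ : Module k M := Module.compHom M (algebraMap k H)
  let _ : Module k M' := Module.compHom M' (algebraMap k H)
  have : IsScalarTower k H M := ⟨fun a b x => by
    rw [Algebra.smul_def, mul_smul]; rfl⟩
  have : IsScalarTower k H M' := ⟨fun a b x => by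
    rw [Algebra.smul_def, mul_smul]; rfl⟩
  have : Module.Finite k M' := h'.finite
  have : Module.Finite k M := h.finite
  exact FD.of_finite

theorem FD.pi {n : ℕ} (h : FD k H M) : FD k H (Fin n → M) := by
  let _ : Module k M := Module.compHom M (algebraMap k H)
  have : IsScalarTower k H M := ⟨fun a b x => by
    rw [Algebra.smul_def, mul_smul]; rfl⟩
  have : Module.Finite k M := h.finite
  exact FD.of_finite

/-- A finitely generated module killed by an ideal of finite codimension. -/
theorem FD.of_kills (J : Ideal H) [J.IsTwoSided] (hJ : FD k H (H ⧸ J)) (hM : Kills J M)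
    [Module.Finite H M] : FD k H M := by
  obtain ⟨n, f, hf⟩ := Module.Finite.exists_fin' H M
  -- (H ⧸ J)^n → M
  let g : (Fin n → H ⧸ J) →ₗ[H] M :=
    LinearMap.lsum H (fun _ => H ⧸ J) ℕ (fun i =>
      (J.liftQ (LinearMap.toSpanSingleton H M (f (Pi.single i 1))) (by
        intro a ha
        simp [LinearMap.mem_ker, hM a ha])))
  have hg : Function.Surjective g := by
    intro x
    obtain ⟨y, rfl⟩ := hf x
    refine ⟨fun i => Submodule.Quotient.mk (y i), ?_⟩
    have : y = ∑ i, y i • (Pi.single i (1 : H) : Fin n → H) := by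
      funext j
      simp [Finset.sum_apply, Pi.single_apply]
    conv_rhs => rw [this, map_sum]
    simp only [g, LinearMap.lsum_apply, LinearMap.sum_apply, LinearMap.comp_apply,
      LinearMap.proj_apply, map_smul]
    exact Finset.sum_congr rfl fun i _ => rfl
  exact (FD.pi (n := n) hJ).of_surjective g hg

/-- The annihilator of a finite dimensional module has finite codimension. -/
theorem FD.annihilator (h : FD k H M) : FD k H (H ⧸ Module.annihilator H M) := by
  obtain ⟨n, v, hv⟩ := h
  have h : FD k H M := ⟨n, v, hv⟩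
  let f : H →ₗ[H] (Fin n → M) := LinearMap.pi fun i => LinearMap.toSpanSingleton H M (v i)
  have hf : LinearMap.ker f = Module.annihilator H M := by
    ext a
    rw [LinearMap.mem_ker, Module.mem_annihilator]
    constructor
    · intro ha x
      obtain ⟨c, rfl⟩ := hv x
      rw [Finset.smul_sum]
      refine Finset.sum_eq_zero fun i _ => ?_
      have h1 : a • v i = 0 := congrFun ha i
      rw [← mul_smul, ← Algebra.commutes, mul_smul, h1, smul_zero]
    · intro ha
      funext i
      exact ha (v i)
  let g : (H ⧸ Module.annihilator H M) →ₗ[H] (Fin n → M) :=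
    (Module.annihilator H M).liftQ f hf.ge
  refine FD.of_injective (M' := Fin n → M) h.pi g ?_
  rw [← LinearMap.ker_eq_bot]
  exact Submodule.ker_liftQ_eq_bot _ _ _ hf.le

theorem FD.moduleFinite (h : FD k H M) : Module.Finite H M := by
  classical
  obtain ⟨n, v, hv⟩ := h
  refine ⟨⟨Finset.univ.image v, ?_⟩⟩
  rw [eq_top_iff]
  intro x _
  obtain ⟨c, rfl⟩ := hv x
  refine Submodule.sum_mem _ fun i _ => ?_
  exact Submodule.smul_mem _ _ (Submodule.subset_span (by simp))

/-- Finite intersections and bigger ideals. -/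
theorem FD.mono_ideal {I J : Ideal H} (hIJ : I ≤ J) (h : FD k H (H ⧸ I)) : FD k H (H ⧸ J) :=
  h.of_surjective (Submodule.factor hIJ) (Submodule.factor_surjective hIJ)

end WHI
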