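import Pool.Agent.Lib.MP_c14890_al.ExtDefs
import Pool.Agent.Lib.MP_c14890_al.B6
import Pool.Agent.Lib.MP_c14890_al.B7
import Pool.Agent.Lib.MP_c14890_al.B8
import Pool.Agent.Lib.MP_c14890_al.E1

set_option autoImplicit false

open scoped TensorProduct ModuleCat
open CategoryTheory CategoryTheory.Abelian

namespace WHI

/-- Dimension shifting for surjectivity of restriction maps. -/
theorem shift_surj {R : Type} [Ring R] {S S' : ShortComplex (ModuleCat.{0} R)}
    (hS : S.ShortExact) (hS' : S'.ShortExact) (φ : S ⟶ S') (Y : ModuleCat.{0} R)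
    (hproj : Projective S.X₂) (i : ℕ)
    (h : ∀ η : Ext S.X₁ Y i, ∃ η' : Ext S'.X₁ Y i,
      (Ext.mk₀ φ.τ₁).comp η' (zero_add i) = η) (ξ : Ext S.X₃ Y (i + 1)) :
    ∃ ξ' : Ext S'.X₃ Y (i + 1), (Ext.mk₀ φ.τ₃).comp ξ' (zero_add (i + 1)) = ξ := by
  obtain ⟨η, hη⟩ := Ext.contravariant_sequence_exact₃ hS Y ξ
    (Ext.eq_zero_of_projective _) (n₀ := i) (by omega)
  obtain ⟨η', hη'⟩ := h η
  refine ⟨hS'.extClass.comp η' (by omega), ?_⟩
  rw [← Ext.comp_assoc (a₁₂ := 1) _ _ _ (by omega) (by omega) (by omega),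
    ← ShortComplex.ShortExact.extClass_naturality hS hS' φ,
    Ext.comp_assoc_of_second_deg_zero, hη', hη]

variable {k H : Type} [Field k] [Ring H] [Algebra k H] (W : WeakHopf k H)

/-- `Ext^i(X ⊗̄ V, H) → Ext^i(X ⊗̄ K, H)` is surjective for `K ⊆ V` finite dimensional. -/
theorem WeakHopf.ext_extend (i : ℕ) : ∀ (X K V : ModuleCat.{0} H) (ι : K ⟶ V),
    Function.Injective ι.hom → FD k H K →
    ∀ ξ : Ext (W.wtObj X K) (ModuleCat.of H H) i,
      ∃ ξ' : Ext (W.wtObj X V) (ModuleCat.of H H) i,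
        (Ext.mk₀ (W.wtHom (𝟙 X) ι)).comp ξ' (zero_add i) = ξ := by
  induction i with
  | zero =>
    intro X K V ι hι hK ξ
    obtain ⟨f, rfl⟩ := (Ext.mk₀_bijective (X := W.wtObj X K) (Y := ModuleCat.of H H)).2 ξ
    have : Module.Finite k K := hK.finite
    obtain ⟨f', hf'⟩ := W.exists_extension (X := X) ι.hom hι f.hom
    refine ⟨Ext.mk₀ (ModuleCat.ofHom f' : W.wtObj X V ⟶ ModuleCat.of H H), ?_⟩
    rw [Ext.mk₀_comp_mk₀]
    congr 1
    apply ModuleCat.hom_ext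
    apply LinearMap.ext
    intro z
    exact hf' z
  | succ i ih =>
    intro X K V ι hι hK ξ
    obtain ⟨X₁, P, f, g, w, hS, hP⟩ := W.exists_cover X
    exact shift_surj (W.wtSC_shortExact hS K) (W.wtSC_shortExact hS V)
      (W.wtSCMap (ShortComplex.mk f g w) ι) (ModuleCat.of H H) (hP K) i
      (ih X₁ K V ι hι hK) ξ

end WHI
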