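import Pool.Agent.Lib.MP_c14890_al.B3
import Pool.Agent.Lib.MP_c14890_al.C1

set_option autoImplicit false

open scoped TensorProduct ModuleCat
open CategoryTheory CategoryTheory.Abelian

namespace WHI

variable {k H : Type} [Field k] [Ring H] [Algebra k H] (W : WeakHopf k H)

include W in
/-- `Ext^i(V, H) → Ext^i(K, H)` is surjective for `K ⊆ V` finite dimensional. -/
theorem ext_restrict_surj (i : ℕ) (K V : ModuleCat.{0} H) (ι : K ⟶ V)
    (hι : Function.Injective ι.hom) (hK : FD k H K) (ξ : Ext K (ModuleCat.of H H) i) :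
    ∃ ξ' : Ext V (ModuleCat.of H H) i, (Ext.mk₀ ι).comp ξ' (zero_add i) = ξ := by
  obtain ⟨X₀, q, p, hqp, hq⟩ := W.exists_unit
  obtain ⟨ξ'', h⟩ := W.ext_extend i X₀ K V ι hι hK ((Ext.mk₀ (p K)).comp ξ (zero_add i))
  refine ⟨(Ext.mk₀ (q V)).comp ξ'' (zero_add i), ?_⟩
  rw [Ext.mk₀_comp_mk₀_assoc, ← hq K V ι, ← Ext.mk₀_comp_mk₀_assoc, h,
    Ext.mk₀_comp_mk₀_assoc, hqp, Ext.mk₀_id_comp]

end WHI
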