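import Pool.Agent.Lib.MP_c14890_al.C2
import Pool.Agent.Lib.MP_c14890_al.E1

set_option autoImplicit false

open scoped TensorProduct ModuleCat
open CategoryTheory CategoryTheory.Abelian

namespace WHI

variable {k H : Type} [Field k] [Ring H] [Algebra k H] (W : WeakHopf k H)

include W in
/-- If `Ext^i(-, H)` is effaceable on finite dimensional modules for `i > e`, it vanishes there. -/
theorem ext_fd_vanish (e : ℕ) (hE : Eff k H (ModuleCat.of H H) e) (V : ModuleCat.{0} H)
    (hV : FD k H V) (i : ℕ) (hi : e < i) (ξ : Ext V (ModuleCat.of H H) i) : ξ = 0 := by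
  obtain ⟨V', p, hV', hp, h0⟩ := hE V hV i hi ξ
  have hS := LinearMap.shortExact_shortComplexKer hp
  obtain ⟨j, rfl⟩ : ∃ j, i = 1 + j := ⟨i - 1, by omega⟩
  obtain ⟨η, hη⟩ := Ext.contravariant_sequence_exact₃ hS (ModuleCat.of H H) ξ h0 (n₀ := j) rfl
  obtain ⟨η', hη'⟩ := ext_restrict_surj W j _ _ (p.hom.shortComplexKer).f
    hS.moduleCat_injective_f (hV'.of_injective _ hS.moduleCat_injective_f) η
  rw [← hη, ← hη', ShortComplex.ShortExact.extClass_comp_assoc]

end WHI
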