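import Mathlib

/-! # Razmyslov's transform of the Capelli polynomial: definitions

For `s : ℕ`, `u : Fin s → A`, `y : ℕ → A`, `z : A` put `v = (x, u 0, …, u (s-1))` (`s + 1` entries)
and `cap x u y = ∑_σ sgn σ · y₀ v_{σ 0} y₁ v_{σ 1} ⋯ y_s v_{σ s} y_{s+1}`.  If `x` stands at place
`p = σ⁻¹ 0` the term is `pre · x · suf`; `raz u y z = ∑_σ sgn σ · suf · z · pre`. -/

set_option autoImplicit false

namespace WHI

variable {A : Type*} [Ring A]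

/-- `y₀ w₀ y₁ w₁ ⋯ y_{p-1} w_{p-1} y_p`. -/
def preW (y w : ℕ → A) (p : ℕ) : A :=
  ((List.range p).map fun i => y i * w i).prod * y p

/-- The sequence `i ↦ v (σ i)`, `v = (x, u)`, extended by `1`. -/
def seqW {s : ℕ} (x : A) (u : Fin s → A) (σ : Equiv.Perm (Fin (s + 1))) (i : ℕ) : A :=
  if h : i < s + 1 then (Fin.cons x u : Fin (s + 1) → A) (σ ⟨i, h⟩) else 1

/-- The Capelli polynomial. -/
def cap {s : ℕ} (x : A) (u : Fin s → A) (y : ℕ → A) : A :=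
  ∑ σ : Equiv.Perm (Fin (s + 1)), (Equiv.Perm.sign σ : ℤ) • preW y (seqW x u σ) (s + 1)

/-- Razmyslov's transform: place `p = σ⁻¹ 0` is cut out.  The suffix
`y_{p+1} w_{p+1} ⋯ w_s y_{s+1}` is `preW` for the shifted sequences. -/
def raz {s : ℕ} (u : Fin s → A) (y : ℕ → A) (z : A) : A :=
  ∑ σ : Equiv.Perm (Fin (s + 1)), (Equiv.Perm.sign σ : ℤ) •
    (preW (fun i => y ((σ⁻¹ 0 : Fin (s + 1)) + 1 + i))
        (fun i => seqW 0 u σ ((σ⁻¹ 0 : Fin (s + 1)) + 1 + i)) (s - (σ⁻¹ 0 : Fin (s + 1)))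
      * z * preW y (seqW 0 u σ) (σ⁻¹ 0 : Fin (s + 1)))

end WHI
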