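import Pool.Agent.Lib.MP_c14890_al.Defs

/-! # Multilinear identities -/

set_option autoImplicit false

open scoped TensorProduct

namespace WHI

variable {k : Type} [Field k]

/-- The alternating sum over the sets containing the range of `r`. -/
theorem D1_altsum {l d : ℕ} (r : Fin l → Fin d) :
    ∑ T : Finset (Fin d), (-1 : k) ^ T.card * ∏ p, (if r p ∈ T then (1 : k) else 0)
      = if Function.Surjective r then (-1 : k) ^ d else 0 := by
  classical
  split_ifs with h
  · rw [Finset.sum_eq_single Finset.univ]
    · simp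
    · intro T _ hT
      obtain ⟨j, hj⟩ : ∃ j, j ∉ T := by
        by_contra hcon
        push Not at hcon
        exact hT (Finset.eq_univ_iff_forall.2 hcon)
      obtain ⟨p, hp⟩ := h j
      rw [Finset.prod_eq_zero (Finset.mem_univ p), mul_zero]
      rw [hp, if_neg hj]
    · intro h; exact absurd (Finset.mem_univ _) h
  · have h' : ∃ j, ∀ p, r p ≠ j := by
      by_contra hcon
      push Not at hcon
      exact h hcon
    obtain ⟨j, hj⟩ := h'
    refine Finset.sum_involution (fun T _ => if j ∈ T then T.erase j else insert j T) ?_ ?_ ?_ ?_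
    · intro T _
      have hprod : ∏ p, (if r p ∈ (if j ∈ T then T.erase j else insert j T) then (1 : k) else 0)
          = ∏ p, (if r p ∈ T then (1 : k) else 0) := by
        refine Finset.prod_congr rfl fun p _ => ?_
        have : r p ∈ (if j ∈ T then T.erase j else insert j T) ↔ r p ∈ T := by
          split_ifs
          · rw [Finset.mem_erase]
            exact ⟨fun h => h.2, fun h => ⟨hj p, h⟩⟩
          · rw [Finset.mem_insert]
            exact ⟨fun h => h.resolve_left (hj p), Or.inr⟩
        simp only [this]
      rw [hprod, ← add_mul]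
      have : (-1 : k) ^ T.card + (-1) ^ (if j ∈ T then T.erase j else insert j T).card = 0 := by
        split_ifs with hT
        · have h1 := Finset.card_erase_add_one hT
          rw [← h1, pow_succ]
          ring
        · rw [Finset.card_insert_of_notMem hT, pow_succ]
          ring
      rw [this, zero_mul]
    · intro T _ _
      split_ifs with hT
      · intro h
        have : j ∉ T := by rw [← h]; exact Finset.notMem_erase j T
        exact this hT
      · intro h
        apply hT
        rw [← h]
        exact Finset.mem_insert_self j T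
    · intro T _
      exact Finset.mem_univ _
    · intro T _
      by_cases hT : j ∈ T
      · simp [hT]
      · simp [hT]

/-- The word `u` evaluated at the substitution `x_i ↦ ∑_{j ∈ T, w_j = i} b_j`. -/
theorem D1_expand {H : Type} [Ring H] [Algebra k H] {d l : ℕ} (w : Fin d → ℕ) (u : Fin l → ℕ)
    (b : Fin d → H) (T : Finset (Fin d)) :
    (List.ofFn fun p => ∑ j, (if j ∈ T ∧ w j = u p then b j else 0)).prod
      = ∑ r : Fin l → Fin d, ((∏ p, (if r p ∈ T then (1 : k) else 0))
          * (∏ p, (if w (r p) = u p then (1 : k) else 0))) • (List.ofFn fun p => b (r p)).prod := by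
  classical
  have h1 := (MultilinearMap.mkPiAlgebraFin k l H).map_sum
    (fun (p : Fin l) (j : Fin d) => if j ∈ T ∧ w j = u p then b j else 0)
  simp only [MultilinearMap.mkPiAlgebraFin_apply] at h1
  rw [h1]
  refine Finset.sum_congr rfl fun r _ => ?_
  have h2 := (MultilinearMap.mkPiAlgebraFin k l H).map_smul_univ
    (fun p => (if r p ∈ T then (1 : k) else 0) * (if w (r p) = u p then (1 : k) else 0))
    (fun p => b (r p))
  simp only [MultilinearMap.mkPiAlgebraFin_apply] at h2
  rw [← Finset.prod_mul_distrib, ← h2]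
  congr 2
  funext p
  by_cases h3 : r p ∈ T <;> by_cases h4 : w (r p) = u p <;> simp [h3, h4]

/-- The alternating sum of the substitutions. -/
theorem D1_word {H : Type} [Ring H] [Algebra k H] {d : ℕ} (w : Fin d → ℕ) (u : List ℕ)
    (hu : u.length ≤ d) (b : Fin d → H) :
    ∑ T : Finset (Fin d), (-1 : k) ^ T.card •
        (u.map fun i => ∑ j, (if j ∈ T ∧ w j = i then b j else 0)).prod
      = ∑ σ : Equiv.Perm (Fin d), if List.ofFn (fun p => w (σ p)) = u then
          ((-1 : k) ^ d) • (List.ofFn fun p => b (σ p)).prod else 0 := by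
  classical
  obtain ⟨l, v, rfl⟩ : ∃ (l : ℕ) (v : Fin l → ℕ), List.ofFn v = u :=
    ⟨u.length, fun i => u[i], List.ofFn_getElem⟩
  rw [List.length_ofFn] at hu
  have h1 : ∀ T : Finset (Fin d), (-1 : k) ^ T.card •
      ((List.ofFn v).map fun i => ∑ j, (if j ∈ T ∧ w j = i then b j else 0)).prod
      = ∑ r : Fin l → Fin d, ((-1 : k) ^ T.card * (∏ p, (if r p ∈ T then (1 : k) else 0))
          * (∏ p, (if w (r p) = v p then (1 : k) else 0))) • (List.ofFn fun p => b (r p)).prod := by
    intro T
    rw [List.map_ofFn]
    change (-1 : k) ^ T.card •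
      (List.ofFn fun p => ∑ j, (if j ∈ T ∧ w j = v p then b j else 0)).prod = _
    rw [D1_expand (k := k) w v b T, Finset.smul_sum]
    refine Finset.sum_congr rfl fun r _ => ?_
    rw [smul_smul, mul_assoc]
  simp only [h1]
  rw [Finset.sum_comm]
  have h2 : ∀ r : Fin l → Fin d,
      ∑ T : Finset (Fin d), ((-1 : k) ^ T.card * (∏ p, (if r p ∈ T then (1 : k) else 0))
          * (∏ p, (if w (r p) = v p then (1 : k) else 0))) • (List.ofFn fun p => b (r p)).prod
      = ((if Function.Surjective r then (-1 : k) ^ d else 0)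
          * (∏ p, (if w (r p) = v p then (1 : k) else 0))) • (List.ofFn fun p => b (r p)).prod := by
    intro r
    rw [← Finset.sum_smul, ← Finset.sum_mul, D1_altsum]
  simp only [h2]
  rcases hu.lt_or_eq with hlt | rfl
  · have hns : ∀ r : Fin l → Fin d, ¬ Function.Surjective r := by
      intro r hr
      have := Fintype.card_le_of_surjective r hr
      simp at this
      omega
    rw [Finset.sum_eq_zero, Finset.sum_eq_zero]
    · intro σ _
      rw [if_neg]
      intro h
      have := congrArg List.length h
      simp at this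
      omega
    · intro r _
      rw [if_neg (hns r), zero_mul, zero_smul]
  · symm
    refine Finset.sum_of_injOn (fun σ : Equiv.Perm (Fin l) => (σ : Fin l → Fin l)) ?_ ?_ ?_ ?_
    · intro σ _ τ _ h
      exact Equiv.coe_fn_injective h
    · intro σ _
      exact Finset.mem_coe.2 (Finset.mem_univ _)
    · intro r _ hr
      have : ¬ Function.Surjective r := by
        intro hs
        apply hr
        have hb : Function.Bijective r := Finite.injective_iff_surjective.2 hs |>.bijective_of_finite
        exact ⟨Equiv.ofBijective r hb, Finset.mem_coe.2 (Finset.mem_univ _), rfl⟩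
      rw [if_neg this, zero_mul, zero_smul]
    · intro σ _
      rw [if_pos σ.surjective]
      have : (List.ofFn (fun p => w (σ p)) = List.ofFn v) ↔ ∀ p, w (σ p) = v p := by
        rw [List.ofFn_inj]
        exact funext_iff
      by_cases hv : ∀ p, w (σ p) = v p
      · rw [if_pos (this.2 hv), Finset.prod_eq_one, mul_one]
        intro p _
        rw [if_pos (hv p)]
      · rw [if_neg (fun h => hv (this.1 h))]
        push Not at hv
        obtain ⟨p, hp⟩ := hv
        rw [Finset.prod_eq_zero (Finset.mem_univ p) (if_neg hp), mul_zero, zero_smul]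

theorem D1_multId {H : Type} [Ring H] [Algebra k H] (F : List ℕ →₀ k)
    (hF : ∀ a : ℕ → H, F.sum (fun u c => c • (u.map a).prod) = 0) {d : ℕ} (w : Fin d → ℕ)
    (hw : F (List.ofFn w) ≠ 0) (hd : ∀ u ∈ F.support, u.length ≤ d) : MultId k H d := by
  classical
  refine ⟨fun σ => (F (List.ofFn w))⁻¹ * F (List.ofFn fun p => w (σ p)), ?_, fun b => ?_⟩
  · exact inv_mul_cancel₀ hw
  · have key : ∑ T : Finset (Fin d), (-1 : k) ^ T.card •
        F.sum (fun u c => c • (u.map fun i => ∑ j, (if j ∈ T ∧ w j = i then b j else 0)).prod)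
        = 0 := by
      refine Finset.sum_eq_zero fun T _ => ?_
      rw [hF, smul_zero]
    have h1 : ∑ T : Finset (Fin d), (-1 : k) ^ T.card •
        F.sum (fun u c => c • (u.map fun i => ∑ j, (if j ∈ T ∧ w j = i then b j else 0)).prod)
        = ∑ u ∈ F.support, F u • ∑ T : Finset (Fin d), (-1 : k) ^ T.card •
          (u.map fun i => ∑ j, (if j ∈ T ∧ w j = i then b j else 0)).prod := by
      simp only [Finsupp.sum, Finset.smul_sum]
      rw [Finset.sum_comm]
      refine Finset.sum_congr rfl fun u _ => Finset.sum_congr rfl fun T _ => ?_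
      rw [smul_comm]
    rw [h1] at key
    have h2 : ∑ u ∈ F.support, F u • ∑ T : Finset (Fin d), (-1 : k) ^ T.card •
          (u.map fun i => ∑ j, (if j ∈ T ∧ w j = i then b j else 0)).prod
        = ∑ σ : Equiv.Perm (Fin d), F (List.ofFn fun p => w (σ p)) •
          (((-1 : k) ^ d) • (List.ofFn fun p => b (σ p)).prod) := by
      have h3 : ∀ u ∈ F.support, F u • ∑ T : Finset (Fin d), (-1 : k) ^ T.card •
          (u.map fun i => ∑ j, (if j ∈ T ∧ w j = i then b j else 0)).prod
          = ∑ σ : Equiv.Perm (Fin d), if List.ofFn (fun p => w (σ p)) = u then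
            F u • (((-1 : k) ^ d) • (List.ofFn fun p => b (σ p)).prod) else 0 := by
        intro u hu
        rw [D1_word w u (hd u hu) b, Finset.smul_sum]
        refine Finset.sum_congr rfl fun σ _ => ?_
        split_ifs <;> simp
      rw [Finset.sum_congr rfl h3, Finset.sum_comm]
      refine Finset.sum_congr rfl fun σ _ => ?_
      rw [Finset.sum_ite_eq F.support]
      split_ifs with hmem
      · rfl
      · rw [Finsupp.notMem_support_iff.1 hmem, zero_smul]
    rw [h2] at key
    have h4 := congrArg (fun z => (((-1 : k) ^ d) * (F (List.ofFn w))⁻¹) • z) key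
    simp only [smul_zero, Finset.smul_sum, smul_smul] at h4
    rw [← h4]
    refine Finset.sum_congr rfl fun σ _ => ?_
    congr 1
    have h5 : ((-1 : k) ^ d) * (-1 : k) ^ d = 1 := by
      rw [← mul_pow]; simp
    linear_combination (-(F (List.ofFn w))⁻¹ * F (List.ofFn fun p => w (σ p))) * h5

/-- Multilinearization. -/
theorem IsPI.exists_multId {H : Type} [Ring H] [Algebra k H] (h : IsPI k H) :
    ∃ d : ℕ, 0 < d ∧ MultId k H d := by
  classical
  obtain ⟨f, hf0, hf⟩ := h
  let g : MonoidAlgebra k (FreeMonoid ℕ) := FreeAlgebra.equivMonoidAlgebraFreeMonoid f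
  have hg0 : g ≠ 0 := fun h => hf0 (FreeAlgebra.equivMonoidAlgebraFreeMonoid.injective
    (by rw [map_zero]; exact h))
  let F : List ℕ →₀ k := g.coeff
  have hF0 : F ≠ 0 := fun h => hg0 (MonoidAlgebra.coeff_eq_zero.1 h)
  have hF : ∀ a : ℕ → H, F.sum (fun u c => c • (u.map a).prod) = 0 := by
    intro a
    rw [← hf a]
    have h1 : (MonoidAlgebra.lift k H (FreeMonoid ℕ) (FreeMonoid.lift a)).comp
        (FreeAlgebra.equivMonoidAlgebraFreeMonoid (R := k) (X := ℕ)).toAlgHom
        = FreeAlgebra.lift k a := by
      apply FreeAlgebra.hom_ext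
      funext i
      simp [FreeAlgebra.equivMonoidAlgebraFreeMonoid]
    rw [← h1]
    change _ = MonoidAlgebra.lift k H (FreeMonoid ℕ) (FreeMonoid.lift a) g
    rw [MonoidAlgebra.lift_apply]
    simp only [FreeMonoid.lift_apply]
    rfl
  obtain ⟨u, hu, hmax⟩ := Finset.exists_max_image F.support List.length
    (Finsupp.support_nonempty_iff.2 hF0)
  obtain ⟨d, w, rfl⟩ : ∃ (l : ℕ) (v : Fin l → ℕ), List.ofFn v = u :=
    ⟨u.length, fun i => u[i], List.ofFn_getElem⟩
  have hM := D1_multId F hF w (Finsupp.mem_support_iff.1 hu) (fun u hu => by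
    simpa using hmax u hu)
  rcases Nat.eq_zero_or_pos d with rfl | hd
  · -- `H` is trivial
    obtain ⟨c, hc1, hc⟩ := hM
    have h1 := hc (fun _ => 0)
    have h2 : (1 : H) = 0 := by
      rw [← h1]
      simp [hc1]
    have : Subsingleton H := subsingleton_of_zero_eq_one h2.symm
    exact ⟨1, one_pos, fun _ => 1, rfl, fun a => Subsingleton.elim _ _⟩
  · exact ⟨d, hd, hM⟩

end WHI
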