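import Pool.Agent.Lib.MP_c14890_al.Defs

/-! # Inheritance of multilinear identities -/

set_option autoImplicit false

open scoped TensorProduct

namespace WHI

variable {k : Type} [Field k]

theorem D1b_prod_central {B : Type} [Ring B] (n : ℕ) (z x : Fin n → B)
    (hz : ∀ i, ∀ b : B, z i * b = b * z i) :
    (List.ofFn fun i => z i * x i).prod = (List.ofFn z).prod * (List.ofFn x).prod := by
  induction n with
  | zero => simp
  | succ n ih =>
    have hc : ∀ b, (List.ofFn fun i : Fin n => z i.succ).prod * b
        = b * (List.ofFn fun i : Fin n => z i.succ).prod := by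
      intro b
      have hcl : ∀ l : List B, (∀ y ∈ l, ∀ b : B, y * b = b * y) → ∀ b, l.prod * b = b * l.prod := by
        intro l
        induction l with
        | nil => intro _ b; simp
        | cons a l ihl =>
          intro h b
          rw [List.prod_cons, mul_assoc, ihl (fun y hy => h y (by simp [hy])) b, ← mul_assoc,
            h a (by simp) b, mul_assoc]
      refine hcl _ (fun y hy b => ?_) b
      rw [List.mem_ofFn] at hy
      obtain ⟨i, rfl⟩ := hy
      exact hz _ b
    rw [List.ofFn_succ, List.ofFn_succ, List.ofFn_succ, List.prod_cons, List.prod_cons,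
      List.prod_cons, ih (fun i => z i.succ) (fun i => x i.succ) (fun i => hz i.succ)]
    rw [mul_assoc (z 0), mul_assoc (z 0), ← mul_assoc (x 0), ← hc (x 0), mul_assoc]

/-- The multilinear map attached to the coefficients `c`. -/
noncomputable def D1bMap (k : Type) [Field k] {B : Type} [Ring B] [Algebra k B] {d : ℕ}
    (c : Equiv.Perm (Fin d) → k) : MultilinearMap k (fun _ : Fin d => B) B :=
  ∑ σ : Equiv.Perm (Fin d), c σ • (MultilinearMap.mkPiAlgebraFin k d B).domDomCongr σ

theorem D1bMap_apply {B : Type} [Ring B] [Algebra k B] {d : ℕ}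
    (c : Equiv.Perm (Fin d) → k) (b : Fin d → B) :
    D1bMap k c b = ∑ σ : Equiv.Perm (Fin d), c σ • (List.ofFn fun i => b (σ i)).prod := by
  simp [D1bMap]

/-- A multilinear identity passes to central extensions. -/
theorem MultId.of_span {A B : Type} [Ring A] [Algebra k A] [Ring B] [Algebra k B]
    (φ : A →ₐ[k] B) (Z : Set B) (hZ : ∀ z ∈ Z, ∀ b : B, z * b = b * z)
    (hspan : ∀ b : B, b ∈ AddSubgroup.closure {x : B | ∃ z ∈ Z, ∃ a : A, x = z * φ a})
    {d : ℕ} (h : MultId k A d) : MultId k B d := by
  classical
  obtain ⟨c, hc1, hc⟩ := h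
  refine ⟨c, hc1, fun b => ?_⟩
  rw [← D1bMap_apply]
  have key : ∀ (s : Finset (Fin d)) (b : Fin d → B),
      (∀ i, i ∉ s → ∃ z ∈ Z, ∃ a : A, b i = z * φ a) → D1bMap k c b = 0 := by
    intro s
    induction s using Finset.induction_on with
    | empty =>
      intro b hb
      choose z hz a ha using fun i => hb i (Finset.notMem_empty i)
      rw [D1bMap_apply]
      have h1 : ∀ σ : Equiv.Perm (Fin d), (List.ofFn fun i => b (σ i)).prod
          = (List.ofFn z).prod * φ ((List.ofFn fun i => a (σ i)).prod) := by
        intro σ
        have h2 : (fun i => b (σ i)) = fun i => z (σ i) * φ (a (σ i)) := by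
          funext i
          exact ha (σ i)
        rw [h2, D1b_prod_central d (fun i => z (σ i)) (fun i => φ (a (σ i)))
          (fun i => hZ _ (hz (σ i)))]
        congr 1
        · -- permuting central elements
          have hperm : (List.ofFn fun i => z (σ i)).Perm (List.ofFn z) :=
            σ.ofFn_comp_perm z
          refine hperm.prod_eq' ?_
          refine List.Pairwise.imp_mem.2 ?_ |>.imp (fun {a b} h => h)
          exact List.pairwise_of_forall fun a b ha hb => by
            rw [List.mem_ofFn] at ha
            obtain ⟨i, rfl⟩ := ha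
            exact hZ _ (hz _) _
        · rw [map_list_prod, List.map_ofFn]
          rfl
      simp only [h1]
      have h3 := congrArg φ (hc a)
      rw [map_sum, map_zero] at h3
      have h4 : ∑ σ : Equiv.Perm (Fin d), c σ • ((List.ofFn z).prod *
          φ ((List.ofFn fun i => a (σ i)).prod))
          = (List.ofFn z).prod * ∑ σ : Equiv.Perm (Fin d),
            φ (c σ • (List.ofFn fun i => a (σ i)).prod) := by
        rw [Finset.mul_sum]
        refine Finset.sum_congr rfl fun σ _ => ?_
        rw [map_smul, mul_smul_comm]
      rw [h4, h3, mul_zero]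
    | insert i s his ih =>
      intro b hb
      have hupd : ∀ x : B, D1bMap k c (Function.update b i x) = 0 := by
        intro x
        induction hspan x using AddSubgroup.closure_induction with
        | mem x hx =>
          refine ih _ fun j hj => ?_
          by_cases hji : j = i
          · subst hji
            rw [Function.update_self]
            exact hx
          · rw [Function.update_of_ne hji]
            exact hb j (by simp [hji, hj])
        | zero => exact MultilinearMap.map_coord_zero _ i (by simp)
        | add x y _ _ hx hy => rw [MultilinearMap.map_update_add, hx, hy, add_zero]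
        | neg x _ hx => rw [MultilinearMap.map_update_neg, hx, neg_zero]
      have := hupd (b i)
      rwa [Function.update_eq_self] at this
  exact key Finset.univ b fun i hi => absurd (Finset.mem_univ i) hi

theorem MultId.of_surjective {A B : Type} [Ring A] [Algebra k A] [Ring B] [Algebra k B]
    (φ : A →ₐ[k] B) (hφ : Function.Surjective φ) {d : ℕ} (h : MultId k A d) : MultId k B d := by
  refine h.of_span φ {1} ?_ ?_
  · rintro z rfl b
    rw [one_mul, mul_one]
  · intro b
    obtain ⟨a, rfl⟩ := hφ b
    exact AddSubgroup.subset_closure ⟨1, rfl, a, (one_mul _).symm⟩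

theorem MultId.op {A : Type} [Ring A] [Algebra k A] {d : ℕ} (h : MultId k A d) :
    MultId k Aᵐᵒᵖ d := by
  obtain ⟨c, hc1, hc⟩ := h
  let R : Equiv.Perm (Fin d) ≃ Equiv.Perm (Fin d) :=
    { toFun := fun σ => Fin.revPerm * σ * Fin.revPerm
      invFun := fun σ => Fin.revPerm * σ * Fin.revPerm
      left_inv := fun σ => by
        ext i
        simp
      right_inv := fun σ => by
        ext i
        simp }
  refine ⟨fun σ => c (R σ), ?_, fun a => ?_⟩
  · have : R 1 = 1 := by
      ext i
      simp [R]
    change c (R 1) = 1
    rw [this, hc1]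
  · apply MulOpposite.unop_injective
    rw [MulOpposite.unop_zero, Finset.unop_sum, ← hc (fun j => (a (Fin.rev j)).unop)]
    rw [← Equiv.sum_comp R]
    refine Finset.sum_congr rfl fun σ _ => ?_
    have hRR : R (R σ) = σ := by
      ext i
      simp [R]
    rw [MulOpposite.unop_smul, MulOpposite.unop_list_prod]
    change c (R (R σ)) • _ = _
    rw [hRR]
    congr 2
    apply List.ext_getElem
    · simp
    · intro n h1 h2
      simp only [List.getElem_reverse, List.getElem_map, List.getElem_ofFn, R, Equiv.coe_fn_mk,
        Equiv.Perm.coe_mul, Function.comp_apply, Fin.revPerm_apply]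
      congr 5
      ext
      simp only [List.length_ofFn] at h2
      simp only [List.length_map, List.length_ofFn, Fin.val_rev]
      omega

theorem MultId.polynomial {A : Type} [Ring A] [Algebra k A] {d : ℕ} (h : MultId k A d) :
    MultId k (Polynomial A) d := by
  refine h.of_span (Polynomial.CAlgHom (R := k) (A := A)) {x | ∃ n : ℕ, x = Polynomial.X ^ n} ?_ ?_
  · rintro _ ⟨n, rfl⟩ b
    exact Polynomial.X_pow_mul
  · intro b
    induction b using Polynomial.induction_on' with
    | add p q hp hq => exact AddSubgroup.add_mem _ hp hq
    | monomial n a =>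
      refine AddSubgroup.subset_closure ⟨Polynomial.X ^ n, ⟨n, rfl⟩, a, ?_⟩
      rw [Polynomial.X_pow_mul, ← Polynomial.C_mul_X_pow_eq_monomial]
      rfl

theorem MultId.tensor {A L : Type} [Ring A] [Algebra k A] [CommRing L] [Algebra k L] {d : ℕ}
    (h : MultId k A d) : MultId k (A ⊗[k] L) d := by
  refine h.of_span (Algebra.TensorProduct.includeLeft : A →ₐ[k] A ⊗[k] L)
    {x | ∃ l : L, x = 1 ⊗ₜ[k] l} ?_ ?_
  · rintro _ ⟨l, rfl⟩ b
    induction b with
    | zero => rw [mul_zero, zero_mul]
    | tmul a l' => rw [Algebra.TensorProduct.tmul_mul_tmul, Algebra.TensorProduct.tmul_mul_tmul,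
        one_mul, mul_one, mul_comm]
    | add x y hx hy => rw [mul_add, add_mul, hx, hy]
  · intro b
    induction b with
    | zero => exact AddSubgroup.zero_mem _
    | tmul a l =>
      refine AddSubgroup.subset_closure ⟨1 ⊗ₜ[k] l, ⟨l, rfl⟩, a, ?_⟩
      rw [Algebra.TensorProduct.includeLeft_apply, Algebra.TensorProduct.tmul_mul_tmul, one_mul,
        mul_one]
    | add x y hx hy => exact AddSubgroup.add_mem _ hx hy

end WHI
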