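import Pool.Agent.Lib.MP_c14890_al.D1b

set_option autoImplicit false

open scoped TensorProduct

namespace WHI

/-- A set which is its own centralizer. -/
theorem D2_exists_centralizer (D : Type*) [Ring D] : ∃ S : Set D, S.centralizer = S := by
  obtain ⟨S, hS⟩ := zorn_subset {S : Set D | ∀ a ∈ S, ∀ b ∈ S, a * b = b * a} (by
    intro c hc hchain
    refine ⟨⋃₀ c, ?_, fun s hs => Set.subset_sUnion_of_mem hs⟩
    rintro a ⟨s, hs, ha⟩ b ⟨t, ht, hb⟩
    rcases hchain.total hs ht with h | h
    · exact hc ht a (h ha) b hb
    · exact hc hs a ha b (h hb))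
  refine ⟨S, Set.Subset.antisymm ?_ ?_⟩
  · intro x hx
    have hins : insert x S ∈ {S : Set D | ∀ a ∈ S, ∀ b ∈ S, a * b = b * a} := by
      rintro a (rfl | ha) b (rfl | hb)
      · rfl
      · exact (hx b hb).symm
      · exact hx a ha
      · exact hS.prop a ha b hb
    exact hS.le_of_ge hins (Set.subset_insert x S) (Set.mem_insert x S)
  · intro x hx y hy
    exact hS.prop y hy x hx

section
variable {k D : Type} [Field k] [DivisionRing D] [Algebra k D]

/-- The maximal commutative subalgebra. -/
theorem D2_exists_field : ∃ L : Subalgebra k D, (∀ a ∈ L, ∀ b ∈ L, a * b = b * a) ∧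
    (∀ x : D, (∀ a ∈ L, a * x = x * a) → x ∈ L) ∧ ∀ a ∈ L, a⁻¹ ∈ L := by
  obtain ⟨S, hS⟩ := D2_exists_centralizer D
  have hmem : ∀ x, x ∈ Subalgebra.centralizer k S ↔ x ∈ S := fun x => by
    rw [Subalgebra.mem_centralizer_iff]
    conv_rhs => rw [← hS]
    rfl
  refine ⟨Subalgebra.centralizer k S, ?_, ?_, ?_⟩
  · intro a ha b hb
    rw [Subalgebra.mem_centralizer_iff] at hb
    exact hb a ((hmem a).1 ha)
  · intro x hx
    rw [Subalgebra.mem_centralizer_iff]
    exact fun g hg => hx g ((hmem g).2 hg)
  · intro a ha
    rw [Subalgebra.mem_centralizer_iff] at ha ⊢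
    intro g hg
    rcases eq_or_ne a 0 with rfl | h0
    · simp
    · have := ha g hg
      rw [mul_inv_eq_iff_eq_mul₀ h0, mul_assoc, this, inv_mul_cancel_left₀ h0]

/-- Field structure on a commutative inverse-closed subalgebra. -/
noncomputable abbrev D2_field (L : Subalgebra k D) (h1 : ∀ a ∈ L, ∀ b ∈ L, a * b = b * a)
    (h3 : ∀ a ∈ L, a⁻¹ ∈ L) : Field L where
  __ := (inferInstance : Ring L)
  mul_comm a b := Subtype.ext (h1 a a.2 b b.2)
  inv a := ⟨(a : D)⁻¹, h3 a a.2⟩
  exists_pair_ne := ⟨0, 1, fun h => zero_ne_one (congrArg Subtype.val h)⟩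
  mul_inv_cancel a ha := Subtype.ext (mul_inv_cancel₀ (fun h => ha (Subtype.ext h)))
  inv_zero := Subtype.ext inv_zero
  nnqsmul := _
  nnqsmul_def := fun _ _ => rfl
  qsmul := _
  qsmul_def := fun _ _ => rfl

end

/-- The staircase: a product of elementary shifts kills `e t` unless the indices are consecutive. -/
theorem D2_stair {B M : Type} [Ring B] [AddCommGroup M] [Module B M] (b : ℕ → B) (e : ℕ → M)
    (d : ℕ) (hb : ∀ i < d, ∀ j ≤ d, b i • e j = if j = i + 1 then e i else 0) (l : List ℕ)
    (hl : ∀ i ∈ l, i < d) (t : ℕ) (ht : t ≤ d) :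
    (∃ s, s + l.length = t ∧ l = (List.range l.length).map (s + ·) ∧ (l.map b).prod • e t = e s) ∨
      (l.map b).prod • e t = 0 := by
  induction l using List.reverseRecOn generalizing t with
  | nil => exact Or.inl ⟨t, by simp⟩
  | append_singleton l i ih =>
    have hi : i < d := hl i (by simp)
    rw [List.map_append, List.prod_append, mul_smul]
    simp only [List.map_cons, List.map_nil, List.prod_cons, List.prod_nil, mul_one]
    rw [hb i hi t ht]
    split_ifs with h
    · rcases ih (fun j hj => hl j (by simp [hj])) i hi.le with ⟨s, h1, h2, h3⟩ | h0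
      · left
        refine ⟨s, by simp [h, ← h1]; ring, ?_, h3⟩
        simp only [List.length_append, List.length_cons, List.length_nil, zero_add,
          List.range_succ, List.map_append, List.map_cons, List.map_nil]
        rw [← h2, h1]
      · exact Or.inr h0
    · right; simp

theorem D2_stair1 {B M : Type} [Ring B] [AddCommGroup M] [Module B M] (b : ℕ → B) (e : ℕ → M)
    (d : ℕ) (hb : ∀ i < d, ∀ j ≤ d, b i • e j = if j = i + 1 then e i else 0) (n : ℕ)
    (hn : n ≤ d) : ((List.range n).map b).prod • e n = e 0 := by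
  induction n with
  | zero => simp
  | succ n ih =>
    rw [List.range_succ, List.map_append, List.prod_append, mul_smul]
    simp only [List.map_cons, List.map_nil, List.prod_cons, List.prod_nil, mul_one]
    rw [hb n (by omega) (n + 1) hn, if_pos rfl, ih (by omega)]

section main

variable {k A L M : Type} [Field k] [Ring A] [Algebra k A] [Field L] [Algebra k L]
  [AddCommGroup M] [Module k M] [Module A M] [IsScalarTower k A M] [Module L M]
  [IsScalarTower k L M] [SMulCommClass A L M]

attribute [local instance] TensorProduct.Algebra.module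

variable (k A L M) in
theorem D2_simple [IsSimpleModule A M] : IsSimpleModule (A ⊗[k] L) M := by
  have hA := (isSimpleModule_iff_toSpanSingleton_surjective (R := A) (M := M)).1 inferInstance
  rw [isSimpleModule_iff_toSpanSingleton_surjective]
  refine ⟨hA.1, fun x hx y => ?_⟩
  obtain ⟨a, ha⟩ := hA.2 x hx y
  refine ⟨a ⊗ₜ[k] (1 : L), ?_⟩
  simp only [LinearMap.toSpanSingleton_apply] at ha ⊢
  rw [TensorProduct.Algebra.smul_def, one_smul, ha]

theorem D2_density [IsSimpleModule A M]
    (hcent : ∀ g : Module.End A M, (∀ (l : L) (m : M), g (l • m) = l • g m) →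
      ∃ l : L, ∀ m, g m = l • m) (f : M →ₗ[L] M) (s : Finset M) :
    ∃ b : A ⊗[k] L, ∀ m ∈ s, f m = b • m := by
  have := D2_simple k A L M
  let f' : Module.End (Module.End (A ⊗[k] L) M) M :=
    { toFun := f
      map_add' := map_add f
      map_smul' := by
        intro g m
        let g' : Module.End A M :=
          { toFun := g
            map_add' := map_add g
            map_smul' := by
              intro a m
              have := g.map_smul (a ⊗ₜ[k] (1 : L)) m
              rw [TensorProduct.Algebra.smul_def, TensorProduct.Algebra.smul_def, one_smul,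
                one_smul] at this
              exact this }
        obtain ⟨l, hl⟩ := hcent g' (by
          intro l m
          have := g.map_smul ((1 : A) ⊗ₜ[k] l) m
          rw [TensorProduct.Algebra.smul_def, TensorProduct.Algebra.smul_def, one_smul,
            one_smul] at this
          exact this)
        have hl' : ∀ m, g m = l • m := hl
        change f (g m) = g (f m)
        rw [hl', hl', map_smul] }
  obtain ⟨b, hb⟩ := jacobson_density f' s
  exact ⟨b, fun m hm => hb m hm⟩

theorem D2_bound [IsSimpleModule A M] {d : ℕ} (hA : MultId k A d)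
    (hcent : ∀ g : Module.End A M, (∀ (l : L) (m : M), g (l • m) = l • g m) →
      ∃ l : L, ∀ m, g m = l • m) (e : Fin (d + 1) → M) : ¬ LinearIndependent L e := by
  intro hli
  classical
  -- left inverse of the linear combination map
  have hinj : LinearMap.ker (Fintype.linearCombination L e) = ⊥ :=
    LinearMap.ker_eq_bot.2 (linearIndependent_iff_injective_fintypeLinearCombination.1 hli)
  obtain ⟨g, hg⟩ := LinearMap.exists_leftInverse_of_injective _ hinj
  have hge : ∀ j, g (e j) = Pi.single j 1 := by
    intro j
    have := congrArg (fun f => f (Pi.single j (1 : L))) hg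
    simp only [LinearMap.comp_apply, LinearMap.id_apply] at this
    rw [← this]
    congr 1
    rw [Fintype.linearCombination_apply_single, one_smul]
  have hf : ∀ i : Fin d, ∃ b : A ⊗[k] L, ∀ j : Fin (d + 1),
      b • e j = if (j : ℕ) = i + 1 then e i.castSucc else 0 := by
    intro i
    let f : M →ₗ[L] M := (LinearMap.toSpanSingleton L M (e i.castSucc)) ∘ₗ
      (LinearMap.proj i.succ) ∘ₗ g
    obtain ⟨b, hb⟩ := D2_density (k := k) hcent f (Finset.univ.image e)
    refine ⟨b, fun j => ?_⟩
    rw [← hb (e j) (by simp)]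
    simp only [f, LinearMap.comp_apply, hge, LinearMap.proj_apply,
      LinearMap.toSpanSingleton_apply, Pi.single_apply]
    have : (i.succ = j) ↔ ((j : ℕ) = i + 1) := by
      rw [Fin.ext_iff, Fin.val_succ, eq_comm]
    simp only [this]
    split_ifs <;> simp
  choose b hb using hf
  obtain ⟨c, hc1, hc⟩ := hA.tensor (L := L)
  let b' : ℕ → A ⊗[k] L := fun i => if h : i < d then b ⟨i, h⟩ else 0
  let e' : ℕ → M := fun i => if h : i < d + 1 then e ⟨i, h⟩ else 0
  have hb' : ∀ i < d, ∀ j ≤ d, b' i • e' j = if j = i + 1 then e' i else 0 := by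
    intro i hi j hj
    have hi' : i < d + 1 := by omega
    have hj' : j < d + 1 := by omega
    simp only [b', e', hi, hi', hj', dif_pos]
    rw [hb]
    rfl
  have key := congrArg (fun z => z • e' d) (hc b)
  simp only [zero_smul, Finset.sum_smul] at key
  have hterm : ∀ σ : Equiv.Perm (Fin d),
      (c σ • (List.ofFn fun i => b (σ i)).prod) • e' d = if σ = 1 then e' 0 else 0 := by
    intro σ
    have hprod : (List.ofFn fun i => b (σ i)) = (List.ofFn fun i => ((σ i : Fin d) : ℕ)).map b' := by
      rw [List.map_ofFn]
      congr 1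
      funext i
      simp [b']
    have hsm : ∀ z : A ⊗[k] L, (c σ • z) • e' d = algebraMap k L (c σ) • (z • e' d) := by
      intro z
      have : c σ • z = ((1 : A) ⊗ₜ[k] algebraMap k L (c σ)) * z := by
        rw [← Algebra.TensorProduct.algebraMap_apply', Algebra.smul_def]
      rw [this, mul_smul, TensorProduct.Algebra.smul_def, one_smul]
    rw [hsm, hprod]
    by_cases hσ : σ = 1
    · have hr : (List.ofFn fun i => ((σ i : Fin d) : ℕ)) = List.range d := by
        subst hσ
        apply List.ext_getElem
        · simp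
        · intro n h1 h2
          simp
      rw [hr, D2_stair1 b' e' d hb' d le_rfl, if_pos hσ, hσ, hc1, map_one, one_smul]
    · rw [if_neg hσ]
      rcases D2_stair b' e' d hb' (List.ofFn fun i => ((σ i : Fin d) : ℕ)) (by
        intro i hi
        rw [List.mem_ofFn] at hi
        obtain ⟨j, rfl⟩ := hi
        exact (σ j).2) d le_rfl with ⟨s, h1, h2, h3⟩ | h0
      · exfalso
        have hs0 : s = 0 := by
          rw [List.length_ofFn] at h1
          omega
        subst hs0
        apply hσ
        ext i
        have h4 := congrArg (fun l => l[(i : ℕ)]?) h2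
        simpa using h4
      · rw [h0, smul_zero]
  simp only [hterm] at key
  rw [Finset.sum_ite_eq' Finset.univ (1 : Equiv.Perm (Fin d)), if_pos (Finset.mem_univ _)] at key
  have he0 : e' 0 = e 0 := by simp [e']
  rw [he0] at key
  exact hli.ne_zero 0 key

theorem D2_fin [IsSimpleModule A M] {d : ℕ} (hA : MultId k A d)
    (hcent : ∀ g : Module.End A M, (∀ (l : L) (m : M), g (l • m) = l • g m) →
      ∃ l : L, ∀ m, g m = l • m) : Module.Finite L M ∧ Module.finrank L M ≤ d ∧
      0 < Module.finrank L M := by
  have hrank : Module.rank L M ≤ d := by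
    refine rank_le fun s hs => ?_
    by_contra hcard
    push Not at hcard
    obtain ⟨t, hts, htc⟩ := Finset.exists_subset_card_eq (s := s) (n := d + 1) hcard
    let e : Fin (d + 1) → M := fun i => ((t.equivFinOfCardEq htc).symm i : M)
    refine D2_bound hA hcent e ?_
    have h1 : LinearIndependent L (fun i : t => (i : M)) :=
      hs.comp (fun i : t => (⟨i, hts i.2⟩ : s)) (fun i j h => Subtype.ext (congrArg (fun z : s => (z : M)) h))
    exact h1.comp _ (t.equivFinOfCardEq htc).symm.injective
  have hfin : Module.Finite L M :=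
    Module.rank_lt_aleph0_iff.1 (hrank.trans_lt (Cardinal.natCast_lt_aleph0))
  refine ⟨hfin, Module.finrank_le_of_rank_le hrank, ?_⟩
  have : Nontrivial M := IsSimpleModule.nontrivial A M
  exact Module.finrank_pos

theorem D2_main [IsSimpleModule A M] {d : ℕ} (hA : MultId k A d)
    (hcent : ∀ g : Module.End A M, (∀ (l : L) (m : M), g (l • m) = l • g m) →
      ∃ l : L, ∀ m, g m = l • m) :
    ∃ (m : ℕ) (φ : A →ₐ[k] Matrix (Fin m) (Fin m) L),
      0 < m ∧ m ≤ d ∧ (∀ a : A, φ a = 0 ↔ ∀ x : M, a • x = 0) ∧
      Submodule.span L (Set.range φ) = ⊤ ∧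
      ∀ a : A, φ a ≠ 0 → ∃ (n : ℕ) (u v : Fin n → A), φ (∑ i, u i * a * v i) = 1 := by
  classical
  obtain ⟨hfin, hle, hpos⟩ := D2_fin hA hcent
  let bs := Module.finBasis L M
  let ψ : Module.End L M ≃ₐ[L] Matrix (Fin (Module.finrank L M)) (Fin (Module.finrank L M)) L :=
    algEquivMatrix bs
  let φ₀ : A →ₐ[k] Module.End L M := Algebra.lsmul k L M
  let φ : A →ₐ[k] Matrix (Fin (Module.finrank L M)) (Fin (Module.finrank L M)) L :=
    ((ψ.restrictScalars k : Module.End L M ≃ₐ[k] _) : Module.End L M →ₐ[k] _).comp φ₀
  have hφ : ∀ a, φ a = ψ (φ₀ a) := fun a => rfl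
  have hφ₀ : ∀ a x, φ₀ a x = a • x := fun a x => rfl
  have hker : ∀ a : A, φ a = 0 ↔ ∀ x : M, a • x = 0 := by
    intro a
    rw [hφ, map_eq_zero_iff ψ ψ.injective]
    constructor
    · intro h x
      rw [← hφ₀, h]; rfl
    · intro h
      ext x
      exact h x
  refine ⟨_, φ, hpos, hle, hker, ?_, ?_⟩
  · rw [eq_top_iff]
    intro X _
    obtain ⟨b, hb⟩ := D2_density (k := k) hcent (ψ.symm X) (Finset.univ.image bs)
    -- the action of b
    have key : ∀ b : A ⊗[k] L, ∃ F ∈ Submodule.span L (Set.range φ₀), ∀ m : M, F m = b • m := by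
      intro b
      induction b with
      | zero => exact ⟨0, Submodule.zero_mem _, fun m => by rw [zero_smul]; rfl⟩
      | tmul a l =>
        refine ⟨l • φ₀ a, Submodule.smul_mem _ _ (Submodule.subset_span ⟨a, rfl⟩), fun m => ?_⟩
        rw [TensorProduct.Algebra.smul_def, smul_comm]
        rfl
      | add x y hx hy =>
        obtain ⟨F, hF, hF'⟩ := hx
        obtain ⟨G, hG, hG'⟩ := hy
        exact ⟨F + G, Submodule.add_mem _ hF hG, fun m => by
          rw [add_smul, ← hF', ← hG']; rfl⟩
    obtain ⟨F, hF, hF'⟩ := key b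
    have hFX : F = ψ.symm X := by
      apply bs.ext
      intro i
      rw [hF', hb (bs i) (by simp)]
    rw [hFX] at hF
    have h2 : X ∈ (Submodule.span L (Set.range φ₀)).map (ψ.toLinearEquiv : _ →ₗ[L] _) :=
      ⟨_, hF, by simp⟩
    rw [Submodule.map_span] at h2
    refine Submodule.span_mono ?_ h2
    rintro _ ⟨_, ⟨a, rfl⟩, rfl⟩
    exact ⟨a, rfl⟩
  · intro a ha
    have hx : ∃ x : M, a • x ≠ 0 := by
      by_contra hcon
      push Not at hcon
      exact ha ((hker a).2 hcon)
    obtain ⟨x, hx⟩ := hx
    -- M is finite over its endomorphism ring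
    let D := Module.End A M
    let _ : DivisionRing D := inferInstanceAs (DivisionRing (Module.End A M))
    have hMD : Module.Finite D M := by
      obtain ⟨s, hs⟩ := hfin.fg_top
      refine ⟨s, ?_⟩
      rw [eq_top_iff]
      intro m _
      have hm : m ∈ Submodule.span L (s : Set M) := by rw [hs]; trivial
      induction hm using Submodule.span_induction with
      | mem m hm => exact Submodule.subset_span hm
      | zero => exact Submodule.zero_mem _
      | add x y _ _ hx hy => exact Submodule.add_mem _ (hx trivial) (hy trivial)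
      | smul l y _ hy =>
        let g : D :=
          { toFun := fun z => l • z
            map_add' := smul_add l
            map_smul' := fun a z => (smul_comm a l z).symm }
        exact Submodule.smul_mem _ g (hy trivial)
    let B := Module.finBasis D M
    have hv : ∀ j, ∃ v : A, ∀ i, v • B i = if i = j then x else 0 := by
      intro j
      let f : M →ₗ[D] M := B.constr ℕ (fun i => if i = j then x else 0)
      obtain ⟨v, hv⟩ := jacobson_density f (Finset.univ.image B)
      refine ⟨v, fun i => ?_⟩
      rw [← hv (B i) (by simp)]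
      simp [f]
    choose v hv using hv
    have hA' := (isSimpleModule_iff_toSpanSingleton_surjective (R := A) (M := M)).1 inferInstance
    choose u hu using fun j => hA'.2 (a • x) hx (B j)
    simp only [LinearMap.toSpanSingleton_apply] at hu
    refine ⟨_, u, v, ?_⟩
    rw [← sub_eq_zero, ← map_one φ, ← map_sub, hker]
    have hone : ∀ y : M, (∑ i, u i * a * v i) • y = y := by
      intro y
      have hlin : ∀ y : M, (∑ i, u i * a * v i) • y = Module.toModuleEnd D (S := A) M (∑ i, u i * a * v i) y := fun y => rfl
      rw [hlin]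
      have : Module.toModuleEnd D (S := A) M (∑ i, u i * a * v i) = 1 := by
        apply B.ext
        intro i
        rw [← hlin, Finset.sum_smul]
        rw [Finset.sum_eq_single i]
        · rw [mul_smul, mul_smul, hv, if_pos rfl, hu]
          rfl
        · intro j _ hj
          rw [mul_smul, hv, if_neg (Ne.symm hj), smul_zero]
        · simp
      rw [this]
      rfl
    intro y
    rw [sub_smul, hone, one_smul, sub_self]

end main

/-- Kaplansky: a simple module over an algebra with a multilinear identity of degree `d` gives a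
representation by `m × m` matrices over a field `L`, `0 < m ≤ d`, whose image spans, and the image
is a simple ring. -/
theorem kaplansky {k : Type} [Field k] {A : Type} [Ring A] [Algebra k A] {d : ℕ}
    (hA : MultId k A d) (M : Type)
    [AddCommGroup M] [Module A M] [IsSimpleModule A M] :
    ∃ (L : Type) (_ : Field L) (_ : Algebra k L) (m : ℕ)
      (φ : A →ₐ[k] Matrix (Fin m) (Fin m) L),
      0 < m ∧ m ≤ d ∧ (∀ a : A, φ a = 0 ↔ ∀ x : M, a • x = 0) ∧
      Submodule.span L (Set.range φ) = ⊤ ∧
      ∀ a : A, φ a ≠ 0 → ∃ (n : ℕ) (u v : Fin n → A), φ (∑ i, u i * a * v i) = 1 := by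
  classical
  let _ : Module k M := Module.compHom M (algebraMap k A)
  have : IsScalarTower k A M := ⟨fun r a m => by
    rw [Algebra.smul_def, mul_smul]; rfl⟩
  let _ : DivisionRing (Module.End A M) := inferInstance
  obtain ⟨L, h1, h2, h3⟩ := D2_exists_field (k := k) (D := Module.End A M)
  let _ : Field L := D2_field L h1 h3
  obtain ⟨m, φ, h⟩ := D2_main (k := k) (A := A) (L := L) (M := M) hA (by
    intro g hg
    exact ⟨⟨g, h2 g (fun a ha => by
      ext x
      exact (hg ⟨a, ha⟩ x).symm)⟩, fun m => rfl⟩)
  exact ⟨L, inferInstance, inferInstance, m, φ, h⟩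


end WHI
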