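import Pool.Agent.Lib.MP_c14890_al.D2
import Pool.Agent.Lib.MP_c14890_al.E1

set_option autoImplicit false

namespace WHI

variable {k : Type} [Field k]

/-- Simple modules over affine PI algebras are finite dimensional. -/
theorem simple_fd {A : Type} [Ring A] [Algebra k A] [Algebra.FiniteType k A] {d : ℕ}
    (hA : MultId k A d) (M : Type) [AddCommGroup M] [Module A M] [IsSimpleModule A M] :
    FD k A M := by
  classical
  obtain ⟨L, hLf, hLa, m, φ, hm0, hmd, hker, hspan, hsimple⟩ := kaplansky hA M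
  obtain ⟨t, ht⟩ := (Algebra.FiniteType.out : (⊤ : Subalgebra k A).FG)
  -- the ring of entries
  let E : Finset L := (t ×ˢ (Finset.univ : Finset (Fin m × Fin m))).image
    (fun p => φ p.1 p.2.1 p.2.2)
  let C : Subalgebra k L := Algebra.adjoin k (E : Set L)
  have hent : ∀ a : A, ∀ i j, φ a i j ∈ C := by
    intro a
    have ha : a ∈ Algebra.adjoin k (t : Set A) := by rw [ht]; trivial
    induction ha using Algebra.adjoin_induction with
    | mem x hx =>
      intro i j
      refine Algebra.subset_adjoin ?_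
      simp only [E, Finset.coe_image, Set.mem_image, Finset.mem_coe, Finset.mem_product,
        Finset.mem_univ, and_true]
      exact ⟨(x, (i, j)), hx, rfl⟩
    | algebraMap r =>
      intro i j
      rw [AlgHom.commutes, Matrix.algebraMap_matrix_apply]
      split_ifs
      · exact Subalgebra.algebraMap_mem _ _
      · exact Subalgebra.zero_mem _
    | add x y _ _ hx hy =>
      intro i j
      rw [map_add, Matrix.add_apply]
      exact Subalgebra.add_mem _ (hx i j) (hy i j)
    | mul x y _ _ hx hy =>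
      intro i j
      rw [map_mul, Matrix.mul_apply]
      exact Subalgebra.sum_mem _ fun l _ => Subalgebra.mul_mem _ (hx i l) (hy l j)
  let φ₀ : A → Matrix (Fin m) (Fin m) C := fun a => Matrix.of fun i j => ⟨φ a i j, hent a i j⟩
  let ι : Matrix (Fin m) (Fin m) C →ₐ[k] Matrix (Fin m) (Fin m) L := C.val.mapMatrix
  have hιinj : Function.Injective ι := by
    intro X Y h
    ext i j
    exact congrFun (congrFun h i) j
  have hιφ : ∀ a, ι (φ₀ a) = φ a := by
    intro a
    ext i j
    rfl
  let φC : A →ₐ[k] Matrix (Fin m) (Fin m) C :=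
    { toFun := φ₀
      map_one' := hιinj (by rw [hιφ, map_one, map_one])
      map_mul' := fun a b => hιinj (by rw [hιφ, map_mul, map_mul, hιφ, hιφ])
      map_zero' := hιinj (by rw [hιφ, map_zero, map_zero])
      map_add' := fun a b => hιinj (by rw [hιφ, map_add, map_add, hιφ, hιφ])
      commutes' := fun r => hιinj (by rw [hιφ, AlgHom.commutes, AlgHom.commutes]) }
  have hφC : ∀ a, ι (φC a) = φ a := hιφ
  obtain ⟨I, hI⟩ := Ideal.exists_maximal C
  let _ : Field (C ⧸ I) := Ideal.Quotient.field I
  have hCft : Algebra.FiniteType k C := by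
    rw [← Subalgebra.fg_iff_finiteType]
    exact Subalgebra.fg_adjoin_finset E
  have hqft : Algebra.FiniteType k (C ⧸ I) :=
    Algebra.FiniteType.of_surjective (Ideal.Quotient.mkₐ k I) (Ideal.Quotient.mkₐ_surjective k I)
  have hfin : Module.Finite k (C ⧸ I) := finite_of_finite_type_of_isJacobsonRing k (C ⧸ I)
  let ψ : A →ₐ[k] Matrix (Fin m) (Fin m) (C ⧸ I) := (Ideal.Quotient.mkₐ k I).mapMatrix.comp φC
  have : Nonempty (Fin m) := ⟨⟨0, hm0⟩⟩
  have hψ : ∀ a, ψ a = 0 → ∀ x : M, a • x = 0 := by
    intro a ha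
    rw [← hker]
    by_contra hne
    obtain ⟨n, u, v, huv⟩ := hsimple a hne
    have h1 : φC (∑ i, u i * a * v i) = 1 := hιinj (by rw [hφC, huv, map_one])
    have h2 : ψ (∑ i, u i * a * v i) = 1 := by
      change (Ideal.Quotient.mkₐ k I).mapMatrix (φC (∑ i, u i * a * v i)) = 1
      rw [h1, map_one]
    have h3 : ψ (∑ i, u i * a * v i) = 0 := by
      rw [map_sum]
      refine Finset.sum_eq_zero fun i _ => ?_
      rw [map_mul, map_mul, ha, mul_zero, zero_mul]
    rw [h3] at h2
    exact zero_ne_one h2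
  have hM := (isSimpleModule_iff_toSpanSingleton_surjective (R := A) (M := M)).1 inferInstance
  have := hM.1
  obtain ⟨x, hx⟩ := exists_ne (0 : M)
  let B := Module.finBasis k (LinearMap.range ψ.toLinearMap)
  have hB : ∀ i, ∃ a : A, ψ a = B i := fun i => (B i).2
  choose b hb using hB
  refine ⟨_, fun i => b i • x, fun y => ?_⟩
  obtain ⟨a, ha⟩ := hM.2 x hx y
  simp only [LinearMap.toSpanSingleton_apply] at ha
  refine ⟨fun i => B.repr ⟨ψ a, a, rfl⟩ i, ?_⟩
  have h1 : ψ (a - ∑ i, algebraMap k A (B.repr ⟨ψ a, a, rfl⟩ i) * b i) = 0 := by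
    rw [map_sub, map_sum, sub_eq_zero]
    have := congrArg Subtype.val (B.sum_repr ⟨ψ a, a, rfl⟩)
    rw [AddSubmonoidClass.coe_finsetSum] at this
    refine Eq.trans this.symm ?_
    refine Finset.sum_congr rfl fun i _ => ?_
    rw [map_mul, AlgHom.commutes, hb, ← Algebra.smul_def]
    rfl
  have h2 := hψ _ h1 x
  rw [sub_smul, sub_eq_zero, Finset.sum_smul, ha] at h2
  rw [h2]
  refine Finset.sum_congr rfl fun i _ => ?_
  rw [mul_smul]

end WHI
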