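import Mathlib

set_option autoImplicit false

namespace WHI

/-- Nil ideals of left noetherian prime rings vanish. -/
theorem nil_ideal_eq_bot {S : Type} [Ring S] [IsNoetherianRing S]
    (hprime : ∀ a b : S, (∀ r, a * r * b = 0) → a = 0 ∨ b = 0) (I : Ideal S) [I.IsTwoSided]
    (hI : ∀ x ∈ I, IsNilpotent x) : I = ⊥ := by
  by_contra hne
  obtain ⟨a₀, ha₀, ha₀0⟩ := Submodule.exists_mem_ne_zero_of_ne_bot hne
  let l : S → Ideal S := fun a => LinearMap.ker (LinearMap.toSpanSingleton S S a)
  have hl : ∀ a y, y ∈ l a ↔ y * a = 0 := fun a y => by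
    simp only [l, LinearMap.mem_ker, LinearMap.toSpanSingleton_apply, smul_eq_mul]
  obtain ⟨J, ⟨a, haI, ha0, rfl⟩, hmax⟩ := set_has_maximal_iff_noetherian.2
    (inferInstance : IsNoetherian S S) {J | ∃ a ∈ I, a ≠ 0 ∧ l a = J} ⟨l a₀, a₀, ha₀, ha₀0, rfl⟩
  have haa : ∀ u, a * u * a = 0 := by
    intro u
    by_cases hau : a * u = 0
    · rw [hau, zero_mul]
    · obtain ⟨n, hn⟩ := hI (a * u) (I.mul_mem_right u haI)
      classical
      have hex : ∃ n, (a * u) ^ (n + 1) = 0 := ⟨n, by rw [pow_succ, hn, zero_mul]⟩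
      have hmin : ∀ m, m < Nat.find hex → ¬ (a * u) ^ (m + 1) = 0 := fun m hm => Nat.find_min hex hm
      have hspec := Nat.find_spec hex
      obtain ⟨q, hq⟩ : ∃ q, Nat.find hex = q + 1 := by
        refine Nat.exists_eq_succ_of_ne_zero fun h0 => hau ?_
        have := hspec
        rw [h0] at this
        simpa using this
      have hq1 : (a * u) ^ (q + 1) ≠ 0 := hmin q (by omega)
      have hle : l a ≤ l ((a * u) ^ (q + 1)) := by
        intro y hy
        rw [hl] at hy ⊢
        rw [pow_succ', mul_assoc a u, ← mul_assoc y, hy, zero_mul]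
      have hmem : (a * u) ^ (q + 1) ∈ I := by
        rw [pow_succ']
        exact I.mul_mem_right _ (I.mul_mem_right u haI)
      have heq : l a = l ((a * u) ^ (q + 1)) := by
        by_contra hne
        exact hmax _ ⟨_, hmem, hq1, rfl⟩ (lt_of_le_of_ne hle hne)
      rw [← hl, heq, hl, ← pow_succ']
      rw [hq] at hspec
      exact hspec
  rcases hprime a a haa with h | h <;> exact ha0 h

end WHI
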