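import Pool.Agent.Lib.MP_c14890_al.D4a
import Pool.Agent.Lib.MP_c14890_al.D4b

set_option autoImplicit false

namespace WHI

variable {k : Type} [Field k]

/-- The Jacobson radical of a prime noetherian affine PI algebra vanishes. -/
theorem jacobson_zero {S : Type} [Ring S] [Algebra k S] [Algebra.FiniteType k S]
    [IsNoetherianRing S] {d : ℕ} (hS : MultId k S d)
    (hprime : ∀ a b : S, (∀ r, a * r * b = 0) → a = 0 ∨ b = 0) (r : S) (hr : r ≠ 0) :
    ∃ m : Ideal S, m.IsMaximal ∧ ∃ s : S, r * s ∉ m := by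
  by_contra hcon
  push Not at hcon
  let I : Ideal S :=
    { carrier := {r | ∀ m : Ideal S, m.IsMaximal → ∀ s : S, r * s ∈ m}
      zero_mem' := fun m _ s => by rw [zero_mul]; exact m.zero_mem
      add_mem' := fun {a b} ha hb m hm s => by
        rw [add_mul]; exact m.add_mem (ha m hm s) (hb m hm s)
      smul_mem' := fun c a ha m hm s => by
        rw [smul_eq_mul, mul_assoc]; exact m.mul_mem_left c (ha m hm s) }
  have hI : ∀ a, a ∈ I ↔ ∀ m : Ideal S, m.IsMaximal → ∀ s : S, a * s ∈ m := fun _ => Iff.rfl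
  have h2 : I.IsTwoSided := ⟨fun {a} b ha => by
    rw [hI] at ha ⊢
    intro m hm s
    rw [mul_assoc]
    exact ha m hm (b * s)⟩
  have hbot := nil_ideal_eq_bot hprime I fun x hx => nilpotent_of_kills_simple hS x ((hI x).1 hx)
  have hrI : r ∈ I := (hI r).2 hcon
  rw [hbot, Submodule.mem_bot] at hrI
  exact hr hrI

end WHI
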