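import Pool.Agent.Lib.MP_c14890_al.D1b
import Pool.Agent.Lib.MP_c14890_al.D3

set_option autoImplicit false

open Polynomial

namespace WHI

variable {k : Type} [Field k]

/-- The polynomial ring over an affine algebra is affine. -/
theorem D4a_finiteType {S : Type} [Ring S] [Algebra k S] [Algebra.FiniteType k S] :
    Algebra.FiniteType k S[X] := by
  classical
  obtain ⟨t, ht⟩ := (Algebra.FiniteType.out : (⊤ : Subalgebra k S).FG)
  refine ⟨⟨insert X (t.image C), ?_⟩⟩
  rw [eq_top_iff]
  intro f _
  have hX : (X : S[X]) ∈ Algebra.adjoin k ((insert X (t.image C) : Finset S[X]) : Set S[X]) :=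
    Algebra.subset_adjoin (by simp)
  have hC : ∀ s : S, C s ∈ Algebra.adjoin k ((insert X (t.image C) : Finset S[X]) : Set S[X]) := by
    intro s
    have hs : s ∈ Algebra.adjoin k (t : Set S) := by rw [ht]; trivial
    induction hs using Algebra.adjoin_induction with
    | mem x hx => exact Algebra.subset_adjoin (by
        rw [Finset.coe_insert, Finset.coe_image]
        exact Set.mem_insert_of_mem _ ⟨x, hx, rfl⟩)
    | algebraMap r =>
      have : (C (algebraMap k S r) : S[X]) = algebraMap k S[X] r := rfl
      rw [this]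
      exact Subalgebra.algebraMap_mem _ _
    | add x y _ _ hx hy => rw [C_add]; exact Subalgebra.add_mem _ hx hy
    | mul x y _ _ hx hy => rw [C_mul]; exact Subalgebra.mul_mem _ hx hy
  induction f using Polynomial.induction_on' with
  | add p q hp hq => exact Subalgebra.add_mem _ (hp trivial) (hq trivial)
  | monomial n a =>
    rw [← C_mul_X_pow_eq_monomial]
    exact Subalgebra.mul_mem _ (hC a) (Subalgebra.pow_mem _ hX n)

/-- An element which kills all simple modules acts nilpotently on finite length modules. -/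
theorem D4a_nilp {S : Type} [Ring S] (r : S)
    (hr : ∀ m : Ideal S, m.IsMaximal → ∀ s : S, r * s ∈ m) (M : Type) [AddCommGroup M]
    [Module S M] [IsNoetherian S M] [IsArtinian S M] (N : Submodule S M) :
    ∃ n : ℕ, ∀ x ∈ N, r ^ n • x = 0 := by
  induction N using (wellFounded_lt : WellFounded ((· < ·) : Submodule S M → _ → Prop)).induction
    with
  | _ N ih =>
  by_cases hN : N = ⊥
  · exact ⟨0, fun x hx => by rw [hN, Submodule.mem_bot] at hx; rw [hx, smul_zero]⟩
  · have : Nontrivial N := Submodule.nontrivial_iff_ne_bot.2 hN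
    obtain ⟨K, hK⟩ := IsCoatomic.exists_coatom (α := Submodule S N)
    have hsimple : IsSimpleModule S (N ⧸ K) := isSimpleModule_iff_isCoatom.2 hK
    have hkill : ∀ q : N ⧸ K, r • q = 0 := by
      intro q
      rcases eq_or_ne q 0 with rfl | hq
      · rw [smul_zero]
      · have hsurj : Function.Surjective (LinearMap.toSpanSingleton S (N ⧸ K) q) :=
          ((isSimpleModule_iff_toSpanSingleton_surjective (R := S) (M := N ⧸ K)).1 hsimple).2 q hq
        have hco := LinearMap.isCoatom_ker_of_surjective hsurj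
        have := hr _ ⟨hco⟩ 1
        rw [mul_one, LinearMap.mem_ker, LinearMap.toSpanSingleton_apply] at this
        exact this
    have hlt : K.map N.subtype < N := by
      refine lt_of_le_of_ne (Submodule.map_subtype_le N K) fun h => hK.1 ?_
      rw [eq_top_iff]
      intro x _
      have hx : (x : M) ∈ K.map N.subtype := by rw [h]; exact x.2
      obtain ⟨y, hy, hxy⟩ := hx
      have : y = x := Subtype.ext hxy
      rwa [← this]
    obtain ⟨n, hn⟩ := ih _ hlt
    refine ⟨n + 1, fun x hx => ?_⟩
    rw [pow_succ, mul_smul]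
    refine hn _ ⟨r • ⟨x, hx⟩, ?_, rfl⟩
    have := hkill (Submodule.Quotient.mk ⟨x, hx⟩)
    rwa [← Submodule.Quotient.mk_smul, Submodule.Quotient.mk_eq_zero] at this

theorem D4a_mod {S : Type} [Ring S] [Algebra k S] (r : S)
    (hr : ∀ m : Ideal S, m.IsMaximal → ∀ s : S, r * s ∈ m) (M : Type) [AddCommGroup M]
    [Module S[X] M] (hfd : FD k S[X] M) : ∃ n : ℕ, ∀ x : M, (C (r ^ n) : S[X]) • x = 0 := by
  let _ : Module S M := Module.compHom _ (C : S →+* S[X])
  let _ : Module k M := Module.compHom _ (algebraMap k S[X])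
  have t1 : IsScalarTower k S[X] M := ⟨fun c x y => by
    rw [Algebra.smul_def, mul_smul]; rfl⟩
  have t2 : IsScalarTower k S M := ⟨fun c x y => by
    have h1 : ∀ (s : S) (y : M), s • y = (C s : S[X]) • y := fun _ _ => rfl
    have h2 : ∀ (s : k) (y : M), s • y = (algebraMap k S[X] s) • y := fun _ _ => rfl
    rw [h1, h1, h2, Algebra.smul_def, C_mul, mul_smul]; rfl⟩
  have hfin : Module.Finite k M := hfd.finite
  have hno : IsNoetherian S M := isNoetherian_of_tower k inferInstance
  have har : IsArtinian S M := isArtinian_of_tower k inferInstance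
  obtain ⟨n, hn⟩ := D4a_nilp r hr M ⊤
  exact ⟨n, fun x => hn x trivial⟩

/-- The Jacobson radical of an affine PI algebra is nil. -/
theorem nilpotent_of_kills_simple {S : Type} [Ring S] [Algebra k S] [Algebra.FiniteType k S]
    {d : ℕ} (hS : MultId k S d) (r : S)
    (hr : ∀ m : Ideal S, m.IsMaximal → ∀ s : S, r * s ∈ m) : IsNilpotent r := by
  have hft : Algebra.FiniteType k S[X] := D4a_finiteType
  have htop : Ideal.span {(1 - C r * X : S[X])} = ⊤ := by
    by_contra hne
    obtain ⟨N, hN, hle⟩ := Ideal.exists_le_maximal _ hne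
    have hsimple : IsSimpleModule S[X] (S[X] ⧸ N) :=
      isSimpleModule_iff_isCoatom.2 (Ideal.isMaximal_def.1 hN)
    have hfd : FD k S[X] (S[X] ⧸ N) := simple_fd (hS.polynomial) _
    obtain ⟨n, hn⟩ := D4a_mod r hr (S[X] ⧸ N) hfd
    let v : S[X] ⧸ N := Submodule.Quotient.mk (1 : S[X])
    have hv : v = (C r * X : S[X]) • v := by
      have h1 : (1 - C r * X : S[X]) ∈ N := hle (Ideal.subset_span rfl)
      have h2 : (Submodule.Quotient.mk (1 - C r * X : S[X]) : S[X] ⧸ N) = 0 :=
        (Submodule.Quotient.mk_eq_zero _).2 h1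
      rw [Submodule.Quotient.mk_sub, sub_eq_zero] at h2
      rw [← Submodule.Quotient.mk_smul, smul_eq_mul, mul_one]
      exact h2
    have hvn : ∀ n : ℕ, v = (C (r ^ n) * X ^ n : S[X]) • v := by
      intro n
      induction n with
      | zero => simp
      | succ n ih =>
        have : (C (r ^ (n + 1)) * X ^ (n + 1) : S[X]) = (C (r ^ n) * X ^ n) * (C r * X) := by
          rw [pow_succ, pow_succ, C_mul, mul_assoc, mul_assoc]
          congr 1
          rw [← mul_assoc, ← mul_assoc, (X_pow_mul_C r n)]
        rw [this, mul_smul, ← hv]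
        exact ih
    have hv0 : v = 0 := by
      rw [hvn n, ← X_pow_mul_C, mul_smul]
      rw [hn v, smul_zero]
    have : (1 : S[X]) ∈ N := (Submodule.Quotient.mk_eq_zero _).1 hv0
    exact hN.ne_top (Ideal.eq_top_of_isUnit_mem _ this isUnit_one)
  have h1 : (1 : S[X]) ∈ Ideal.span {(1 - C r * X : S[X])} := by rw [htop]; trivial
  obtain ⟨g, hg⟩ := Submodule.mem_span_singleton.1 h1
  rw [smul_eq_mul, mul_sub, mul_one, ← mul_assoc] at hg
  have h0 : g.coeff 0 = 1 := by
    have := congrArg (fun p => p.coeff 0) hg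
    simpa using this
  have hsucc : ∀ i, g.coeff (i + 1) = g.coeff i * r := by
    intro i
    have := congrArg (fun p => p.coeff (i + 1)) hg
    simp only [coeff_sub, coeff_mul_X, coeff_mul_C, coeff_one, Nat.succ_ne_zero, if_false] at this
    rwa [sub_eq_zero] at this
  have hall : ∀ i, g.coeff i = r ^ i := by
    intro i
    induction i with
    | zero => rw [h0, pow_zero]
    | succ i ih => rw [hsucc, ih, pow_succ]
  refine ⟨g.natDegree + 1, ?_⟩
  rw [← hall]
  exact coeff_eq_zero_of_natDegree_lt (Nat.lt_succ_self _)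

end WHI
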