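import Pool.Agent.Lib.MP_c14890_al.D5c

set_option autoImplicit false

namespace WHI

theorem d5_preW_congr {A : Type*} [Ring A] (y y' w w' : ℕ → A) (n : ℕ)
    (hy : ∀ i ≤ n, y i = y' i) (h : ∀ i < n, w i = w' i) : preW y w n = preW y' w' n := by
  induction n with
  | zero => simp [preW, hy 0 le_rfl]
  | succ n ih =>
    rw [d5a_preW_succ, d5a_preW_succ, ih (fun i hi => hy i (by omega)) (fun i hi => h i (by omega)),
      h n (by omega), hy (n + 1) le_rfl]

theorem d5_preW_lin_y {L A : Type*} [CommRing L] [Ring A] [Algebra L A] (y w : ℕ → A) (j n : ℕ)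
    (hj : j ≤ n) : ∃ ℓ : A →ₗ[L] A, ∀ m, preW (Function.update y j m) w n = ℓ m := by
  induction n with
  | zero =>
    obtain rfl : j = 0 := by omega
    exact ⟨LinearMap.id, fun m => by simp [preW]⟩
  | succ n ih =>
    by_cases hjn : j = n + 1
    · subst hjn
      refine ⟨LinearMap.mulLeft L (preW y w n * w n), fun m => ?_⟩
      rw [d5a_preW_succ, d5_preW_congr (Function.update y (n + 1) m) y w w n]
      · simp [mul_assoc]
      · intro i hi
        rw [Function.update_of_ne (by omega)]
      · intro i _; rfl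
    · obtain ⟨ℓ, hℓ⟩ := ih (by omega)
      refine ⟨LinearMap.mulRight L (w n * y (n + 1)) ∘ₗ ℓ, fun m => ?_⟩
      rw [d5a_preW_succ, hℓ, Function.update_of_ne (by omega)]
      simp [mul_assoc]

theorem d5_preW_lin_w {L A : Type*} [CommRing L] [Ring A] [Algebra L A] (y w : ℕ → A) (j n : ℕ)
    (hj : j < n) : ∃ ℓ : A →ₗ[L] A, ∀ m, preW y (Function.update w j m) n = ℓ m := by
  induction n with
  | zero => omega
  | succ n ih =>
    by_cases hjn : j = n
    · subst hjn
      refine ⟨LinearMap.mulLeft L (preW y w j) ∘ₗ LinearMap.mulRight L (y (j + 1)), fun m => ?_⟩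
      rw [d5a_preW_succ, d5_preW_congr y y (Function.update w j m) w j]
      · simp [mul_assoc]
      · intro i _; rfl
      · intro i hi
        rw [Function.update_of_ne (by omega)]
    · obtain ⟨ℓ, hℓ⟩ := ih (by omega)
      refine ⟨LinearMap.mulRight L (w n * y (n + 1)) ∘ₗ ℓ, fun m => ?_⟩
      rw [d5a_preW_succ, hℓ, Function.update_of_ne (by omega)]
      simp [mul_assoc]

theorem d5_cap_lin_y {L A : Type*} [CommRing L] [Ring A] [Algebra L A] {s : ℕ} (x : A)
    (u : Fin s → A) (y : ℕ → A) (j : ℕ) (hj : j ≤ s + 1) :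
    ∃ ℓ : A →ₗ[L] A, ∀ m, cap x u (Function.update y j m) = ℓ m := by
  choose ℓ hℓ using fun σ : Equiv.Perm (Fin (s + 1)) =>
    d5_preW_lin_y (L := L) y (seqW x u σ) j (s + 1) hj
  refine ⟨∑ σ : Equiv.Perm (Fin (s + 1)), (Equiv.Perm.sign σ : ℤ) • ℓ σ, fun m => ?_⟩
  unfold cap
  simp only [hℓ, LinearMap.sum_apply, LinearMap.smul_apply]

theorem d5_seqW_update {A : Type*} [Ring A] {s : ℕ} (x : A) (u : Fin s → A)
    (σ : Equiv.Perm (Fin (s + 1))) (i : Fin s) (m : A) :
    seqW x (Function.update u i m) σ =
      Function.update (seqW x u σ) ((σ⁻¹ i.succ : Fin (s + 1)) : ℕ) m := by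
  funext j
  by_cases hj : j = ((σ⁻¹ i.succ : Fin (s + 1)) : ℕ)
  · rw [hj, Function.update_self]
    unfold seqW
    rw [dif_pos (Fin.is_lt _)]
    simp
  · rw [Function.update_of_ne hj]
    unfold seqW
    split_ifs with h
    · have h0 : σ ⟨j, h⟩ ≠ i.succ := by
        intro h0
        apply hj
        rw [← h0]; simp
      revert h0
      generalize σ ⟨j, h⟩ = t
      refine Fin.cases ?_ (fun t => ?_) t
      · intro _; simp
      · intro h0
        have h1 : t ≠ i := fun h => h0 (by rw [h])
        simp [Function.update_of_ne h1]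
    · rfl

theorem d5_cap_lin_u {L A : Type*} [CommRing L] [Ring A] [Algebra L A] {s : ℕ} (x : A)
    (u : Fin s → A) (y : ℕ → A) (i : Fin s) :
    ∃ ℓ : A →ₗ[L] A, ∀ m, cap x (Function.update u i m) y = ℓ m := by
  choose ℓ hℓ using fun σ : Equiv.Perm (Fin (s + 1)) =>
    d5_preW_lin_w (L := L) y (seqW x u σ) ((σ⁻¹ i.succ : Fin (s + 1)) : ℕ) (s + 1) (Fin.is_lt _)
  refine ⟨∑ σ : Equiv.Perm (Fin (s + 1)), (Equiv.Perm.sign σ : ℤ) • ℓ σ, fun m => ?_⟩
  unfold cap
  simp only [d5_seqW_update, hℓ, LinearMap.sum_apply, LinearMap.smul_apply]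

theorem d5_raz_eq_zero_iff {L : Type} [Field L] {n s : ℕ} (u : Fin s → Matrix (Fin n) (Fin n) L)
    (y : ℕ → Matrix (Fin n) (Fin n) L) (z : Matrix (Fin n) (Fin n) L) :
    raz u y z = 0 ↔ ∀ x, Matrix.trace (cap x u y * z) = 0 := by
  constructor
  · intro h x
    rw [trace_cap, h]; simp
  · intro h
    ext i j
    have h3 := h (Matrix.single j i 1)
    rw [trace_cap, Matrix.trace_single_mul] at h3
    simpa using h3

theorem d5_span_induct {L M : Type*} [CommRing L] [AddCommGroup M] [Module L M] (T : Set M)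
    {s : ℕ} (P : (Fin s → M) → Prop)
    (hP : ∀ f i, (∀ m ∈ T, P (Function.update f i m)) → ∀ m, P (Function.update f i m))
    (h0 : ∀ f, (∀ i, f i ∈ T) → P f) (f : Fin s → M) : P f := by
  have key : ∀ S : Finset (Fin s), ∀ f : Fin s → M, (∀ i ∉ S, f i ∈ T) → P f := by
    intro S
    induction S using Finset.induction_on with
    | empty => intro f hf; exact h0 f (fun i => hf i (by simp))
    | insert j S _ ih =>
      intro f hf
      have h1 := hP f j (fun m hm => ih _ (fun i hi => by
        by_cases hij : i = j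
        · subst hij; simpa using hm
        · rw [Function.update_of_ne hij]
          exact hf i (by simp [hij, hi]))) (f j)
      rwa [Function.update_eq_self] at h1
  exact key Finset.univ f (fun i hi => absurd (Finset.mem_univ i) hi)

theorem d5_mem_of_span {L : Type} [Field L] {n : ℕ} (T : Set (Matrix (Fin n) (Fin n) L))
    (hT : Submodule.span L T = ⊤) {ι : Type} (F : ι → Matrix (Fin n) (Fin n) L →ₗ[L] L)
    (h : ∀ m ∈ T, ∀ x, F x m = 0) (m : Matrix (Fin n) (Fin n) L) (x : ι) : F x m = 0 := by
  have h1 : Submodule.span L T ≤ LinearMap.ker (F x) := by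
    rw [Submodule.span_le]
    intro m hm
    exact h m hm x
  rw [hT] at h1
  exact h1 Submodule.mem_top

/-- `raz` does not vanish on a spanning set. -/
theorem raz_ne_zero_of_span {L : Type} [Field L] {n s : ℕ} (hn : n * n = s + 1)
    (T : Set (Matrix (Fin n) (Fin n) L)) (hT : Submodule.span L T = ⊤) :
    ∃ (a b : Fin s → Matrix (Fin n) (Fin n) L) (y : ℕ → Matrix (Fin n) (Fin n) L)
      (z : Matrix (Fin n) (Fin n) L), (∀ i, a i ∈ T) ∧ (∀ i, b i ∈ T) ∧ (∀ i, y i ∈ T) ∧
        z ∈ T ∧ raz (fun i => a i * b i - b i * a i) y z ≠ 0 := by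
  by_contra hcon
  push Not at hcon
  have hn0 : 0 < n := by
    rcases Nat.eq_zero_or_pos n with h | h
    · subst h; simp at hn
    · exact h
  have hne : T.Nonempty := by
    by_contra h
    rw [Set.not_nonempty_iff_eq_empty] at h
    rw [h, Submodule.span_empty] at hT
    have h1 : Matrix.single (⟨0, hn0⟩ : Fin n) ⟨0, hn0⟩ (1 : L) ∈
        (⊤ : Submodule L (Matrix (Fin n) (Fin n) L)) := Submodule.mem_top
    rw [← hT, Submodule.mem_bot] at h1
    have h2 := congrFun (congrFun h1 ⟨0, hn0⟩) ⟨0, hn0⟩
    simp at h2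
  obtain ⟨t0, ht0⟩ := hne
  -- step 1: z
  have s1 : ∀ (a b : Fin s → Matrix (Fin n) (Fin n) L) (y : ℕ → Matrix (Fin n) (Fin n) L)
      (z : Matrix (Fin n) (Fin n) L), (∀ i, a i ∈ T) → (∀ i, b i ∈ T) → (∀ i, y i ∈ T) →
        raz (fun i => a i * b i - b i * a i) y z = 0 := by
    intro a b y z ha hb hy
    rw [d5_raz_eq_zero_iff]
    exact d5_mem_of_span T hT (fun x => Matrix.traceLinearMap (Fin n) L L ∘ₗ
      LinearMap.mulLeft L (cap x (fun i => a i * b i - b i * a i) y))
      (fun m hm => (d5_raz_eq_zero_iff _ _ _).mp (hcon a b y m ha hb hy hm)) z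
  -- step 2: y
  have s2' : ∀ (a b : Fin s → Matrix (Fin n) (Fin n) L) (z : Matrix (Fin n) (Fin n) L),
      (∀ i, a i ∈ T) → (∀ i, b i ∈ T) → ∀ y : Fin (s + 2) → Matrix (Fin n) (Fin n) L,
        raz (fun i => a i * b i - b i * a i)
          (fun i => if h : i < s + 2 then y ⟨i, h⟩ else t0) z = 0 := by
    intro a b z ha hb
    have hupd : ∀ (f : Fin (s + 2) → Matrix (Fin n) (Fin n) L) (j : Fin (s + 2))
        (m : Matrix (Fin n) (Fin n) L),
        (fun i => if h : i < s + 2 then (Function.update f j m) ⟨i, h⟩ else t0) =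
          Function.update (fun i => if h : i < s + 2 then f ⟨i, h⟩ else t0) (j : ℕ) m := by
      intro f j m
      funext i
      by_cases hij : i = j
      · subst hij; simp
      · rw [Function.update_of_ne hij]
        split_ifs with h
        · rw [Function.update_of_ne]
          intro h1; apply hij; rw [← h1]
        · rfl
    apply d5_span_induct (L := L) T
    · intro f j hf m
      rw [hupd]
      rw [d5_raz_eq_zero_iff]
      choose ℓ hℓ using fun x => d5_cap_lin_y (L := L) x (fun i => a i * b i - b i * a i)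
        (fun i => if h : i < s + 2 then f ⟨i, h⟩ else t0) (j : ℕ)
        (by have := j.is_lt; omega)
      have := d5_mem_of_span T hT (fun x => Matrix.traceLinearMap (Fin n) L L ∘ₗ
        LinearMap.mulRight L z ∘ₗ ℓ x) (fun m hm x => by
          have h1 := hf m hm
          rw [hupd, d5_raz_eq_zero_iff] at h1
          have h2 := h1 x
          rw [hℓ] at h2
          simpa using h2) m
      intro x
      rw [hℓ]
      simpa using this x
    · intro f hf
      apply s1 _ _ _ _ ha hb
      intro i
      split_ifs with h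
      · exact hf _
      · exact ht0
  have s2 : ∀ (a b : Fin s → Matrix (Fin n) (Fin n) L) (z : Matrix (Fin n) (Fin n) L)
      (y : ℕ → Matrix (Fin n) (Fin n) L), (∀ i, a i ∈ T) → (∀ i, b i ∈ T) →
        raz (fun i => a i * b i - b i * a i) y z = 0 := by
    intro a b z y ha hb
    have h1 := s2' a b z ha hb (fun i => y i)
    rw [d5_raz_eq_zero_iff] at h1 ⊢
    intro x
    rw [← h1 x]
    congr 2
    unfold cap
    apply Finset.sum_congr rfl
    intro σ _
    rw [d5_preW_congr y (fun i => if h : i < s + 2 then y i else t0) _ _ (s + 1)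
      (fun i hi => by rw [dif_pos (by omega)]) (fun i _ => rfl)]
  -- step 3: a
  have s3 : ∀ (b : Fin s → Matrix (Fin n) (Fin n) L) (z : Matrix (Fin n) (Fin n) L)
      (y : ℕ → Matrix (Fin n) (Fin n) L), (∀ i, b i ∈ T) →
      ∀ a : Fin s → Matrix (Fin n) (Fin n) L,
        raz (fun i => a i * b i - b i * a i) y z = 0 := by
    intro b z y hb
    apply d5_span_induct (L := L) T
    · intro f j hf m
      have hupd : ∀ m, (fun i => Function.update f j m i * b i - b i * Function.update f j m i) =
          Function.update (fun i => f i * b i - b i * f i) j (m * b j - b j * m) := by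
        intro m
        funext i
        by_cases hij : i = j
        · subst hij; simp
        · rw [Function.update_of_ne hij, Function.update_of_ne hij]
      rw [hupd, d5_raz_eq_zero_iff]
      choose ℓ hℓ using fun x => d5_cap_lin_u (L := L) x (fun i => f i * b i - b i * f i) y j
      have := d5_mem_of_span T hT (fun x => Matrix.traceLinearMap (Fin n) L L ∘ₗ
        LinearMap.mulRight L z ∘ₗ ℓ x ∘ₗ (LinearMap.mulRight L (b j) - LinearMap.mulLeft L (b j)))
        (fun m hm x => by
          have h1 := hf m hm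
          rw [hupd, d5_raz_eq_zero_iff] at h1
          have h2 := h1 x
          rw [hℓ] at h2
          simpa using h2) m
      intro x
      rw [hℓ]
      simpa using this x
    · intro f hf
      exact s2 _ _ _ _ hf hb
  -- step 4: b
  have s4 : ∀ (a : Fin s → Matrix (Fin n) (Fin n) L) (z : Matrix (Fin n) (Fin n) L)
      (y : ℕ → Matrix (Fin n) (Fin n) L), ∀ b : Fin s → Matrix (Fin n) (Fin n) L,
        raz (fun i => a i * b i - b i * a i) y z = 0 := by
    intro a z y
    apply d5_span_induct (L := L) T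
    · intro f j hf m
      have hupd : ∀ m, (fun i => a i * Function.update f j m i - Function.update f j m i * a i) =
          Function.update (fun i => a i * f i - f i * a i) j (a j * m - m * a j) := by
        intro m
        funext i
        by_cases hij : i = j
        · subst hij; simp
        · rw [Function.update_of_ne hij, Function.update_of_ne hij]
      rw [hupd, d5_raz_eq_zero_iff]
      choose ℓ hℓ using fun x => d5_cap_lin_u (L := L) x (fun i => a i * f i - f i * a i) y j
      have := d5_mem_of_span T hT (fun x => Matrix.traceLinearMap (Fin n) L L ∘ₗ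
        LinearMap.mulRight L z ∘ₗ ℓ x ∘ₗ (LinearMap.mulLeft L (a j) - LinearMap.mulRight L (a j)))
        (fun m hm x => by
          have h1 := hf m hm
          rw [hupd, d5_raz_eq_zero_iff] at h1
          have h2 := h1 x
          rw [hℓ] at h2
          simpa using h2) m
      intro x
      rw [hℓ]
      simpa using this x
    · intro f hf
      exact s3 f z y hf a
  obtain ⟨a, b, y, z, h⟩ := raz_ne_zero (L := L) hn
  exact h (s4 a z y b)

end WHI
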