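import Pool.Agent.Lib.MP_c14890_al.CPDefs

set_option autoImplicit false

namespace WHI

theorem d5a_preW_succ {A : Type*} [Ring A] (y w : ℕ → A) (n : ℕ) :
    preW y w (n + 1) = preW y w n * w n * y (n + 1) := by
  simp only [preW, List.range_succ, List.map_append, List.prod_append, List.map_cons,
    List.map_nil, List.prod_cons, List.prod_nil, mul_one, mul_assoc]

theorem d5a_preW_split {A : Type*} [Ring A] (y w : ℕ → A) (a b : ℕ) :
    preW y w (a + 1 + b) = preW y w a * w a *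
      preW (fun i => y (a + 1 + i)) (fun i => w (a + 1 + i)) b := by
  induction b with
  | zero =>
    rw [Nat.add_zero, d5a_preW_succ]
    simp [preW]
  | succ b ih =>
    rw [← Nat.add_assoc, d5a_preW_succ, ih, d5a_preW_succ]
    simp only [mul_assoc, Nat.add_assoc]

theorem d5a_preW_congr {A : Type*} [Ring A] (y w w' : ℕ → A) (n : ℕ)
    (h : ∀ i < n, w i = w' i) : preW y w n = preW y w' n := by
  unfold preW
  congr 2
  apply List.map_congr_left
  intro i hi
  rw [h i (List.mem_range.mp hi)]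

theorem d5a_seqW_eq {A : Type*} [Ring A] {s : ℕ} (x x' : A) (u : Fin s → A)
    (σ : Equiv.Perm (Fin (s + 1))) (i : ℕ) (hi : i ≠ ((σ⁻¹ 0 : Fin (s + 1)) : ℕ)) :
    seqW x u σ i = seqW x' u σ i := by
  unfold seqW
  split_ifs with h
  · have h0 : σ ⟨i, h⟩ ≠ 0 := by
      intro h0
      apply hi
      have : (σ⁻¹ 0 : Fin (s + 1)) = ⟨i, h⟩ := by
        rw [← h0]; simp
      rw [this]
    obtain ⟨j, hj⟩ := Fin.exists_succ_eq.mpr h0
    rw [← hj, Fin.cons_succ, Fin.cons_succ]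
  · rfl

theorem d5a_seqW_self {A : Type*} [Ring A] {s : ℕ} (x : A) (u : Fin s → A)
    (σ : Equiv.Perm (Fin (s + 1))) :
    seqW x u σ ((σ⁻¹ 0 : Fin (s + 1)) : ℕ) = x := by
  unfold seqW
  rw [dif_pos (Fin.is_lt _)]
  simp

theorem d5a_cap_term {A : Type*} [Ring A] {s : ℕ} (x : A) (u : Fin s → A) (y : ℕ → A)
    (σ : Equiv.Perm (Fin (s + 1))) :
    preW y (seqW x u σ) (s + 1) = preW y (seqW 0 u σ) (σ⁻¹ 0 : Fin (s + 1)) * x *
      preW (fun i => y ((σ⁻¹ 0 : Fin (s + 1)) + 1 + i))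
        (fun i => seqW 0 u σ ((σ⁻¹ 0 : Fin (s + 1)) + 1 + i)) (s - (σ⁻¹ 0 : Fin (s + 1))) := by
  have hp : ((σ⁻¹ 0 : Fin (s + 1)) : ℕ) + 1 + (s - (σ⁻¹ 0 : Fin (s + 1))) = s + 1 := by
    have := (σ⁻¹ 0 : Fin (s + 1)).is_lt
    omega
  have h1 := d5a_preW_split y (seqW x u σ) (σ⁻¹ 0 : Fin (s + 1)) (s - (σ⁻¹ 0 : Fin (s + 1)))
  rw [hp] at h1
  rw [h1, d5a_seqW_self]
  congr 1
  · congr 1
    apply d5a_preW_congr
    intro i hi
    exact d5a_seqW_eq _ _ _ _ _ (by omega)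
  · apply d5a_preW_congr
    intro i hi
    exact d5a_seqW_eq _ _ _ _ _ (by omega)

/-- `tr (cap(x, u, y) z) = tr (x raz(u, y, z))` over matrices. -/
theorem trace_cap {L : Type} [CommRing L] {n s : ℕ} (x : Matrix (Fin n) (Fin n) L)
    (u : Fin s → Matrix (Fin n) (Fin n) L) (y : ℕ → Matrix (Fin n) (Fin n) L)
    (z : Matrix (Fin n) (Fin n) L) :
    Matrix.trace (cap x u y * z) = Matrix.trace (x * raz u y z) := by
  unfold cap raz
  rw [Finset.sum_mul, Finset.mul_sum, Matrix.trace_sum, Matrix.trace_sum]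
  apply Finset.sum_congr rfl
  intro σ _
  rw [smul_mul_assoc, mul_smul_comm, Matrix.trace_smul, Matrix.trace_smul, d5a_cap_term]
  congr 1
  generalize preW y (seqW 0 u σ) (σ⁻¹ 0 : Fin (s + 1)) = P
  generalize preW (fun i => y ((σ⁻¹ 0 : Fin (s + 1)) + 1 + i))
        (fun i => seqW 0 u σ ((σ⁻¹ 0 : Fin (s + 1)) + 1 + i)) (s - (σ⁻¹ 0 : Fin (s + 1))) = Q
  rw [mul_assoc, mul_assoc, Matrix.trace_mul_comm]
  simp only [mul_assoc]

theorem d5a_map_preW {A B : Type*} [Ring A] [Ring B] (φ : A →+* B) (y w : ℕ → A) (n : ℕ) :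
    φ (preW y w n) = preW (fun i => φ (y i)) (fun i => φ (w i)) n := by
  unfold preW
  rw [map_mul, map_list_prod, List.map_map]
  simp [Function.comp_def]

theorem d5a_map_seqW {A B : Type*} [Ring A] [Ring B] (φ : A →+* B) {s : ℕ} (x : A)
    (u : Fin s → A) (σ : Equiv.Perm (Fin (s + 1))) (i : ℕ) :
    φ (seqW x u σ i) = seqW (φ x) (fun i => φ (u i)) σ i := by
  unfold seqW
  split_ifs with h
  · generalize σ ⟨i, h⟩ = j
    refine Fin.cases ?_ (fun j => ?_) j
    · simp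
    · simp
  · simp

/-- `raz` is natural. -/
theorem map_raz {A B : Type} [Ring A] [Ring B] (φ : A →+* B) {s : ℕ} (u : Fin s → A)
    (y : ℕ → A) (z : A) :
    φ (raz u y z) = raz (fun i => φ (u i)) (fun i => φ (y i)) (φ z) := by
  unfold raz
  rw [map_sum]
  apply Finset.sum_congr rfl
  intro σ _
  rw [map_zsmul, map_mul, map_mul, d5a_map_preW, d5a_map_preW]
  simp only [d5a_map_seqW, map_zero]

/-- `raz` has values in the two-sided ideal generated by `z`. -/
theorem raz_mem {A : Type} [Ring A] (I : Ideal A) [I.IsTwoSided] {s : ℕ} (u : Fin s → A)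
    (y : ℕ → A) (z : A) (hz : z ∈ I) : raz u y z ∈ I := by
  unfold raz
  apply I.sum_mem
  intro σ _
  apply zsmul_mem
  exact I.mul_mem_right _ (I.mul_mem_left _ hz)

end WHI
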