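import Pool.Agent.Lib.MP_c14890_al.D5a

set_option autoImplicit false

namespace WHI

theorem d5b_ofFn {A : Type*} [Ring A] (s : ℕ) (y : ℕ → A) (v : Fin (s + 1) → A) :
    (List.ofFn fun i : Fin (s + 1) => y i * v i).prod * y (s + 1) =
      preW y (fun i => if h : i < s + 1 then v ⟨i, h⟩ else 1) (s + 1) := by
  unfold preW
  congr 2
  rw [List.ofFn_eq_map, ← List.map_coe_finRange_eq_range, List.map_map]
  apply List.map_congr_left
  intro i _
  simp only [Function.comp, dif_pos i.is_lt, Fin.eta]

/-- `preW` as a multilinear map. -/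
noncomputable def d5b_mult {L : Type} [CommRing L] {n : ℕ} (s : ℕ)
    (y : ℕ → Matrix (Fin n) (Fin n) L) :
    MultilinearMap L (fun _ : Fin (s + 1) => Matrix (Fin n) (Fin n) L)
      (Matrix (Fin n) (Fin n) L) :=
  (LinearMap.mulRight L (y (s + 1))).compMultilinearMap
    ((MultilinearMap.mkPiAlgebraFin L (s + 1) (Matrix (Fin n) (Fin n) L)).compLinearMap
      (fun i => LinearMap.mulLeft L (y i)))

theorem d5b_mult_apply {L : Type} [CommRing L] {n : ℕ} (s : ℕ)
    (y : ℕ → Matrix (Fin n) (Fin n) L) (v : Fin (s + 1) → Matrix (Fin n) (Fin n) L) :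
    d5b_mult s y v = preW y (fun i => if h : i < s + 1 then v ⟨i, h⟩ else 1) (s + 1) := by
  rw [← d5b_ofFn]
  simp [d5b_mult]

theorem d5b_alt_apply {L : Type} [CommRing L] {n : ℕ} (s : ℕ)
    (y : ℕ → Matrix (Fin n) (Fin n) L) (v : Fin (s + 1) → Matrix (Fin n) (Fin n) L) :
    MultilinearMap.alternatization (d5b_mult s y) v = cap (v 0) (fun i => v i.succ) y := by
  rw [MultilinearMap.alternatization_apply]
  unfold cap
  apply Finset.sum_congr rfl
  intro σ _
  rw [MultilinearMap.domDomCongr_apply, d5b_mult_apply]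
  have hs : (fun i => if h : i < s + 1 then v (σ ⟨i, h⟩) else 1) =
      seqW (v 0) (fun i => v i.succ) σ := by
    funext i
    unfold seqW
    have : (Fin.cons (v 0) (fun i => v i.succ) : Fin (s + 1) → Matrix (Fin n) (Fin n) L) = v :=
      Fin.cons_self_tail v
    rw [this]
  rw [hs]
  rfl

/-- The Capelli polynomial vanishes if all of its `n²` alternating arguments have trace zero. -/
theorem cap_eq_zero {L : Type} [Field L] {n s : ℕ} (hn : n * n = s + 1)
    (x : Matrix (Fin n) (Fin n) L) (u : Fin s → Matrix (Fin n) (Fin n) L)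
    (hx : Matrix.trace x = 0) (hu : ∀ i, Matrix.trace (u i) = 0)
    (y : ℕ → Matrix (Fin n) (Fin n) L) : cap x u y = 0 := by
  have hn0 : 0 < n := by
    rcases Nat.eq_zero_or_pos n with h | h
    · subst h; simp at hn
    · exact h
  have h1 := d5b_alt_apply s y (Fin.cons x u)
  simp only [Fin.cons_zero, Fin.cons_succ] at h1
  rw [← h1]
  apply AlternatingMap.map_linearDependent
  intro hli
  -- the span is everything, but the trace vanishes on it
  have hcard : Fintype.card (Fin (s + 1)) = Module.finrank L (Matrix (Fin n) (Fin n) L) := by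
    rw [Module.finrank_matrix]
    simp [hn]
  have hspan := hli.span_eq_top_of_card_eq_finrank' hcard
  have htr : Submodule.span L (Set.range (Fin.cons x u : Fin (s + 1) →
      Matrix (Fin n) (Fin n) L)) ≤ LinearMap.ker (Matrix.traceLinearMap (Fin n) L L) := by
    rw [Submodule.span_le]
    rintro _ ⟨j, rfl⟩
    simp only [SetLike.mem_coe, LinearMap.mem_ker, Matrix.traceLinearMap_apply]
    refine Fin.cases ?_ (fun j => ?_) j
    · simpa using hx
    · simpa using hu j
  rw [hspan] at htr
  have h2 := htr (Submodule.mem_top (x := Matrix.single (⟨0, hn0⟩ : Fin n) ⟨0, hn0⟩ (1 : L)))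
  simp at h2

/-- `raz` is central valued on `n × n` matrices if the `u i` have trace zero, `n² = s + 1`. -/
theorem raz_central {L : Type} [Field L] {n s : ℕ} (hn : n * n = s + 1)
    (u : Fin s → Matrix (Fin n) (Fin n) L) (hu : ∀ i, Matrix.trace (u i) = 0)
    (y : ℕ → Matrix (Fin n) (Fin n) L) (z w : Matrix (Fin n) (Fin n) L) :
    raz u y z * w = w * raz u y z := by
  rw [← sub_eq_zero]
  set R := raz u y z with hR
  have key : ∀ x : Matrix (Fin n) (Fin n) L, Matrix.trace (x * (w * R - R * w)) = 0 := by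
    intro x
    have h1 : Matrix.trace ((x * w - w * x) * R) = 0 := by
      rw [hR, ← trace_cap, cap_eq_zero hn _ _ _ hu]
      · simp
      · rw [Matrix.trace_sub, Matrix.trace_mul_comm, sub_self]
    rw [← h1, mul_sub, sub_mul, Matrix.trace_sub, Matrix.trace_sub, mul_assoc, mul_assoc,
      Matrix.trace_mul_comm w (x * R), mul_assoc]
  have h2 : w * R - R * w = 0 := by
    ext i j
    have h3 := key (Matrix.single j i 1)
    rw [Matrix.trace_single_mul] at h3
    simpa using h3
  rw [← neg_eq_zero, neg_sub]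
  exact h2

end WHI
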