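import Pool.Agent.Lib.MP_c14890_al.D5a

set_option autoImplicit false

namespace WHI

/-- `trace (preW · z)` as a multilinear map. -/
noncomputable def d5c_mult {L : Type} [CommRing L] {n : ℕ} (s : ℕ)
    (y : ℕ → Matrix (Fin n) (Fin n) L) (z : Matrix (Fin n) (Fin n) L) :
    MultilinearMap L (fun _ : Fin (s + 1) => Matrix (Fin n) (Fin n) L) L :=
  (Matrix.traceLinearMap (Fin n) L L ∘ₗ LinearMap.mulRight L (y (s + 1) * z)).compMultilinearMap
    ((MultilinearMap.mkPiAlgebraFin L (s + 1) (Matrix (Fin n) (Fin n) L)).compLinearMap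
      (fun i => LinearMap.mulLeft L (y i)))

theorem d5c_ofFn {A : Type*} [Ring A] (s : ℕ) (y : ℕ → A) (v : Fin (s + 1) → A) :
    (List.ofFn fun i : Fin (s + 1) => y i * v i).prod * y (s + 1) =
      preW y (fun i => if h : i < s + 1 then v ⟨i, h⟩ else 1) (s + 1) := by
  unfold preW
  congr 2
  rw [List.ofFn_eq_map, ← List.map_coe_finRange_eq_range, List.map_map]
  apply List.map_congr_left
  intro i _
  simp only [Function.comp, dif_pos i.is_lt, Fin.eta]

theorem d5c_mult_apply {L : Type} [CommRing L] {n : ℕ} (s : ℕ)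
    (y : ℕ → Matrix (Fin n) (Fin n) L) (z : Matrix (Fin n) (Fin n) L)
    (v : Fin (s + 1) → Matrix (Fin n) (Fin n) L) :
    d5c_mult s y z v =
      Matrix.trace (preW y (fun i => if h : i < s + 1 then v ⟨i, h⟩ else 1) (s + 1) * z) := by
  rw [← d5c_ofFn]
  simp [d5c_mult, mul_assoc]

/-- `trace (cap · z)` as an alternating map. -/
theorem d5c_alt_apply {L : Type} [CommRing L] {n : ℕ} (s : ℕ)
    (y : ℕ → Matrix (Fin n) (Fin n) L) (z : Matrix (Fin n) (Fin n) L)
    (v : Fin (s + 1) → Matrix (Fin n) (Fin n) L) :
    MultilinearMap.alternatization (d5c_mult s y z) v =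
      Matrix.trace (cap (v 0) (fun i => v i.succ) y * z) := by
  rw [MultilinearMap.alternatization_apply]
  unfold cap
  rw [Finset.sum_mul, Matrix.trace_sum]
  apply Finset.sum_congr rfl
  intro σ _
  rw [MultilinearMap.domDomCongr_apply, d5c_mult_apply, smul_mul_assoc, Matrix.trace_smul]
  have hs : (fun i => if h : i < s + 1 then v (σ ⟨i, h⟩) else 1) =
      seqW (v 0) (fun i => v i.succ) σ := by
    funext i
    unfold seqW
    have : (Fin.cons (v 0) (fun i => v i.succ) : Fin (s + 1) → Matrix (Fin n) (Fin n) L) = v :=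
      Fin.cons_self_tail v
    rw [this]
  rw [hs]
  rfl

theorem d5c_preW_succ {A : Type*} [Ring A] (y w : ℕ → A) (n : ℕ) :
    preW y w (n + 1) = preW y w n * w n * y (n + 1) := by
  simp only [preW, List.range_succ, List.map_append, List.prod_append, List.map_cons,
    List.map_nil, List.prod_cons, List.prod_nil, mul_one, mul_assoc]

/-- The connecting matrix units. -/
noncomputable def d5c_y {L : Type} [Field L] {n : ℕ} (s : ℕ) (o : Fin n) (r c : ℕ → Fin n)
    (i : ℕ) : Matrix (Fin n) (Fin n) L :=
  Matrix.single (if i = 0 then o else c (i - 1)) (if i = s + 1 then o else r i) 1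

theorem d5c_preW_eq {L : Type} [Field L] {n : ℕ} (s : ℕ) (o : Fin n) (r c r' c' : ℕ → Fin n)
    (p : ℕ) (hp : p ≤ s + 1) :
    preW (d5c_y (L := L) s o r c) (fun i => Matrix.single (r' i) (c' i) 1) p =
      if ∀ i < p, r' i = r i ∧ c' i = c i then
        Matrix.single o (if p = s + 1 then o else r p) 1 else 0 := by
  induction p with
  | zero =>
    simp [preW, d5c_y]
  | succ p ih =>
    rw [d5c_preW_succ, ih (by omega)]
    have hp1 : p ≠ s + 1 := by omega
    rw [if_neg hp1]
    by_cases h : ∀ i < p, r' i = r i ∧ c' i = c i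
    · rw [if_pos h]
      by_cases h2 : r' p = r p ∧ c' p = c p
      · rw [if_pos]
        · simp [d5c_y, h2.1, h2.2]
        · intro i hi
          rcases Nat.lt_succ_iff_lt_or_eq.mp hi with h3 | h3
          · exact h i h3
          · rw [h3]; exact h2
      · rw [if_neg]
        · by_cases h3 : r' p = r p
          · have h4 : c' p ≠ c p := fun h4 => h2 ⟨h3, h4⟩
            simp [d5c_y, h3, h4]
          · have h3' : r p ≠ r' p := fun h => h3 h.symm
            simp [h3']
        · intro h3
          exact h2 (h3 p (by omega))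
    · rw [if_neg h, if_neg]
      · simp
      · intro h3
        exact h (fun i hi => h3 i (by omega))

theorem d5c_alt_units {L : Type} [Field L] {n : ℕ} (s : ℕ) (o : Fin n)
    (e : Fin n × Fin n ≃ Fin (s + 1)) :
    MultilinearMap.alternatization (d5c_mult (L := L) s
      (d5c_y s o (fun i => if h : i < s + 1 then (e.symm ⟨i, h⟩).1 else o)
        (fun i => if h : i < s + 1 then (e.symm ⟨i, h⟩).2 else o)) 1)
      (fun j => Matrix.single (e.symm j).1 (e.symm j).2 1) = 1 := by
  rw [MultilinearMap.alternatization_apply]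
  rw [Finset.sum_eq_single (1 : Equiv.Perm (Fin (s + 1)))]
  · rw [MultilinearMap.domDomCongr_apply, d5c_mult_apply]
    rw [d5a_preW_congr _ _ (fun i => Matrix.single
      ((fun i => if h : i < s + 1 then (e.symm ⟨i, h⟩).1 else o) i)
      ((fun i => if h : i < s + 1 then (e.symm ⟨i, h⟩).2 else o) i) 1)]
    · rw [d5c_preW_eq _ _ _ _ _ _ _ le_rfl, if_pos]
      · simp
      · intro i _
        exact ⟨rfl, rfl⟩
    · intro i hi
      simp [hi]
  · intro σ _ hσ
    rw [MultilinearMap.domDomCongr_apply, d5c_mult_apply]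
    rw [d5a_preW_congr _ _ (fun i => Matrix.single
      ((fun i => if h : i < s + 1 then (e.symm (σ ⟨i, h⟩)).1 else o) i)
      ((fun i => if h : i < s + 1 then (e.symm (σ ⟨i, h⟩)).2 else o) i) 1)]
    · rw [d5c_preW_eq _ _ _ _ _ _ _ le_rfl, if_neg]
      · simp
      · intro h
        apply hσ
        ext i
        have := h i i.is_lt
        simp only [i.is_lt, dif_pos] at this
        have h2 : e.symm (σ i) = e.symm i := Prod.ext this.1 this.2
        rw [e.symm.injective h2]
        rfl
    · intro i hi
      simp [hi]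
  · intro h
    exact absurd (Finset.mem_univ _) h

/-- `raz` does not vanish identically on commutators. -/
theorem raz_ne_zero {L : Type} [Field L] {n s : ℕ} (hn : n * n = s + 1) :
    ∃ (a b : Fin s → Matrix (Fin n) (Fin n) L) (y : ℕ → Matrix (Fin n) (Fin n) L)
      (z : Matrix (Fin n) (Fin n) L), raz (fun i => a i * b i - b i * a i) y z ≠ 0 := by
  have hn0 : 0 < n := by
    rcases Nat.eq_zero_or_pos n with h | h
    · subst h; simp at hn
    · exact h
  set o : Fin n := ⟨0, hn0⟩ with ho
  set e : Fin n × Fin n ≃ Fin (s + 1) := finProdFinEquiv.trans (finCongr hn) with he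
  have heo : e (o, o) = 0 := by
    apply Fin.ext
    simp [he, ho]
  set y := (d5c_y (L := L) s o (fun i => if h : i < s + 1 then (e.symm ⟨i, h⟩).1 else o)
        (fun i => if h : i < s + 1 then (e.symm ⟨i, h⟩).2 else o)) with hy
  set f := MultilinearMap.alternatization (d5c_mult (L := L) s y 1) with hf
  have hf0 : f ≠ 0 := by
    intro h
    have h1 := d5c_alt_units (L := L) s o e
    rw [← hy, ← hf, h] at h1
    simp at h1
  -- the commutators
  set α : Fin n × Fin n → Matrix (Fin n) (Fin n) L := fun q =>
    if q.1 = q.2 then Matrix.single q.1 o 1 else Matrix.single q.1 q.1 1 with hα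
  set β : Fin n × Fin n → Matrix (Fin n) (Fin n) L := fun q =>
    if q.1 = q.2 then Matrix.single o q.1 1 else Matrix.single q.1 q.2 1 with hβ
  set g : Fin n × Fin n → Matrix (Fin n) (Fin n) L := fun q =>
    if q = (o, o) then Matrix.single o o 1 else α q * β q - β q * α q with hg
  have hg1 : ∀ a b : Fin n, a ≠ b → g (a, b) = Matrix.single a b 1 := by
    intro a b hab
    have h1 : (a, b) ≠ (o, o) := by
      intro h
      rw [Prod.mk.injEq] at h
      exact hab (h.1.trans h.2.symm)
    simp only [hg, hα, hβ, if_neg h1, if_neg hab]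
    rw [Matrix.single_mul_single_same, Matrix.single_mul_single_of_ne _ _ _ _ hab.symm]
    simp
  have hg2 : ∀ a : Fin n, a ≠ o → g (a, a) = Matrix.single a a 1 - Matrix.single o o 1 := by
    intro a ha
    have h1 : (a, a) ≠ (o, o) := by
      intro h
      rw [Prod.mk.injEq] at h
      exact ha h.1
    simp only [hg, hα, hβ, if_neg h1, if_true]
    rw [Matrix.single_mul_single_same, Matrix.single_mul_single_same]
    simp
  have hg3 : g (o, o) = Matrix.single o o 1 := by
    simp only [hg, if_true]
  have hspan : (⊤ : Submodule L (Matrix (Fin n) (Fin n) L)) ≤ Submodule.span L (Set.range g) := by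
    intro M _
    rw [Matrix.matrix_eq_sum_single M]
    apply Submodule.sum_mem
    intro a _
    apply Submodule.sum_mem
    intro b _
    have h1 : Matrix.single a b (M a b) = M a b • Matrix.single a b (1 : L) := by
      rw [Matrix.smul_single, smul_eq_mul, mul_one]
    rw [h1]
    apply Submodule.smul_mem
    by_cases hab : a = b
    · subst hab
      by_cases ha : a = o
      · rw [ha, ← hg3]
        exact Submodule.subset_span ⟨_, rfl⟩
      · have h2 : Matrix.single a a (1 : L) = g (a, a) + g (o, o) := by
          rw [hg2 a ha, hg3]; simp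
        rw [h2]
        exact Submodule.add_mem _ (Submodule.subset_span ⟨_, rfl⟩)
          (Submodule.subset_span ⟨_, rfl⟩)
    · rw [← hg1 a b hab]
      exact Submodule.subset_span ⟨_, rfl⟩
  have hspan2 : (⊤ : Submodule L (Matrix (Fin n) (Fin n) L)) ≤
      Submodule.span L (Set.range (g ∘ e.symm)) := by
    rw [e.symm.surjective.range_comp]
    exact hspan
  have hcard : Fintype.card (Fin (s + 1)) = Module.finrank L (Matrix (Fin n) (Fin n) L) := by
    rw [Module.finrank_matrix]
    simp [hn]
  let B := basisOfTopLeSpanOfCardEqFinrank (g ∘ e.symm) hspan2 hcard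
  have hB : ⇑B = g ∘ e.symm := coe_basisOfTopLeSpanOfCardEqFinrank _ _ _
  have hne : f (g ∘ e.symm) ≠ 0 := by
    rw [← hB]
    exact (AlternatingMap.map_basis_ne_zero_iff B f).mpr hf0
  rw [hf, d5c_alt_apply, trace_cap] at hne
  refine ⟨fun i => α (e.symm i.succ), fun i => β (e.symm i.succ), y, 1, ?_⟩
  intro hr
  apply hne
  have h3 : (fun i : Fin s => (g ∘ e.symm) i.succ) = fun i : Fin s =>
      α (e.symm i.succ) * β (e.symm i.succ) - β (e.symm i.succ) * α (e.symm i.succ) := by
    funext i
    have h4 : e.symm i.succ ≠ (o, o) := by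
      intro h
      rw [Equiv.symm_apply_eq, heo] at h
      exact Fin.succ_ne_zero i h
    simp only [Function.comp, hg, if_neg h4]
  rw [h3, hr]
  simp

end WHI
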