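import Pool.Agent.Lib.MP_c14890_al.D6a
import Pool.Agent.Lib.MP_c14890_al.D5
import Pool.Agent.Lib.MP_c14890_al.D5b

set_option autoImplicit false

namespace WHI

variable {k : Type} [Field k]

/-- Nonzero ideals of `S` contain nonzero central elements. -/
theorem exists_central_of_repFamily {S : Type} [Ring S] [Algebra k S] {m : ℕ} (hm : 0 < m)
    (F : RepFamily k S m) (I : Ideal S) [I.IsTwoSided] (hI : I ≠ ⊥) :
    ∃ z ∈ I, z ≠ 0 ∧ ∀ s : S, z * s = s * z := by
  obtain ⟨r, hrI, hr0⟩ := (Submodule.ne_bot_iff I).mp hI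
  have h1 : ∃ i, F.φ i r ≠ 0 := by
    by_contra h
    push Not at h
    exact hr0 (F.faithful r h)
  obtain ⟨i, hi⟩ := h1
  obtain ⟨N, u, v, huv⟩ := F.simple i r hi
  set e : S := ∑ j, u j * r * v j with he
  have heI : e ∈ I := by
    rw [he]
    apply I.sum_mem
    intro j _
    exact I.mul_mem_right _ (I.mul_mem_left _ hrI)
  obtain ⟨s, hs⟩ : ∃ s, m * m = s + 1 := ⟨m * m - 1, by
    have : 0 < m * m := Nat.mul_pos hm hm
    omega⟩
  obtain ⟨a, b, y, z, ha, hb, hy, hz, hne⟩ :=
    raz_ne_zero_of_span (L := F.L i) hs (Set.range (F.φ i)) (F.span_top i)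
  choose a' ha' using ha
  choose b' hb' using hb
  choose y' hy' using hy
  obtain ⟨z', hz'⟩ := hz
  set c : S := raz (fun i => a' i * b' i - b' i * a' i) y' (z' * e) with hc
  have hcmap : ∀ j, F.φ j c = raz (fun t => F.φ j (a' t) * F.φ j (b' t) -
      F.φ j (b' t) * F.φ j (a' t)) (fun t => F.φ j (y' t)) (F.φ j (z' * e)) := by
    intro j
    have h2 := map_raz (F.φ j : S →+* Matrix (Fin m) (Fin m) (F.L j))
      (fun i => a' i * b' i - b' i * a' i) y' (z' * e)
    simp only [RingHom.coe_coe, map_sub, map_mul] at h2 ⊢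
    rw [hc]
    exact h2
  refine ⟨c, raz_mem I _ _ _ (I.mul_mem_left _ heI), ?_, ?_⟩
  · intro h0
    apply hne
    have h3 := hcmap i
    rw [h0, map_zero] at h3
    rw [h3]
    simp only [ha', hb', hy', map_mul, huv, hz', mul_one]
  · intro t
    rw [← sub_eq_zero]
    apply F.faithful
    intro j
    rw [map_sub, map_mul, map_mul, hcmap j, sub_eq_zero]
    apply raz_central hs
    intro q
    rw [Matrix.trace_sub, Matrix.trace_mul_comm, sub_self]

end WHI
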