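import Pool.Agent.Lib.MP_c14890_al.D2

set_option autoImplicit false

namespace WHI

variable {k : Type} [Field k]

/-- A family of representations of degree `m` of a prime ring. -/
structure RepFamily (k S : Type) [Field k] [Ring S] [Algebra k S] (m : ℕ) where
  ι : Type
  L : ι → Type
  [fieldL : ∀ i, Field (L i)]
  [algL : ∀ i, Algebra k (L i)]
  φ : ∀ i, S →ₐ[k] Matrix (Fin m) (Fin m) (L i)
  faithful : ∀ r : S, (∀ i, φ i r = 0) → r = 0
  span_top : ∀ i, Submodule.span (L i) (Set.range (φ i)) = ⊤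
  simple : ∀ i (a : S), φ i a ≠ 0 → ∃ (n : ℕ) (u v : Fin n → S), φ i (∑ j, u j * a * v j) = 1

attribute [instance] RepFamily.fieldL RepFamily.algL

/-- A representation of degree `m` attached to a left ideal `I`. -/
structure D6aRep (k S : Type) [Field k] [Ring S] [Algebra k S] (I : Ideal S) (m : ℕ) where
  L : Type
  [fieldL : Field L]
  [algL : Algebra k L]
  φ : S →ₐ[k] Matrix (Fin m) (Fin m) L
  ker : ∀ a : S, φ a = 0 ↔ ∀ x : S ⧸ I, a • x = 0
  span_top : Submodule.span L (Set.range φ) = ⊤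
  simple : ∀ (a : S), φ a ≠ 0 → ∃ (n : ℕ) (u v : Fin n → S), φ (∑ j, u j * a * v j) = 1

attribute [instance] D6aRep.fieldL D6aRep.algL

theorem D6a_exists {S : Type} [Ring S] [Algebra k S] {d : ℕ}
    (hS : MultId k S d) (I : Ideal S) (hI : I.IsMaximal) :
    ∃ m : ℕ, 0 < m ∧ m ≤ d ∧ Nonempty (D6aRep k S I m) := by
  have : IsSimpleModule S (S ⧸ I) := isSimpleModule_iff_isCoatom.2 (Ideal.isMaximal_def.1 hI)
  obtain ⟨L, hF, hAl, m, φ, h0, h1, h2, h3, h4⟩ := kaplansky hS (S ⧸ I)
  exact ⟨m, h0, h1, ⟨⟨L, φ, h2, h3, h4⟩⟩⟩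

/-- A prime PI ring with zero Jacobson radical has a faithful family of representations of a fixed
degree. -/
theorem exists_repFamily {S : Type} [Ring S] [Nontrivial S] [Algebra k S] {d : ℕ}
    (hS : MultId k S d)
    (hprime : ∀ a b : S, (∀ r, a * r * b = 0) → a = 0 ∨ b = 0)
    (hjac : ∀ r : S, r ≠ 0 → ∃ m : Ideal S, m.IsMaximal ∧ ∃ s : S, r * s ∉ m) :
    ∃ m : ℕ, 0 < m ∧ m ≤ d ∧ Nonempty (RepFamily k S m) := by
  classical
  have hex : ∃ m : ℕ, 0 < m ∧ m ≤ d ∧ ∀ r : S,
      (∀ I : Ideal S, Nonempty (D6aRep k S I m) → ∀ x : S ⧸ I, r • x = 0) → r = 0 := by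
    by_contra hcon
    push Not at hcon
    have key : ∀ n ≤ d, ∃ b : S, b ≠ 0 ∧ ∀ j, 0 < j → j ≤ n →
        ∀ I : Ideal S, Nonempty (D6aRep k S I j) → ∀ x : S ⧸ I, b • x = 0 := by
      intro n
      induction n with
      | zero => exact fun _ => ⟨1, one_ne_zero, fun j h1 h2 => by omega⟩
      | succ n ih =>
        intro hn
        obtain ⟨b, hb0, hb⟩ := ih (by omega)
        obtain ⟨a, ha, ha0⟩ := hcon (n + 1) (by omega) hn
        have hr : ∃ r, b * r * a ≠ 0 := by
          by_contra h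
          push Not at h
          rcases hprime b a h with h | h
          · exact hb0 h
          · exact ha0 h
        obtain ⟨r, hr⟩ := hr
        refine ⟨b * r * a, hr, fun j hj0 hj I hI x => ?_⟩
        rcases Nat.lt_or_ge n j with h | h
        · have : j = n + 1 := by omega
          subst this
          rw [mul_smul, ha I hI, smul_zero]
        · rw [mul_assoc, mul_smul, hb j hj0 h I hI]
    obtain ⟨b, hb0, hb⟩ := key d le_rfl
    obtain ⟨I, hI, s, hs⟩ := hjac b hb0
    obtain ⟨m, h0, h1, h2⟩ := D6a_exists hS I hI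
    have := hb m h0 h1 I h2 (Submodule.Quotient.mk s)
    rw [← Submodule.Quotient.mk_smul, Submodule.Quotient.mk_eq_zero] at this
    exact hs this
  obtain ⟨m, h0, h1, hm⟩ := hex
  refine ⟨m, h0, h1, ⟨?_⟩⟩
  let R : ∀ i : {I : Ideal S // Nonempty (D6aRep k S I m)}, D6aRep k S i.1 m :=
    fun i => Classical.choice i.2
  exact
    { ι := {I : Ideal S // Nonempty (D6aRep k S I m)}
      L := fun i => (R i).L
      fieldL := fun i => (R i).fieldL
      algL := fun i => (R i).algL
      φ := fun i => (R i).φ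
      faithful := fun r hr => hm r fun I hI => ((R ⟨I, hI⟩).ker r).1 (hr ⟨I, hI⟩)
      span_top := fun i => (R i).span_top
      simple := fun i => (R i).simple }

end WHI
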