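import Pool.Agent.Lib.MP_c14890_al.D3

set_option autoImplicit false

namespace WHI

variable {k : Type} [Field k]

/-- The centre of an infinite dimensional prime affine PI algebra is infinite dimensional. -/
theorem centre_infinite {S : Type} [Ring S] [Nontrivial S] [Algebra k S] [Algebra.FiniteType k S]
    {d : ℕ} (hS : MultId k S d)
    (hprime : ∀ a b : S, (∀ r, a * r * b = 0) → a = 0 ∨ b = 0)
    (hcen : ∀ I : Ideal S, I.IsTwoSided → I ≠ ⊥ → ∃ z ∈ I, z ≠ 0 ∧ ∀ s : S, z * s = s * z)
    (hfin : Module.Finite k (Subalgebra.center k S)) : Module.Finite k S := by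
  -- nonzero central elements are units
  have hunit : ∀ z : S, z ≠ 0 → (∀ s : S, z * s = s * z) → ∃ w : S, w * z = 1 := by
    intro z hz0 hz
    have hzc : z ∈ Subalgebra.center k S := by
      rw [Subalgebra.mem_center_iff]
      intro s; exact (hz s).symm
    let Z : Subalgebra.center k S := ⟨z, hzc⟩
    have hinj : Function.Injective (LinearMap.mulLeft k Z) := by
      rw [← LinearMap.ker_eq_bot, LinearMap.ker_eq_bot']
      intro w hw
      have h1 : z * (w : S) = 0 := by
        have := congrArg Subtype.val hw
        simpa [Z] using this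
      apply Subtype.ext
      rcases hprime z w (fun r => by rw [hz r, mul_assoc, h1, mul_zero]) with h | h
      · exact absurd h hz0
      · exact h
    have hsurj := LinearMap.surjective_of_injective hinj
    obtain ⟨w, hw⟩ := hsurj 1
    refine ⟨w, ?_⟩
    have h2 := congrArg Subtype.val hw
    rw [← hz]
    simpa [Z] using h2
  obtain ⟨m, hm⟩ := Ideal.exists_maximal S
  have hsimple : IsSimpleModule S (S ⧸ m) := isSimpleModule_iff_isCoatom.mpr hm.out
  have hfd : FD k S (S ⧸ m) := simple_fd hS (S ⧸ m)
  have hann : Module.annihilator S (S ⧸ m) = ⊥ := by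
    by_contra hne
    obtain ⟨z, hzI, hz0, hz⟩ := hcen _ inferInstance hne
    obtain ⟨w, hw⟩ := hunit z hz0 hz
    have h1 : (1 : S) ∈ Module.annihilator S (S ⧸ m) := by
      rw [← hw]
      exact Ideal.mul_mem_left _ w hzI
    rw [Module.mem_annihilator] at h1
    have h2 := h1 (Submodule.mkQ m (1 : S))
    rw [one_smul] at h2
    have h3 : (1 : S) ∈ m := by
      have : Submodule.mkQ m (1 : S) = 0 := h2
      rwa [Submodule.mkQ_apply, Submodule.Quotient.mk_eq_zero] at this
    exact hm.ne_top ((Ideal.eq_top_iff_one m).mpr h3)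
  have h1 := hfd.annihilator
  rw [hann] at h1
  have h2 : FD k S S := by
    refine h1.of_injective (Submodule.mkQ (⊥ : Ideal S)) ?_
    rw [← LinearMap.ker_eq_bot, Submodule.ker_mkQ]
  exact h2.finite

end WHI
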