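import Pool.Agent.Lib.MP_c14890_al.D6a

set_option autoImplicit false

namespace WHI

variable {k : Type} [Field k]

/-- The matrix entries of all representations of the family. -/
noncomputable def d8_ent {S : Type} [Ring S] [Algebra k S] {m : ℕ} (F : RepFamily k S m)
    (a b : Fin m) : S →ₗ[k] (∀ i, F.L i) :=
  LinearMap.pi fun i =>
    { toFun := fun s => F.φ i s a b
      map_add' := fun s t => by simp
      map_smul' := fun c s => by simp }

theorem d8_ent_apply {S : Type} [Ring S] [Algebra k S] {m : ℕ} (F : RepFamily k S m)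
    (a b : Fin m) (s : S) (i : F.ι) : d8_ent F a b s i = F.φ i s a b := rfl

theorem d8_ent_mul {S : Type} [Ring S] [Algebra k S] {m : ℕ} (F : RepFamily k S m)
    (a b : Fin m) (s t : S) : d8_ent F a b (s * t) = ∑ c, d8_ent F a c s * d8_ent F c b t := by
  funext i
  rw [Finset.sum_apply]
  simp only [Pi.mul_apply, d8_ent_apply, map_mul, Matrix.mul_apply]

theorem d8_ent_one {S : Type} [Ring S] [Algebra k S] {m : ℕ} (F : RepFamily k S m)
    (a b : Fin m) : d8_ent F a b (1 : S) = if a = b then 1 else 0 := by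
  funext i
  rw [d8_ent_apply, map_one, Matrix.one_apply]
  split_ifs <;> rfl

/-- The monomial with exponents `c` in the entries of the `x j`. -/
noncomputable def d8_mon {S : Type} [Ring S] [Algebra k S] {m : ℕ} (F : RepFamily k S m)
    {l : ℕ} (x : Fin l → S) (c : Fin l × Fin m × Fin m → ℕ) : ∀ i, F.L i :=
  ∏ q : Fin l × Fin m × Fin m, (d8_ent F q.2.1 q.2.2 (x q.1)) ^ c q

/-- The span of the monomials with all exponents at most `n`. -/
noncomputable def d8_U {S : Type} [Ring S] [Algebra k S] {m : ℕ} (F : RepFamily k S m)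
    {l : ℕ} (x : Fin l → S) (n : ℕ) : Submodule k (∀ i, F.L i) :=
  Submodule.span k (Set.range fun c : Fin l × Fin m × Fin m → Fin (n + 1) =>
    d8_mon F x fun q => (c q : ℕ))

theorem d8_mon_mem {S : Type} [Ring S] [Algebra k S] {m : ℕ} (F : RepFamily k S m)
    {l : ℕ} (x : Fin l → S) (n : ℕ) (c : Fin l × Fin m × Fin m → ℕ) (hc : ∀ q, c q ≤ n) :
    d8_mon F x c ∈ d8_U F x n := by
  apply Submodule.subset_span
  exact ⟨fun q => ⟨c q, by have := hc q; omega⟩, rfl⟩

theorem d8_U_mono {S : Type} [Ring S] [Algebra k S] {m : ℕ} (F : RepFamily k S m)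
    {l : ℕ} (x : Fin l → S) (n : ℕ) : d8_U F x n ≤ d8_U F x (n + 1) := by
  unfold d8_U
  rw [Submodule.span_le]
  rintro _ ⟨c, rfl⟩
  exact d8_mon_mem F x (n + 1) _ (fun q => by have := (c q).is_lt; omega)

theorem d8_U_mul {S : Type} [Ring S] [Algebra k S] {m : ℕ} (F : RepFamily k S m)
    {l : ℕ} (x : Fin l → S) (n : ℕ) (u : ∀ i, F.L i) (hu : u ∈ d8_U F x n) (j : Fin l)
    (a b : Fin m) : u * d8_ent F a b (x j) ∈ d8_U F x (n + 1) := by
  induction hu using Submodule.span_induction with
  | mem u hu =>
    obtain ⟨c, rfl⟩ := hu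
    have h1 : d8_mon F x (fun q => (c q : ℕ)) * d8_ent F a b (x j) =
        d8_mon F x (fun q => (c q : ℕ) + if q = (j, a, b) then 1 else 0) := by
      unfold d8_mon
      simp only [pow_add]
      rw [Finset.prod_mul_distrib]
      congr 1
      rw [Finset.prod_eq_single (j, a, b)]
      · simp
      · intro q _ hq
        simp [hq]
      · intro h
        exact absurd (Finset.mem_univ _) h
    simp only [h1]
    apply d8_mon_mem
    intro q
    have := (c q).is_lt
    split_ifs <;> omega
  | zero => rw [zero_mul]; exact Submodule.zero_mem _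
  | add u v _ _ hu hv => rw [add_mul]; exact Submodule.add_mem _ hu hv
  | smul r u _ hu => rw [smul_mul_assoc]; exact Submodule.smul_mem _ _ hu

theorem d8_mul_mem {S : Type} [Ring S] [Algebra k S] {m : ℕ} (F : RepFamily k S m)
    {l : ℕ} (x : Fin l → S) (n : ℕ) (u : ∀ i, F.L i) (hu : u ∈ d8_U F x n) (v : S)
    (hv : v ∈ Submodule.span k (insert 1 (Set.range x))) (a b : Fin m) :
    u * d8_ent F a b v ∈ d8_U F x (n + 1) := by
  induction hv using Submodule.span_induction with
  | mem v hv =>
    rcases hv with rfl | ⟨j, rfl⟩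
    · rw [d8_ent_one]
      split_ifs
      · rw [mul_one]; exact d8_U_mono F x n hu
      · rw [mul_zero]; exact Submodule.zero_mem _
    · exact d8_U_mul F x n u hu j a b
  | zero => rw [map_zero, mul_zero]; exact Submodule.zero_mem _
  | add v w _ _ hv hw => rw [map_add, mul_add]; exact Submodule.add_mem _ hv hw
  | smul r v _ hv => rw [map_smul, mul_smul_comm]; exact Submodule.smul_mem _ _ hv

theorem d8_pow_mem {S : Type} [Ring S] [Algebra k S] {m : ℕ} (F : RepFamily k S m)
    {l : ℕ} (x : Fin l → S) (n : ℕ) (s : S)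
    (hs : s ∈ Submodule.span k (insert 1 (Set.range x)) ^ n) (a b : Fin m) :
    d8_ent F a b s ∈ d8_U F x n := by
  induction n generalizing s a b with
  | zero =>
    rw [pow_zero, Submodule.mem_one] at hs
    obtain ⟨r, rfl⟩ := hs
    rw [Algebra.algebraMap_eq_smul_one, map_smul, d8_ent_one]
    apply Submodule.smul_mem
    split_ifs
    · have := d8_mon_mem F x 0 (fun _ => 0) (fun q => le_rfl)
      simpa [d8_mon] using this
    · exact Submodule.zero_mem _
  | succ n ih =>
    rw [pow_succ] at hs
    induction hs using Submodule.mul_induction_on' with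
    | mem_mul_mem t ht v hv =>
      rw [d8_ent_mul]
      apply Submodule.sum_mem
      intro c _
      exact d8_mul_mem F x n _ (ih t ht a c) v hv c b
    | add u _ v _ hu hv => rw [map_add]; exact Submodule.add_mem _ hu hv

theorem d8_finrank_U {S : Type} [Ring S] [Algebra k S] {m : ℕ} (F : RepFamily k S m)
    {l : ℕ} (x : Fin l → S) (n : ℕ) :
    Module.finrank k (d8_U F x n) ≤ (n + 1) ^ (l * m ^ 2) := by
  have h1 := finrank_range_le_card (R := k)
    (fun c : Fin l × Fin m × Fin m → Fin (n + 1) => d8_mon F x fun q => (c q : ℕ))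
  have h2 : Fintype.card (Fin l × Fin m × Fin m → Fin (n + 1)) = (n + 1) ^ (l * m ^ 2) := by
    simp [pow_two]
  rw [h2] at h1
  exact h1

/-- Polynomial growth. -/
theorem growth_of_repFamily {S : Type} [Ring S] [Algebra k S] {m : ℕ} (hm : 0 < m)
    (F : RepFamily k S m) {l : ℕ} (x : Fin l → S) (n : ℕ) :
    Module.finrank k ((Submodule.span k (insert 1 (Set.range x)) ^ n : Submodule k S))
      ≤ m ^ 2 * (n + 1) ^ (l * m ^ 2) := by
  have hfin : Module.Finite k (d8_U F x n) := by
    unfold d8_U
    exact Module.Finite.span_of_finite k (Set.finite_range _)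
  let Φ : (Submodule.span k (insert 1 (Set.range x)) ^ n : Submodule k S) →ₗ[k]
      (Fin m × Fin m → d8_U F x n) :=
    LinearMap.pi fun q => LinearMap.codRestrict (d8_U F x n)
      ((d8_ent F q.1 q.2).domRestrict _) (fun s => d8_pow_mem F x n s.1 s.2 q.1 q.2)
  have hΦ : Function.Injective Φ := by
    rw [← LinearMap.ker_eq_bot, LinearMap.ker_eq_bot']
    intro s hs
    apply Subtype.ext
    apply F.faithful
    intro i
    ext a b
    have h1 := congrFun hs (a, b)
    have h2 := congrArg Subtype.val h1
    have h3 := congrFun h2 i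
    exact h3
  have h1 := LinearMap.finrank_le_finrank_of_injective hΦ
  have h2 : Module.finrank k (Fin m × Fin m → d8_U F x n) =
      m ^ 2 * Module.finrank k (d8_U F x n) := by
    rw [Module.finrank_pi_fintype]
    simp [pow_two]
  rw [h2] at h1
  exact h1.trans (Nat.mul_le_mul_left _ (d8_finrank_U F x n))

end WHI
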