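import Pool.Agent.Lib.MP_c14890_al.D1
import Pool.Agent.Lib.MP_c14890_al.D1b
import Pool.Agent.Lib.MP_c14890_al.D4
import Pool.Agent.Lib.MP_c14890_al.D6
import Pool.Agent.Lib.MP_c14890_al.D7
import Pool.Agent.Lib.MP_c14890_al.D8

set_option autoImplicit false

namespace WHI

variable {k H : Type} [Field k] [Ring H] [Algebra k H]

theorem d9_prime (P : Ideal H) [P.IsTwoSided] (hP : PrimeIdl P) :
    ∀ a b : H ⧸ P, (∀ r, a * r * b = 0) → a = 0 ∨ b = 0 := by
  intro a b hab
  obtain ⟨a, rfl⟩ := Ideal.Quotient.mk_surjective a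
  obtain ⟨b, rfl⟩ := Ideal.Quotient.mk_surjective b
  rw [Ideal.Quotient.eq_zero_iff_mem, Ideal.Quotient.eq_zero_iff_mem]
  apply hP.2.2
  intro r
  rw [← Ideal.Quotient.eq_zero_iff_mem, map_mul, map_mul]
  exact hab _

/-- `H/P` has a faithful family of representations. -/
theorem d9_repFamily (hL : IsNoetherianRing H) (hA : Algebra.FiniteType k H) {d : ℕ}
    (hd : MultId k H d) (P : Ideal H) [P.IsTwoSided] (hP : PrimeIdl P) :
    ∃ m : ℕ, 0 < m ∧ m ≤ d ∧ Nonempty (RepFamily k (H ⧸ P) m) := by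
  have hsurj : Function.Surjective (Ideal.Quotient.mkₐ k P) := Ideal.Quotient.mkₐ_surjective k P
  have hS : MultId k (H ⧸ P) d := MultId.of_surjective _ hsurj hd
  have hnt : Nontrivial (H ⧸ P) := Ideal.Quotient.nontrivial_iff.mpr hP.2.1
  have hft : Algebra.FiniteType k (H ⧸ P) := Algebra.FiniteType.of_surjective _ hsurj
  have hno : IsNoetherianRing (H ⧸ P) :=
    isNoetherianRing_of_surjective H (H ⧸ P) (Ideal.Quotient.mk P) Ideal.Quotient.mk_surjective
  exact exists_repFamily hS (d9_prime P hP) (jacobson_zero hS (d9_prime P hP))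

theorem d9_central (hL : IsNoetherianRing H) (hA : Algebra.FiniteType k H) {d : ℕ}
    (hd : MultId k H d) (P : Ideal H) [P.IsTwoSided] (hP : PrimeIdl P) :
    ∀ I : Ideal (H ⧸ P), I.IsTwoSided → I ≠ ⊥ → ∃ z ∈ I, z ≠ 0 ∧ ∀ s : H ⧸ P, z * s = s * z := by
  intro I hI hne
  obtain ⟨m, hm, -, ⟨F⟩⟩ := d9_repFamily hL hA hd P hP
  exact exists_central_of_repFamily hm F I hne

theorem d9_cen_iff (P : Ideal H) [P.IsTwoSided] (c : H) :
    c ∈ Cen k P ↔ ∀ s : H ⧸ P, Ideal.Quotient.mk P c * s = s * Ideal.Quotient.mk P c := by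
  constructor
  · intro hc s
    obtain ⟨h, rfl⟩ := Ideal.Quotient.mk_surjective s
    rw [← map_mul, ← map_mul, ← sub_eq_zero, ← map_sub, Ideal.Quotient.eq_zero_iff_mem]
    exact hc h
  · intro hc h
    have := hc (Ideal.Quotient.mk P h)
    rwa [← map_mul, ← map_mul, ← sub_eq_zero, ← map_sub, Ideal.Quotient.eq_zero_iff_mem] at this

theorem d9_generators (hA : Algebra.FiniteType k H) :
    ∃ (l : ℕ) (x : Fin l → H), ∀ y : H, ∃ n : ℕ,
      y ∈ Submodule.span k (insert 1 (Set.range x)) ^ n := by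
  obtain ⟨s, hs⟩ := hA.out
  refine ⟨s.card, fun i => (s.equivFin.symm i : H), ?_⟩
  have hrange : Set.range (fun i => (s.equivFin.symm i : H)) = (s : Set H) := by
    ext y
    constructor
    · rintro ⟨i, rfl⟩
      exact (s.equivFin.symm i).2
    · intro hy
      exact ⟨s.equivFin ⟨y, hy⟩, by simp⟩
  rw [hrange]
  set V : Submodule k H := Submodule.span k (insert 1 (s : Set H)) with hV
  have h1V : (1 : H) ∈ V := Submodule.subset_span (Set.mem_insert _ _)
  have hmono : ∀ n m : ℕ, n ≤ m → V ^ n ≤ V ^ m := by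
    intro n m hnm
    obtain ⟨j, rfl⟩ := Nat.exists_eq_add_of_le hnm
    clear hnm
    induction j with
    | zero => exact le_rfl
    | succ j ih =>
      refine ih.trans ?_
      intro y hy
      rw [← Nat.add_assoc, pow_succ]
      have := Submodule.mul_mem_mul hy h1V
      rwa [mul_one] at this
  intro y
  have hy : y ∈ Algebra.adjoin k (s : Set H) := by rw [hs]; exact Algebra.mem_top
  induction hy using Algebra.adjoin_induction with
  | mem y hy =>
    exact ⟨1, by rw [pow_one]; exact Submodule.subset_span (Set.mem_insert_of_mem _ hy)⟩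
  | algebraMap r =>
    exact ⟨0, by rw [pow_zero]; exact Submodule.algebraMap_mem r⟩
  | add a b _ _ ha hb =>
    obtain ⟨n, hn⟩ := ha
    obtain ⟨m, hm⟩ := hb
    exact ⟨max n m, Submodule.add_mem _ (hmono _ _ (le_max_left _ _) hn)
      (hmono _ _ (le_max_right _ _) hm)⟩
  | mul a b _ _ ha hb =>
    obtain ⟨n, hn⟩ := ha
    obtain ⟨m, hm⟩ := hb
    exact ⟨n + m, by rw [pow_add]; exact Submodule.mul_mem_mul hn hm⟩

theorem d9_growth (hL : IsNoetherianRing H) (hA : Algebra.FiniteType k H) {d : ℕ}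
    (hd : MultId k H d) (P : Ideal H) [P.IsTwoSided] (hP : PrimeIdl P) {l : ℕ} (x : Fin l → H) :
    GrowthLE (Submodule.span k (insert 1 (Set.range x))) P (l * d ^ 2) := by
  obtain ⟨m, hm, hmd, ⟨F⟩⟩ := d9_repFamily hL hA hd P hP
  refine ⟨d ^ 2, fun n => ?_⟩
  have h1 := growth_of_repFamily hm F (fun i => Ideal.Quotient.mkₐ k P (x i)) n
  have hmap : (Submodule.span k (insert 1 (Set.range x)) ^ n).map
      (Ideal.Quotient.mkₐ k P).toLinearMap =
      Submodule.span k (insert 1 (Set.range fun i => Ideal.Quotient.mkₐ k P (x i))) ^ n := by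
    rw [Submodule.map_pow, Submodule.map_span]
    congr 2
    rw [Set.image_insert_eq, ← Set.range_comp]
    congr 1
  have h2 : ((Submodule.span k (insert 1 (Set.range x)) ^ n).map
      (Submodule.mkQ (P.restrictScalars k))).map
        (Submodule.Quotient.restrictScalarsEquiv k P : (H ⧸ P.restrictScalars k) →ₗ[k] H ⧸ P) =
      (Submodule.span k (insert 1 (Set.range x)) ^ n).map
        (Ideal.Quotient.mkₐ k P).toLinearMap := by
    rw [← Submodule.map_comp]
    rfl
  have h3 := (Submodule.Quotient.restrictScalarsEquiv k P).finrank_map_eq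
    ((Submodule.span k (insert 1 (Set.range x)) ^ n).map (Submodule.mkQ (P.restrictScalars k)))
  rw [← h3, h2, hmap]
  refine h1.trans (Nat.mul_le_mul ?_ ?_)
  · exact Nat.pow_le_pow_left hmd 2
  · apply Nat.pow_le_pow_right (Nat.succ_pos n)
    exact Nat.mul_le_mul_left _ (Nat.pow_le_pow_left hmd 2)

theorem d9_op (hA : Algebra.FiniteType k H) : Algebra.FiniteType k Hᵐᵒᵖ := by
  obtain ⟨s, hs⟩ := hA.out
  refine ⟨⟨s.map ⟨MulOpposite.op, MulOpposite.op_injective⟩, ?_⟩⟩
  have h1 := Subalgebra.op_adjoin (R := k) (s : Set H)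
  rw [hs, Subalgebra.op_top] at h1
  rw [h1]
  congr 1
  ext y
  simp only [Finset.coe_map, Function.Embedding.coeFn_mk, Set.mem_image, Finset.mem_coe,
    Set.mem_preimage]
  constructor
  · rintro ⟨a, ha, rfl⟩
    exact ha
  · intro hy
    exact ⟨_, hy, MulOpposite.op_unop y⟩

/-- Noetherian affine PI algebras are good. -/
theorem piGood (hL : IsNoetherianRing H) (hR : IsNoetherianRing Hᵐᵒᵖ)
    (hA : Algebra.FiniteType k H) (hPI : IsPI k H) : PIGood k H := by
  obtain ⟨d, hd0, hd⟩ := hPI.exists_multId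
  refine ⟨hL, hR, ?_, ?_, ?_, ?_⟩
  · -- central
    intro P hP J hJ hlt
    have := hP.1
    let I : Ideal (H ⧸ P) :=
      { carrier := {y | ∃ j ∈ J, Ideal.Quotient.mk P j = y}
        zero_mem' := ⟨0, J.zero_mem, map_zero _⟩
        add_mem' := by
          rintro _ _ ⟨a, ha, rfl⟩ ⟨b, hb, rfl⟩
          exact ⟨a + b, J.add_mem ha hb, map_add _ _ _⟩
        smul_mem' := by
          rintro c _ ⟨a, ha, rfl⟩
          obtain ⟨c, rfl⟩ := Ideal.Quotient.mk_surjective c
          exact ⟨c * a, J.mul_mem_left _ ha, map_mul _ _ _⟩ }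
    have hI2 : I.IsTwoSided := ⟨by
      rintro _ c ⟨a, ha, rfl⟩
      obtain ⟨c, rfl⟩ := Ideal.Quotient.mk_surjective c
      exact ⟨a * c, J.mul_mem_right _ ha, map_mul _ _ _⟩⟩
    have hIne : I ≠ ⊥ := by
      intro h
      apply hlt.not_ge
      intro j hj
      have h1 : Ideal.Quotient.mk P j ∈ I := ⟨j, hj, rfl⟩
      rw [h, Ideal.mem_bot, Ideal.Quotient.eq_zero_iff_mem] at h1
      exact h1
    obtain ⟨z, ⟨c, hcJ, rfl⟩, hz0, hz⟩ := d9_central hL hA hd P hP I hI2 hIne
    refine ⟨c, hcJ, ?_, ?_⟩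
    · intro hc
      exact hz0 (Ideal.Quotient.eq_zero_iff_mem.mpr hc)
    · rw [d9_cen_iff]
      exact hz
  · -- bigCentre
    intro P hP hfd W _ _ _ ψ
    have := hP.1
    by_contra hcon
    push Not at hcon
    apply hfd
    have hsurj : Function.Surjective (Ideal.Quotient.mkₐ k P) :=
      Ideal.Quotient.mkₐ_surjective k P
    have hS : MultId k (H ⧸ P) d := MultId.of_surjective _ hsurj hd
    have hnt : Nontrivial (H ⧸ P) := Ideal.Quotient.nontrivial_iff.mpr hP.2.1
    have hft : Algebra.FiniteType k (H ⧸ P) := Algebra.FiniteType.of_surjective _ hsurj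
    have hfin : Module.Finite k (Subalgebra.center k (H ⧸ P)) := by
      let g : Cen k P →ₗ[k] Subalgebra.center k (H ⧸ P) :=
        { toFun := fun c => ⟨Ideal.Quotient.mk P (c : H), by
            rw [Subalgebra.mem_center_iff]
            intro s
            exact ((d9_cen_iff P (c : H)).mp c.2 s).symm⟩
          map_add' := fun a b => by
            apply Subtype.ext
            exact map_add (Ideal.Quotient.mk P) _ _
          map_smul' := fun r a => by
            apply Subtype.ext
            exact map_smul (Ideal.Quotient.mkₐ k P) r (a : H) }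
      have hg : Function.Surjective g := by
        rintro ⟨z, hz⟩
        obtain ⟨c, rfl⟩ := Ideal.Quotient.mk_surjective z
        rw [Subalgebra.mem_center_iff] at hz
        exact ⟨⟨c, (d9_cen_iff P c).mpr fun s => (hz s).symm⟩, rfl⟩
      have hle : LinearMap.ker ψ ≤ LinearMap.ker g := by
        intro c hc
        rw [LinearMap.mem_ker] at hc ⊢
        have h1 : (c : H) ∈ P := by
          by_contra h
          exact hcon c h hc
        apply Subtype.ext
        exact Ideal.Quotient.eq_zero_iff_mem.mpr h1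
      have hq : Module.Finite k (Cen k P ⧸ LinearMap.ker ψ) :=
        Module.Finite.equiv ψ.quotKerEquivRange.symm
      refine Module.Finite.of_surjective ((LinearMap.ker ψ).liftQ g hle) ?_
      intro z
      obtain ⟨c, rfl⟩ := hg z
      exact ⟨Submodule.Quotient.mk c, rfl⟩
    have hfinS : Module.Finite k (H ⧸ P) :=
      centre_infinite hS (d9_prime P hP) (d9_central hL hA hd P hP) hfin
    exact FD.of_finite
  · -- growth
    obtain ⟨l, x, hx⟩ := d9_generators (k := k) hA
    refine ⟨Submodule.span k (insert 1 (Set.range x)), l * d ^ 2, ?_, ?_, hx, ?_⟩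
    · apply Submodule.fg_span
      exact (Set.finite_range x).insert 1
    · exact Submodule.subset_span (Set.mem_insert _ _)
    · intro P hP
      have := hP.1
      exact d9_growth hL hA hd P hP x
  · -- simpleR
    intro M _ _ _
    have := d9_op hA
    exact simple_fd hd.op M

end WHI
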