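import Mathlib

/-!
# Definitions for `MP_c14890_al` (injective dimension of weak Hopf algebras)

Everything lives in universe `Type`.  `k` is a field, `H` a `k`-algebra, module = left module.
-/

set_option autoImplicit false

open scoped TensorProduct

namespace WHI

/-! ## Weak Hopf algebras (as data, so that the opposite structure can be used as well) -/

/-- A weak Hopf algebra structure on a `k`-algebra `H`. -/
structure WeakHopf (k H : Type) [Field k] [Ring H] [Algebra k H] where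
  /-- comultiplication -/
  Δ : H →ₗ[k] H ⊗[k] H
  /-- counit -/
  ε : H →ₗ[k] k
  /-- antipode -/
  S : H →ₗ[k] H
  coassoc : ∀ x, TensorProduct.assoc k H H H (LinearMap.rTensor H Δ (Δ x))
    = LinearMap.lTensor H Δ (Δ x)
  rTensor_counit : ∀ x, LinearMap.rTensor H ε (Δ x) = (1 : k) ⊗ₜ[k] x
  lTensor_counit : ∀ x, LinearMap.lTensor H ε (Δ x) = x ⊗ₜ[k] (1 : k)
  Δ_mul : ∀ x y, Δ (x * y) = Δ x * Δ y
  Δ_one : TensorProduct.assoc k H H H (LinearMap.rTensor H Δ (Δ 1))
      = TensorProduct.assoc k H H H (Δ 1 ⊗ₜ[k] (1 : H)) * ((1 : H) ⊗ₜ[k] Δ 1)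
  Δ_one' : TensorProduct.assoc k H H H (LinearMap.rTensor H Δ (Δ 1))
      = ((1 : H) ⊗ₜ[k] Δ 1) * TensorProduct.assoc k H H H (Δ 1 ⊗ₜ[k] (1 : H))
  ε_mul : ∀ x y z, ε (x * y * z)
      = LinearMap.mul' k k (TensorProduct.map
          (ε ∘ₗ LinearMap.mulLeft k x) (ε ∘ₗ LinearMap.mulRight k z) (Δ y))
  ε_mul' : ∀ x y z, ε (x * y * z)
      = LinearMap.mul' k k (TensorProduct.map
          (ε ∘ₗ LinearMap.mulLeft k x) (ε ∘ₗ LinearMap.mulRight k z)
          (TensorProduct.comm k H H (Δ y)))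
  /-- `x₁ S(x₂) = ε(1₁ x) 1₂` -/
  anti₁ : ∀ x, LinearMap.mul' k H (TensorProduct.map LinearMap.id S (Δ x))
      = TensorProduct.lid k H (TensorProduct.map (ε ∘ₗ LinearMap.mulRight k x) LinearMap.id (Δ 1))
  /-- `S(x₁) x₂ = 1₁ ε(x 1₂)` -/
  anti₂ : ∀ x, LinearMap.mul' k H (TensorProduct.map S LinearMap.id (Δ x))
      = TensorProduct.rid k H (TensorProduct.map LinearMap.id (ε ∘ₗ LinearMap.mulLeft k x) (Δ 1))
  /-- `S(x₁) x₂ S(x₃) = S(x)` -/
  anti₃ : ∀ x, LinearMap.mul' k H (TensorProduct.map (LinearMap.mul' k H ∘ₗ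
      TensorProduct.map S LinearMap.id) S (LinearMap.rTensor H Δ (Δ x))) = S x

section

variable {k H : Type} [Field k] [Ring H] [Algebra k H]

/-- `ε_t(x) = x₁ S(x₂) (= ε(1₁ x) 1₂)`. -/
noncomputable def WeakHopf.εt (W : WeakHopf k H) : H →ₗ[k] H :=
  LinearMap.mul' k H ∘ₗ TensorProduct.map LinearMap.id W.S ∘ₗ W.Δ

/-- `ε_s(x) = S(x₁) x₂ (= 1₁ ε(x 1₂))`. -/
noncomputable def WeakHopf.εs (W : WeakHopf k H) : H →ₗ[k] H :=
  LinearMap.mul' k H ∘ₗ TensorProduct.map W.S LinearMap.id ∘ₗ W.Δ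

/-- `H ⊗ H` acts on `X ⊗ V`: `(a ⊗ b) (x ⊗ v) = a x ⊗ b v`. -/
noncomputable def act (k H X V : Type) [Field k] [Ring H] [Algebra k H]
    [AddCommGroup X] [Module k X] [Module H X] [IsScalarTower k H X]
    [AddCommGroup V] [Module k V] [Module H V] [IsScalarTower k H V] :
    H ⊗[k] H →ₐ[k] Module.End k (X ⊗[k] V) :=
  (Module.endTensorEndAlgHom (R := k) (S := k) (A := k) (M := X) (N := V)).comp
    (Algebra.TensorProduct.map (Algebra.lsmul k k X) (Algebra.lsmul k k V))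

/-- The (non unital) action of `H` on `X ⊗ V` through `Δ`: `ρ(h)(x ⊗ v) = h₁ x ⊗ h₂ v`. -/
noncomputable def WeakHopf.ρ (W : WeakHopf k H) (X V : Type)
    [AddCommGroup X] [Module k X] [Module H X] [IsScalarTower k H X]
    [AddCommGroup V] [Module k V] [Module H V] [IsScalarTower k H V] :
    H →ₗ[k] Module.End k (X ⊗[k] V) :=
  (act k H X V).toLinearMap ∘ₗ W.Δ

/-- The weak tensor product `X ⊗̄ V = Δ(1) (X ⊗ V)`, as a `k`-subspace. -/
noncomputable def WeakHopf.WT (W : WeakHopf k H) (X V : Type)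
    [AddCommGroup X] [Module k X] [Module H X] [IsScalarTower k H X]
    [AddCommGroup V] [Module k V] [Module H V] [IsScalarTower k H V] :
    Submodule k (X ⊗[k] V) :=
  LinearMap.range (W.ρ X V 1)

end

/-! ## Finite dimensional modules -/

/-- The `H`-module `M` is finite dimensional over `k` (stated without a `k`-module structure). -/
def FD (k H : Type) [Field k] [Ring H] [Algebra k H] (M : Type) [AddCommGroup M] [Module H M] :
    Prop :=
  ∃ (n : ℕ) (v : Fin n → M), ∀ x : M, ∃ c : Fin n → k, x = ∑ i, algebraMap k H (c i) • v i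

/-- `J` kills `M`. -/
def Kills {H : Type} [Ring H] (J : Ideal H) (M : Type) [AddCommGroup M] [Module H M] : Prop :=
  ∀ a ∈ J, ∀ x : M, a • x = 0

/-! ## Two-sided ideals -/

/-- Prime two-sided ideals. -/
def PrimeIdl {H : Type} [Ring H] (P : Ideal H) : Prop :=
  P.IsTwoSided ∧ P ≠ ⊤ ∧ ∀ a b, (∀ r, a * r * b ∈ P) → a ∈ P ∨ b ∈ P

/-- Elements which are central modulo `P`. -/
def Cen (k : Type) {H : Type} [Field k] [Ring H] [Algebra k H] (P : Ideal H) : Submodule k H where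
  carrier := {c | ∀ h, c * h - h * c ∈ P}
  zero_mem' := by intro h; simp
  add_mem' := by
    intro a b ha hb h
    have := P.add_mem (ha h) (hb h)
    convert this using 1
    noncomm_ring
  smul_mem' := by
    intro r a ha h
    have := P.mul_mem_left (algebraMap k H r) (ha h)
    convert this using 1
    rw [mul_sub, Algebra.smul_mul_assoc, Algebra.mul_smul_comm, Algebra.smul_def,
      Algebra.smul_def]

/-- The image of `V^n` in `H/P` has dimension `O(n^e)`. -/
def GrowthLE {k H : Type} [Field k] [Ring H] [Algebra k H] (V : Submodule k H) (P : Ideal H)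
    (e : ℕ) : Prop :=
  ∃ C : ℕ, ∀ n : ℕ,
    Module.finrank k ((V ^ n).map (Submodule.mkQ (P.restrictScalars k))) ≤ C * (n + 1) ^ e

/-! ## Polynomial identities -/

/-- `H` satisfies a (nonzero) polynomial identity over `k`. -/
def IsPI (k H : Type) [Field k] [Ring H] [Algebra k H] : Prop :=
  ∃ f : FreeAlgebra k ℕ, f ≠ 0 ∧ ∀ a : ℕ → H, FreeAlgebra.lift k a f = 0

/-- `A` satisfies a multilinear identity of degree `d` with leading coefficient `1`. -/
def MultId (k A : Type) [Field k] [Ring A] [Algebra k A] (d : ℕ) : Prop :=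
  ∃ c : Equiv.Perm (Fin d) → k, c 1 = 1 ∧
    ∀ a : Fin d → A, ∑ σ : Equiv.Perm (Fin d), c σ • (List.ofFn fun i => a (σ i)).prod = 0

/-- Everything about noetherian affine PI algebras which is used in the homological part. -/
structure PIGood (k H : Type) [Field k] [Ring H] [Algebra k H] : Prop where
  noeth : IsNoetherianRing H
  noethR : IsNoetherianRing Hᵐᵒᵖ
  central : ∀ P : Ideal H, PrimeIdl P → ∀ J : Ideal H, J.IsTwoSided → P < J →
    ∃ c ∈ J, c ∉ P ∧ c ∈ Cen k P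
  bigCentre : ∀ P : Ideal H, PrimeIdl P → ¬ FD k H (H ⧸ P) →
    ∀ (W : Type) [AddCommGroup W] [Module k W] [Module.Finite k W] (ψ : Cen k P →ₗ[k] W),
      ∃ c : Cen k P, (c : H) ∉ P ∧ ψ c = 0
  growth : ∃ (V : Submodule k H) (e : ℕ), V.FG ∧ 1 ∈ V ∧ (∀ x : H, ∃ n : ℕ, x ∈ V ^ n) ∧
    ∀ P : Ideal H, PrimeIdl P → GrowthLE V P e
  simpleR : ∀ (M : Type) [AddCommGroup M] [Module Hᵐᵒᵖ M] [IsSimpleModule Hᵐᵒᵖ M],
    FD k Hᵐᵒᵖ M

end WHI
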