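import Pool.Agent.Lib.MP_c14890_al.ExtDefs

/-! # The torsion submodule over a prime quotient -/

set_option autoImplicit false

namespace WHI

variable {k H : Type} [Field k] [Ring H] [Algebra k H]

theorem Cen.mul_mem {P : Ideal H} (hP : P.IsTwoSided) {a b : H} (ha : a ∈ Cen k P)
    (hb : b ∈ Cen k P) : a * b ∈ Cen k P := by
  intro h
  have h1 : a * (b * h - h * b) ∈ P := P.mul_mem_left _ (hb h)
  have h2 : (a * h - h * a) * b ∈ P := Ideal.mul_mem_right _ _ (ha h)
  have := P.add_mem h1 h2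
  convert this using 1
  noncomm_ring

theorem Cen.one_mem {P : Ideal H} : (1 : H) ∈ Cen k P := by
  intro h
  simp

theorem PrimeIdl.mul_notMem {P : Ideal H} (hP : PrimeIdl P) {a b : H} (ha : a ∈ Cen k P)
    (haP : a ∉ P) (hbP : b ∉ P) : a * b ∉ P := by
  intro hab
  obtain ⟨h2s, -, hpr⟩ := hP
  refine (hpr a b fun r => ?_).elim haP hbP
  have h1 : (a * r - r * a) * b ∈ P := Ideal.mul_mem_right _ _ (ha r)
  have h2 : r * (a * b) ∈ P := P.mul_mem_left _ hab
  have := P.add_mem h1 h2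
  convert this using 1
  noncomm_ring

theorem PrimeIdl.one_notMem {P : Ideal H} (hP : PrimeIdl P) : (1 : H) ∉ P :=
  fun h => hP.2.1 ((Ideal.eq_top_iff_one P).2 h)

theorem cen_smul_comm {P : Ideal H} {N : Type} [AddCommGroup N]
    [Module H N] (hN : Kills P N) {c : H} (hc : c ∈ Cen k P) (h : H) (x : N) :
    c • h • x = h • c • x := by
  have h1 : (c * h - h * c) • x = 0 := hN _ (hc h) x
  rwa [sub_smul, sub_eq_zero, mul_smul, mul_smul] at h1

/-- The torsion submodule `T` of a noetherian module killed by a prime `P` is killed by a single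
element `c`, and the quotient is torsion free. -/
theorem exists_torsion (P : Ideal H) (hP : PrimeIdl P) (N : Type) [AddCommGroup N]
    [Module H N] [IsNoetherian H N] (hN : Kills P N) :
    ∃ (T : Submodule H N) (c : H), c ∈ Cen k P ∧ c ∉ P ∧ (∀ x ∈ T, c • x = 0) ∧
      ∀ c' ∈ Cen k P, c' ∉ P → ∀ x : N, c' • x ∈ T → x ∈ T := by
  let T : Submodule H N :=
    { carrier := {x | ∃ c ∈ Cen k P, c ∉ P ∧ c • x = 0}
      zero_mem' := ⟨1, Cen.one_mem, hP.one_notMem, by simp⟩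
      add_mem' := by
        rintro x y ⟨c, hc, hcP, hcx⟩ ⟨c', hc', hcP', hcy⟩
        refine ⟨c * c', Cen.mul_mem hP.1 hc hc', hP.mul_notMem hc hcP hcP', ?_⟩
        rw [smul_add, mul_smul, mul_smul, hcy, smul_zero, add_zero,
          cen_smul_comm hN hc, hcx, smul_zero]
      smul_mem' := by
        rintro h x ⟨c, hc, hcP, hcx⟩
        exact ⟨c, hc, hcP, by rw [cen_smul_comm hN hc, hcx, smul_zero]⟩ }
  obtain ⟨s, hs⟩ := (isNoetherian_def.1 inferInstance : ∀ S : Submodule H N, S.FG) T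
  have key : ∀ s : Finset N, (∀ x ∈ s, x ∈ T) →
      ∃ c ∈ Cen k P, c ∉ P ∧ ∀ x ∈ s, c • x = 0 := by
    classical
    intro s
    induction s using Finset.induction with
    | empty => exact fun _ => ⟨1, Cen.one_mem, hP.one_notMem, by simp⟩
    | insert a s _ ih =>
      intro h
      obtain ⟨c, hc, hcP, hcx⟩ := ih fun x hx => h x (Finset.mem_insert_of_mem hx)
      obtain ⟨c', hc', hcP', hca⟩ := h a (Finset.mem_insert_self _ _)
      refine ⟨c * c', Cen.mul_mem hP.1 hc hc', hP.mul_notMem hc hcP hcP', ?_⟩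
      intro x hx
      rcases Finset.mem_insert.1 hx with rfl | hx
      · rw [mul_smul, hca, smul_zero]
      · rw [mul_smul, cen_smul_comm hN hc, hcx x hx, smul_zero]
  obtain ⟨c, hc, hcP, hcx⟩ := key s fun x hx => by
    rw [← hs]
    exact Submodule.subset_span hx
  refine ⟨T, c, hc, hcP, ?_, ?_⟩
  · intro x hx
    rw [← hs] at hx
    refine Submodule.span_induction (p := fun x _ => c • x = 0) ?_ ?_ ?_ ?_ hx
    · exact fun x hx => hcx x hx
    · exact smul_zero c
    · intro x y _ _ hx hy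
      rw [smul_add, hx, hy, add_zero]
    · intro h x _ hx
      rw [cen_smul_comm hN hc, hx, smul_zero]
  · rintro c' hc' hcP' x ⟨d, hd, hdP, hdx⟩
    refine ⟨d * c', Cen.mul_mem hP.1 hd hc', hP.mul_notMem hd hdP hcP', ?_⟩
    rw [mul_smul]
    exact hdx

/-- The two-sided ideal `P + c H`. -/
theorem exists_bigger (P : Ideal H) (hP : PrimeIdl P) (c : H) (hc : c ∈ Cen k P) (hcP : c ∉ P) :
    ∃ J : Ideal H, J.IsTwoSided ∧ P < J ∧ c ∈ J ∧
      ∀ (M : Type) [AddCommGroup M] [Module H M], Kills P M → (∀ x : M, c • x = 0) →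
        Kills J M := by
  have h2s := hP.1
  let J : Ideal H := P ⊔ Ideal.span {c}
  have hJ : ∀ x, x ∈ J ↔ ∃ p ∈ P, ∃ h : H, x = p + h * c := by
    intro x
    rw [Submodule.mem_sup]
    constructor
    · rintro ⟨p, hp, y, hy, rfl⟩
      obtain ⟨h, rfl⟩ := Ideal.mem_span_singleton'.1 hy
      exact ⟨p, hp, h, rfl⟩
    · rintro ⟨p, hp, h, rfl⟩
      exact ⟨p, hp, h * c, Ideal.mem_span_singleton'.2 ⟨h, rfl⟩, rfl⟩
  refine ⟨J, ⟨?_⟩, ?_, ?_, ?_⟩
  · intro a b ha
    obtain ⟨p, hp, h, rfl⟩ := (hJ _).1 ha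
    refine (hJ _).2 ⟨p * b + h * (c * b - b * c), ?_, h * b, ?_⟩
    · exact P.add_mem (Ideal.mul_mem_right _ _ hp) (P.mul_mem_left _ (hc b))
    · noncomm_ring
  · refine lt_of_le_of_ne le_sup_left fun h => hcP ?_
    rw [h]
    exact (hJ c).2 ⟨0, P.zero_mem, 1, by simp⟩
  · exact (hJ c).2 ⟨0, P.zero_mem, 1, by simp⟩
  · intro M _ _ hM hcM a ha x
    obtain ⟨p, hp, h, rfl⟩ := (hJ _).1 ha
    rw [add_smul, mul_smul, hM p hp, hcM, smul_zero, add_zero]

/-- The two-sided ideal `{x | a r x ∈ J for all r}`-like product decomposition. -/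
theorem exists_product (J : Ideal H) (hJ : J.IsTwoSided) (hJ' : J ≠ ⊤) (hJ'' : ¬ PrimeIdl J) :
    ∃ A₁ A₂ : Ideal H, A₁.IsTwoSided ∧ A₂.IsTwoSided ∧ J < A₁ ∧ J < A₂ ∧
      ∀ a ∈ A₁, ∀ b ∈ A₂, a * b ∈ J := by
  have h1 : ∃ a b : H, (∀ r, a * r * b ∈ J) ∧ a ∉ J ∧ b ∉ J := by
    by_contra hcon
    push Not at hcon
    exact hJ'' ⟨hJ, hJ', fun a b hab => by
      by_contra h
      push Not at h
      exact h.2 (hcon a b hab h.1)⟩
  obtain ⟨a, b, hab, ha, hb⟩ := h1
  -- `A₂ = {y | a H y ⊆ J}`, `A₁ = {x | x A₂ ⊆ J}`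
  let A₂ : Ideal H :=
    { carrier := {y | ∀ r, a * r * y ∈ J}
      zero_mem' := fun r => by simp
      add_mem' := fun {x y} hx hy r => by
        rw [mul_add]; exact J.add_mem (hx r) (hy r)
      smul_mem' := fun s y hy r => by
        have := hy (r * s)
        rw [smul_eq_mul]
        convert this using 1
        noncomm_ring }
  let A₁ : Ideal H :=
    { carrier := {x | ∀ y ∈ A₂, x * y ∈ J}
      zero_mem' := fun y _ => by simp
      add_mem' := fun {x x'} hx hx' y hy => by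
        rw [add_mul]; exact J.add_mem (hx y hy) (hx' y hy)
      smul_mem' := fun s x hx y hy => by
        rw [smul_eq_mul, mul_assoc]
        exact J.mul_mem_left _ (hx y hy) }
  have hJA₂ : J ≤ A₂ := fun y hy r => J.mul_mem_left _ hy
  have hJA₁ : J ≤ A₁ := fun x hx y _ => Ideal.mul_mem_right _ _ hx
  refine ⟨A₁, A₂, ⟨?_⟩, ⟨?_⟩, ?_, ?_, fun x hx y hy => hx y hy⟩
  · intro s x hx y hy
    rw [mul_assoc]
    exact hx _ (A₂.mul_mem_left _ hy)
  · intro s y hy r
    rw [← mul_assoc]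
    exact Ideal.mul_mem_right _ _ (hy r)
  · refine lt_of_le_of_ne hJA₁ fun h => ha ?_
    rw [h]
    intro y hy
    have := hy 1
    rwa [mul_one] at this
  · refine lt_of_le_of_ne hJA₂ fun h => hb ?_
    rw [h]
    exact hab

end WHI
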