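import Pool.Agent.Lib.MP_c14890_al.E1
import Pool.Agent.Lib.MP_c14890_al.F4

/-! # Essential extensions of finite dimensional modules -/

set_option autoImplicit false

namespace WHI

variable {k H : Type} [Field k] [Ring H] [Algebra k H]

private lemma E2_fd_of_subsingleton {M : Type} [AddCommGroup M] [Module H M]
    (h : ∀ x : M, x = 0) : FD k H M :=
  ⟨0, Fin.elim0, fun x => ⟨Fin.elim0, by rw [h x]; simp⟩⟩

private lemma E2_ess {E : Type} [AddCommGroup E] [Module H E] {D : Submodule H E}
    (hess : ∀ X : Submodule H E, X ≠ ⊥ → D ⊓ X ≠ ⊥) (Y : Submodule H E) :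
    ∀ X : Submodule H Y, X ≠ ⊥ → D.comap Y.subtype ⊓ X ≠ ⊥ := by
  intro X hX h
  have h1 : X.map Y.subtype ≠ ⊥ := by
    intro h2
    apply hX
    rw [eq_bot_iff]
    intro x hx
    have h3 : Y.subtype x ∈ X.map Y.subtype := Submodule.mem_map_of_mem hx
    rw [h2, Submodule.mem_bot] at h3
    rw [Submodule.mem_bot]
    exact Subtype.ext h3
  apply hess _ h1
  rw [eq_bot_iff]
  rintro _ ⟨hx, ⟨x, hx', rfl⟩⟩
  have h3 : x ∈ D.comap Y.subtype ⊓ X := ⟨hx, hx'⟩
  rw [h, Submodule.mem_bot] at h3
  rw [h3, map_zero]
  exact Submodule.zero_mem _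

private lemma E2_fd_comap {E : Type} [AddCommGroup E] [Module H E] {D : Submodule H E}
    (hD : FD k H D) (Y : Submodule H E) : FD k H (D.comap Y.subtype) := by
  let f : D.comap Y.subtype →ₗ[H] D :=
    { toFun := fun x => ⟨(x : Y), x.2⟩
      map_add' := fun x y => rfl
      map_smul' := fun r x => rfl }
  refine hD.of_injective f ?_
  intro x y hxy
  apply Subtype.ext
  apply Subtype.ext
  exact congrArg (fun z : D => (z : E)) hxy

private lemma E2_cend_pow {P : Ideal H} {c : H} (hc : c ∈ Cen k P) {E : Type} [AddCommGroup E]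
    [Module H E] (hE : Kills P E) (m : ℕ) (x : E) :
    ((cend k c hc E hE) ^ m) x = c ^ m • x := by
  induction m generalizing x with
  | zero => simp
  | succ m ih =>
    rw [pow_succ, Module.End.mul_apply, ih, pow_succ, mul_smul]
    rfl

private lemma E2_pow_cen {P : Ideal H} (hP : PrimeIdl P) {c : H} (hc : c ∈ Cen k P)
    (hc' : c ∉ P) (m : ℕ) : c ^ m ∈ Cen k P ∧ c ^ m ∉ P := by
  have hts : P.IsTwoSided := hP.1
  induction m with
  | zero =>
    constructor
    · intro h
      simp
    · rw [pow_zero]
      intro h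
      exact hP.2.1 ((Ideal.eq_top_iff_one P).2 h)
  | succ m ih =>
    obtain ⟨ih1, ih2⟩ := ih
    constructor
    · intro h
      have h1 : c ^ (m + 1) * h - h * c ^ (m + 1) =
          c ^ m * (c * h - h * c) + (c ^ m * h - h * c ^ m) * c := by
        rw [pow_succ]
        noncomm_ring
      rw [h1]
      exact P.add_mem (P.mul_mem_left _ (hc h)) (P.mul_mem_right _ (ih1 h))
    · intro h
      have h1 : ∀ r, c ^ m * r * c ∈ P := by
        intro r
        have h2 : c ^ m * r * c = r * (c ^ (m + 1)) + (c ^ m * r - r * c ^ m) * c := by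
          rw [pow_succ]
          noncomm_ring
        rw [h2]
        exact P.add_mem (P.mul_mem_left _ h) (P.mul_mem_right _ (ih1 r))
      rcases hP.2.2 _ c h1 with h2 | h2
      · exact ih2 h2
      · exact hc' h2

/-- The right multiplier `{x | Q x ⊆ A Q}` has finite codimension. -/
private lemma E2_codim (hnoeth : IsNoetherianRing H) (A Q : Ideal H) (hA : A.IsTwoSided)
    (hQ : Q.IsTwoSided) (hfin : FD k H (H ⧸ A)) :
    ∃ B : Ideal H, B.IsTwoSided ∧ (∀ q ∈ Q, ∀ x ∈ B, q * x ∈ A • Q) ∧ FD k H (H ⧸ B) := by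
  classical
  have hAQr : ∀ x ∈ A • Q, ∀ h : H, x * h ∈ A • Q := by
    intro x hx h
    refine Submodule.smul_induction_on hx ?_ ?_
    · intro a ha q hq
      have : a • q * h = a • (q * h) := by rw [smul_eq_mul, smul_eq_mul, mul_assoc]
      rw [this]
      exact Submodule.smul_mem_smul ha (Q.mul_mem_right _ hq)
    · intro x y hx hy
      rw [add_mul]
      exact Submodule.add_mem _ hx hy
  let B : Ideal H :=
    { carrier := {x | ∀ q ∈ Q, q * x ∈ A • Q}
      zero_mem' := by
        intro q hq
        rw [mul_zero]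
        exact Submodule.zero_mem _
      add_mem' := by
        intro x y hx hy q hq
        rw [mul_add]
        exact Submodule.add_mem _ (hx q hq) (hy q hq)
      smul_mem' := by
        intro r x hx q hq
        change q * (r * x) ∈ A • Q
        rw [← mul_assoc]
        exact hx _ (Q.mul_mem_right _ hq) }
  have hB : ∀ x, x ∈ B ↔ ∀ q ∈ Q, q * x ∈ A • Q := fun x => Iff.rfl
  refine ⟨B, ⟨?_⟩, fun q hq x hx => hx q hq, ?_⟩
  · intro a b ha q hq
    rw [← mul_assoc]
    exact hAQr _ (ha q hq) b
  -- `Q / AQ` is finite dimensional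
  let AQ : Submodule H Q := Submodule.comap Q.subtype (A • Q)
  have hkill : Kills A (Q ⧸ AQ) := by
    intro a ha x
    obtain ⟨q, rfl⟩ := AQ.mkQ_surjective x
    rw [← map_smul, Submodule.mkQ_apply]
    refine (Submodule.Quotient.mk_eq_zero _).2 ?_
    change a * (q : H) ∈ A • Q
    exact Submodule.smul_mem_smul ha q.2
  have hQfin : Module.Finite H Q := Module.IsNoetherian.finite H Q
  have hfd : FD k H (Q ⧸ AQ) := FD.of_kills A hfin hkill
  obtain ⟨t, v, hv⟩ := hfd
  choose w hw using fun i => AQ.mkQ_surjective (v i)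
  have hQAQ : Module.Finite k (Q ⧸ AQ) := FD.finite ⟨t, v, hv⟩
  -- the embedding of `H / B`
  let f : H →ₗ[k] (Fin t → Q ⧸ AQ) :=
    { toFun := fun h i => AQ.mkQ ⟨(w i : H) * h, Q.mul_mem_right _ (w i).2⟩
      map_add' := by
        intro x y
        funext i
        have : (⟨(w i : H) * (x + y), Q.mul_mem_right _ (w i).2⟩ : Q) =
            ⟨(w i : H) * x, Q.mul_mem_right _ (w i).2⟩ +
            ⟨(w i : H) * y, Q.mul_mem_right _ (w i).2⟩ := Subtype.ext (mul_add _ _ _)
        rw [this, map_add]
        rfl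
      map_smul' := by
        intro r x
        funext i
        have : (⟨(w i : H) * (r • x), Q.mul_mem_right _ (w i).2⟩ : Q) =
            r • ⟨(w i : H) * x, Q.mul_mem_right _ (w i).2⟩ :=
          Subtype.ext (by
            change (w i : H) * (r • x) = r • ((w i : H) * x)
            rw [mul_smul_comm])
        rw [this]
        rfl }
  have hker : LinearMap.ker f = B.restrictScalars k := by
    ext h
    constructor
    · intro hh
      have h1 : ∀ i, (w i : H) * h ∈ A • Q := by
        intro i
        have h2 : AQ.mkQ ⟨(w i : H) * h, Q.mul_mem_right _ (w i).2⟩ = 0 :=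
          congrFun (LinearMap.mem_ker.1 hh) i
        rw [Submodule.mkQ_apply] at h2
        exact (Submodule.Quotient.mk_eq_zero AQ).1 h2
      change ∀ q ∈ Q, q * h ∈ A • Q
      intro q hq
      obtain ⟨c, hc⟩ := hv (AQ.mkQ ⟨q, hq⟩)
      have h3 : AQ.mkQ (⟨q, hq⟩ - ∑ i, algebraMap k H (c i) • w i) = 0 := by
        rw [map_sub, map_sum, hc, sub_eq_zero]
        refine Finset.sum_congr rfl fun i _ => ?_
        rw [map_smul, hw]
      rw [Submodule.mkQ_apply] at h3
      have h4 : q - ∑ i, algebraMap k H (c i) * (w i : H) ∈ A • Q := by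
        have := (Submodule.Quotient.mk_eq_zero _).1 h3
        change ((⟨q, hq⟩ - ∑ i, algebraMap k H (c i) • w i : Q) : H) ∈ A • Q at this
        have h5 : ((⟨q, hq⟩ - ∑ i, algebraMap k H (c i) • w i : Q) : H) =
            q - ∑ i, algebraMap k H (c i) * (w i : H) := by
          simp [Algebra.smul_def]
        rwa [h5] at this
      have h6 : q * h = (q - ∑ i, algebraMap k H (c i) * (w i : H)) * h +
          ∑ i, algebraMap k H (c i) * ((w i : H) * h) := by
        rw [sub_mul, Finset.sum_mul]
        simp only [mul_assoc]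
        abel
      rw [h6]
      exact Submodule.add_mem _ (hAQr _ h4 h) (Submodule.sum_mem _ fun i _ =>
        Submodule.smul_mem _ _ (h1 i))
    · intro hh
      have hh' : ∀ q ∈ Q, q * h ∈ A • Q := hh
      rw [LinearMap.mem_ker]
      funext i
      change AQ.mkQ ⟨(w i : H) * h, Q.mul_mem_right _ (w i).2⟩ = 0
      rw [Submodule.mkQ_apply]
      exact (Submodule.Quotient.mk_eq_zero _).2 (hh' _ (w i).2)
  have h1 : Module.Finite k (H ⧸ LinearMap.ker f) :=
    Module.Finite.equiv f.quotKerEquivRange.symm
  have h2 : Module.Finite k (H ⧸ B) := by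
    rw [hker] at h1
    exact Module.Finite.equiv (Submodule.Quotient.restrictScalarsEquiv k B)
  exact FD.of_finite

private theorem E2_main (hG : PIGood k H) (J : Ideal H) : J.IsTwoSided →
    ∀ (E : Type) [AddCommGroup E] [Module H E] [Module.Finite H E], Kills J E →
    ∀ (D : Submodule H E), FD k H D → (∀ X : Submodule H E, X ≠ ⊥ → D ⊓ X ≠ ⊥) →
    FD k H E := by
  have hnoeth : IsNoetherianRing H := hG.noeth
  have hwf : WellFoundedGT (Ideal H) := inferInstance
  induction J using hwf.wf.induction with
  | _ J ih =>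
  intro hJ E _ _ _ hE D hD hess
  by_cases htop : J = ⊤
  · apply E2_fd_of_subsingleton
    intro x
    have := hE 1 (by rw [htop]; exact Submodule.mem_top) x
    rwa [one_smul] at this
  by_cases hprime : PrimeIdl J
  · by_cases hfd : FD k H (H ⧸ J)
    · exact FD.of_kills J hfd hE
    · set A := Module.annihilator H D with hA
      have hJA : J ≤ A := by
        intro a ha
        rw [hA, Module.mem_annihilator]
        intro x
        apply Subtype.ext
        exact hE a ha x
      have hne : J ≠ A := by
        intro h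
        apply hfd
        rw [h]
        exact hD.annihilator
      obtain ⟨c, hcA, hcJ, hc⟩ := hG.central J hprime A inferInstance (lt_of_le_of_ne hJA hne)
      -- Fitting
      set f := cend k c hc E hE with hf
      obtain ⟨m₀, hm₀⟩ := Filter.eventually_atTop.1
        (Module.End.eventually_disjoint_ker_pow_range_pow f)
      have hdis := hm₀ (m₀ + 1) (by omega)
      have hDk : D ≤ LinearMap.ker (f ^ (m₀ + 1)) := by
        intro x hx
        rw [LinearMap.mem_ker, E2_cend_pow hc hE, pow_succ, mul_smul]
        have h1 : c • (⟨x, hx⟩ : D) = 0 := Module.mem_annihilator.1 hcA _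
        have h2 : c • x = 0 := congrArg Subtype.val h1
        rw [h2, smul_zero]
      have hrange : LinearMap.range (f ^ (m₀ + 1)) = ⊥ := by
        by_contra hne
        apply hess _ hne
        exact (hdis.mono_left hDk).eq_bot
      have hkill : ∀ x : E, c ^ (m₀ + 1) • x = 0 := by
        intro x
        rw [← E2_cend_pow hc hE]
        have : (f ^ (m₀ + 1)) x ∈ LinearMap.range (f ^ (m₀ + 1)) := ⟨x, rfl⟩
        rw [hrange, Submodule.mem_bot] at this
        exact this
      obtain ⟨hcm, hcm'⟩ := E2_pow_cen hprime hc hcJ (m₀ + 1)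
      obtain ⟨J', hJ', hlt, -, hk⟩ := exists_bigger J hprime _ hcm hcm'
      exact ih J' hlt hJ' E (hk E hE hkill) D hD hess
  · obtain ⟨A₁, A₂, hA₁, hA₂, hlt₁, hlt₂, hprod⟩ := exists_product J hJ htop hprime
    -- `A₂ E`
    set Y : Submodule H E := A₂ • ⊤ with hY
    have hYkill : Kills A₁ Y := by
      rintro a ha ⟨x, hx⟩
      apply Subtype.ext
      change a • x = 0
      refine Submodule.smul_induction_on hx ?_ ?_
      · intro b hb y _
        rw [← mul_smul]
        exact hE _ (hprod a ha b hb) y
      · intro x y hx hy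
        rw [smul_add, hx, hy, add_zero]
    have hYfin : Module.Finite H Y := Module.IsNoetherian.finite H Y
    have hYfd : FD k H Y := ih A₁ hlt₁ hA₁ Y hYkill (D.comap Y.subtype) (E2_fd_comap hD Y)
      (E2_ess hess Y)
    -- `D' = D + A₂ E`
    set D' : Submodule H E := D ⊔ Y with hD'
    have hD'fd : FD k H D' := by
      have h1 : FD k H (Y.comap D'.subtype) := E2_fd_comap hYfd D'
      refine FD.extension (Y.comap D'.subtype) h1 ?_
      let g : D →ₗ[H] D' ⧸ Y.comap D'.subtype :=
        (Y.comap D'.subtype).mkQ ∘ₗ (Submodule.inclusion le_sup_left)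
      refine hD.of_surjective g ?_
      intro x
      obtain ⟨⟨x, hx⟩, rfl⟩ := Submodule.mkQ_surjective _ x
      obtain ⟨d, hd, y, hy, rfl⟩ := Submodule.mem_sup.1 hx
      refine ⟨⟨d, hd⟩, ?_⟩
      change (Y.comap D'.subtype).mkQ ⟨d, _⟩ = (Y.comap D'.subtype).mkQ ⟨d + y, _⟩
      rw [← sub_eq_zero, ← map_sub, Submodule.mkQ_apply]
      refine (Submodule.Quotient.mk_eq_zero _).2 ?_
      change d - (d + y) ∈ Y
      have : d - (d + y) = -y := by abel
      rw [this]
      exact Y.neg_mem hy
    set A := Module.annihilator H D' with hA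
    have hAts : A.IsTwoSided := by rw [hA]; infer_instance
    obtain ⟨B, hB, hQB, hBfd⟩ := E2_codim hnoeth A A₂ hAts hA₂ hD'fd.annihilator
    -- `B E` is killed by `A₂`
    set Z : Submodule H E := B • ⊤ with hZ
    have hAD' : ∀ a ∈ A, ∀ x ∈ D', a • x = 0 := by
      intro a ha x hx
      have h1 : a • (⟨x, hx⟩ : D') = 0 := Module.mem_annihilator.1 ha _
      exact congrArg Subtype.val h1
    have hAQE : ∀ z ∈ A • A₂, ∀ y : E, z • y = 0 := by
      intro z hz y
      refine Submodule.smul_induction_on hz ?_ ?_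
      · intro a ha q hq
        rw [smul_eq_mul, mul_smul]
        exact hAD' a ha _ (Submodule.mem_sup_right (Submodule.smul_mem_smul hq Submodule.mem_top))
      · intro x y' hx hy'
        rw [add_smul, hx, hy', add_zero]
    have hZkill : Kills A₂ Z := by
      rintro a ha ⟨x, hx⟩
      apply Subtype.ext
      change a • x = 0
      refine Submodule.smul_induction_on hx ?_ ?_
      · intro b hb y _
        rw [← mul_smul]
        exact hAQE _ (hQB a ha b hb) y
      · intro x y hx hy
        rw [smul_add, hx, hy, add_zero]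
    have hZfin : Module.Finite H Z := Module.IsNoetherian.finite H Z
    have hZfd : FD k H Z := ih A₂ hlt₂ hA₂ Z hZkill (D.comap Z.subtype) (E2_fd_comap hD Z)
      (E2_ess hess Z)
    refine FD.extension Z hZfd ?_
    refine FD.of_kills B hBfd ?_
    intro b hb x
    obtain ⟨y, rfl⟩ := Z.mkQ_surjective x
    rw [← map_smul, Submodule.mkQ_apply]
    exact (Submodule.Quotient.mk_eq_zero _).2 (Submodule.smul_mem_smul hb Submodule.mem_top)

/-- A finitely generated module with an essential finite dimensional submodule is finite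
dimensional. -/
theorem fd_of_essential (hG : PIGood k H) (E : Type) [AddCommGroup E] [Module H E]
    [Module.Finite H E] (D : Submodule H E) (hD : FD k H D)
    (hess : ∀ X : Submodule H E, X ≠ ⊥ → D ⊓ X ≠ ⊥) : FD k H E := by
  refine E2_main hG ⊥ inferInstance E ?_ D hD hess
  intro a ha x
  rw [Submodule.mem_bot] at ha
  rw [ha, zero_smul]

end WHI
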