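import Pool.Agent.Lib.MP_c14890_al.E2

set_option autoImplicit false

namespace WHI

variable {k H : Type} [Field k] [Ring H] [Algebra k H]

/-- A finite dimensional submodule of a finitely generated module avoids some submodule of finite
codimension. -/
theorem exists_cofinite_disjoint (hG : PIGood k H) (E : Type) [AddCommGroup E] [Module H E]
    [Module.Finite H E] (D : Submodule H E) (hD : FD k H D) :
    ∃ E' : Submodule H E, FD k H (E ⧸ E') ∧ E' ⊓ D = ⊥ := by
  have hnoeth : IsNoetherianRing H := hG.noeth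
  have hnE : IsNoetherian H E := inferInstance
  have hwf : WellFoundedGT (Submodule H E) := inferInstance
  obtain ⟨E', hE', hmax⟩ := hwf.wf.has_min {X : Submodule H E | X ⊓ D = ⊥} ⟨⊥, bot_inf_eq D⟩
  have hE'' : E' ⊓ D = ⊥ := hE'
  refine ⟨E', ?_, hE''⟩
  have hDbar : FD k H (D.map E'.mkQ) := by
    let g : D →ₗ[H] D.map E'.mkQ :=
      (E'.mkQ ∘ₗ D.subtype).codRestrict (D.map E'.mkQ) fun x => ⟨x, x.2, rfl⟩
    refine hD.of_surjective g ?_
    rintro ⟨_, ⟨x, hx, rfl⟩⟩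
    exact ⟨⟨x, hx⟩, rfl⟩
  refine fd_of_essential hG (E ⧸ E') (D.map E'.mkQ) hDbar ?_
  intro X hX h
  set X' : Submodule H E := X.comap E'.mkQ with hX'
  have h1 : E' ≤ X' := by
    intro x hx
    change E'.mkQ x ∈ X
    have : E'.mkQ x = 0 := by
      rw [Submodule.mkQ_apply]
      exact (Submodule.Quotient.mk_eq_zero _).2 hx
    rw [this]
    exact X.zero_mem
  have h2 : E' ≠ X' := by
    intro h3
    apply hX
    rw [eq_bot_iff]
    intro x hx
    obtain ⟨y, rfl⟩ := E'.mkQ_surjective x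
    have h4 : y ∈ X' := hx
    rw [← h3] at h4
    rw [Submodule.mem_bot, Submodule.mkQ_apply]
    exact (Submodule.Quotient.mk_eq_zero _).2 h4
  have h3 : X' ⊓ D ≠ ⊥ := fun h4 => hmax X' h4 (lt_of_le_of_ne h1 h2)
  apply h3
  rw [eq_bot_iff]
  rintro x ⟨hx, hxD⟩
  have h4 : E'.mkQ x ∈ D.map E'.mkQ ⊓ X := ⟨⟨x, hxD, rfl⟩, hx⟩
  rw [h, Submodule.mem_bot, Submodule.mkQ_apply] at h4
  have h5 : x ∈ E' ⊓ D := ⟨(Submodule.Quotient.mk_eq_zero _).1 h4, hxD⟩
  rwa [hE''] at h5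

end WHI
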