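import Pool.Agent.Lib.MP_c14890_al.WTDefs

/-!
# Definitions around `Ext` over `H`
-/

set_option autoImplicit false

open scoped TensorProduct ModuleCat
open CategoryTheory CategoryTheory.Abelian

namespace WHI

/-- Multiplication by `c ∈ Cen P` on a module killed by `P`. -/
def cend (k : Type) {H : Type} [Field k] [Ring H] [Algebra k H] {P : Ideal H} (c : H)
    (hc : c ∈ Cen k P) (M : Type) [AddCommGroup M] [Module H M] (hM : Kills P M) :
    M →ₗ[H] M where
  toFun x := c • x
  map_add' := smul_add c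
  map_smul' h x := by
    have h1 : (c * h - h * c) • x = 0 := hM _ (hc h) x
    rw [sub_smul, sub_eq_zero, mul_smul, mul_smul] at h1
    simpa using h1

/-- `Ext^i(V, N)` is effaceable on finite dimensional modules for `i > e`. -/
def Eff (k H : Type) [Field k] [Ring H] [Algebra k H] (N : ModuleCat.{0} H) (e : ℕ) : Prop :=
  ∀ V : ModuleCat.{0} H, FD k H V → ∀ i : ℕ, e < i → ∀ ξ : Ext V N i,
    ∃ (V' : ModuleCat.{0} H) (p : V' ⟶ V), FD k H V' ∧ Function.Surjective p.hom ∧
      (Ext.mk₀ p).comp ξ (zero_add i) = 0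

/-- Right multiplication on `H` as an endomorphism of the left module `H`. -/
def rmul {H : Type} [Ring H] (r : Hᵐᵒᵖ) : ModuleCat.of H H ⟶ ModuleCat.of H H :=
  ModuleCat.ofHom
    { toFun := fun x => x * r.unop
      map_add' := fun x y => add_mul x y _
      map_smul' := fun a x => mul_assoc a x _ }

/-- The right `H`-module structure on `Ext^i(M, H)`. -/
noncomputable instance extModuleOp {H : Type} [Ring H] (M : ModuleCat.{0} H) (i : ℕ) :
    Module Hᵐᵒᵖ (Ext M (ModuleCat.of H H) i) where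
  smul r ξ := ξ.comp (Ext.mk₀ (rmul r)) (add_zero i)
  one_smul ξ := by
    change ξ.comp (Ext.mk₀ (rmul 1)) (add_zero i) = ξ
    have : rmul (1 : Hᵐᵒᵖ) = 𝟙 (ModuleCat.of H H) := by
      ext
      simp [rmul]
    rw [this, Ext.comp_mk₀_id]
  mul_smul r s ξ := by
    change ξ.comp (Ext.mk₀ (rmul (r * s))) (add_zero i)
      = (ξ.comp (Ext.mk₀ (rmul s)) (add_zero i)).comp (Ext.mk₀ (rmul r)) (add_zero i)
    have : rmul (r * s) = rmul s ≫ rmul r := by
      ext
      simp [rmul]
    rw [this, ← Ext.mk₀_comp_mk₀, Ext.comp_assoc_of_third_deg_zero]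
  smul_zero r := by
    change (0 : Ext M (ModuleCat.of H H) i).comp (Ext.mk₀ (rmul r)) (add_zero i) = 0
    rw [Ext.zero_comp]
  smul_add r ξ η := Ext.add_comp _ _ _ _
  add_smul r s ξ := by
    change ξ.comp (Ext.mk₀ (rmul (r + s))) (add_zero i)
      = ξ.comp (Ext.mk₀ (rmul r)) (add_zero i) + ξ.comp (Ext.mk₀ (rmul s)) (add_zero i)
    have : rmul (r + s) = rmul r + rmul s := by
      ext
      simp [rmul]
    rw [this, Ext.mk₀_add, Ext.comp_add]
  zero_smul ξ := by
    change ξ.comp (Ext.mk₀ (rmul 0)) (add_zero i) = 0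
    have : rmul (0 : Hᵐᵒᵖ) = 0 := by
      ext
      simp [rmul]
    rw [this, Ext.mk₀_zero, Ext.comp_zero]

theorem op_smul_ext {H : Type} [Ring H] {M : ModuleCat.{0} H} {i : ℕ} (r : Hᵐᵒᵖ)
    (ξ : Ext M (ModuleCat.of H H) i) : r • ξ = ξ.comp (Ext.mk₀ (rmul r)) (add_zero i) := rfl

section

variable {k H : Type} [Field k] [Ring H] [Algebra k H] (W : WeakHopf k H)

/-- `X ⊗̄ V` as an object of `ModuleCat H`. -/
noncomputable def WeakHopf.wtObj (X V : ModuleCat.{0} H) : ModuleCat.{0} H :=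
  ModuleCat.of H (W.WT X V)

/-- Functoriality of `wtObj`. -/
noncomputable def WeakHopf.wtHom {X X' V V' : ModuleCat.{0} H} (f : X ⟶ X') (g : V ⟶ V') :
    W.wtObj X V ⟶ W.wtObj X' V' :=
  ModuleCat.ofHom (W.wtMap f.hom g.hom)

end

end WHI
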