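import Pool.Agent.Lib.MP_c14890_al.ExtDefs
import Pool.Agent.Lib.MP_c14890_al.E3

set_option autoImplicit false

open scoped ModuleCat
open CategoryTheory CategoryTheory.Abelian

namespace WHI

variable {k H : Type} [Field k] [Ring H] [Algebra k H]

private lemma F1_kill {S₁ S₂ : ShortComplex (ModuleCat.{0} H)} (h₁ : S₁.ShortExact)
    (h₂ : S₂.ShortExact) (f : S₁ ⟶ S₂) {N : ModuleCat.{0} H} {j : ℕ} (η : Ext S₂.X₁ N j)
    (h : (Ext.mk₀ f.τ₁).comp η (zero_add j) = 0) :
    (Ext.mk₀ f.τ₃).comp (h₂.extClass.comp η (Nat.add_comm 1 j)) (zero_add (j + 1)) = 0 := by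
  rw [← Ext.comp_assoc (Ext.mk₀ f.τ₃) h₂.extClass η (zero_add 1) (Nat.add_comm 1 j)
    (by omega), ← ShortComplex.ShortExact.extClass_naturality h₁ h₂ f,
    Ext.comp_assoc_of_second_deg_zero, h, Ext.comp_zero]

private lemma F1_ses {n : ℕ} {X : ModuleCat.{0} H} (π : (Fin n → H) →ₗ[H] X)
    (hπ : Function.Surjective π) :
    ∃ hc, (ShortComplex.mk (X₁ := ModuleCat.of H (LinearMap.ker π))
      (X₂ := ModuleCat.of H (Fin n → H)) (X₃ := X) (ModuleCat.ofHom (LinearMap.ker π).subtype)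
      (ModuleCat.ofHom π) hc).ShortExact := by
  have hc : (ModuleCat.ofHom (LinearMap.ker π).subtype : ModuleCat.of H (LinearMap.ker π) ⟶
      ModuleCat.of H (Fin n → H)) ≫ (ModuleCat.ofHom π : ModuleCat.of H (Fin n → H) ⟶ X) = 0 := by
    ext x
    exact x.2
  refine ⟨hc, ?_⟩
  have he : (ShortComplex.mk (X₁ := ModuleCat.of H (LinearMap.ker π))
      (X₂ := ModuleCat.of H (Fin n → H)) (X₃ := X) (ModuleCat.ofHom (LinearMap.ker π).subtype)
      (ModuleCat.ofHom π) hc).Exact := by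
    rw [ShortComplex.ShortExact.moduleCat_exact_iff_function_exact]
    exact LinearMap.exact_subtype_ker_map π
  have hm : Mono (ModuleCat.ofHom (LinearMap.ker π).subtype) :=
    (ModuleCat.mono_iff_injective _).2 (LinearMap.ker π).subtype_injective
  have hp : Epi (ModuleCat.ofHom π : ModuleCat.of H (Fin n → H) ⟶ X) :=
    (ModuleCat.epi_iff_surjective _).2 hπ
  exact { exact := he, mono_f := hm, epi_g := hp }

/-- `D = K / K'` inside `F / K'`. -/
private lemma F1_fd {n : ℕ} {X : ModuleCat.{0} H} (π : (Fin n → H) →ₗ[H] X)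
    (K' : Submodule H (LinearMap.ker π)) (hK' : FD k H (LinearMap.ker π ⧸ K')) :
    FD k H ((LinearMap.ker π).map (K'.map (LinearMap.ker π).subtype).mkQ) := by
  set K'' := K'.map (LinearMap.ker π).subtype with hK''
  let g₀ : LinearMap.ker π →ₗ[H] (LinearMap.ker π).map K''.mkQ :=
    (K''.mkQ ∘ₗ (LinearMap.ker π).subtype).codRestrict _ fun x => ⟨x, x.2, rfl⟩
  have hle : K' ≤ LinearMap.ker g₀ := by
    intro x hx
    rw [LinearMap.mem_ker]
    apply Subtype.ext
    change K''.mkQ (x : Fin n → H) = 0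
    rw [Submodule.mkQ_apply]
    exact (Submodule.Quotient.mk_eq_zero _).2 ⟨x, hx, rfl⟩
  refine hK'.of_surjective (K'.liftQ g₀ hle) ?_
  rintro ⟨_, ⟨x, hx, rfl⟩⟩
  exact ⟨K'.mkQ ⟨x, hx⟩, rfl⟩

/-- Classes in `Ext^j(X, N)`, `N` finite dimensional, die on a submodule of finite codimension. -/
theorem ext_dies_on_cofinite (hG : PIGood k H) (N : ModuleCat.{0} H) (hN : FD k H N) (j : ℕ) :
    ∀ (X : ModuleCat.{0} H), Module.Finite H X → ∀ ζ : Ext X N j,
      ∃ X' : Submodule H X, FD k H (X ⧸ X') ∧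
        (Ext.mk₀ (ModuleCat.ofHom X'.subtype : ModuleCat.of H X' ⟶ X)).comp ζ (zero_add j) = 0 := by
  have hnoeth : IsNoetherianRing H := hG.noeth
  induction j with
  | zero =>
    intro X hX ζ
    obtain ⟨f, rfl⟩ := (Ext.mk₀_bijective (X := X) (Y := N)).2 ζ
    refine ⟨LinearMap.ker f.hom, ?_, ?_⟩
    · exact hN.of_injective ((LinearMap.ker f.hom).liftQ f.hom le_rfl)
        (LinearMap.ker_eq_bot.1 (Submodule.ker_liftQ_eq_bot _ _ _ le_rfl))
    · rw [Ext.mk₀_comp_mk₀]
      have : (ModuleCat.ofHom (LinearMap.ker f.hom).subtype :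
          ModuleCat.of H (LinearMap.ker f.hom) ⟶ X) ≫ f = 0 := by
        ext x
        exact x.2
      rw [this, Ext.mk₀_zero]
  | succ j ih =>
    intro X hX ζ
    obtain ⟨n, π, hπ⟩ := Module.Finite.exists_fin' H X
    have hKfin : Module.Finite H (LinearMap.ker π) := Module.IsNoetherian.finite H _
    obtain ⟨hc, hS⟩ := F1_ses π hπ
    have hproj : Projective (ModuleCat.of H (Fin n → H)) :=
      (IsProjective.iff_projective (Fin n → H)).1 inferInstance
    obtain ⟨η, rfl⟩ := Ext.contravariant_sequence_exact₃ hS N ζ (Ext.eq_zero_of_projective _)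
      (n₀ := j) (by omega)
    obtain ⟨K', hK', hη⟩ := ih (ModuleCat.of H (LinearMap.ker π)) hKfin η
    set K'' := K'.map (LinearMap.ker π).subtype with hK''
    obtain ⟨E', hE', hdis⟩ := exists_cofinite_disjoint hG ((Fin n → H) ⧸ K'')
      ((LinearMap.ker π).map K''.mkQ) (F1_fd π K' hK')
    set F' : Submodule H (Fin n → H) := E'.comap K''.mkQ with hF'
    have hK''F' : K'' ≤ F' := by
      intro x hx
      change K''.mkQ x ∈ E'
      have : K''.mkQ x = 0 := by
        rw [Submodule.mkQ_apply]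
        exact (Submodule.Quotient.mk_eq_zero _).2 hx
      rw [this]
      exact E'.zero_mem
    have hinter : ∀ x ∈ F', π x = 0 → x ∈ K'' := by
      intro x hx hx'
      have h4 : K''.mkQ x ∈ E' ⊓ (LinearMap.ker π).map K''.mkQ := ⟨hx, ⟨x, hx', rfl⟩⟩
      rw [hdis, Submodule.mem_bot, Submodule.mkQ_apply] at h4
      exact (Submodule.Quotient.mk_eq_zero _).1 h4
    set X' : Submodule H X := F'.map π with hX'
    have hfd : FD k H (X ⧸ X') := by
      have h1 : K'' ≤ LinearMap.ker (X'.mkQ ∘ₗ π) := by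
        intro x hx
        rw [LinearMap.mem_ker, LinearMap.comp_apply, Submodule.mkQ_apply]
        exact (Submodule.Quotient.mk_eq_zero _).2 ⟨x, hK''F' hx, rfl⟩
      let g₁ : ((Fin n → H) ⧸ K'') →ₗ[H] X ⧸ X' := K''.liftQ (X'.mkQ ∘ₗ π) h1
      have h2 : E' ≤ LinearMap.ker g₁ := by
        intro x hx
        obtain ⟨y, rfl⟩ := K''.mkQ_surjective x
        rw [LinearMap.mem_ker]
        change X'.mkQ (π y) = 0
        rw [Submodule.mkQ_apply]
        exact (Submodule.Quotient.mk_eq_zero _).2 ⟨y, hx, rfl⟩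
      refine hE'.of_surjective (E'.liftQ g₁ h2) ?_
      intro x
      obtain ⟨y, rfl⟩ := X'.mkQ_surjective x
      obtain ⟨z, rfl⟩ := hπ y
      exact ⟨E'.mkQ (K''.mkQ z), rfl⟩
    refine ⟨X', hfd, ?_⟩
    -- the small sequence
    let i₁ : K' →ₗ[H] F' :=
      { toFun := fun x => ⟨((x : LinearMap.ker π) : Fin n → H), hK''F' ⟨x, x.2, rfl⟩⟩
        map_add' := fun x y => rfl
        map_smul' := fun r x => rfl }
    let p₁ : F' →ₗ[H] X' :=
      { toFun := fun x => ⟨π x, ⟨x, x.2, rfl⟩⟩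
        map_add' := fun x y => Subtype.ext (map_add π _ _)
        map_smul' := fun r x => Subtype.ext (map_smul π _ _) }
    let S₁ : ShortComplex (ModuleCat.{0} H) :=
      ShortComplex.mk (X₁ := ModuleCat.of H K') (X₂ := ModuleCat.of H F')
        (X₃ := ModuleCat.of H X') (ModuleCat.ofHom i₁) (ModuleCat.ofHom p₁) (by
        ext x
        exact x.1.2)
    have hS₁ : S₁.ShortExact := by
      have he : S₁.Exact := by
        rw [ShortComplex.ShortExact.moduleCat_exact_iff_function_exact]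
        rintro ⟨x, hx⟩
        constructor
        · intro h
          have h5 : π x = 0 := congrArg Subtype.val h
          obtain ⟨y, hy, hyx⟩ := hinter x hx h5
          exact ⟨⟨y, hy⟩, Subtype.ext hyx⟩
        · rintro ⟨y, hy⟩
          apply Subtype.ext
          have h5 : x = ((y : LinearMap.ker π) : Fin n → H) := (congrArg Subtype.val hy).symm
          change π x = 0
          rw [h5]
          exact y.1.2
      have hm : Mono S₁.f := (ModuleCat.mono_iff_injective _).2 (by
        intro x y hxy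
        apply Subtype.ext
        apply Subtype.ext
        exact congrArg (fun z : F' => (z : Fin n → H)) hxy)
      have hp : Epi S₁.g := (ModuleCat.epi_iff_surjective _).2 (by
        rintro ⟨_, ⟨x, hx, rfl⟩⟩
        exact ⟨⟨x, hx⟩, rfl⟩)
      exact { exact := he, mono_f := hm, epi_g := hp }
    let φ : S₁ ⟶ (ShortComplex.mk (X₁ := ModuleCat.of H (LinearMap.ker π))
      (X₂ := ModuleCat.of H (Fin n → H)) (X₃ := X) (ModuleCat.ofHom (LinearMap.ker π).subtype)
      (ModuleCat.ofHom π) hc) :=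
      { τ₁ := ModuleCat.ofHom K'.subtype
        τ₂ := ModuleCat.ofHom F'.subtype
        τ₃ := ModuleCat.ofHom X'.subtype
        comm₁₂ := rfl
        comm₂₃ := rfl }
    exact F1_kill hS₁ hS φ η hη

/-- Effaceability for finite dimensional `N`. -/
theorem eff_fd (hG : PIGood k H) (N : ModuleCat.{0} H) (hN : FD k H N) : Eff k H N 0 := by
  have hnoeth : IsNoetherianRing H := hG.noeth
  intro V hV i hi ξ
  obtain ⟨j, rfl⟩ : ∃ j, i = j + 1 := ⟨i - 1, by omega⟩
  have hVfin : Module.Finite H V := hV.moduleFinite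
  obtain ⟨n, π, hπ⟩ := Module.Finite.exists_fin' H V
  have hKfin : Module.Finite H (LinearMap.ker π) := Module.IsNoetherian.finite H _
  obtain ⟨hc, hS⟩ := F1_ses π hπ
  have hproj : Projective (ModuleCat.of H (Fin n → H)) :=
    (IsProjective.iff_projective (Fin n → H)).1 inferInstance
  obtain ⟨η, rfl⟩ := Ext.contravariant_sequence_exact₃ hS N ξ (Ext.eq_zero_of_projective _)
    (n₀ := j) (by omega)
  obtain ⟨K', hK', hη⟩ := ext_dies_on_cofinite hG N hN j (ModuleCat.of H (LinearMap.ker π)) hKfin η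
  set K'' := K'.map (LinearMap.ker π).subtype with hK''
  have hle : K'' ≤ LinearMap.ker π := by
    rintro _ ⟨x, -, rfl⟩
    exact x.2
  let p : ((Fin n → H) ⧸ K'') →ₗ[H] V := K''.liftQ π hle
  have hp : Function.Surjective p := by
    intro x
    obtain ⟨y, rfl⟩ := hπ x
    exact ⟨K''.mkQ y, rfl⟩
  have hfd : FD k H ((Fin n → H) ⧸ K'') := by
    refine FD.extension ((LinearMap.ker π).map K''.mkQ) (F1_fd π K' hK') ?_
    have h1 : LinearMap.ker p ≤ (LinearMap.ker π).map K''.mkQ := by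
      intro x hx
      obtain ⟨y, rfl⟩ := K''.mkQ_surjective x
      exact ⟨y, hx, rfl⟩
    have h2 : FD k H (((Fin n → H) ⧸ K'') ⧸ LinearMap.ker p) :=
      hV.of_injective ((LinearMap.ker p).liftQ p le_rfl)
        (LinearMap.ker_eq_bot.1 (Submodule.ker_liftQ_eq_bot _ _ _ le_rfl))
    refine h2.of_surjective ((LinearMap.ker p).liftQ
      ((LinearMap.ker π).map K''.mkQ).mkQ (by rwa [Submodule.ker_mkQ])) ?_
    intro x
    obtain ⟨y, rfl⟩ := Submodule.mkQ_surjective _ x
    exact ⟨(LinearMap.ker p).mkQ y, rfl⟩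
  refine ⟨ModuleCat.of H ((Fin n → H) ⧸ K''), ModuleCat.ofHom p, hfd, hp, ?_⟩
  let i₁ : K' →ₗ[H] (Fin n → H) := (LinearMap.ker π).subtype ∘ₗ K'.subtype
  let S₁ : ShortComplex (ModuleCat.{0} H) :=
    ShortComplex.mk (X₁ := ModuleCat.of H K') (X₂ := ModuleCat.of H (Fin n → H))
      (X₃ := ModuleCat.of H ((Fin n → H) ⧸ K'')) (ModuleCat.ofHom i₁)
      (ModuleCat.ofHom K''.mkQ) (by
      ext x
      exact (Submodule.Quotient.mk_eq_zero K'').2 ⟨x, x.2, rfl⟩)
  have hS₁ : S₁.ShortExact := by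
    have he : S₁.Exact := by
      rw [ShortComplex.ShortExact.moduleCat_exact_iff_function_exact]
      intro x
      constructor
      · intro h
        obtain ⟨y, hy, hyx⟩ := (Submodule.Quotient.mk_eq_zero K'').1 h
        exact ⟨⟨y, hy⟩, hyx⟩
      · rintro ⟨y, rfl⟩
        exact (Submodule.Quotient.mk_eq_zero K'').2 ⟨y, y.2, rfl⟩
    have hm : Mono S₁.f := (ModuleCat.mono_iff_injective _).2 (by
      intro x y hxy
      apply Subtype.ext
      apply Subtype.ext
      exact hxy)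
    have hp : Epi S₁.g := (ModuleCat.epi_iff_surjective _).2 K''.mkQ_surjective
    exact { exact := he, mono_f := hm, epi_g := hp }
  let φ : S₁ ⟶ (ShortComplex.mk (X₁ := ModuleCat.of H (LinearMap.ker π))
    (X₂ := ModuleCat.of H (Fin n → H)) (X₃ := V) (ModuleCat.ofHom (LinearMap.ker π).subtype)
    (ModuleCat.ofHom π) hc) :=
    { τ₁ := ModuleCat.ofHom K'.subtype
      τ₂ := 𝟙 _
      τ₃ := ModuleCat.ofHom p
      comm₁₂ := rfl
      comm₂₃ := by
        ext x
        rfl }
  exact F1_kill hS₁ hS φ η hη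

end WHI
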