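import Pool.Agent.Lib.MP_c14890_al.ExtDefs

set_option autoImplicit false

open scoped ModuleCat
open CategoryTheory CategoryTheory.Abelian

namespace WHI

variable {k H : Type} [Field k] [Ring H] [Algebra k H]

theorem Eff.mono {N : ModuleCat.{0} H} {e e' : ℕ} (h : Eff k H N e) (hee' : e ≤ e') :
    Eff k H N e' :=
  fun V hV i hi ξ => h V hV i (lt_of_le_of_lt hee' hi) ξ

/-- Effaceability is closed under extensions. -/
theorem Eff.extension {S : ShortComplex (ModuleCat.{0} H)} (hS : S.ShortExact) {e : ℕ}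
    (h₁ : Eff k H S.X₁ e) (h₃ : Eff k H S.X₃ e) : Eff k H S.X₂ e := by
  intro V hV i hi ξ
  obtain ⟨V₁, p₁, hV₁, hp₁, h⟩ := h₃ V hV i hi (ξ.comp (Ext.mk₀ S.g) (add_zero i))
  obtain ⟨η, hη⟩ := Ext.covariant_sequence_exact₂ V₁ hS
    ((Ext.mk₀ p₁).comp ξ (zero_add i)) (by
      rw [Ext.comp_assoc_of_third_deg_zero]
      exact h)
  obtain ⟨V₂, p₂, hV₂, hp₂, h2⟩ := h₁ V₁ hV₁ i hi η
  refine ⟨V₂, p₂ ≫ p₁, hV₂, ?_, ?_⟩
  · rw [ModuleCat.hom_comp]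
    exact hp₁.comp hp₂
  · rw [← Ext.mk₀_comp_mk₀, Ext.comp_assoc_of_second_deg_zero, ← hη,
      ← Ext.comp_assoc_of_third_deg_zero, h2, Ext.zero_comp]

/-- If `ξ ∈ Ext^i(V, N)` is killed by an injective endomorphism `c` of `N` for each `ξ`, and the
cokernel of `c` is effaceable in degrees `> e`, then `N` is effaceable in degrees `> e + 1`
(`c` may depend on `V` and `i`). -/
theorem Eff.step (N : ModuleCat.{0} H) (e : ℕ)
    (h : ∀ V : ModuleCat.{0} H, FD k H V → ∀ i : ℕ, e + 1 < i →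
      ∃ (S : ShortComplex (ModuleCat.{0} H)) (_ : S.ShortExact) (e₁ : N ≅ S.X₁),
        Eff k H S.X₃ e ∧ ∀ ξ : Ext V N i, ξ.comp (Ext.mk₀ (e₁.hom ≫ S.f)) (add_zero i) = 0) :
    Eff k H N (e + 1) := by
  intro V hV i hi ξ
  obtain ⟨S, hS, e₁, hE, h0⟩ := h V hV i hi
  obtain ⟨j, rfl⟩ : ∃ j, i = j + 1 := ⟨i - 1, by omega⟩
  have h1 := h0 ξ
  obtain ⟨η, hη⟩ := Ext.covariant_sequence_exact₁ V hS (ξ.comp (Ext.mk₀ e₁.hom) (add_zero _))
    (by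
      rw [Ext.comp_assoc_of_third_deg_zero, Ext.mk₀_comp_mk₀]
      exact h1) (n₀ := j) rfl
  obtain ⟨V', p, hV', hp, h2⟩ := hE V hV j (by omega) η
  refine ⟨V', p, hV', hp, ?_⟩
  have h3 : ξ = (ξ.comp (Ext.mk₀ e₁.hom) (add_zero _)).comp (Ext.mk₀ e₁.inv) (add_zero _) := by
    rw [Ext.comp_assoc_of_third_deg_zero, Ext.mk₀_comp_mk₀, e₁.hom_inv_id, Ext.comp_mk₀_id]
  rw [h3, ← hη]
  have h4 : (Ext.mk₀ p).comp (η.comp hS.extClass rfl) (zero_add (j + 1)) = 0 := by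
    rw [← Ext.comp_assoc (a₁₂ := j) _ _ _ (by omega) (by omega) (by omega), h2, Ext.zero_comp]
  rw [← Ext.comp_assoc_of_third_deg_zero, h4, Ext.zero_comp]

end WHI
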