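import Pool.Agent.Lib.MP_c14890_al.Defs

/-! # The growth lemma -/

set_option autoImplicit false

namespace WHI

variable {k H : Type} [Field k] [Ring H] [Algebra k H]

theorem f3_finite {V : Submodule k H} (hV : V.FG) (P : Ideal H) (n : ℕ) :
    Module.Finite k ((V ^ n).map (Submodule.mkQ (P.restrictScalars k))) :=
  Module.Finite.iff_fg.mpr ((hV.pow n).map _)

theorem f3_pow_mono {V : Submodule k H} (h1 : 1 ∈ V) {n m : ℕ} (hnm : n ≤ m) :
    V ^ n ≤ V ^ m := by
  obtain ⟨j, rfl⟩ := Nat.exists_eq_add_of_le hnm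
  clear hnm
  induction j with
  | zero => exact le_rfl
  | succ j ih =>
    refine ih.trans ?_
    intro y hy
    rw [← Nat.add_assoc, pow_succ]
    have := Submodule.mul_mem_mul hy h1
    rwa [mul_one] at this

theorem GrowthLE.mono_ideal {V : Submodule k H} (hV : V.FG) {P Q : Ideal H} (h : P ≤ Q) {e : ℕ}
    (hP : GrowthLE V P e) : GrowthLE V Q e := by
  obtain ⟨C, hC⟩ := hP
  refine ⟨C, fun n => le_trans ?_ (hC n)⟩
  have hPQ : P.restrictScalars k ≤ LinearMap.ker (Submodule.mkQ (Q.restrictScalars k)) := by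
    rw [Submodule.ker_mkQ]
    exact h
  have h2 : (V ^ n).map (Submodule.mkQ (Q.restrictScalars k)) =
      ((V ^ n).map (Submodule.mkQ (P.restrictScalars k))).map
        (Submodule.liftQ (P.restrictScalars k) (Submodule.mkQ (Q.restrictScalars k)) hPQ) := by
    rw [← Submodule.map_comp, Submodule.liftQ_mkQ]
  rw [h2]
  have := f3_finite hV P n
  exact Submodule.finrank_map_le _ _

/-- Bounded growth means finite codimension. -/
theorem GrowthLE.fd {V : Submodule k H} (hV : V.FG) (h1 : 1 ∈ V)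
    (hgen : ∀ x : H, ∃ n : ℕ, x ∈ V ^ n) {P : Ideal H} (hP : GrowthLE V P 0) :
    FD k H (H ⧸ P) := by
  obtain ⟨C, hC⟩ := hP
  set f : ℕ → ℕ := fun n =>
    Module.finrank k ((V ^ n).map (Submodule.mkQ (P.restrictScalars k))) with hf
  have hbdd : BddAbove (Set.range f) := ⟨C, by
    rintro _ ⟨n, rfl⟩
    simpa using hC n⟩
  obtain ⟨n, hn⟩ := Nat.sSup_mem (Set.range_nonempty f) hbdd
  have hmax : ∀ m, f m ≤ f n := fun m => by
    rw [hn]; exact le_csSup hbdd ⟨m, rfl⟩
  have htop : (V ^ n).map (Submodule.mkQ (P.restrictScalars k)) = ⊤ := by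
    rw [Submodule.eq_top_iff']
    intro y
    obtain ⟨x, rfl⟩ := Submodule.mkQ_surjective _ y
    obtain ⟨m, hm⟩ := hgen x
    have hle : (V ^ n).map (Submodule.mkQ (P.restrictScalars k)) ≤
        (V ^ max n m).map (Submodule.mkQ (P.restrictScalars k)) :=
      Submodule.map_mono (f3_pow_mono h1 (le_max_left _ _))
    have := f3_finite hV P (max n m)
    have heq := Submodule.eq_of_le_of_finrank_le hle (hmax (max n m))
    rw [heq]
    exact Submodule.mem_map_of_mem (f3_pow_mono h1 (le_max_right _ _) hm)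
  have hfg : ((V ^ n).map (Submodule.mkQ (P.restrictScalars k))).FG := (hV.pow n).map _
  rw [htop] at hfg
  obtain ⟨N, s, hs⟩ := Submodule.fg_iff_exists_fin_generating_family.mp hfg
  refine ⟨N, fun i => Submodule.Quotient.restrictScalarsEquiv k P (s i), fun x => ?_⟩
  obtain ⟨x', rfl⟩ := (Submodule.Quotient.restrictScalarsEquiv k P).surjective x
  have hx' : x' ∈ Submodule.span k (Set.range s) := by rw [hs]; exact Submodule.mem_top
  obtain ⟨c, hc⟩ := (Submodule.mem_span_range_iff_exists_fun k).mp hx'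
  refine ⟨c, ?_⟩
  rw [← hc, map_sum]
  apply Finset.sum_congr rfl
  intro i _
  rw [map_smul, algebraMap_smul]

theorem f3_regular {P : Ideal H} (hP : PrimeIdl P) {c : H} (hc : c ∈ Cen k P) (hcP : c ∉ P)
    {r : H} (hr : c * r ∈ P) : r ∈ P := by
  have := hP.1
  rcases hP.2.2 c r (fun h => by
    have h1 : (c * h - h * c) * r ∈ P := P.mul_mem_right r (hc h)
    have h2 : h * (c * r) ∈ P := P.mul_mem_left h hr
    have h3 := P.add_mem h1 h2
    have h4 : (c * h - h * c) * r + h * (c * r) = c * h * r := by noncomm_ring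
    rwa [h4] at h3) with h | h
  · exact absurd h hcP
  · exact h

/-- The growth drops modulo a central non zero divisor. -/
theorem growth_step {V : Submodule k H} (hV : V.FG) (h1 : 1 ∈ V)
    (hgen : ∀ x : H, ∃ n : ℕ, x ∈ V ^ n) {P : Ideal H} (hP : PrimeIdl P) {e : ℕ}
    (hg : GrowthLE V P (e + 1)) {c : H} (hc : c ∈ Cen k P) (hcP : c ∉ P)
    {Q : Ideal H} (hPQ : P ≤ Q) (hcQ : ∀ h : H, c * h ∈ Q) : GrowthLE V Q e := by
  obtain ⟨C, hC⟩ := hg
  obtain ⟨a, ha⟩ := hgen c
  refine ⟨C * (1 + a) ^ (e + 1), fun n => ?_⟩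
  set W := (V ^ n).map (Submodule.mkQ (Q.restrictScalars k)) with hW
  -- a section
  obtain ⟨σ, hσ⟩ : ∃ σ : W →ₗ[k] H, (∀ w, σ w ∈ V ^ n) ∧
      ∀ w, Submodule.mkQ (Q.restrictScalars k) (σ w) = w := by
    let p : (V ^ n : Submodule k H) →ₗ[k] W :=
      ((Submodule.mkQ (Q.restrictScalars k)).domRestrict (V ^ n)).codRestrict W
        (fun v => Submodule.mem_map_of_mem v.2)
    have hp : LinearMap.range p = ⊤ := by
      rw [LinearMap.range_eq_top]
      rintro ⟨w, v, hv, rfl⟩
      exact ⟨⟨v, hv⟩, rfl⟩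
    obtain ⟨τ, hτ⟩ := LinearMap.exists_rightInverse_of_surjective p hp
    refine ⟨(V ^ n).subtype ∘ₗ τ, fun w => (τ w).2, fun w => ?_⟩
    have := LinearMap.congr_fun hτ w
    exact congrArg Subtype.val this
  -- independence
  have key : ∀ (N : ℕ) (w : Fin N → W), (∑ j : Fin N, c ^ (j : ℕ) * σ (w j)) ∈ P → w = 0 := by
    intro N
    induction N with
    | zero => intro w _; exact Subsingleton.elim _ _
    | succ N ih =>
      intro w hw
      rw [Fin.sum_univ_succ] at hw
      simp only [Fin.val_zero, pow_zero, one_mul, Fin.val_succ, pow_succ', mul_assoc] at hw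
      rw [← Finset.mul_sum] at hw
      have h2 : w 0 = 0 := by
        apply Subtype.ext
        rw [← hσ.2 (w 0)]
        have h3 : σ (w 0) ∈ Q := by
          have h4 := Q.sub_mem (hPQ hw) (hcQ (∑ j : Fin N, c ^ (j : ℕ) * σ (w j.succ)))
          simpa using h4
        exact (Submodule.Quotient.mk_eq_zero _).mpr h3
      rw [h2, map_zero, zero_add] at hw
      have h5 := ih (fun j => w j.succ) (f3_regular hP hc hcP hw)
      funext j
      refine Fin.cases ?_ (fun j => ?_) j
      · exact h2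
      · exact congrFun h5 j
  let Φ : (Fin (n + 1) → W) →ₗ[k]
      ((V ^ (n + a * n)).map (Submodule.mkQ (P.restrictScalars k))) :=
    LinearMap.codRestrict _ ((Submodule.mkQ (P.restrictScalars k)) ∘ₗ
      (∑ j : Fin (n + 1), LinearMap.mulLeft k (c ^ (j : ℕ)) ∘ₗ σ ∘ₗ LinearMap.proj j))
      (fun w => by
        rw [LinearMap.comp_apply]
        apply Submodule.mem_map_of_mem
        rw [LinearMap.sum_apply]
        apply Submodule.sum_mem
        intro j _
        simp only [LinearMap.comp_apply, LinearMap.proj_apply, LinearMap.mulLeft_apply]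
        have h2 : c ^ (j : ℕ) ∈ V ^ (a * (j : ℕ)) := by
          rw [pow_mul]
          exact Submodule.pow_mem_pow _ ha _
        have h3 := Submodule.mul_mem_mul h2 (hσ.1 (w j))
        rw [← pow_add] at h3
        refine f3_pow_mono h1 ?_ h3
        have : (j : ℕ) ≤ n := by have := j.is_lt; omega
        have := Nat.mul_le_mul_left a this
        omega)
  have hΦ : Function.Injective Φ := by
    rw [← LinearMap.ker_eq_bot, LinearMap.ker_eq_bot']
    intro w hw
    apply key (n + 1) w
    have h2 : ((Φ w : (V ^ (n + a * n)).map (Submodule.mkQ (P.restrictScalars k))) :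
        H ⧸ P.restrictScalars k) = 0 := by rw [hw]; rfl
    have h3 : Submodule.mkQ (P.restrictScalars k)
        (∑ j : Fin (n + 1), c ^ (j : ℕ) * σ (w j)) = 0 := by
      rw [← h2]
      simp [Φ]
    exact (Submodule.Quotient.mk_eq_zero _).mp h3
  have hfinP := f3_finite hV P (n + a * n)
  have hfinQ : Module.Finite k W := f3_finite hV Q n
  have h2 := LinearMap.finrank_le_finrank_of_injective hΦ
  rw [Module.finrank_pi_fintype] at h2
  simp only [Finset.sum_const, Finset.card_univ, Fintype.card_fin, smul_eq_mul] at h2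
  have h3 := h2.trans (hC (n + a * n))
  have h4 : C * (n + a * n + 1) ^ (e + 1) ≤ C * ((1 + a) * (n + 1)) ^ (e + 1) := by
    apply Nat.mul_le_mul_left
    apply Nat.pow_le_pow_left
    nlinarith
  have h5 : (n + 1) * Module.finrank k W ≤ (n + 1) * (C * (1 + a) ^ (e + 1) * (n + 1) ^ e) := by
    calc (n + 1) * Module.finrank k W ≤ C * ((1 + a) * (n + 1)) ^ (e + 1) := h3.trans h4
      _ = (n + 1) * (C * (1 + a) ^ (e + 1) * (n + 1) ^ e) := by rw [mul_pow]; ring
  exact Nat.le_of_mul_le_mul_left h5 (Nat.succ_pos n)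

end WHI
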