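import Pool.Agent.Lib.MP_c14890_al.TorDefs
import Pool.Agent.Lib.MP_c14890_al.E1

set_option autoImplicit false

namespace WHI

variable {k H : Type} [Field k] [Ring H] [Algebra k H]

private lemma F5_smul_apply {n : ℕ} (r : k) (y : Fin n → H) : r • y = algebraMap k H r • y := by
  funext j
  simp [Algebra.smul_def]

private lemma F5_matAct_apply {a b : ℕ} (n : ℕ) (A : Matrix (Fin a) (Fin b) H)
    (y : Fin b → Fin n → H) (s : Fin a) : matAct k n A y s = ∑ t, A s t • y t := rfl

private lemma F5_mem_kerPow {X : Type} [AddCommGroup X] [Module H X] {n : ℕ}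
    (π : (Fin n → H) →ₗ[H] X) {b : ℕ} {y : Fin b → Fin n → H} :
    y ∈ kerPow k π b ↔ ∀ t, π (y t) = 0 := Iff.rfl

/-- Finite dimensional modules satisfy `TF`. -/
theorem TF.of_fd {X : Type} [AddCommGroup X] [Module H X] (hX : FD k H X) : TF k H X := by
  classical
  intro n π hπ a b A
  obtain ⟨m, v, hv⟩ := hX
  choose w hw using fun i => hπ (v i)
  set D₀ : Submodule k (Fin b → Fin n → H) :=
    Submodule.span k (Set.range fun p : Fin b × Fin m => Pi.single p.1 (w p.2)) with hD₀
  refine ⟨D₀.map (matAct k n A), ?_, ?_⟩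
  · exact (Submodule.fg_span (Set.finite_range _)).map _
  · rintro z ⟨⟨y, rfl⟩, -⟩
    rw [← Submodule.map_sup]
    apply Submodule.mem_map_of_mem
    choose c hc using fun t => hv (π (y t))
    have h1 : (∑ t, ∑ i, c t i • (Pi.single t (w i) : Fin b → Fin n → H)) ∈ D₀ :=
      Submodule.sum_mem _ fun t _ => Submodule.sum_mem _ fun i _ =>
        Submodule.smul_mem _ _ (Submodule.subset_span ⟨(t, i), rfl⟩)
    refine Submodule.mem_sup.2 ⟨_, h1, y - ∑ t, ∑ i, c t i • (Pi.single t (w i) :
      Fin b → Fin n → H), ?_, by abel⟩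
    intro t
    have h2 : (∑ t', ∑ i, c t' i • (Pi.single t' (w i) : Fin b → Fin n → H)) t =
        ∑ i, c t i • w i := by
      rw [Finset.sum_apply, Finset.sum_eq_single t]
      · rw [Finset.sum_apply]
        refine Finset.sum_congr rfl fun i _ => ?_
        rw [Pi.smul_apply, Pi.single_eq_same]
      · intro t' _ ht'
        rw [Finset.sum_apply]
        refine Finset.sum_eq_zero fun i _ => ?_
        rw [Pi.smul_apply, Pi.single_eq_of_ne ht'.symm, smul_zero]
      · intro h
        exact absurd (Finset.mem_univ t) h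
    rw [Pi.sub_apply, h2, map_sub, map_sum, hc t, sub_eq_zero]
    refine Finset.sum_congr rfl fun i _ => ?_
    rw [F5_smul_apply, map_smul, hw]

private lemma F5_noeth (hR : IsNoetherianRing Hᵐᵒᵖ) : IsNoetherian Hᵐᵒᵖ H := by
  let f : Hᵐᵒᵖ →ₗ[Hᵐᵒᵖ] H :=
    { toFun := fun x => x.unop
      map_add' := fun x y => rfl
      map_smul' := fun r x => rfl }
  have h1 : IsNoetherian Hᵐᵒᵖ Hᵐᵒᵖ := hR
  exact isNoetherian_of_surjective f
    (LinearMap.range_eq_top.2 fun x => ⟨MulOpposite.op x, rfl⟩)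

private lemma F5_fg {E E' : Type} [AddCommGroup E] [Module k E] [AddCommGroup E'] [Module k E']
    (θ : E →ₗ[k] E') (Z : Submodule k E) (D M : Submodule k E') (hD : D.FG)
    (h : ∀ z ∈ Z, θ z ∈ D ⊔ M) :
    ∃ Z₀ : Submodule k E, Z₀.FG ∧ Z₀ ≤ Z ∧ ∀ z ∈ Z, ∃ z₀ ∈ Z₀, θ (z - z₀) ∈ M := by
  classical
  set g : E →ₗ[k] E' ⧸ M := M.mkQ ∘ₗ θ with hg
  have h1 : Z.map g ≤ D.map M.mkQ := by
    rintro _ ⟨z, hz, rfl⟩
    obtain ⟨d, hd, m, hm, hdm⟩ := Submodule.mem_sup.1 (h z hz)
    refine ⟨d, hd, ?_⟩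
    rw [hg, LinearMap.comp_apply, ← hdm, map_add]
    have : M.mkQ m = 0 := by simpa using hm
    rw [this, add_zero]
  have h2 : (D.map M.mkQ).FG := hD.map _
  have : Module.Finite k (D.map M.mkQ) := Module.Finite.iff_fg.2 h2
  have h3 : (Z.map g).FG := by
    have : FiniteDimensional k (Z.map g) := Submodule.finiteDimensional_of_le h1
    exact Module.Finite.iff_fg.1 this
  obtain ⟨m, s, hs⟩ := Submodule.fg_iff_exists_fin_generating_family.1 h3
  have h4 : ∀ i, ∃ z ∈ Z, g z = s i := by
    intro i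
    have : s i ∈ Z.map g := hs ▸ Submodule.subset_span ⟨i, rfl⟩
    exact this
  choose w hwZ hw using h4
  refine ⟨Submodule.span k (Set.range w), Submodule.fg_span (Set.finite_range _), ?_, ?_⟩
  · rw [Submodule.span_le]
    rintro _ ⟨i, rfl⟩
    exact hwZ i
  · intro z hz
    have h5 : g z ∈ Submodule.span k (Set.range s) := hs ▸ Submodule.mem_map_of_mem hz
    obtain ⟨c, hc⟩ := (Submodule.mem_span_range_iff_exists_fun k).1 h5
    refine ⟨∑ i, c i • w i, Submodule.sum_mem _ fun i _ => Submodule.smul_mem _ _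
      (Submodule.subset_span ⟨i, rfl⟩), ?_⟩
    have h6 : g (z - ∑ i, c i • w i) = 0 := by
      rw [map_sub, map_sum, ← hc, sub_eq_zero]
      refine Finset.sum_congr rfl fun i _ => ?_
      rw [map_smul, hw]
    rw [hg, LinearMap.comp_apply, Submodule.mkQ_apply] at h6
    exact (Submodule.Quotient.mk_eq_zero M).1 h6

/-- `TF` passes to syzygies. -/
theorem TF.ker (hR : IsNoetherianRing Hᵐᵒᵖ) {X : Type} [AddCommGroup X] [Module H X]
    (hX : TF k H X) {n : ℕ} (π : (Fin n → H) →ₗ[H] X) (hπ : Function.Surjective π) :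
    TF k H (LinearMap.ker π) := by
  classical
  intro m π₁ hπ₁ a b A
  -- the right module of relations
  have hnoe : IsNoetherian Hᵐᵒᵖ H := F5_noeth hR
  let N' : Submodule Hᵐᵒᵖ (Fin b → H) :=
    { carrier := {y | ∀ s, ∑ t, A s t * y t = 0}
      zero_mem' := by intro s; simp
      add_mem' := by
        intro y z hy hz s
        simp only [Pi.add_apply, mul_add, Finset.sum_add_distrib]
        rw [hy s, hz s, add_zero]
      smul_mem' := by
        intro r y hy s
        have : ∑ t, A s t * (r • y) t = (∑ t, A s t * y t) * r.unop := by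
          rw [Finset.sum_mul]
          refine Finset.sum_congr rfl fun t _ => ?_
          rw [Pi.smul_apply, MulOpposite.smul_eq_mul_unop, mul_assoc]
        rw [this, hy s, zero_mul] }
  have hN'fg : N'.FG := IsNoetherian.noetherian N'
  obtain ⟨b', v, hv⟩ := Submodule.fg_iff_exists_fin_generating_family.1 hN'fg
  let A' : Matrix (Fin b) (Fin b') H := fun t r => v r t
  have hAA' : ∀ s r, ∑ t, A s t * A' t r = 0 := by
    intro s r
    have : v r ∈ N' := hv ▸ Submodule.subset_span ⟨r, rfl⟩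
    exact this s
  -- coordinatewise
  have hrel : ∀ u : Fin b → Fin n → H, matAct k n A u = 0 → ∃ f : Fin b' → Fin n → H,
      matAct k n A' f = u := by
    intro u hu
    have h1 : ∀ j, (fun t => u t j) ∈ N' := by
      intro j s
      have := congrFun (congrFun hu s) j
      rw [F5_matAct_apply] at this
      simpa [Finset.sum_apply] using this
    have h2 : ∀ j, ∃ c : Fin b' → Hᵐᵒᵖ, ∑ i, c i • v i = fun t => u t j := fun j =>
      (Submodule.mem_span_range_iff_exists_fun Hᵐᵒᵖ).1 (hv ▸ h1 j)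
    choose c hc using h2
    refine ⟨fun r j => (c j r).unop, ?_⟩
    funext t j
    rw [F5_matAct_apply]
    have := congrFun (hc j) t
    simp only [Finset.sum_apply, Pi.smul_apply] at this ⊢
    rw [← this]
    refine Finset.sum_congr rfl fun r _ => ?_
    rw [MulOpposite.smul_eq_mul_unop, smul_eq_mul]
  obtain ⟨D', hD', hle⟩ := hX n π hπ b b' A'
  -- the map `θ`
  let θ : (Fin b → Fin m → H) →ₗ[k] (Fin b → Fin n → H) :=
    { toFun := fun y t => (π₁ (y t) : Fin n → H)
      map_add' := by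
        intro y z
        funext t
        simp
      map_smul' := by
        intro r y
        funext t
        have h1 : (r • y) t = algebraMap k H r • y t := by
          rw [Pi.smul_apply, F5_smul_apply]
        simp only [h1, map_smul, RingHom.id_apply]
        rw [Pi.smul_apply, F5_smul_apply]
        rfl }
  have hθ : ∀ y t, θ y t = (π₁ (y t) : Fin n → H) := fun y t => rfl
  let Z : Submodule k (Fin b → Fin m → H) := (kerPow k π₁ a).comap (matAct k m A)
  have hZθ : ∀ z ∈ Z, θ z ∈ D' ⊔ (kerPow k π b').map (matAct k n A') := by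
    intro z hz
    apply hle
    constructor
    · have h1 : matAct k n A (θ z) = 0 := by
        funext s
        rw [F5_matAct_apply]
        have h2 : ((π₁ (matAct k m A z s) : LinearMap.ker π) : Fin n → H) = 0 := by
          have : π₁ (matAct k m A z s) = 0 := hz s
          rw [this]; rfl
        rw [F5_matAct_apply, map_sum] at h2
        rw [Pi.zero_apply, ← h2]
        push_cast
        refine Finset.sum_congr rfl fun t _ => ?_
        rw [map_smul, hθ]
        rfl
      obtain ⟨f, hf⟩ := hrel _ h1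
      exact ⟨f, hf⟩
    · intro t
      rw [hθ]
      exact (π₁ (z t)).2
  obtain ⟨Z₀, hZ₀, hZ₀Z, hZ⟩ := F5_fg θ Z D' _ hD' hZθ
  refine ⟨Z₀.map (matAct k m A), hZ₀.map _, ?_⟩
  rintro z ⟨⟨y, rfl⟩, hy⟩
  have hyZ : y ∈ Z := hy
  obtain ⟨z₀, hz₀, k₀, hk₀, hk₀'⟩ := hZ y hyZ
  -- lift `k₀`
  have hlift : ∀ r, ∃ f : Fin m → H, (π₁ f : Fin n → H) = k₀ r := by
    intro r
    obtain ⟨f, hf⟩ := hπ₁ ⟨k₀ r, hk₀ r⟩
    exact ⟨f, by rw [hf]⟩
  choose f hf using hlift
  have h3 : y - z₀ - matAct k m A' f ∈ kerPow k π₁ b := by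
    intro t
    apply Subtype.ext
    have h4 := congrFun hk₀' t
    rw [hθ] at h4
    rw [Pi.sub_apply, map_sub, F5_matAct_apply, map_sum]
    push_cast
    rw [← h4, F5_matAct_apply, sub_eq_zero]
    refine Finset.sum_congr rfl fun r _ => ?_
    rw [map_smul, Submodule.coe_smul, hf]
  have h5 : matAct k m A (matAct k m A' f) = 0 := by
    funext s j
    rw [F5_matAct_apply]
    simp only [F5_matAct_apply, Finset.sum_apply, Pi.smul_apply, smul_eq_mul, Pi.zero_apply,
      Finset.mul_sum]
    rw [Finset.sum_comm]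
    refine Finset.sum_eq_zero fun r _ => ?_
    have : ∑ x, A s x * (A' x r * f r j) = (∑ x, A s x * A' x r) * f r j := by
      rw [Finset.sum_mul]
      refine Finset.sum_congr rfl fun x _ => (mul_assoc _ _ _).symm
    rw [this, hAA', zero_mul]
  refine Submodule.mem_sup.2 ⟨matAct k m A z₀, Submodule.mem_map_of_mem hz₀,
    matAct k m A (y - z₀ - matAct k m A' f), Submodule.mem_map_of_mem h3, ?_⟩
  rw [map_sub, map_sub, h5]
  abel

end WHI
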