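import Pool.Agent.Lib.MP_c14890_al.TorDefs
import Pool.Agent.Lib.MP_c14890_al.E1

set_option autoImplicit false

namespace WHI

variable {k H : Type} [Field k] [Ring H] [Algebra k H]

private lemma F5c_noeth (hR : IsNoetherianRing Hᵐᵒᵖ) : IsNoetherian Hᵐᵒᵖ H := by
  let f : Hᵐᵒᵖ →ₗ[Hᵐᵒᵖ] H :=
    { toFun := fun x => x.unop
      map_add' := fun x y => rfl
      map_smul' := fun r x => rfl }
  have h1 : IsNoetherian Hᵐᵒᵖ Hᵐᵒᵖ := hR
  exact isNoetherian_of_surjective f
    (LinearMap.range_eq_top.2 fun x => ⟨MulOpposite.op x, rfl⟩)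

/-- If `P` is prime of infinite codimension and `TF` holds, `(K ∩ P F) / P K` is killed by a central
element `c ∉ P`. -/
theorem TF.exists_central (hG : PIGood k H) {X : Type} [AddCommGroup X] [Module H X]
    (hX : TF k H X) {P : Ideal H} (hP : PrimeIdl P) (hinf : ¬ FD k H (H ⧸ P))
    {n : ℕ} (π : (Fin n → H) →ₗ[H] X) (hπ : Function.Surjective π) :
    ∃ c ∈ Cen k P, c ∉ P ∧ ∀ x : Fin n → H, π x = 0 → (∀ j, x j ∈ P) →
      c • x ∈ mulSub P (LinearMap.ker π) := by
  classical
  have hnoe : IsNoetherian Hᵐᵒᵖ H := F5c_noeth hG.noethR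
  have hts : P.IsTwoSided := hP.1
  -- `P` as a right ideal
  let PR : Submodule Hᵐᵒᵖ H :=
    { carrier := P
      zero_mem' := P.zero_mem
      add_mem' := fun {a b} ha hb => P.add_mem ha hb
      smul_mem' := fun r x hx => P.mul_mem_right r.unop hx }
  obtain ⟨b, v, hv⟩ := Submodule.fg_iff_exists_fin_generating_family.1
    (IsNoetherian.noetherian PR)
  have hvP : ∀ t, v t ∈ P := by
    intro t
    have : v t ∈ PR := hv ▸ Submodule.subset_span ⟨t, rfl⟩
    exact this
  let A : Matrix (Fin 1) (Fin b) H := fun _ t => v t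
  obtain ⟨D, hD, hle⟩ := hX n π hπ 1 b A
  set K := LinearMap.ker π with hK
  set N := mulSub P K with hN
  let U : Submodule H (Fin n → H) :=
    { carrier := {x | π x = 0 ∧ ∀ j, x j ∈ P}
      zero_mem' := ⟨map_zero π, fun j => P.zero_mem⟩
      add_mem' := by
        rintro x y ⟨hx, hx'⟩ ⟨hy, hy'⟩
        exact ⟨by rw [map_add, hx, hy, add_zero], fun j => P.add_mem (hx' j) (hy' j)⟩
      smul_mem' := by
        rintro r x ⟨hx, hx'⟩
        exact ⟨by rw [map_smul, hx, smul_zero], fun j => P.mul_mem_left r (hx' j)⟩ }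
  let M' : Submodule H ((Fin n → H) ⧸ N) := U.map N.mkQ
  let q : (Fin 1 → Fin n → H) →ₗ[k] ((Fin n → H) ⧸ N) :=
    (N.mkQ.restrictScalars k) ∘ₗ (LinearMap.proj (0 : Fin 1))
  have hq : ∀ y, q y = N.mkQ (y 0) := fun y => rfl
  have h1 : M'.restrictScalars k ≤ D.map q := by
    rintro _ ⟨x, ⟨hx, hx'⟩, rfl⟩
    -- `x` comes from the matrix
    have h2 : ∀ j, ∃ c : Fin b → Hᵐᵒᵖ, ∑ i, c i • v i = x j := fun j =>
      (Submodule.mem_span_range_iff_exists_fun Hᵐᵒᵖ).1 (by rw [hv]; exact hx' j)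
    choose c hc using h2
    have h3 : (fun _ : Fin 1 => x) ∈ LinearMap.range (matAct k n A) ⊓ kerPow k π 1 := by
      constructor
      · refine ⟨fun t j => (c j t).unop, ?_⟩
        funext s j
        change (∑ t, A s t • (fun j => (c j t).unop)) j = x j
        rw [← hc j, Finset.sum_apply]
        refine Finset.sum_congr rfl fun t _ => ?_
        rw [MulOpposite.smul_eq_mul_unop, Pi.smul_apply, smul_eq_mul]
      · intro t
        exact hx
    obtain ⟨d, hd, _, ⟨y, hy, rfl⟩, hdy⟩ := Submodule.mem_sup.1 (hle h3)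
    refine ⟨d, hd, ?_⟩
    have h4 : x = d 0 + matAct k n A y 0 := by
      have := congrFun hdy 0
      rw [← this]; rfl
    have h5 : matAct k n A y 0 ∈ N := by
      change ∑ t, A 0 t • y t ∈ N
      exact Submodule.sum_mem _ fun t _ => Submodule.subset_span ⟨v t, hvP t, y t, hy t, rfl⟩
    rw [hq]
    change N.mkQ (d 0) = N.mkQ x
    rw [h4, map_add]
    have h6 : N.mkQ (matAct k n A y 0) = 0 := by
      rw [Submodule.mkQ_apply]
      exact (Submodule.Quotient.mk_eq_zero N).2 h5
    rw [h6, add_zero]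
  have h7 : FD k H M' := by
    have h8 : (D.map q).FG := hD.map _
    have : Module.Finite k (D.map q) := Module.Finite.iff_fg.2 h8
    have h9 : FiniteDimensional k (M'.restrictScalars k) := Submodule.finiteDimensional_of_le h1
    have h10 : Module.Finite k M' := h9
    exact FD.of_finite
  have h11 := h7.annihilator
  have h12 : P ≤ Module.annihilator H M' := by
    intro p hp
    rw [Module.mem_annihilator]
    rintro ⟨_, ⟨x, ⟨hx, hx'⟩, rfl⟩⟩
    apply Subtype.ext
    change p • N.mkQ x = 0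
    rw [← map_smul, Submodule.mkQ_apply]
    exact (Submodule.Quotient.mk_eq_zero N).2 (Submodule.subset_span ⟨p, hp, x, hx, rfl⟩)
  have h13 : P ≠ Module.annihilator H M' := by
    intro h
    apply hinf
    rw [h]
    exact h11
  obtain ⟨c, hc, hcP, hcen⟩ := hG.central P hP (Module.annihilator H M') inferInstance
    (lt_of_le_of_ne h12 h13)
  refine ⟨c, hcen, hcP, fun x hx hx' => ?_⟩
  have h14 : c • (⟨N.mkQ x, ⟨x, ⟨hx, hx'⟩, rfl⟩⟩ : M') = 0 := Module.mem_annihilator.1 hc _
  have h15 : c • N.mkQ x = 0 := congrArg Subtype.val h14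
  rw [← map_smul, Submodule.mkQ_apply] at h15
  exact (Submodule.Quotient.mk_eq_zero N).1 h15

end WHI
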