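import Pool.Agent.Lib.MP_c14890_al.TorDefs

set_option autoImplicit false

namespace WHI

variable {k H : Type} [Field k] [Ring H] [Algebra k H]

private lemma F6a_mulSub_le_comap {P : Ideal H} {M M' : Type} [AddCommGroup M] [Module H M]
    [AddCommGroup M'] [Module H M'] (f : M →ₗ[H] M') (K : Submodule H M) (K' : Submodule H M')
    (h : ∀ y ∈ K, f y ∈ K') : mulSub P K ≤ (mulSub P K').comap f := by
  rw [mulSub, Submodule.span_le]
  rintro _ ⟨a, ha, y, hy, rfl⟩
  change f (a • y) ∈ mulSub P K'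
  rw [map_smul]
  exact Submodule.subset_span ⟨a, ha, f y, h y hy, rfl⟩

private lemma F6a_kills_quot (P : Ideal H) (M : Type) [AddCommGroup M] [Module H M] :
    Kills P (M ⧸ mulSub P (⊤ : Submodule H M)) := by
  intro a ha x
  obtain ⟨y, rfl⟩ := Submodule.mkQ_surjective _ x
  rw [← map_smul, Submodule.mkQ_apply]
  exact (Submodule.Quotient.mk_eq_zero _).2
    (Submodule.subset_span ⟨a, ha, y, Submodule.mem_top, rfl⟩)

private lemma F6a_map_mulSub {P : Ideal H} {M N : Type} [AddCommGroup M] [Module H M]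
    [AddCommGroup N] [Module H N] (hN : Kills P N) (K : Submodule H M) (g : K →ₗ[H] N)
    (u : M) (hu : u ∈ mulSub P K) (huK : u ∈ K) : g ⟨u, huK⟩ = 0 := by
  have h1 : ∀ u ∈ mulSub P K, ∃ huK : u ∈ K, g ⟨u, huK⟩ = 0 := by
    intro u hu
    rw [mulSub] at hu
    induction hu using Submodule.span_induction with
    | mem x hx =>
      obtain ⟨a, ha, y, hy, rfl⟩ := hx
      refine ⟨K.smul_mem _ hy, ?_⟩
      have : (⟨a • y, K.smul_mem _ hy⟩ : K) = a • ⟨y, hy⟩ := rfl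
      rw [this, map_smul]
      exact hN a ha _
    | zero => exact ⟨K.zero_mem, map_zero g⟩
    | add x y _ _ hx hy =>
      obtain ⟨hx1, hx2⟩ := hx
      obtain ⟨hy1, hy2⟩ := hy
      refine ⟨K.add_mem hx1 hy1, ?_⟩
      have : (⟨x + y, K.add_mem hx1 hy1⟩ : K) = ⟨x, hx1⟩ + ⟨y, hy1⟩ := rfl
      rw [this, map_add, hx2, hy2, add_zero]
    | smul a x _ hx =>
      obtain ⟨hx1, hx2⟩ := hx
      refine ⟨K.smul_mem _ hx1, ?_⟩
      have : (⟨a • x, K.smul_mem _ hx1⟩ : K) = a • ⟨x, hx1⟩ := rfl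
      rw [this, map_smul, hx2, smul_zero]
  exact (h1 u hu).2

/-- The extension step. -/
theorem exists_extension_of_LiftC {P : Ideal H} (hP : PrimeIdl P) {X : Type} [AddCommGroup X]
    [Module H X] {C c : H} (hC : C ∈ Cen k P) (hc : c ∈ Cen k P) (hX : LiftC P C X)
    {n : ℕ} (π : (Fin n → H) →ₗ[H] X) (hπ : Function.Surjective π)
    (hT : ∀ x : Fin n → H, π x = 0 → (∀ j, x j ∈ P) → c • x ∈ mulSub P (LinearMap.ker π))
    (N : Type) [AddCommGroup N] [Module H N] (hN : Kills P N)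
    (g : LinearMap.ker π →ₗ[H] N) :
    ∃ G : (Fin n → H) →ₗ[H] N, ∀ x : LinearMap.ker π, G x = (C * c) • g x := by
  classical
  have hts : P.IsTwoSided := hP.1
  set F := Fin n → H with hF
  let K : Submodule H F := LinearMap.ker π
  set PF : Submodule H F := mulSub P ⊤ with hPF
  set PX : Submodule H X := mulSub P ⊤ with hPX
  have hPFle : PF ≤ PX.comap π := F6a_mulSub_le_comap π ⊤ ⊤ fun _ _ => Submodule.mem_top
  let p : F ⧸ PF →ₗ[H] X ⧸ PX := PF.mapQ PX π hPFle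
  have hp : Function.Surjective p := by
    intro x
    obtain ⟨y, rfl⟩ := PX.mkQ_surjective x
    obtain ⟨z, rfl⟩ := hπ y
    exact ⟨PF.mkQ z, rfl⟩
  have hkF : Kills P (F ⧸ PF) := F6a_kills_quot P F
  obtain ⟨s, hs⟩ := hX (F ⧸ PF) (X ⧸ PX) hkF (F6a_kills_quot P X) p hp PX.mkQ
  let q : F →ₗ[H] F ⧸ PF := PF.mkQ
  let e : F →ₗ[H] F ⧸ PF := (cend k C hC (F ⧸ PF) hkF) ∘ₗ q - s ∘ₗ π
  have he : ∀ y, e y = C • q y - s (π y) := fun y => rfl
  let K' : Submodule H (F ⧸ PF) := K.map q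
  have heK : ∀ y, e y ∈ K' := by
    intro y
    have h1 : p (e y) = 0 := by
      rw [he, map_sub, map_smul, hs, sub_eq_zero]
      rfl
    obtain ⟨z, hz⟩ := PF.mkQ_surjective (e y)
    have h2 : π z ∈ PX := by
      rw [← hz] at h1
      have h3 : PX.mkQ (π z) = 0 := h1
      rw [Submodule.mkQ_apply] at h3
      exact (Submodule.Quotient.mk_eq_zero PX).1 h3
    -- `PX = π (PF)`
    have h4 : PX ≤ PF.map π := by
      rw [hPX, mulSub, Submodule.span_le]
      rintro _ ⟨a, ha, x, -, rfl⟩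
      obtain ⟨y', rfl⟩ := hπ x
      exact ⟨a • y', Submodule.subset_span ⟨a, ha, y', Submodule.mem_top, rfl⟩, map_smul π a y'⟩
    obtain ⟨w, hw, hwz⟩ := h4 h2
    refine ⟨z - w, ?_, ?_⟩
    · change π (z - w) = 0
      rw [map_sub, hwz, sub_self]
    · rw [← hz]
      change PF.mkQ (z - w) = PF.mkQ z
      have h5 : PF.mkQ w = 0 := by
        rw [Submodule.mkQ_apply]
        exact (Submodule.Quotient.mk_eq_zero PF).2 hw
      rw [map_sub, h5, sub_zero]
  -- the map `q` on `K`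
  let qK : K →ₗ[H] K' := (q ∘ₗ K.subtype).codRestrict K' fun x => ⟨x, x.2, rfl⟩
  have hqK : Function.Surjective qK := by
    rintro ⟨_, ⟨x, hx, rfl⟩⟩
    exact ⟨⟨x, hx⟩, rfl⟩
  let Φ : K →ₗ[H] N := (cend k c hc N hN) ∘ₗ g
  have hΦ : ∀ x, Φ x = c • g x := fun x => rfl
  have hPFmem : ∀ x ∈ PF, ∀ j, x j ∈ P := by
    intro x hx j
    rw [hPF, mulSub] at hx
    induction hx using Submodule.span_induction with
    | mem x hx =>
      obtain ⟨a, ha, y, -, rfl⟩ := hx
      exact P.mul_mem_right _ ha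
    | zero => exact P.zero_mem
    | add x y _ _ hx hy => exact P.add_mem hx hy
    | smul a x _ hx => exact P.mul_mem_left _ hx
  have hker : LinearMap.ker qK ≤ LinearMap.ker Φ := by
    rintro ⟨x, hx⟩ hqx
    have h1 : q x = 0 := congrArg Subtype.val (LinearMap.mem_ker.1 hqx)
    have h2 : x ∈ PF := by
      have h3 : PF.mkQ x = 0 := h1
      rw [Submodule.mkQ_apply] at h3
      exact (Submodule.Quotient.mk_eq_zero PF).1 h3
    have h3 := hT x hx (hPFmem x h2)
    rw [LinearMap.mem_ker, hΦ, ← map_smul]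
    exact F6a_map_mulSub hN K g (c • x) h3 (K.smul_mem _ hx)
  let Φ' : K' →ₗ[H] N := ((LinearMap.ker qK).liftQ Φ hker) ∘ₗ
    (qK.quotKerEquivOfSurjective hqK).symm.toLinearMap
  have hΦ' : ∀ x, Φ' (qK x) = Φ x := by
    intro x
    have h1 : (qK.quotKerEquivOfSurjective hqK).symm (qK x) = (LinearMap.ker qK).mkQ x := by
      rw [LinearEquiv.symm_apply_eq]
      rfl
    change ((LinearMap.ker qK).liftQ Φ hker) ((qK.quotKerEquivOfSurjective hqK).symm (qK x)) = _
    rw [h1]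
    exact Submodule.liftQ_apply _ _ _
  refine ⟨Φ' ∘ₗ e.codRestrict K' heK, ?_⟩
  rintro ⟨x, hx⟩
  have h1 : e.codRestrict K' heK x = qK ⟨C • x, K.smul_mem _ hx⟩ := by
    apply Subtype.ext
    change e x = q (C • x)
    rw [he, map_smul]
    have : π x = 0 := hx
    rw [this, map_zero, sub_zero]
  rw [LinearMap.comp_apply, h1, hΦ', hΦ]
  have h2 : (⟨C • x, K.smul_mem _ hx⟩ : K) = C • ⟨x, hx⟩ := rfl
  rw [h2, map_smul, ← mul_smul]
  have h3 : (C * c - c * C) • g ⟨x, hx⟩ = 0 := hN _ (hC c) _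
  rw [sub_smul, sub_eq_zero] at h3
  exact h3.symm

/-- `LiftC` passes to syzygies. -/
theorem LiftC.ker {P : Ideal H} (hP : PrimeIdl P) {X : Type} [AddCommGroup X]
    [Module H X] {C c : H} (hC : C ∈ Cen k P) (hc : c ∈ Cen k P) (hX : LiftC P C X)
    {n : ℕ} (π : (Fin n → H) →ₗ[H] X) (hπ : Function.Surjective π)
    (hT : ∀ x : Fin n → H, π x = 0 → (∀ j, x j ∈ P) → c • x ∈ mulSub P (LinearMap.ker π)) :
    LiftC P (C * c) (LinearMap.ker π) := by
  intro A B _ _ _ _ hA hB p hp g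
  obtain ⟨G, hG⟩ := exists_extension_of_LiftC hP hC hc hX π hπ hT B hB g
  obtain ⟨h, hh⟩ := Module.projective_lifting_property p G hp
  refine ⟨h ∘ₗ (LinearMap.ker π).subtype, fun x => ?_⟩
  have h1 := LinearMap.congr_fun hh (x : Fin n → H)
  rw [← hG x, ← h1]
  rfl

end WHI
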