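import Pool.Agent.Lib.MP_c14890_al.F5
import Pool.Agent.Lib.MP_c14890_al.F5c
import Pool.Agent.Lib.MP_c14890_al.F6a

set_option autoImplicit false

open scoped ModuleCat
open CategoryTheory CategoryTheory.Abelian

namespace WHI

variable {k H : Type} [Field k] [Ring H] [Algebra k H]

private lemma F6b_mul_mem {P : Ideal H} (hP : PrimeIdl P) {C c : H} (hC : C ∈ Cen k P)
    (hc : c ∈ Cen k P) : C * c ∈ Cen k P := by
  have hts : P.IsTwoSided := hP.1
  intro h
  have h1 : C * c * h - h * (C * c) = C * (c * h - h * c) + (C * h - h * C) * c := by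
    noncomm_ring
  rw [h1]
  exact P.add_mem (P.mul_mem_left _ (hc h)) (P.mul_mem_right _ (hC h))

private lemma F6b_mul_notMem {P : Ideal H} (hP : PrimeIdl P) {C c : H} (hC : C ∈ Cen k P)
    (hC' : C ∉ P) (hc' : c ∉ P) : C * c ∉ P := by
  have hts : P.IsTwoSided := hP.1
  intro h
  have h1 : ∀ r, C * r * c ∈ P := by
    intro r
    have h2 : C * r * c = r * (C * c) + (C * r - r * C) * c := by noncomm_ring
    rw [h2]
    exact P.add_mem (P.mul_mem_left _ h) (P.mul_mem_right _ (hC r))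
  rcases hP.2.2 C c h1 with h2 | h2
  · exact hC' h2
  · exact hc' h2

private theorem F6b_main (hG : PIGood k H) (P : Ideal H) (hP : PrimeIdl P)
    (hinf : ¬ FD k H (H ⧸ P)) (i : ℕ) : ∀ (X : ModuleCat.{0} H), Module.Finite H X →
    TF k H X → (∃ C ∈ Cen k P, C ∉ P ∧ LiftC P C X) →
    ∃ (c : H) (hc : c ∈ Cen k P), c ∉ P ∧ ∀ (N : ModuleCat.{0} H) (hN : Kills P N)
      (ξ : Ext X N (i + 1)),
      ξ.comp (Ext.mk₀ (ModuleCat.ofHom (cend k c hc N hN))) (add_zero (i + 1)) = 0 := by
  have hnoeth : IsNoetherianRing H := hG.noeth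
  induction i with
  | zero =>
    intro X hfin hTF hL
    obtain ⟨C, hC, hC', hL⟩ := hL
    obtain ⟨n, π, hπ⟩ := Module.Finite.exists_fin' H X
    obtain ⟨c, hc, hc', hT⟩ := hTF.exists_central hG hP hinf π hπ
    refine ⟨C * c, F6b_mul_mem hP hC hc, F6b_mul_notMem hP hC hC' hc', ?_⟩
    intro N hN ξ
    let S : ShortComplex (ModuleCat.{0} H) :=
      ShortComplex.mk (X₁ := ModuleCat.of H (LinearMap.ker π)) (X₂ := ModuleCat.of H (Fin n → H))
        (X₃ := X) (ModuleCat.ofHom (LinearMap.ker π).subtype) (ModuleCat.ofHom π) (by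
        ext x
        exact x.2)
    have hS : S.ShortExact := by
      have he : S.Exact := by
        rw [ShortComplex.ShortExact.moduleCat_exact_iff_function_exact]
        exact LinearMap.exact_subtype_ker_map π
      have hm : Mono S.f := (ModuleCat.mono_iff_injective _).2 (LinearMap.ker π).subtype_injective
      have hp : Epi S.g := (ModuleCat.epi_iff_surjective _).2 hπ
      exact { exact := he, mono_f := hm, epi_g := hp }
    have hproj : Projective S.X₂ := by
      dsimp [S]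
      exact (IsProjective.iff_projective (Fin n → H)).1 inferInstance
    have h0 : (Ext.mk₀ S.g).comp ξ (zero_add 1) = 0 := Ext.eq_zero_of_projective _
    obtain ⟨x₁, hx₁⟩ := Ext.contravariant_sequence_exact₃ hS N ξ h0 (n₀ := 0) (by omega)
    obtain ⟨g, rfl⟩ := (Ext.mk₀_bijective (X := S.X₁) (Y := N)).2 x₁
    obtain ⟨G, hG'⟩ := exists_extension_of_LiftC hP hC hc hL π hπ hT N hN g.hom
    have h1 : g ≫ ModuleCat.ofHom (cend k (C * c) (F6b_mul_mem hP hC hc) N hN) =
        S.f ≫ ModuleCat.ofHom G := by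
      ext x
      exact (hG' x).symm
    rw [← hx₁, Ext.comp_assoc_of_third_deg_zero, Ext.mk₀_comp_mk₀, h1, ← Ext.mk₀_comp_mk₀,
      hS.extClass_comp_assoc]
  | succ i ih =>
    intro X hfin hTF hL
    obtain ⟨C, hC, hC', hL⟩ := hL
    obtain ⟨n, π, hπ⟩ := Module.Finite.exists_fin' H X
    obtain ⟨c, hc, hc', hT⟩ := hTF.exists_central hG hP hinf π hπ
    have hKfin : Module.Finite H (LinearMap.ker π) := Module.IsNoetherian.finite H _
    obtain ⟨c₂, hc₂, hc₂', h2⟩ := ih (ModuleCat.of H (LinearMap.ker π)) hKfin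
      (hTF.ker hG.noethR π hπ)
      ⟨C * c, F6b_mul_mem hP hC hc, F6b_mul_notMem hP hC hC' hc', LiftC.ker hP hC hc hL π hπ hT⟩
    refine ⟨c₂, hc₂, hc₂', ?_⟩
    intro N hN ξ
    let S : ShortComplex (ModuleCat.{0} H) :=
      ShortComplex.mk (X₁ := ModuleCat.of H (LinearMap.ker π)) (X₂ := ModuleCat.of H (Fin n → H))
        (X₃ := X) (ModuleCat.ofHom (LinearMap.ker π).subtype) (ModuleCat.ofHom π) (by
        ext x
        exact x.2)
    have hS : S.ShortExact := by
      have he : S.Exact := by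
        rw [ShortComplex.ShortExact.moduleCat_exact_iff_function_exact]
        exact LinearMap.exact_subtype_ker_map π
      have hm : Mono S.f := (ModuleCat.mono_iff_injective _).2 (LinearMap.ker π).subtype_injective
      have hp : Epi S.g := (ModuleCat.epi_iff_surjective _).2 hπ
      exact { exact := he, mono_f := hm, epi_g := hp }
    have hproj : Projective S.X₂ := by
      dsimp [S]
      exact (IsProjective.iff_projective (Fin n → H)).1 inferInstance
    have h0 : (Ext.mk₀ S.g).comp ξ (zero_add (i + 1 + 1)) = 0 := Ext.eq_zero_of_projective _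
    obtain ⟨x₁, hx₁⟩ := Ext.contravariant_sequence_exact₃ hS N ξ h0 (n₀ := i + 1) (by omega)
    rw [← hx₁, Ext.comp_assoc_of_third_deg_zero]
    have h3 := h2 N hN x₁
    have h4 : x₁.comp (Ext.mk₀ (ModuleCat.ofHom (cend k c₂ hc₂ N hN))) (add_zero (i + 1)) = 0 := h3
    rw [h4, Ext.comp_zero]

/-- For a finite dimensional `V` and `i ≥ 1`, all `Ext^i(V, N)` (`N` killed by a prime `P` of
infinite codimension) are killed by one `c ∉ P`, central modulo `P`. -/
theorem ext_killed_by_central (hG : PIGood k H) (P : Ideal H) (hP : PrimeIdl P)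
    (hinf : ¬ FD k H (H ⧸ P)) (V : ModuleCat.{0} H) (hV : FD k H V) (i : ℕ) (hi : 0 < i) :
    ∃ (c : H) (hc : c ∈ Cen k P), c ∉ P ∧ ∀ (N : ModuleCat.{0} H) (hN : Kills P N)
      (ξ : Ext V N i), ξ.comp (Ext.mk₀ (ModuleCat.ofHom (cend k c hc N hN))) (add_zero i) = 0 := by
  obtain ⟨j, rfl⟩ : ∃ j, i = j + 1 := ⟨i - 1, by omega⟩
  have hts : P.IsTwoSided := hP.1
  refine F6b_main hG P hP hinf j V hV.moduleFinite (TF.of_fd hV) ?_
  set J : Ideal H := P ⊔ Module.annihilator H V with hJ
  have hJts : J.IsTwoSided := by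
    refine ⟨fun {a} b ha => ?_⟩
    obtain ⟨p, hp, q, hq, rfl⟩ := Submodule.mem_sup.1 ha
    rw [add_mul]
    exact Submodule.add_mem_sup (P.mul_mem_right _ hp)
      ((Module.annihilator H V).mul_mem_right _ hq)
  have hne : P ≠ J := by
    intro h
    apply hinf
    rw [h]
    exact FD.mono_ideal le_sup_right hV.annihilator
  obtain ⟨C, hCJ, hCP, hC⟩ := hG.central P hP J hJts (lt_of_le_of_ne le_sup_left hne)
  refine ⟨C, hC, hCP, ?_⟩
  intro A B _ _ _ _ hA hB p hp g
  refine ⟨0, fun x => ?_⟩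
  obtain ⟨a, ha, b, hb, rfl⟩ := Submodule.mem_sup.1 hCJ
  rw [LinearMap.zero_apply, map_zero, add_smul, hB a ha, zero_add, ← map_smul,
    Module.mem_annihilator.1 hb x, map_zero]

end WHI
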