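import Pool.Agent.Lib.MP_c14890_al.F1
import Pool.Agent.Lib.MP_c14890_al.F2
import Pool.Agent.Lib.MP_c14890_al.F3
import Pool.Agent.Lib.MP_c14890_al.F4
import Pool.Agent.Lib.MP_c14890_al.F6b

set_option autoImplicit false

open scoped ModuleCat
open CategoryTheory CategoryTheory.Abelian

namespace WHI

variable {k H : Type} [Field k] [Ring H] [Algebra k H]

private lemma F7_ext {N : ModuleCat.{0} H} (T : Submodule H N) {e : ℕ}
    (h₁ : Eff k H (ModuleCat.of H T) e) (h₂ : Eff k H (ModuleCat.of H (N ⧸ T)) e) :
    Eff k H N e := by
  let S : ShortComplex (ModuleCat.{0} H) :=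
    ShortComplex.mk (X₁ := ModuleCat.of H T) (X₂ := N) (X₃ := ModuleCat.of H (N ⧸ T))
      (ModuleCat.ofHom T.subtype) (ModuleCat.ofHom T.mkQ) (by
      ext x
      exact (Submodule.Quotient.mk_eq_zero T).2 x.2)
  have hS : S.ShortExact := by
    have he : S.Exact := by
      rw [ShortComplex.ShortExact.moduleCat_exact_iff_function_exact]
      exact LinearMap.exact_subtype_mkQ T
    have hm : Mono S.f := (ModuleCat.mono_iff_injective _).2 T.subtype_injective
    have hp : Epi S.g := (ModuleCat.epi_iff_surjective _).2 T.mkQ_surjective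
    exact { exact := he, mono_f := hm, epi_g := hp }
  exact Eff.extension hS h₁ h₂

private lemma F7_kills_quot {J : Ideal H} {N : Type} [AddCommGroup N] [Module H N]
    (hN : Kills J N) (T : Submodule H N) : Kills J (N ⧸ T) := by
  intro a ha x
  obtain ⟨y, rfl⟩ := T.mkQ_surjective x
  rw [← map_smul, hN a ha, map_zero]

private lemma F7_kills_sub {J : Ideal H} {N : Type} [AddCommGroup N] [Module H N]
    (hN : Kills J N) (T : Submodule H N) : Kills J T := by
  intro a ha x
  exact Subtype.ext (hN a ha x)

private lemma F7_fd_of_subsingleton {M : Type} [AddCommGroup M] [Module H M]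
    (h : ∀ x : M, x = 0) : FD k H M :=
  ⟨0, Fin.elim0, fun x => ⟨Fin.elim0, by rw [h x]; simp⟩⟩

private theorem F7_main (hG : PIGood k H) {V : Submodule k H} (hV : V.FG) (h1 : 1 ∈ V)
    (hgen : ∀ x : H, ∃ n : ℕ, x ∈ V ^ n) (e : ℕ) : ∀ J : Ideal H, J.IsTwoSided →
    (∀ P : Ideal H, PrimeIdl P → J ≤ P → GrowthLE V P e) →
    ∀ N : ModuleCat.{0} H, Module.Finite H N → Kills J N → Eff k H N e := by
  have hnoeth : IsNoetherianRing H := hG.noeth
  have hwf : WellFoundedGT (Ideal H) := inferInstance
  induction e with
  | zero =>
    intro J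
    induction J using hwf.wf.induction with
    | _ J ih =>
    intro hJ hgr N hNfin hN
    by_cases htop : J = ⊤
    · apply eff_fd hG
      apply F7_fd_of_subsingleton
      intro x
      have := hN 1 (by rw [htop]; exact Submodule.mem_top) x
      rwa [one_smul] at this
    by_cases hprime : PrimeIdl J
    · have hfd : FD k H (H ⧸ J) := GrowthLE.fd hV h1 hgen (hgr J hprime le_rfl)
      exact eff_fd hG N (FD.of_kills J hfd hN)
    · obtain ⟨A₁, A₂, hA₁, hA₂, hlt₁, hlt₂, hprod⟩ := exists_product J hJ htop hprime
      refine F7_ext (A₂ • ⊤ : Submodule H N) ?_ ?_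
      · refine ih A₁ hlt₁ hA₁ (fun P hP hle => hgr P hP (hlt₁.le.trans hle)) _
          (Module.IsNoetherian.finite H _) ?_
        rintro a ha ⟨x, hx⟩
        apply Subtype.ext
        change a • x = 0
        refine Submodule.smul_induction_on hx ?_ ?_
        · intro b hb y _
          rw [← mul_smul]
          exact hN _ (hprod a ha b hb) y
        · intro x y hx hy
          rw [smul_add, hx, hy, add_zero]
      · refine ih A₂ hlt₂ hA₂ (fun P hP hle => hgr P hP (hlt₂.le.trans hle)) _
          (Module.IsNoetherian.finite H _) ?_
        intro a ha x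
        obtain ⟨y, rfl⟩ := Submodule.mkQ_surjective _ x
        rw [← map_smul, Submodule.mkQ_apply]
        exact (Submodule.Quotient.mk_eq_zero _).2 (Submodule.smul_mem_smul ha Submodule.mem_top)
  | succ e ihe =>
    intro J
    induction J using hwf.wf.induction with
    | _ J ih =>
    intro hJ hgr N hNfin hN
    by_cases htop : J = ⊤
    · refine Eff.mono (eff_fd hG N ?_) (Nat.zero_le _)
      apply F7_fd_of_subsingleton
      intro x
      have := hN 1 (by rw [htop]; exact Submodule.mem_top) x
      rwa [one_smul] at this
    by_cases hprime : PrimeIdl J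
    · by_cases hfd : FD k H (H ⧸ J)
      · exact Eff.mono (eff_fd hG N (FD.of_kills J hfd hN)) (Nat.zero_le _)
      · -- modules killed by `J + c H`
        have hbig : ∀ c : H, c ∈ Cen k J → c ∉ J → ∀ M : ModuleCat.{0} H, Module.Finite H M →
            Kills J M → (∀ x : M, c • x = 0) → Eff k H M e := by
          intro c hc hcJ M hMfin hM hcM
          obtain ⟨J', hJ', hlt, hcJ', hk⟩ := exists_bigger J hprime c hc hcJ
          refine ihe J' hJ' ?_ M hMfin (hk M hM hcM)
          intro P hP hle
          exact growth_step hV h1 hgen hprime (hgr J hprime le_rfl) hc hcJ (hlt.le.trans hle)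
            (fun h => hle (J'.mul_mem_right _ hcJ'))
        obtain ⟨T, c, hc, hcJ, hcT, htf⟩ := exists_torsion (k := k) J hprime N hN
        refine F7_ext T ?_ ?_
        · refine Eff.mono (hbig c hc hcJ (ModuleCat.of H T) (Module.IsNoetherian.finite H _)
            (F7_kills_sub hN T) ?_) (Nat.le_succ _)
          rintro ⟨x, hx⟩
          exact Subtype.ext (hcT x hx)
        · set N' : ModuleCat.{0} H := ModuleCat.of H (N ⧸ T) with hN'
          have hN'k : Kills J N' := F7_kills_quot hN T
          have hN'fin : Module.Finite H N' := inferInstanceAs (Module.Finite H (N ⧸ T))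
          refine Eff.step N' e ?_
          intro V₀ hV₀ i hi
          obtain ⟨c₁, hc₁, hc₁J, hkill⟩ := ext_killed_by_central hG J hprime hfd V₀ hV₀ i
            (by omega)
          set f := cend k c₁ hc₁ N' hN'k with hf
          have hinj : Function.Injective f := by
            rw [← LinearMap.ker_eq_bot, LinearMap.ker_eq_bot']
            intro x hx
            obtain ⟨y, rfl⟩ := T.mkQ_surjective x
            have h2 : c₁ • T.mkQ y = 0 := hx
            rw [← map_smul, Submodule.mkQ_apply] at h2
            have h3 := (Submodule.Quotient.mk_eq_zero T).1 h2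
            rw [Submodule.mkQ_apply]
            exact (Submodule.Quotient.mk_eq_zero T).2 (htf c₁ hc₁ hc₁J y h3)
          let S : ShortComplex (ModuleCat.{0} H) :=
            ShortComplex.mk (X₁ := N') (X₂ := N')
              (X₃ := ModuleCat.of H (N' ⧸ LinearMap.range f))
              (ModuleCat.ofHom f) (ModuleCat.ofHom (LinearMap.range f).mkQ) (by
              refine ModuleCat.hom_ext (LinearMap.ext fun x => ?_)
              exact (Submodule.Quotient.mk_eq_zero _).2 ⟨x, rfl⟩)
          have hS : S.ShortExact := by
            have he : S.Exact := by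
              rw [ShortComplex.ShortExact.moduleCat_exact_iff_function_exact]
              intro x
              constructor
              · intro h
                exact (Submodule.Quotient.mk_eq_zero _).1 h
              · rintro ⟨y, rfl⟩
                exact (Submodule.Quotient.mk_eq_zero _).2 ⟨y, rfl⟩
            have hm : Mono S.f := (ModuleCat.mono_iff_injective _).2 hinj
            have hp : Epi S.g := (ModuleCat.epi_iff_surjective _).2
              (Submodule.mkQ_surjective _)
            exact { exact := he, mono_f := hm, epi_g := hp }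
          refine ⟨S, hS, Iso.refl _, ?_, ?_⟩
          · refine hbig c₁ hc₁ hc₁J _ ?_ (F7_kills_quot hN'k _) ?_
            · exact inferInstanceAs (Module.Finite H (N' ⧸ LinearMap.range f))
            · intro x
              obtain ⟨y, rfl⟩ := Submodule.mkQ_surjective _ x
              rw [← map_smul, Submodule.mkQ_apply]
              exact (Submodule.Quotient.mk_eq_zero _).2 ⟨y, rfl⟩
          · intro ξ
            have h4 : (Iso.refl N').hom ≫ S.f = ModuleCat.ofHom f := Category.id_comp _
            have h5 := hkill N' hN'k ξ
            rw [← hf, ← h4] at h5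
            exact h5
    · obtain ⟨A₁, A₂, hA₁, hA₂, hlt₁, hlt₂, hprod⟩ := exists_product J hJ htop hprime
      refine F7_ext (A₂ • ⊤ : Submodule H N) ?_ ?_
      · refine ih A₁ hlt₁ hA₁ (fun P hP hle => hgr P hP (hlt₁.le.trans hle)) _
          (Module.IsNoetherian.finite H _) ?_
        rintro a ha ⟨x, hx⟩
        apply Subtype.ext
        change a • x = 0
        refine Submodule.smul_induction_on hx ?_ ?_
        · intro b hb y _
          rw [← mul_smul]
          exact hN _ (hprod a ha b hb) y
        · intro x y hx hy
          rw [smul_add, hx, hy, add_zero]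
      · refine ih A₂ hlt₂ hA₂ (fun P hP hle => hgr P hP (hlt₂.le.trans hle)) _
          (Module.IsNoetherian.finite H _) ?_
        intro a ha x
        obtain ⟨y, rfl⟩ := Submodule.mkQ_surjective _ x
        rw [← map_smul, Submodule.mkQ_apply]
        exact (Submodule.Quotient.mk_eq_zero _).2 (Submodule.smul_mem_smul ha Submodule.mem_top)

/-- `Ext^i(-, H)` is effaceable on finite dimensional modules for large `i`. -/
theorem exists_eff (hG : PIGood k H) : ∃ e : ℕ, Eff k H (ModuleCat.of H H) e := by
  obtain ⟨V, e, hV, h1, hgen, hgr⟩ := hG.growth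
  refine ⟨e, F7_main hG hV h1 hgen e ⊥ inferInstance (fun P hP _ => hgr P hP)
    (ModuleCat.of H H) (inferInstanceAs (Module.Finite H H)) ?_⟩
  intro a ha x
  rw [Submodule.mem_bot] at ha
  rw [ha, zero_smul]

end WHI
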