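import Pool.Agent.Lib.MP_c14890_al.E1

set_option autoImplicit false

namespace WHI

variable {k H : Type} [Field k] [Ring H] [Algebra k H]

/-- A nonzero finitely generated right module has a proper submodule of finite codimension which is
stable under all endomorphisms. -/
theorem exists_stable_quotient (hG : PIGood k H) (E : Type) [AddCommGroup E] [Module Hᵐᵒᵖ E]
    [Module.Finite Hᵐᵒᵖ E] [Nontrivial E] :
    ∃ E' : Submodule Hᵐᵒᵖ E, E' ≠ ⊤ ∧ FD k Hᵐᵒᵖ (E ⧸ E') ∧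
      ∀ f : E →ₗ[Hᵐᵒᵖ] E, ∀ x ∈ E', f x ∈ E' := by
  obtain ⟨E₀, hE₀⟩ := IsCoatomic.exists_coatom (Submodule Hᵐᵒᵖ E)
  have hs : IsSimpleModule Hᵐᵒᵖ (E ⧸ E₀) := isSimpleModule_iff_isCoatom.2 hE₀
  have hfd : FD k Hᵐᵒᵖ (E ⧸ E₀) := hG.simpleR _
  let 𝔫 := Module.annihilator Hᵐᵒᵖ (E ⧸ E₀)
  have hn : FD k Hᵐᵒᵖ (Hᵐᵒᵖ ⧸ 𝔫) := hfd.annihilator
  let E' : Submodule Hᵐᵒᵖ E := Submodule.span Hᵐᵒᵖ {x | ∃ a ∈ 𝔫, ∃ y : E, x = a • y}
  have hle : E' ≤ E₀ := by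
    rw [Submodule.span_le]
    rintro _ ⟨a, ha, y, rfl⟩
    have h1 : a • (E₀.mkQ y) = 0 := Module.mem_annihilator.1 ha _
    rw [← map_smul, ← LinearMap.mem_ker, Submodule.ker_mkQ] at h1
    exact h1
  refine ⟨E', fun h => hE₀.1 (top_le_iff.1 (h ▸ hle)), ?_, ?_⟩
  · have : 𝔫.IsTwoSided := inferInstance
    refine FD.of_kills 𝔫 hn ?_
    intro a ha x
    obtain ⟨y, rfl⟩ := E'.mkQ_surjective x
    rw [← map_smul, ← LinearMap.mem_ker, Submodule.ker_mkQ]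
    exact Submodule.subset_span ⟨a, ha, y, rfl⟩
  · intro f x hx
    refine Submodule.span_induction (p := fun x _ => f x ∈ E') ?_ ?_ ?_ ?_ hx
    · rintro _ ⟨a, ha, y, rfl⟩
      rw [map_smul]
      exact Submodule.subset_span ⟨a, ha, f y, rfl⟩
    · simp
    · intro x y _ _ hx hy
      rw [map_add]
      exact E'.add_mem hx hy
    · intro r x _ hx
      rw [map_smul]
      exact E'.smul_mem r hx

end WHI
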