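import Pool.Agent.Lib.MP_c14890_al.ExtDefs

/-! # Standard short exact sequences -/

set_option autoImplicit false

open CategoryTheory CategoryTheory.Abelian

namespace WHI

variable {H : Type} [Ring H]

/-- `0 → M → M' → M'/f(M) → 0`. -/
def cokSC {M M' : Type} [AddCommGroup M] [Module H M] [AddCommGroup M'] [Module H M']
    (f : M →ₗ[H] M') : ShortComplex (ModuleCat.{0} H) :=
  ShortComplex.mk (ModuleCat.ofHom f) (ModuleCat.ofHom (LinearMap.range f).mkQ) (by
    apply ModuleCat.hom_ext
    apply LinearMap.ext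
    intro x
    simp)

theorem cokSC_shortExact {M M' : Type} [AddCommGroup M] [Module H M] [AddCommGroup M']
    [Module H M'] (f : M →ₗ[H] M') (hf : Function.Injective f) : (cokSC f).ShortExact := by
  refine ModuleCat.shortComplex_shortExact _ ?_ hf (Submodule.mkQ_surjective _)
  exact LinearMap.exact_map_mkQ_range f

/-- `0 → N → M → M/N → 0`. -/
def quotSC {M : Type} [AddCommGroup M] [Module H M] (N : Submodule H M) :
    ShortComplex (ModuleCat.{0} H) :=
  ShortComplex.mk (ModuleCat.ofHom N.subtype) (ModuleCat.ofHom N.mkQ) (by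
    apply ModuleCat.hom_ext
    apply LinearMap.ext
    intro x
    simp)

theorem quotSC_shortExact {M : Type} [AddCommGroup M] [Module H M] (N : Submodule H M) :
    (quotSC N).ShortExact := by
  refine ModuleCat.shortComplex_shortExact _ ?_ N.subtype_injective N.mkQ_surjective
  exact LinearMap.exact_subtype_mkQ N

/-- `0 → ker π → M → X → 0`. -/
def kerSC {M X : Type} [AddCommGroup M] [Module H M] [AddCommGroup X] [Module H X]
    (π : M →ₗ[H] X) : ShortComplex (ModuleCat.{0} H) :=
  ShortComplex.mk (ModuleCat.ofHom (LinearMap.ker π).subtype) (ModuleCat.ofHom π) (by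
    apply ModuleCat.hom_ext
    apply LinearMap.ext
    intro x
    exact x.2)

theorem kerSC_shortExact {M X : Type} [AddCommGroup M] [Module H M] [AddCommGroup X]
    [Module H X] (π : M →ₗ[H] X) (hπ : Function.Surjective π) : (kerSC π).ShortExact := by
  refine ModuleCat.shortComplex_shortExact _ ?_ (Submodule.subtype_injective _) hπ
  exact LinearMap.exact_subtype_ker_map π

/-- Vanishing of `Ext^i(M, Y)` from the vanishing for a submodule and the quotient. -/
theorem ext_zero_of_quot {M : ModuleCat.{0} H} (N : Submodule H M) (Y : ModuleCat.{0} H) (i : ℕ)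
    (h₁ : ∀ ξ : Ext (ModuleCat.of H N) Y i, ξ = 0)
    (h₂ : ∀ ξ : Ext (ModuleCat.of H (M ⧸ N)) Y i, ξ = 0) (ξ : Ext M Y i) : ξ = 0 := by
  obtain ⟨η, hη⟩ := Ext.contravariant_sequence_exact₂ (quotSC_shortExact N) Y ξ (h₁ _)
  have : η = 0 := h₂ η
  rw [this, Ext.comp_zero] at hη
  exact hη.symm

/-- `A M` for an ideal `A`. -/
def idMul (A : Ideal H) (M : Type) [AddCommGroup M] [Module H M] : Submodule H M :=
  Submodule.span H {x | ∃ a ∈ A, ∃ y : M, x = a • y}

theorem smul_mem_idMul (A : Ideal H) (M : Type) [AddCommGroup M] [Module H M] {a : H}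
    (ha : a ∈ A) (y : M) : a • y ∈ idMul A M :=
  Submodule.subset_span ⟨a, ha, y, rfl⟩

theorem kills_quot_idMul (A : Ideal H) (M : Type) [AddCommGroup M] [Module H M] :
    Kills A (M ⧸ idMul A M) := by
  intro a ha x
  obtain ⟨y, rfl⟩ := Submodule.mkQ_surjective _ x
  rw [← map_smul, ← LinearMap.mem_ker, Submodule.ker_mkQ]
  exact smul_mem_idMul A M ha y

theorem kills_idMul (J A₁ A₂ : Ideal H) [A₁.IsTwoSided] (M : Type) [AddCommGroup M] [Module H M]
    (hM : Kills J M) (h : ∀ a ∈ A₁, ∀ b ∈ A₂, a * b ∈ J) : Kills A₁ (idMul A₂ M) := by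
  intro a ha x
  apply Subtype.ext
  change a • (x : M) = 0
  obtain ⟨x, hx⟩ := x
  change a • x = 0
  revert a
  refine Submodule.span_induction (p := fun x _ => ∀ a ∈ A₁, a • x = 0) ?_ ?_ ?_ ?_ hx
  · rintro _ ⟨b, hb, y, rfl⟩ a ha
    rw [← mul_smul]
    exact hM _ (h a ha b hb) y
  · intro a _
    exact smul_zero a
  · intro x y _ _ hx hy a ha
    rw [smul_add, hx a ha, hy a ha, add_zero]
  · intro r x _ hx a ha
    rw [← mul_smul]
    exact hx _ (Ideal.mul_mem_right _ _ ha)

theorem Kills.sub {J : Ideal H} {M : Type} [AddCommGroup M] [Module H M] (hM : Kills J M)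
    (N : Submodule H M) : Kills J N :=
  fun a ha x => Subtype.ext (hM a ha x)

theorem Kills.quot {J : Ideal H} {M : Type} [AddCommGroup M] [Module H M] (hM : Kills J M)
    (N : Submodule H M) : Kills J (M ⧸ N) := by
  intro a ha x
  obtain ⟨y, rfl⟩ := Submodule.mkQ_surjective _ x
  rw [← map_smul, hM a ha y, map_zero]

theorem kills_top {M : Type} [AddCommGroup M] [Module H M] (hM : Kills (⊤ : Ideal H) M) (x : M) :
    x = 0 := by
  have := hM 1 (by trivial) x
  rwa [one_smul] at this

/-- Data of multiplication by `c` on a torsion free module killed by `P`: the short exact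
sequence `0 → N → N → N/cN → 0`, whose cokernel is killed by `c` and by `P`. -/
theorem exists_cend_sc {k : Type} [Field k] [Algebra k H] {P : Ideal H} (c : H)
    (hc : c ∈ Cen k P) (N : Type) [AddCommGroup N] [Module H N] (hN : Kills P N)
    [Module.Finite H N] (hinj : ∀ x : N, c • x = 0 → x = 0) :
    ∃ (C : ModuleCat.{0} H) (g : ModuleCat.of H N ⟶ C)
      (w : ModuleCat.ofHom (cend k c hc N hN) ≫ g = 0),
      (ShortComplex.mk (ModuleCat.ofHom (cend k c hc N hN)) g w).ShortExact ∧
      Module.Finite H C ∧ Kills P C ∧ ∀ x : C, c • x = 0 := by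
  have hi : Function.Injective (cend k c hc N hN) := by
    rw [← LinearMap.ker_eq_bot, LinearMap.ker_eq_bot']
    exact hinj
  refine ⟨_, _, _, cokSC_shortExact _ hi, ?_, ?_, ?_⟩
  · change Module.Finite H (N ⧸ LinearMap.range (cend k c hc N hN))
    infer_instance
  · exact hN.quot _
  · intro x
    obtain ⟨y, rfl⟩ := Submodule.mkQ_surjective (LinearMap.range (cend k c hc N hN)) x
    change c • (LinearMap.range (cend k c hc N hN)).mkQ y = 0
    rw [← map_smul, ← LinearMap.mem_ker, Submodule.ker_mkQ]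
    exact ⟨y, rfl⟩

end WHI
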