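import Pool.Agent.Lib.MP_c14890_al.ExtDefs
import Pool.Agent.Lib.MP_c14890_al.SC

set_option autoImplicit false

open scoped ModuleCat
open CategoryTheory CategoryTheory.Abelian

namespace WHI

/-- The connecting map as a map of right `H`-modules. -/
noncomputable def deltaOp {H : Type} [Ring H] {S : ShortComplex (ModuleCat.{0} H)}
    (hS : S.ShortExact) (i : ℕ) :
    Ext S.X₁ (ModuleCat.of H H) i →ₗ[Hᵐᵒᵖ] Ext S.X₃ (ModuleCat.of H H) (i + 1) where
  toFun η := hS.extClass.comp η (by omega)
  map_add' η η' := Ext.comp_add _ _ _ _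
  map_smul' r η := by
    simp only [op_smul_ext, RingHom.id_apply]
    rw [Ext.comp_assoc_of_third_deg_zero]

/-- Evaluation at finitely many elements. -/
noncomputable def evalOp {H : Type} [Ring H] (M : ModuleCat.{0} H) {n : ℕ} (v : Fin n → M) :
    Ext M (ModuleCat.of H H) 0 →ₗ[Hᵐᵒᵖ] (Fin n → H) where
  toFun ξ j := (Ext.homEquiv₀ ξ).hom (v j)
  map_add' ξ η := by
    obtain ⟨f, rfl⟩ := (Ext.mk₀_bijective (X := M) (Y := ModuleCat.of H H)).2 ξ
    obtain ⟨g, rfl⟩ := (Ext.mk₀_bijective (X := M) (Y := ModuleCat.of H H)).2 η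
    funext j
    rw [← Ext.mk₀_add]
    simp [← Ext.homEquiv₀_symm_apply]
  map_smul' r ξ := by
    obtain ⟨f, rfl⟩ := (Ext.mk₀_bijective (X := M) (Y := ModuleCat.of H H)).2 ξ
    funext j
    rw [op_smul_ext, Ext.mk₀_comp_mk₀]
    simp [← Ext.homEquiv₀_symm_apply, rmul]

theorem isNoetherian_op {H : Type} [Ring H] (hR : IsNoetherianRing Hᵐᵒᵖ) :
    IsNoetherian Hᵐᵒᵖ H := by
  let e : H ≃ₗ[Hᵐᵒᵖ] Hᵐᵒᵖ :=
    { toFun := MulOpposite.op
      invFun := MulOpposite.unop
      left_inv := fun x => rfl
      right_inv := fun x => rfl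
      map_add' := fun x y => rfl
      map_smul' := fun r x => rfl }
  exact isNoetherian_of_linearEquiv e.symm

/-- `Ext^i(M, H)` is a finitely generated right `H`-module. -/
theorem ext_finite_op {H : Type} [Ring H] (hL : IsNoetherianRing H)
    (hR : IsNoetherianRing Hᵐᵒᵖ) (i : ℕ) : ∀ (M : ModuleCat.{0} H), Module.Finite H M →
      Module.Finite Hᵐᵒᵖ (Ext M (ModuleCat.of H H) i) := by
  induction i with
  | zero =>
    intro M hM
    obtain ⟨n, v, hv⟩ := Module.Finite.exists_fin (R := H) (M := M)
    have := isNoetherian_op hR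
    have hev : Function.Injective (evalOp M v) := by
      intro ξ η h
      apply Ext.homEquiv₀.injective
      apply ModuleCat.hom_ext
      refine LinearMap.ext_on_range hv fun j => ?_
      exact congrFun h j
    exact Module.Finite.of_injective (evalOp M v) hev
  | succ i ih =>
    intro M hM
    obtain ⟨n, f, hf⟩ := Module.Finite.exists_fin' H M
    have hS := kerSC_shortExact f hf
    have hK : Module.Finite H (LinearMap.ker f) := Module.IsNoetherian.finite H _
    have h1 := ih (ModuleCat.of H (LinearMap.ker f)) hK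
    have hproj : Projective (kerSC f).X₂ :=
      (IsProjective.iff_projective (Fin n → H)).1 inferInstance
    have hs : Function.Surjective (deltaOp hS i) := fun ξ =>
      Ext.contravariant_sequence_exact₃ hS (ModuleCat.of H H) ξ
        (Ext.eq_zero_of_projective _) (n₀ := i) (by omega)
    have h2 : Module.Finite Hᵐᵒᵖ (Ext (kerSC f).X₁ (ModuleCat.of H H) i) := h1
    exact Module.Finite.of_surjective (deltaOp hS i) hs

end WHI
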