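import Pool.Agent.Lib.MP_c14890_al.G1
import Pool.Agent.Lib.MP_c14890_al.G2

set_option autoImplicit false

open scoped ModuleCat
open CategoryTheory CategoryTheory.Abelian

namespace WHI

variable {k H : Type} [Field k] [Ring H] [Algebra k H]

/-- Precomposition with an endomorphism of `M`, as a map of right `H`-modules. -/
noncomputable def precompOp (M : ModuleCat.{0} H) (i : ℕ) (f : M ⟶ M) :
    Ext M (ModuleCat.of H H) i →ₗ[Hᵐᵒᵖ] Ext M (ModuleCat.of H H) i where
  toFun ξ := (Ext.mk₀ f).comp ξ (zero_add i)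
  map_add' ξ η := Ext.comp_add _ _ _ _
  map_smul' r ξ := by
    simp only [op_smul_ext, RingHom.id_apply]
    rw [Ext.comp_assoc_of_third_deg_zero]

theorem linear_smul_ext (M : ModuleCat.{0} H) (i : ℕ) (c : k)
    (η : Ext M (ModuleCat.of H H) i) : c • η = algebraMap k Hᵐᵒᵖ c • η := by
  rw [Ext.smul_eq_comp_mk₀, op_smul_ext]
  congr 2
  apply ModuleCat.hom_ext
  apply LinearMap.ext
  intro x
  change algebraMap k H c * x = x * algebraMap k H c
  exact Algebra.commutes c x

theorem cend_smul (P : Ideal H) (M : ModuleCat.{0} H) (hM : Kills P M) (a : k) (c : H)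
    (hc : c ∈ Cen k P) (hac : a • c ∈ Cen k P) :
    ModuleCat.ofHom (cend k (a • c) hac M hM) = a • ModuleCat.ofHom (cend k c hc M hM) := by
  apply ModuleCat.hom_ext
  apply LinearMap.ext
  intro x
  change (a • c) • x = a • (c • x)
  rw [← algebraMap_smul H a (c • x), ← mul_smul, Algebra.smul_def]

theorem cend_add (P : Ideal H) (M : ModuleCat.{0} H) (hM : Kills P M) (c c' : H)
    (hc : c ∈ Cen k P) (hc' : c' ∈ Cen k P) (hcc : c + c' ∈ Cen k P) :
    ModuleCat.ofHom (cend k (c + c') hcc M hM)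
      = ModuleCat.ofHom (cend k c hc M hM) + ModuleCat.ofHom (cend k c' hc' M hM) := by
  apply ModuleCat.hom_ext
  apply LinearMap.ext
  intro x
  change (c + c') • x = c • x + c' • x
  rw [add_smul]

/-- If all `c ∉ P`, central modulo `P`, act surjectively on `Ext^i(M, H)`, this group vanishes. -/
theorem ext_zero_of_surj (hG : PIGood k H) (P : Ideal H) (hP : PrimeIdl P)
    (hinf : ¬ FD k H (H ⧸ P)) (M : ModuleCat.{0} H) (hMf : Module.Finite H M) (hM : Kills P M)
    (i : ℕ)
    (hs : ∀ (c : H) (hc : c ∈ Cen k P), c ∉ P → ∀ ξ : Ext M (ModuleCat.of H H) i,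
      ∃ η : Ext M (ModuleCat.of H H) i,
        (Ext.mk₀ (ModuleCat.ofHom (cend k c hc M hM))).comp η (zero_add i) = ξ)
    (ξ : Ext M (ModuleCat.of H H) i) : ξ = 0 := by
  by_contra hξ
  have hfin := ext_finite_op hG.noeth hG.noethR i M hMf
  have : Nontrivial (Ext M (ModuleCat.of H H) i) := ⟨ξ, 0, hξ⟩
  obtain ⟨E', hE', hfd, hst⟩ := exists_stable_quotient hG (Ext M (ModuleCat.of H H) i)
  let W := Ext M (ModuleCat.of H H) i ⧸ E'
  let _ : Module k W := Module.compHom W (algebraMap k Hᵐᵒᵖ)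
  have : IsScalarTower k Hᵐᵒᵖ W := ⟨fun a b x => by
    rw [Algebra.smul_def, mul_smul]; rfl⟩
  have : Module.Finite k W := hfd.finite
  let cst : Cen k P → (Ext M (ModuleCat.of H H) i →ₗ[Hᵐᵒᵖ] Ext M (ModuleCat.of H H) i) := fun c =>
    precompOp M i (ModuleCat.ofHom (cend k c.1 c.2 M hM))
  let ψ : Cen k P →ₗ[k] Module.End k W :=
    { toFun := fun c => (Submodule.mapQ E' E' (cst c) (hst (cst c))).restrictScalars k
      map_add' := by
        intro c c'
        apply LinearMap.ext
        intro w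
        obtain ⟨η, rfl⟩ := E'.mkQ_surjective w
        change E'.mkQ (cst (c + c') η) = E'.mkQ (cst c η) + E'.mkQ (cst c' η)
        rw [← map_add]
        congr 1
        change (Ext.mk₀ (ModuleCat.ofHom (cend k (c.1 + c'.1) (c + c').2 M hM))).comp η (zero_add i) = _
        rw [cend_add P M hM c.1 c'.1 c.2 c'.2, Ext.mk₀_add, Ext.add_comp]
        rfl
      map_smul' := by
        intro a c
        apply LinearMap.ext
        intro w
        obtain ⟨η, rfl⟩ := E'.mkQ_surjective w
        change E'.mkQ (cst (a • c) η) = algebraMap k Hᵐᵒᵖ a • E'.mkQ (cst c η)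
        rw [← map_smul]
        congr 1
        change (Ext.mk₀ (ModuleCat.ofHom (cend k (a • c.1) (a • c).2 M hM))).comp η (zero_add i) = _
        rw [cend_smul P M hM a c.1 c.2, Ext.mk₀_smul, Ext.smul_comp, linear_smul_ext]
        rfl }
  obtain ⟨c, hcP, hc0⟩ := hG.bigCentre P hP hinf (Module.End k W) ψ
  obtain ⟨η, -, hη⟩ := SetLike.exists_of_lt (lt_top_iff_ne_top.2 hE')
  obtain ⟨η', hη'⟩ := hs c.1 c.2 hcP η
  apply hη
  have h1 : ψ c (E'.mkQ η') = 0 := by rw [hc0]; rfl
  have h2 : E'.mkQ η = 0 := by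
    rw [← h1, ← hη']
    rfl
  rwa [← LinearMap.mem_ker, Submodule.ker_mkQ] at h2

end WHI
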