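import Pool.Agent.Lib.MP_c14890_al.SC
import Pool.Agent.Lib.MP_c14890_al.G3
import Pool.Agent.Lib.MP_c14890_al.F4

set_option autoImplicit false

open scoped ModuleCat
open CategoryTheory CategoryTheory.Abelian

namespace WHI

variable {k H : Type} [Field k] [Ring H] [Algebra k H]

theorem FD.of_subsingleton {M : Type} [AddCommGroup M] [Module H M] (h : ∀ x : M, x = 0) :
    FD k H M :=
  ⟨0, fun _ => 0, fun x => ⟨fun _ => 0, by simp [h x]⟩⟩

/-- Vanishing of `Ext^i(M, H)` for all finitely generated `M`, from the case of finite dimensional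
modules. -/
theorem ext_vanish_fg (hG : PIGood k H) (e : ℕ)
    (hfd : ∀ V : ModuleCat.{0} H, FD k H V → ∀ i : ℕ, e < i →
      ∀ ξ : Ext V (ModuleCat.of H H) i, ξ = 0) :
    ∀ M : ModuleCat.{0} H, Module.Finite H M → ∀ i : ℕ, e < i →
      ∀ ξ : Ext M (ModuleCat.of H H) i, ξ = 0 := by
  have hN := hG.noeth
  have claim : ∀ J : Ideal H, J.IsTwoSided → ∀ M : ModuleCat.{0} H, Module.Finite H M →
      Kills J M → ∀ i : ℕ, e < i → ∀ ξ : Ext M (ModuleCat.of H H) i, ξ = 0 := by
    intro J
    induction J using WellFoundedGT.induction with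
    | ind J ih =>
      intro hJ M hMf hM i hi ξ
      by_cases hJt : J = ⊤
      · subst hJt
        exact hfd M (FD.of_subsingleton (fun x => kills_top hM x)) i hi ξ
      by_cases hP : PrimeIdl J
      · -- the prime case
        obtain ⟨T, c, hc, hcJ, hcT, htf⟩ := exists_torsion (k := k) J hP M hM
        obtain ⟨J', hJ', hJJ', hcJ', hkill⟩ := exists_bigger (k := k) J hP c hc hcJ
        have hTf : Module.Finite H T := Module.IsNoetherian.finite H T
        refine ext_zero_of_quot T _ i
          (fun η => ih J' hJJ' hJ' (ModuleCat.of H T) hTf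
            (hkill T (hM.sub T) (fun x => Subtype.ext (hcT x x.2))) i hi η) ?_ ξ
        have hQf : Module.Finite H (M ⧸ T) := inferInstance
        by_cases hinf : FD k H (H ⧸ J)
        · exact hfd (ModuleCat.of H (M ⧸ T)) (FD.of_kills J hinf (hM.quot T)) i hi
        · refine ext_zero_of_surj hG J hP hinf (ModuleCat.of H (M ⧸ T)) hQf (hM.quot T) i ?_
          intro c' hc' hc'J ζ
          have hinj : ∀ x : M ⧸ T, c' • x = 0 → x = 0 := by
            intro x hx
            obtain ⟨y, rfl⟩ := T.mkQ_surjective x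
            rw [← map_smul, ← LinearMap.mem_ker, Submodule.ker_mkQ] at hx
            rw [← LinearMap.mem_ker, Submodule.ker_mkQ]
            exact htf c' hc' hc'J y hx
          obtain ⟨C, g, w, hS, hCf, hCk, hCc⟩ := exists_cend_sc c' hc' (M ⧸ T) (hM.quot T) hinj
          obtain ⟨J'', hJ'', hJJ'', hcJ'', hkill''⟩ := exists_bigger (k := k) J hP c' hc' hc'J
          exact Ext.contravariant_sequence_exact₁ hS (ModuleCat.of H H) ζ (n₁ := i + 1)
            (by omega) (ih J'' hJJ'' hJ'' C hCf (hkill'' C hCk hCc) (i + 1) (by omega) _)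
      · -- the non prime case
        obtain ⟨A₁, A₂, hA₁, hA₂, hJA₁, hJA₂, hprod⟩ := exists_product J hJ hJt hP
        refine ext_zero_of_quot (idMul A₂ M) _ i ?_ ?_ ξ
        · exact ih A₁ hJA₁ hA₁ (ModuleCat.of H (idMul A₂ M)) (Module.IsNoetherian.finite H _)
            (kills_idMul J A₁ A₂ M hM hprod) i hi
        · exact ih A₂ hJA₂ hA₂ (ModuleCat.of H (M ⧸ idMul A₂ M)) inferInstance
            (kills_quot_idMul A₂ M) i hi
  intro M hM i hi ξ
  refine claim ⊥ inferInstance M hM ?_ i hi ξ
  intro a ha x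
  rw [(Submodule.mem_bot H).1 ha, zero_smul]

end WHI
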