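import Mathlib

set_option autoImplicit false

open CategoryTheory CategoryTheory.Abelian

namespace WHI

theorem injective_of_cyclic {R : Type} [Ring R] (Y : ModuleCat.{0} R)
    (h : ∀ (I : Ideal R), ∀ ξ : Ext (ModuleCat.of R (R ⧸ I)) Y 1, ξ = 0) :
    Injective Y := by
  have : Module.Baer R Y := by
    intro I g
    let S : ShortComplex (ModuleCat.{0} R) :=
      ShortComplex.mk (ModuleCat.ofHom I.subtype) (ModuleCat.ofHom I.mkQ) (by
        ext x
        simp)
    have hS : S.ShortExact := by
      have he : S.Exact := by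
        rw [ShortComplex.ShortExact.moduleCat_exact_iff_function_exact]
        exact LinearMap.exact_subtype_mkQ I
      have hm : Mono S.f := (ModuleCat.mono_iff_injective _).2 I.subtype_injective
      have hp : Epi S.g := (ModuleCat.epi_iff_surjective _).2 I.mkQ_surjective
      exact { exact := he, mono_f := hm, epi_g := hp }
    obtain ⟨x₂, hx₂⟩ := Ext.contravariant_sequence_exact₁ hS Y
      (Ext.mk₀ (ModuleCat.ofHom g : ModuleCat.of R I ⟶ Y)) (n₁ := 1) (by omega) (h I _)
    obtain ⟨g', rfl⟩ := (Ext.mk₀_bijective (X := S.X₂) (Y := Y)).2 x₂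
    rw [Ext.mk₀_comp_mk₀] at hx₂
    have := (Ext.mk₀_bijective (X := S.X₁) (Y := Y)).1 hx₂
    refine ⟨g'.hom, fun x hx => ?_⟩
    have h2 := congrArg (fun f => f.hom ⟨x, hx⟩) this
    simpa [S] using h2
  have h2 := this.injective
  exact Module.injective_object_of_injective_module R Y (inj := h2)

/-- Baer's criterion and dimension shifting. -/
theorem hasInjectiveDimensionLT_of_cyclic {R : Type} [Ring R] (m : ℕ) :
    ∀ Y : ModuleCat.{0} R, (∀ (I : Ideal R) (i : ℕ), m + 1 ≤ i →
      ∀ ξ : Ext (ModuleCat.of R (R ⧸ I)) Y i, ξ = 0) →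
      HasInjectiveDimensionLT Y (m + 1) := by
  induction m with
  | zero =>
    intro Y h
    have := injective_of_cyclic Y (fun I ξ => h I 1 le_rfl ξ)
    infer_instance
  | succ m ih =>
    intro Y h
    let S : ShortComplex (ModuleCat.{0} R) := ShortComplex.mk (Injective.ι Y)
      (Limits.cokernel.π (Injective.ι Y)) (by simp)
    have hS : S.ShortExact := { exact := ShortComplex.exact_cokernel _ }
    have hJ : Injective S.X₂ := by dsimp [S]; infer_instance
    refine (hS.hasInjectiveDimensionLT_X₃_iff m hJ).1 ?_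
    apply ih
    intro I i hi ξ
    obtain ⟨x₂, hx₂⟩ := Ext.covariant_sequence_exact₃ _ hS ξ (n₁ := i + 1) rfl
      (h I (i + 1) (by omega) _)
    have : x₂ = 0 := by
      obtain ⟨j, rfl⟩ : ∃ j, i = j + 1 := ⟨i - 1, by omega⟩
      exact x₂.eq_zero_of_injective
    rw [← hx₂, this, Ext.zero_comp]

end WHI
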