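import Pool.Agent.Lib.MP_c14890_al.Defs

set_option autoImplicit false

open scoped TensorProduct

namespace WHI

variable {k H A : Type} [Field k] [Ring H] [Algebra k H] [Ring A] [Algebra k A]

/-- `a ⊗ b ↦ o b ⊗ o a`. -/
noncomputable def h1_T (o : H ≃ₗ[k] A) : H ⊗[k] H →ₗ[k] A ⊗[k] A :=
  TensorProduct.map o.toLinearMap o.toLinearMap ∘ₗ (TensorProduct.comm k H H).toLinearMap

@[simp] theorem h1_T_tmul (o : H ≃ₗ[k] A) (a b : H) : h1_T o (a ⊗ₜ[k] b) = o b ⊗ₜ[k] o a := by
  simp [h1_T]

/-- `a ⊗ (b ⊗ c) ↦ o c ⊗ (o b ⊗ o a)`. -/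
noncomputable def h1_T3 (o : H ≃ₗ[k] A) : H ⊗[k] (H ⊗[k] H) →ₗ[k] A ⊗[k] (A ⊗[k] A) :=
  (TensorProduct.assoc k A A A).toLinearMap ∘ₗ
    TensorProduct.map (h1_T o) o.toLinearMap ∘ₗ (TensorProduct.comm k H (H ⊗[k] H)).toLinearMap

@[simp] theorem h1_T3_tmul (o : H ≃ₗ[k] A) (a b c : H) : h1_T3 o (a ⊗ₜ[k] (b ⊗ₜ[k] c)) =
    o c ⊗ₜ[k] (o b ⊗ₜ[k] o a) := by
  simp [h1_T3]

theorem h1_T_mul (o : H ≃ₗ[k] A) (ho : ∀ a b, o (a * b) = o b * o a) (s t : H ⊗[k] H) :
    h1_T o (s * t) = h1_T o t * h1_T o s := by
  induction s using TensorProduct.induction_on with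
  | zero => simp
  | add s s' hs hs' => rw [add_mul, map_add, map_add, hs, hs', mul_add]
  | tmul a b =>
    induction t using TensorProduct.induction_on with
    | zero => simp
    | add t t' ht ht' => rw [mul_add, map_add, map_add, ht, ht', add_mul]
    | tmul c d =>
      simp [Algebra.TensorProduct.tmul_mul_tmul, ho]

theorem h1_T3_mul (o : H ≃ₗ[k] A) (ho : ∀ a b, o (a * b) = o b * o a)
    (s t : H ⊗[k] (H ⊗[k] H)) :
    h1_T3 o (s * t) = h1_T3 o t * h1_T3 o s := by
  induction s using TensorProduct.induction_on with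
  | zero => simp
  | add s s' hs hs' => rw [add_mul, map_add, map_add, hs, hs', mul_add]
  | tmul a b =>
    induction t using TensorProduct.induction_on with
    | zero => simp
    | add t t' ht ht' => rw [mul_add, map_add, map_add, ht, ht', add_mul]
    | tmul c d =>
      rw [Algebra.TensorProduct.tmul_mul_tmul]
      induction b using TensorProduct.induction_on with
      | zero => simp
      | add b b' hb hb' =>
        rw [add_mul, TensorProduct.tmul_add, map_add, hb, hb', TensorProduct.tmul_add, map_add,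
          mul_add]
      | tmul b b' =>
        induction d using TensorProduct.induction_on with
        | zero => simp
        | add d d' hd hd' =>
          rw [mul_add, TensorProduct.tmul_add, map_add, hd, hd', TensorProduct.tmul_add, map_add,
            add_mul]
        | tmul d d' =>
          simp [Algebra.TensorProduct.tmul_mul_tmul, ho]

theorem h1_assoc_T (o : H ≃ₗ[k] A) (s : H ⊗[k] H) (a : H) :
    TensorProduct.assoc k A A A (h1_T o s ⊗ₜ[k] o a) = h1_T3 o (a ⊗ₜ[k] s) := by
  induction s using TensorProduct.induction_on with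
  | zero => simp
  | add s s' hs hs' =>
    rw [map_add, TensorProduct.add_tmul, map_add, hs, hs', TensorProduct.tmul_add, map_add]
  | tmul c d => simp

theorem h1_tmul_T (o : H ≃ₗ[k] A) (s : H ⊗[k] H) (b : H) :
    o b ⊗ₜ[k] h1_T o s = h1_T3 o (TensorProduct.assoc k H H H (s ⊗ₜ[k] b)) := by
  induction s using TensorProduct.induction_on with
  | zero => simp
  | add s s' hs hs' =>
    rw [map_add, TensorProduct.tmul_add, hs, hs', TensorProduct.add_tmul, map_add, map_add]
  | tmul c d => simp

/-- The comultiplication of the opposite-coopposite. -/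
noncomputable def h1_Δ (o : H ≃ₗ[k] A) (W : WeakHopf k H) : A →ₗ[k] A ⊗[k] A :=
  h1_T o ∘ₗ W.Δ ∘ₗ o.symm.toLinearMap

theorem h1_Δ_op (o : H ≃ₗ[k] A) (W : WeakHopf k H) (a : H) :
    h1_Δ o W (o a) = h1_T o (W.Δ a) := by
  simp [h1_Δ]

theorem h1_rTensor (o : H ≃ₗ[k] A) (W : WeakHopf k H) (t : H ⊗[k] H) :
    TensorProduct.assoc k A A A (LinearMap.rTensor A (h1_Δ o W) (h1_T o t)) =
      h1_T3 o (LinearMap.lTensor H W.Δ t) := by
  induction t using TensorProduct.induction_on with
  | zero => simp
  | add s s' hs hs' =>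
    simp only [map_add, hs, hs']
  | tmul a b =>
    rw [h1_T_tmul, LinearMap.rTensor_tmul, h1_Δ_op, LinearMap.lTensor_tmul, h1_assoc_T]

theorem h1_lTensor (o : H ≃ₗ[k] A) (W : WeakHopf k H) (t : H ⊗[k] H) :
    LinearMap.lTensor A (h1_Δ o W) (h1_T o t) =
      h1_T3 o (TensorProduct.assoc k H H H (LinearMap.rTensor H W.Δ t)) := by
  induction t using TensorProduct.induction_on with
  | zero => simp
  | add s s' hs hs' =>
    simp only [map_add, hs, hs']
  | tmul a b =>
    rw [h1_T_tmul, LinearMap.lTensor_tmul, h1_Δ_op, LinearMap.rTensor_tmul, h1_tmul_T]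

/-- The antipode of the opposite-coopposite. -/
noncomputable def h1_S (o : H ≃ₗ[k] A) (W : WeakHopf k H) : A →ₗ[k] A :=
  o.toLinearMap ∘ₗ W.S ∘ₗ o.symm.toLinearMap

theorem h1_S_op (o : H ≃ₗ[k] A) (W : WeakHopf k H) (a : H) :
    h1_S o W (o a) = o (W.S a) := by
  simp [h1_S]

/-- The counit of the opposite-coopposite. -/
noncomputable def h1_ε (o : H ≃ₗ[k] A) (W : WeakHopf k H) : A →ₗ[k] k :=
  W.ε ∘ₗ o.symm.toLinearMap

theorem h1_ε_op (o : H ≃ₗ[k] A) (W : WeakHopf k H) (a : H) : h1_ε o W (o a) = W.ε a := by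
  simp [h1_ε]

theorem h1_anti₃_aux (o : H ≃ₗ[k] A) (ho : ∀ a b, o (a * b) = o b * o a) (W : WeakHopf k H)
    (t : H ⊗[k] H) :
    LinearMap.mul' k A (TensorProduct.map (LinearMap.mul' k A ∘ₗ
      TensorProduct.map (h1_S o W) LinearMap.id) (h1_S o W)
        (LinearMap.rTensor A (h1_Δ o W) (h1_T o t))) =
    o (LinearMap.mul' k H (TensorProduct.map W.S (LinearMap.mul' k H ∘ₗ
      TensorProduct.map LinearMap.id W.S) (LinearMap.lTensor H W.Δ t))) := by
  induction t using TensorProduct.induction_on with
  | zero => simp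
  | add s s' hs hs' => simp only [map_add, hs, hs']
  | tmul a b =>
    rw [h1_T_tmul, LinearMap.rTensor_tmul, h1_Δ_op, LinearMap.lTensor_tmul]
    generalize W.Δ b = s
    induction s using TensorProduct.induction_on with
    | zero => simp
    | add s s' hs hs' =>
      rw [map_add, TensorProduct.add_tmul, TensorProduct.tmul_add, map_add, map_add, hs, hs',
        map_add, map_add, map_add]
    | tmul c d =>
      simp [h1_S_op, mul_assoc, ho]

theorem h1_anti₃_aux2 (W : WeakHopf k H) (w : (H ⊗[k] H) ⊗[k] H) :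
    LinearMap.mul' k H (TensorProduct.map W.S (LinearMap.mul' k H ∘ₗ
      TensorProduct.map LinearMap.id W.S) (TensorProduct.assoc k H H H w)) =
    LinearMap.mul' k H (TensorProduct.map (LinearMap.mul' k H ∘ₗ
      TensorProduct.map W.S LinearMap.id) W.S w) := by
  induction w using TensorProduct.induction_on with
  | zero => simp
  | add s s' hs hs' => simp only [map_add, hs, hs']
  | tmul s c =>
    induction s using TensorProduct.induction_on with
    | zero => simp
    | add s s' hs hs' =>
      rw [TensorProduct.add_tmul, map_add, map_add, map_add, hs, hs', map_add, map_add]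
    | tmul a b => simp [mul_assoc]

theorem h1_main (o : H ≃ₗ[k] A) (ho : ∀ a b, o (a * b) = o b * o a) (ho1 : o 1 = 1)
    (W : WeakHopf k H) : Nonempty (WeakHopf k A) := by
  refine ⟨{ Δ := h1_Δ o W, ε := h1_ε o W, S := h1_S o W, coassoc := ?coassoc,
            rTensor_counit := ?rc, lTensor_counit := ?lc, Δ_mul := ?dm, Δ_one := ?d1,
            Δ_one' := ?d1', ε_mul := ?em, ε_mul' := ?em', anti₁ := ?a1, anti₂ := ?a2,
            anti₃ := ?a3 }⟩
  case coassoc =>
    intro x
    obtain ⟨x, rfl⟩ := o.surjective x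
    rw [h1_Δ_op, h1_rTensor, h1_lTensor, W.coassoc]
  case rc =>
    intro x
    obtain ⟨x, rfl⟩ := o.surjective x
    have h1 : ∀ t : H ⊗[k] H, LinearMap.rTensor A (h1_ε o W) (h1_T o t) =
        TensorProduct.map LinearMap.id o.toLinearMap
          (TensorProduct.comm k H k (LinearMap.lTensor H W.ε t)) := by
      intro t
      induction t using TensorProduct.induction_on with
      | zero => simp
      | add s s' hs hs' => simp only [map_add, hs, hs']
      | tmul a b => simp [h1_ε_op]
    rw [h1_Δ_op, h1, W.lTensor_counit]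
    simp
  case lc =>
    intro x
    obtain ⟨x, rfl⟩ := o.surjective x
    have h1 : ∀ t : H ⊗[k] H, LinearMap.lTensor A (h1_ε o W) (h1_T o t) =
        TensorProduct.map o.toLinearMap LinearMap.id
          (TensorProduct.comm k k H (LinearMap.rTensor H W.ε t)) := by
      intro t
      induction t using TensorProduct.induction_on with
      | zero => simp
      | add s s' hs hs' => simp only [map_add, hs, hs']
      | tmul a b => simp [h1_ε_op]
    rw [h1_Δ_op, h1, W.rTensor_counit]
    simp
  case dm =>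
    intro x y
    obtain ⟨x, rfl⟩ := o.surjective x
    obtain ⟨y, rfl⟩ := o.surjective y
    rw [← ho, h1_Δ_op, h1_Δ_op, h1_Δ_op, W.Δ_mul, h1_T_mul o ho]
  case d1 =>
    rw [← ho1, h1_Δ_op, h1_rTensor, h1_assoc_T, h1_tmul_T, ← h1_T3_mul o ho, ← W.Δ_one,
      ← W.coassoc]
  case d1' =>
    rw [← ho1, h1_Δ_op, h1_rTensor, h1_assoc_T, h1_tmul_T, ← h1_T3_mul o ho, ← W.Δ_one',
      ← W.coassoc]
  case em =>
    intro x y z
    obtain ⟨x, rfl⟩ := o.surjective x
    obtain ⟨y, rfl⟩ := o.surjective y
    obtain ⟨z, rfl⟩ := o.surjective z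
    have h1 : ∀ t : H ⊗[k] H, LinearMap.mul' k k (TensorProduct.map
          (h1_ε o W ∘ₗ LinearMap.mulLeft k (o x)) (h1_ε o W ∘ₗ LinearMap.mulRight k (o z))
          (h1_T o t)) =
        LinearMap.mul' k k (TensorProduct.map
          (W.ε ∘ₗ LinearMap.mulLeft k z) (W.ε ∘ₗ LinearMap.mulRight k x) t) := by
      intro t
      induction t using TensorProduct.induction_on with
      | zero => simp
      | add s s' hs hs' => simp only [map_add, hs, hs']
      | tmul a b =>
        simp only [h1_T_tmul, TensorProduct.map_tmul, LinearMap.mul'_apply, LinearMap.comp_apply,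
          LinearMap.mulLeft_apply, LinearMap.mulRight_apply]
        rw [mul_comm, ← ho, ← ho, h1_ε_op, h1_ε_op]
    rw [h1_Δ_op, h1, ← W.ε_mul, ← ho, ← ho, h1_ε_op, mul_assoc]
  case em' =>
    intro x y z
    obtain ⟨x, rfl⟩ := o.surjective x
    obtain ⟨y, rfl⟩ := o.surjective y
    obtain ⟨z, rfl⟩ := o.surjective z
    have h1 : ∀ t : H ⊗[k] H, LinearMap.mul' k k (TensorProduct.map
          (h1_ε o W ∘ₗ LinearMap.mulLeft k (o x)) (h1_ε o W ∘ₗ LinearMap.mulRight k (o z))
          (TensorProduct.comm k A A (h1_T o t))) =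
        LinearMap.mul' k k (TensorProduct.map
          (W.ε ∘ₗ LinearMap.mulLeft k z) (W.ε ∘ₗ LinearMap.mulRight k x)
          (TensorProduct.comm k H H t)) := by
      intro t
      induction t using TensorProduct.induction_on with
      | zero => simp
      | add s s' hs hs' => simp only [map_add, hs, hs']
      | tmul a b =>
        simp only [h1_T_tmul, TensorProduct.comm_tmul, TensorProduct.map_tmul,
          LinearMap.mul'_apply, LinearMap.comp_apply,
          LinearMap.mulLeft_apply, LinearMap.mulRight_apply]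
        rw [mul_comm, ← ho, ← ho, h1_ε_op, h1_ε_op]
    rw [h1_Δ_op, h1, ← W.ε_mul', ← ho, ← ho, h1_ε_op, mul_assoc]
  case a1 =>
    intro x
    obtain ⟨x, rfl⟩ := o.surjective x
    have h1 : ∀ t : H ⊗[k] H, LinearMap.mul' k A (TensorProduct.map LinearMap.id (h1_S o W)
        (h1_T o t)) = o (LinearMap.mul' k H (TensorProduct.map W.S LinearMap.id t)) := by
      intro t
      induction t using TensorProduct.induction_on with
      | zero => simp
      | add s s' hs hs' => simp only [map_add, hs, hs']
      | tmul a b => simp [h1_S_op, ho]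
    have h2 : ∀ t : H ⊗[k] H, TensorProduct.lid k A (TensorProduct.map
        (h1_ε o W ∘ₗ LinearMap.mulRight k (o x)) LinearMap.id (h1_T o t)) =
        o (TensorProduct.rid k H (TensorProduct.map LinearMap.id
          (W.ε ∘ₗ LinearMap.mulLeft k x) t)) := by
      intro t
      induction t using TensorProduct.induction_on with
      | zero => simp
      | add s s' hs hs' => simp only [map_add, hs, hs']
      | tmul a b =>
        simp only [h1_T_tmul, TensorProduct.map_tmul, TensorProduct.lid_tmul,
          TensorProduct.rid_tmul, LinearMap.comp_apply, LinearMap.mulLeft_apply,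
          LinearMap.mulRight_apply, LinearMap.id_apply, map_smul]
        rw [← ho, h1_ε_op]
    rw [← ho1, h1_Δ_op, h1_Δ_op, h1, h2, W.anti₂]
  case a2 =>
    intro x
    obtain ⟨x, rfl⟩ := o.surjective x
    have h1 : ∀ t : H ⊗[k] H, LinearMap.mul' k A (TensorProduct.map (h1_S o W) LinearMap.id
        (h1_T o t)) = o (LinearMap.mul' k H (TensorProduct.map LinearMap.id W.S t)) := by
      intro t
      induction t using TensorProduct.induction_on with
      | zero => simp
      | add s s' hs hs' => simp only [map_add, hs, hs']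
      | tmul a b => simp [h1_S_op, ho]
    have h2 : ∀ t : H ⊗[k] H, TensorProduct.rid k A (TensorProduct.map LinearMap.id
        (h1_ε o W ∘ₗ LinearMap.mulLeft k (o x)) (h1_T o t)) =
        o (TensorProduct.lid k H (TensorProduct.map
          (W.ε ∘ₗ LinearMap.mulRight k x) LinearMap.id t)) := by
      intro t
      induction t using TensorProduct.induction_on with
      | zero => simp
      | add s s' hs hs' => simp only [map_add, hs, hs']
      | tmul a b =>
        simp only [h1_T_tmul, TensorProduct.map_tmul, TensorProduct.lid_tmul,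
          TensorProduct.rid_tmul, LinearMap.comp_apply, LinearMap.mulLeft_apply,
          LinearMap.mulRight_apply, LinearMap.id_apply, map_smul]
        rw [← ho, h1_ε_op]
    rw [← ho1, h1_Δ_op, h1_Δ_op, h1, h2, W.anti₁]
  case a3 =>
    intro x
    obtain ⟨x, rfl⟩ := o.surjective x
    rw [h1_Δ_op, h1_anti₃_aux o ho, ← W.coassoc, h1_anti₃_aux2, W.anti₃, h1_S_op]

/-- The opposite-coopposite weak Hopf algebra. -/
theorem WeakHopf.opcop {k H : Type} [Field k] [Ring H] [Algebra k H] (W : WeakHopf k H) :
    Nonempty (WeakHopf k Hᵐᵒᵖ) :=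
  h1_main (MulOpposite.opLinearEquiv k) (fun _ _ => rfl) rfl W

end WHI
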