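import Pool.Agent.Lib.MP_c14890_al.D9
import Pool.Agent.Lib.MP_c14890_al.C3
import Pool.Agent.Lib.MP_c14890_al.F7
import Pool.Agent.Lib.MP_c14890_al.G4
import Pool.Agent.Lib.MP_c14890_al.G5

set_option autoImplicit false

open scoped ModuleCat
open CategoryTheory CategoryTheory.Abelian

namespace WHI

variable {k H : Type} [Field k] [Ring H] [Algebra k H]

/-- Finite injective dimension on the left. -/
theorem left_injDim (W : WeakHopf k H) (hL : IsNoetherianRing H) (hR : IsNoetherianRing Hᵐᵒᵖ)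
    (hA : Algebra.FiniteType k H) (hPI : IsPI k H) :
    ∃ n : ℕ, HasInjectiveDimensionLT (ModuleCat.of H H) n := by
  have hG := piGood hL hR hA hPI
  obtain ⟨e, he⟩ := exists_eff hG
  have h1 := ext_vanish_fg hG e (fun V hV i hi ξ => ext_fd_vanish W e he V hV i hi ξ)
  refine ⟨e + 1, hasInjectiveDimensionLT_of_cyclic e _ fun I i hi ξ => ?_⟩
  exact h1 (ModuleCat.of H (H ⧸ I)) inferInstance i hi ξ

end WHI
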