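import Pool.Agent.Lib.MP_c14890_al.H1
import Pool.Agent.Lib.MP_c14890_al.H2

set_option autoImplicit false

open scoped ModuleCat
open CategoryTheory CategoryTheory.Abelian

namespace WHI

variable {k H : Type} [Field k] [Ring H] [Algebra k H]

theorem IsPI.op (h : IsPI k H) : IsPI k Hᵐᵒᵖ := by
  obtain ⟨f, hf, hfa⟩ := h
  refine ⟨star f, fun h0 => hf (star_eq_zero.1 h0), fun a => ?_⟩
  let b : ℕ → H := fun i => (a i).unop
  have key : ∀ g : FreeAlgebra k ℕ, FreeAlgebra.lift k a (star g)
      = MulOpposite.op (FreeAlgebra.lift k b g) := by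
    intro g
    induction g using FreeAlgebra.induction with
    | grade0 r =>
      rw [FreeAlgebra.star_algebraMap, AlgHom.commutes, AlgHom.commutes]
      rfl
    | grade1 x =>
      rw [FreeAlgebra.star_ι, FreeAlgebra.lift_ι_apply, FreeAlgebra.lift_ι_apply]
      rfl
    | mul x y hx hy =>
      rw [star_mul, map_mul, map_mul, hx, hy]
      rfl
    | add x y hx hy =>
      rw [star_add, map_add, map_add, hx, hy]
      rfl
  rw [key, hfa]
  rfl

theorem finiteType_op (h : Algebra.FiniteType k H) : Algebra.FiniteType k Hᵐᵒᵖ := by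
  obtain ⟨s, hs⟩ := h.out
  refine ⟨⟨s.map MulOpposite.opEquiv.toEmbedding, ?_⟩⟩
  rw [eq_top_iff]
  intro x _
  have hx : x.unop ∈ Algebra.adjoin k (s : Set H) := by rw [hs]; trivial
  have : ∀ y : H, y ∈ Algebra.adjoin k (s : Set H) →
      MulOpposite.op y ∈ Algebra.adjoin k
        ((s.map MulOpposite.opEquiv.toEmbedding : Finset Hᵐᵒᵖ) : Set Hᵐᵒᵖ) := by
    intro y hy
    induction hy using Algebra.adjoin_induction with
    | mem z hz =>
      refine Algebra.subset_adjoin ?_
      simpa using hz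
    | algebraMap r => exact Subalgebra.algebraMap_mem _ r
    | add x y _ _ hx hy => exact Subalgebra.add_mem _ hx hy
    | mul x y _ _ hx hy => exact Subalgebra.mul_mem _ hy hx
  exact this _ hx

/-- Finite injective dimension on the right. -/
theorem right_injDim (W : WeakHopf k H) (hL : IsNoetherianRing H) (hR : IsNoetherianRing Hᵐᵒᵖ)
    (hA : Algebra.FiniteType k H) (hPI : IsPI k H) :
    ∃ n : ℕ, HasInjectiveDimensionLT (ModuleCat.of Hᵐᵒᵖ H) n := by
  obtain ⟨W'⟩ := W.opcop
  have hRR : IsNoetherianRing Hᵐᵒᵖᵐᵒᵖ := by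
    exact isNoetherianRing_of_ringEquiv H (RingEquiv.opOp H)
  obtain ⟨n, hn⟩ := left_injDim W' hR hRR (finiteType_op hA) hPI.op
  refine ⟨n, ?_⟩
  let e : Hᵐᵒᵖ ≃ₗ[Hᵐᵒᵖ] H :=
    { toFun := MulOpposite.unop
      invFun := MulOpposite.op
      left_inv := fun x => rfl
      right_inv := fun x => rfl
      map_add' := fun x y => rfl
      map_smul' := fun r x => rfl }
  exact hasInjectiveDimensionLT_of_iso e.toModuleIso n

end WHI
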