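import Pool.Agent.Lib.MP_c14890_al.ExtDefs

/-! # Elementary `Tor`: definitions -/

set_option autoImplicit false

namespace WHI

variable {k H : Type} [Field k] [Ring H] [Algebra k H]

/-- An `a × b` matrix over `H` acts on columns of elements of the free left module
`F = Fin n → H`: `(A y)_s = ∑ t, A s t • y t`. -/
def matAct (k : Type) {H : Type} [Field k] [Ring H] [Algebra k H] {a b : ℕ} (n : ℕ)
    (A : Matrix (Fin a) (Fin b) H) :
    (Fin b → Fin n → H) →ₗ[k] (Fin a → Fin n → H) where
  toFun y := fun s => ∑ t, A s t • y t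
  map_add' y z := by
    funext s
    simp [smul_add, Finset.sum_add_distrib]
  map_smul' r y := by
    funext s
    simp only [Pi.smul_apply, RingHom.id_apply, Finset.smul_sum]
    refine Finset.sum_congr rfl fun t _ => ?_
    exact smul_comm _ _ _

/-- `K^b ⊆ F^b` where `K = ker (π : F → X)`. -/
def kerPow (k : Type) {H : Type} [Field k] [Ring H] [Algebra k H] {X : Type} [AddCommGroup X]
    [Module H X] {n : ℕ} (π : (Fin n → H) →ₗ[H] X) (b : ℕ) :
    Submodule k (Fin b → Fin n → H) where
  carrier := {y | ∀ t, π (y t) = 0}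
  zero_mem' := by intro t; simp
  add_mem' := by intro y z hy hz t; simp [hy t, hz t]
  smul_mem' := by
    intro r y hy t
    have : (r • y) t = algebraMap k H r • y t := by
      funext j
      simp [Algebra.smul_def]
    rw [this, map_smul, hy t, smul_zero]

/-- `(A F^b ∩ K^a) / (A K^b)` is finite dimensional. -/
def TorFin (k : Type) {H : Type} [Field k] [Ring H] [Algebra k H] {X : Type} [AddCommGroup X]
    [Module H X] {n : ℕ} (π : (Fin n → H) →ₗ[H] X) {a b : ℕ} (A : Matrix (Fin a) (Fin b) H) :
    Prop :=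
  ∃ D : Submodule k (Fin a → Fin n → H), D.FG ∧
    LinearMap.range (matAct k n A) ⊓ kerPow k π a ≤ D ⊔ (kerPow k π b).map (matAct k n A)

/-- All `Tor_1(H^a / A H^b, X)` are finite dimensional. -/
def TF (k H : Type) [Field k] [Ring H] [Algebra k H] (X : Type) [AddCommGroup X] [Module H X] :
    Prop :=
  ∀ (n : ℕ) (π : (Fin n → H) →ₗ[H] X), Function.Surjective π →
    ∀ (a b : ℕ) (A : Matrix (Fin a) (Fin b) H), TorFin k π A

/-- `c` lifts: for every surjection `p : A → B` of modules killed by `P` and every `g : X → B`,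
`c • g` lifts to `A`. -/
def LiftC {H : Type} [Ring H] (P : Ideal H) (c : H) (X : Type) [AddCommGroup X] [Module H X] :
    Prop :=
  ∀ (A B : Type) [AddCommGroup A] [Module H A] [AddCommGroup B] [Module H B],
    Kills P A → Kills P B → ∀ p : A →ₗ[H] B, Function.Surjective p →
      ∀ g : X →ₗ[H] B, ∃ g' : X →ₗ[H] A, ∀ x, p (g' x) = c • g x

/-- `P K` for a submodule `K`. -/
def mulSub {H : Type} [Ring H] (P : Ideal H) {M : Type} [AddCommGroup M] [Module H M]
    (K : Submodule H M) : Submodule H M :=
  Submodule.span H {x | ∃ a ∈ P, ∃ y ∈ K, x = a • y}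

end WHI
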