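import Pool.Agent.Lib.MP_c14890_al.Defs

/-!
# The weak tensor product of modules over a weak Hopf algebra: definitions
-/

set_option autoImplicit false

open scoped TensorProduct

namespace WHI

variable {k H : Type} [Field k] [Ring H] [Algebra k H] (W : WeakHopf k H)
variable (X V : Type) [AddCommGroup X] [Module k X] [Module H X] [IsScalarTower k H X]
  [AddCommGroup V] [Module k V] [Module H V] [IsScalarTower k H V]

@[simp] theorem act_tmul (a b : H) (x : X) (v : V) :
    act k H X V (a ⊗ₜ[k] b) (x ⊗ₜ[k] v) = (a • x) ⊗ₜ[k] (b • v) := by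
  simp [act, Module.endTensorEndAlgHom_apply]

theorem WeakHopf.ρ_apply (h : H) : W.ρ X V h = act k H X V (W.Δ h) := rfl

theorem WeakHopf.ρ_mul (g h : H) : W.ρ X V (g * h) = W.ρ X V g * W.ρ X V h := by
  simp [WeakHopf.ρ_apply, W.Δ_mul, map_mul]

theorem WeakHopf.ρ_mul_apply (g h : H) (z : X ⊗[k] V) :
    W.ρ X V (g * h) z = W.ρ X V g (W.ρ X V h z) := by
  rw [WeakHopf.ρ_mul]; rfl

theorem WeakHopf.mem_WT_iff (z : X ⊗[k] V) : z ∈ W.WT X V ↔ W.ρ X V 1 z = z := by
  constructor
  · rintro ⟨y, rfl⟩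
    rw [← WeakHopf.ρ_mul_apply, one_mul]
  · intro h
    exact ⟨z, h⟩

theorem WeakHopf.ρ_mem_WT (h : H) (z : X ⊗[k] V) : W.ρ X V h z ∈ W.WT X V := by
  rw [WeakHopf.mem_WT_iff, ← WeakHopf.ρ_mul_apply, one_mul]

/-- The `H`-module structure on `X ⊗̄ V`: `h • z = ρ(h) z`. -/
noncomputable instance WeakHopf.instModuleWT : Module H (W.WT X V) where
  smul h z := ⟨W.ρ X V h z, W.ρ_mem_WT X V h z⟩
  one_smul z := Subtype.ext ((W.mem_WT_iff X V z).1 z.2)
  mul_smul g h z := Subtype.ext (W.ρ_mul_apply X V g h z)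
  smul_zero h := Subtype.ext (map_zero _)
  smul_add h z w := Subtype.ext (map_add _ _ _)
  add_smul g h z := Subtype.ext (by
    change W.ρ X V (g + h) z = W.ρ X V g z + W.ρ X V h z
    rw [map_add]; rfl)
  zero_smul z := Subtype.ext (by
    change W.ρ X V 0 z = 0
    rw [map_zero]; rfl)

@[simp] theorem WeakHopf.coe_smul_WT (h : H) (z : W.WT X V) :
    ((h • z : W.WT X V) : X ⊗[k] V) = W.ρ X V h z := rfl

instance WeakHopf.instIsScalarTowerWT : IsScalarTower k H (W.WT X V) where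
  smul_assoc c h z := Subtype.ext (by
    change W.ρ X V (c • h) z = c • W.ρ X V h z
    rw [map_smul]; rfl)

variable {X V}
variable {X' V' : Type} [AddCommGroup X'] [Module k X'] [Module H X'] [IsScalarTower k H X']
  [AddCommGroup V'] [Module k V'] [Module H V'] [IsScalarTower k H V']

/-- `f ⊗ g` commutes with the action of `H ⊗ H`. -/
theorem act_map (f : X →ₗ[H] X') (g : V →ₗ[H] V') (t : H ⊗[k] H) (z : X ⊗[k] V) :
    TensorProduct.map (f.restrictScalars k) (g.restrictScalars k) (act k H X V t z)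
      = act k H X' V' t (TensorProduct.map (f.restrictScalars k) (g.restrictScalars k) z) := by
  induction t with
  | zero => simp
  | add a b ha hb => simp [ha, hb]
  | tmul a b =>
    induction z with
    | zero => simp
    | add a b ha hb => simp only [map_add, ha, hb]
    | tmul x v => simp

/-- Functoriality of `X ⊗̄ V` in both variables. -/
noncomputable def WeakHopf.wtMap (f : X →ₗ[H] X') (g : V →ₗ[H] V') :
    W.WT X V →ₗ[H] W.WT X' V' where
  toFun z := ⟨TensorProduct.map (f.restrictScalars k) (g.restrictScalars k) z, by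
    rw [WeakHopf.mem_WT_iff, WeakHopf.ρ_apply, ← act_map, ← WeakHopf.ρ_apply,
      (W.mem_WT_iff X V z).1 z.2]⟩
  map_add' z w := Subtype.ext (map_add _ _ _)
  map_smul' h z := Subtype.ext (act_map f g (W.Δ h) z)

@[simp] theorem WeakHopf.coe_wtMap (f : X →ₗ[H] X') (g : V →ₗ[H] V') (z : W.WT X V) :
    ((W.wtMap f g z : W.WT X' V') : X' ⊗[k] V')
      = TensorProduct.map (f.restrictScalars k) (g.restrictScalars k) z := rfl

/-- `h ⊗ v ↦ S(h) v` -/
noncomputable def WeakHopf.actS (V : Type) [AddCommGroup V] [Module k V] [Module H V]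
    [IsScalarTower k H V] : H ⊗[k] V →ₗ[k] V :=
  TensorProduct.lift ((Algebra.lsmul k k V).toLinearMap ∘ₗ W.S)

/-- The form `x ⊗ v ↦ g(x)₁ κ(S(g(x)₂) v)`. -/
noncomputable def WeakHopf.form (g : X →ₗ[H] H) (κ : V →ₗ[k] k) : X ⊗[k] V →ₗ[k] H :=
  (TensorProduct.rid k H).toLinearMap ∘ₗ LinearMap.lTensor H κ ∘ₗ LinearMap.lTensor H (W.actS V) ∘ₗ
    (TensorProduct.assoc k H H V).toLinearMap ∘ₗ
    LinearMap.rTensor V (W.Δ ∘ₗ g.restrictScalars k)

end WHI
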